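import Mathlib

/-!
# Comparison of mixed moments of two families of random variables from characteristic functions
-/

open MeasureTheory

namespace Pool.Agent.W2helper67.YM

set_option linter.unusedSectionVars false
set_option linter.unusedVariables false

noncomputable section

section cmp

variable {Ω₁ Ω₂ ι : Type*} [MeasurableSpace Ω₁] [MeasurableSpace Ω₂] {P : Measure Ω₁}
  {Q : Measure Ω₂} [IsProbabilityMeasure P] [IsProbabilityMeasure Q] [Fintype ι] [DecidableEq ι]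

lemma integrable_bdd {Ω : Type*} [MeasurableSpace Ω] {P : Measure Ω} [IsProbabilityMeasure P]
    {f : Ω → ℝ} (hf : Measurable f) {C : ℝ} (h : ∀ ω, |f ω| ≤ C) : Integrable f P :=
  Integrable.of_bound hf.aestronglyMeasurable C
    (Filter.Eventually.of_forall fun ω => by rw [Real.norm_eq_abs]; exact h ω)

lemma abs_prod_le (s : Finset ι) (x : ι → ℝ) : |∏ i ∈ s, (1 - Real.cos (x i))| ≤ 2 ^ s.card := by
  rw [Finset.abs_prod, ← Finset.prod_const]
  refine Finset.prod_le_prod (fun i _ => abs_nonneg _) fun i _ => ?_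
  have h1 := Real.neg_one_le_cos (x i)
  have h2 := Real.cos_le_one (x i)
  rw [abs_le]; constructor <;> linarith

lemma int3 {Ω : Type*} [MeasurableSpace Ω] {P : Measure Ω} {F f g h : Ω → ℝ}
    (hf : Integrable f P) (hg : Integrable g P) (hh : Integrable h P)
    (hF : ∀ ω, F ω = f ω - 1 / 2 * g ω - 1 / 2 * h ω) :
    ∫ ω, F ω ∂P = ∫ ω, f ω ∂P - 1 / 2 * ∫ ω, g ω ∂P - 1 / 2 * ∫ ω, h ω ∂P := by
  have h1 : ∫ ω, F ω ∂P = ∫ ω, (f ω - 1 / 2 * g ω - 1 / 2 * h ω) ∂P :=
    integral_congr_ae (Filter.Eventually.of_forall hF)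
  have h2 : Integrable (fun ω => f ω - 1 / 2 * g ω) P := hf.sub (hg.const_mul _)
  rw [h1, integral_sub h2 (hh.const_mul _), integral_sub hf (hg.const_mul _),
    integral_const_mul, integral_const_mul]

lemma cmp_aux {X : ι → Ω₁ → ℝ} {Y : ι → Ω₂ → ℝ} (hX : ∀ i, Measurable (X i))
    (hY : ∀ i, Measurable (Y i)) {η : ℝ}
    (h : ∀ c : ι → ℤ, (∀ i, |c i| ≤ 1) → |∫ ω, Real.cos (∑ i, c i * X i ω) ∂P -
      ∫ ω, Real.cos (∑ i, c i * Y i ω) ∂Q| ≤ η) (s : Finset ι) :
    ∀ c : ι → ℤ, (∀ i, |c i| ≤ 1) → (∀ i ∈ s, c i = 0) →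
      |∫ ω, (∏ i ∈ s, (1 - Real.cos (X i ω))) * Real.cos (∑ i, c i * X i ω) ∂P -
        ∫ ω, (∏ i ∈ s, (1 - Real.cos (Y i ω))) * Real.cos (∑ i, c i * Y i ω) ∂Q| ≤
        2 ^ s.card * η := by
  induction s using Finset.induction_on with
  | empty =>
    intro c hc _
    simpa using h c hc
  | insert j s hj ih =>
    intro c hc hc0
    have hcj : c j = 0 := hc0 j (Finset.mem_insert_self j s)
    obtain ⟨c1, hc1⟩ : ∃ c1 : ι → ℤ, c1 = Function.update c j 1 := ⟨_, rfl⟩
    obtain ⟨c2, hc2⟩ : ∃ c2 : ι → ℤ, c2 = Function.update c j (-1) := ⟨_, rfl⟩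
    have key : ∀ x : ι → ℝ, (∏ i ∈ insert j s, (1 - Real.cos (x i))) *
        Real.cos (∑ i, c i * x i) =
        (∏ i ∈ s, (1 - Real.cos (x i))) * Real.cos (∑ i, c i * x i) -
          1 / 2 * ((∏ i ∈ s, (1 - Real.cos (x i))) * Real.cos (∑ i, c1 i * x i)) -
          1 / 2 * ((∏ i ∈ s, (1 - Real.cos (x i))) * Real.cos (∑ i, c2 i * x i)) := by
      intro x
      have e1 : ∑ i, (c1 i : ℝ) * x i = ∑ i, (c i : ℝ) * x i + x j := by
        have e2 : ∀ i, (c1 i : ℝ) * x i = (c i : ℝ) * x i + if i = j then x j else 0 := by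
          intro i
          rw [hc1]
          by_cases hi : i = j
          · subst hi; rw [Function.update_self, hcj]; simp
          · rw [Function.update_of_ne hi, if_neg hi, add_zero]
        simp only [e2, Finset.sum_add_distrib, Finset.sum_ite_eq', Finset.mem_univ, if_true]
      have e3 : ∑ i, (c2 i : ℝ) * x i = ∑ i, (c i : ℝ) * x i - x j := by
        have e2 : ∀ i, (c2 i : ℝ) * x i = (c i : ℝ) * x i - if i = j then x j else 0 := by
          intro i
          rw [hc2]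
          by_cases hi : i = j
          · subst hi; rw [Function.update_self, hcj]; simp
          · rw [Function.update_of_ne hi, if_neg hi, sub_zero]
        simp only [e2, Finset.sum_sub_distrib, Finset.sum_ite_eq', Finset.mem_univ, if_true]
      rw [Finset.prod_insert hj, e1, e3, Real.cos_add, Real.cos_sub]
      ring
    have hb : ∀ (c : ι → ℤ), ∀ x : ι → ℝ,
        |(∏ i ∈ s, (1 - Real.cos (x i))) * Real.cos (∑ i, c i * x i)| ≤ 2 ^ s.card := by
      intro c x
      rw [abs_mul]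
      calc _ ≤ 2 ^ s.card * 1 := mul_le_mul (abs_prod_le s x) (Real.abs_cos_le_one _)
            (abs_nonneg _) (by positivity)
        _ = _ := mul_one _
    have hmP : ∀ c : ι → ℤ, Measurable fun ω => (∏ i ∈ s, (1 - Real.cos (X i ω))) *
        Real.cos (∑ i, c i * X i ω) := fun c =>
      (Finset.measurable_prod s fun i _ => measurable_const.sub
        (Real.measurable_cos.comp (hX i))).mul
        (Real.measurable_cos.comp (Finset.measurable_sum _ fun i _ => (hX i).const_mul _))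
    have hmQ : ∀ c : ι → ℤ, Measurable fun ω => (∏ i ∈ s, (1 - Real.cos (Y i ω))) *
        Real.cos (∑ i, c i * Y i ω) := fun c =>
      (Finset.measurable_prod s fun i _ => measurable_const.sub
        (Real.measurable_cos.comp (hY i))).mul
        (Real.measurable_cos.comp (Finset.measurable_sum _ fun i _ => (hY i).const_mul _))
    have hiP : ∀ c : ι → ℤ, Integrable (fun ω => (∏ i ∈ s, (1 - Real.cos (X i ω))) *
        Real.cos (∑ i, c i * X i ω)) P := fun c => integrable_bdd (hmP c) fun ω => hb c _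
    have hiQ : ∀ c : ι → ℤ, Integrable (fun ω => (∏ i ∈ s, (1 - Real.cos (Y i ω))) *
        Real.cos (∑ i, c i * Y i ω)) Q := fun c => integrable_bdd (hmQ c) fun ω => hb c _
    have eP : ∫ ω, (∏ i ∈ insert j s, (1 - Real.cos (X i ω))) * Real.cos (∑ i, c i * X i ω) ∂P =
        ∫ ω, (∏ i ∈ s, (1 - Real.cos (X i ω))) * Real.cos (∑ i, c i * X i ω) ∂P -
        1 / 2 * ∫ ω, (∏ i ∈ s, (1 - Real.cos (X i ω))) * Real.cos (∑ i, c1 i * X i ω) ∂P -
        1 / 2 * ∫ ω, (∏ i ∈ s, (1 - Real.cos (X i ω))) * Real.cos (∑ i, c2 i * X i ω) ∂P :=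
      int3 (hiP c) (hiP c1) (hiP c2) fun ω => key _
    have eQ : ∫ ω, (∏ i ∈ insert j s, (1 - Real.cos (Y i ω))) * Real.cos (∑ i, c i * Y i ω) ∂Q =
        ∫ ω, (∏ i ∈ s, (1 - Real.cos (Y i ω))) * Real.cos (∑ i, c i * Y i ω) ∂Q -
        1 / 2 * ∫ ω, (∏ i ∈ s, (1 - Real.cos (Y i ω))) * Real.cos (∑ i, c1 i * Y i ω) ∂Q -
        1 / 2 * ∫ ω, (∏ i ∈ s, (1 - Real.cos (Y i ω))) * Real.cos (∑ i, c2 i * Y i ω) ∂Q :=
      int3 (hiQ c) (hiQ c1) (hiQ c2) fun ω => key _
    have b1 : ∀ i, |c1 i| ≤ 1 := fun i => by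
      rw [hc1]
      by_cases hi : i = j
      · subst hi; rw [Function.update_self]; norm_num
      · rw [Function.update_of_ne hi]; exact hc i
    have b2 : ∀ i, |c2 i| ≤ 1 := fun i => by
      rw [hc2]
      by_cases hi : i = j
      · subst hi; rw [Function.update_self]; norm_num
      · rw [Function.update_of_ne hi]; exact hc i
    have z0 : ∀ i ∈ s, c i = 0 := fun i hi => hc0 i (Finset.mem_insert_of_mem hi)
    have z1 : ∀ i ∈ s, c1 i = 0 := fun i hi => by
      have hij : i ≠ j := fun h => hj (by rw [← h]; exact hi)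
      rw [hc1, Function.update_of_ne hij]; exact z0 i hi
    have z2 : ∀ i ∈ s, c2 i = 0 := fun i hi => by
      have hij : i ≠ j := fun h => hj (by rw [← h]; exact hi)
      rw [hc2, Function.update_of_ne hij]; exact z0 i hi
    have i0 := ih c hc z0
    have i1 := ih c1 b1 z1
    have i2 := ih c2 b2 z2
    rw [eP, eQ, Finset.card_insert_of_notMem hj, pow_succ]
    rw [abs_le] at i0 i1 i2 ⊢
    constructor <;> linarith [i0.1, i0.2, i1.1, i1.2, i2.1, i2.2]

/-- comparison of the expectations of the products -/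
theorem cmp {X : ι → Ω₁ → ℝ} {Y : ι → Ω₂ → ℝ} (hX : ∀ i, Measurable (X i))
    (hY : ∀ i, Measurable (Y i)) {η : ℝ}
    (h : ∀ c : ι → ℤ, (∀ i, |c i| ≤ 1) → |∫ ω, Real.cos (∑ i, c i * X i ω) ∂P -
      ∫ ω, Real.cos (∑ i, c i * Y i ω) ∂Q| ≤ η) :
    |∫ ω, ∏ i, (1 - Real.cos (X i ω)) ∂P - ∫ ω, ∏ i, (1 - Real.cos (Y i ω)) ∂Q| ≤
        2 ^ Fintype.card ι * η := by
  have := cmp_aux hX hY h Finset.univ (fun _ => 0) (fun i => by norm_num) (fun i _ => rfl)
  simpa using this

end cmp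

lemma cos_le_quartic (y : ℝ) : Real.cos y ≤ 1 - y ^ 2 / 2 + y ^ 4 / 2 := by
  rcases le_total |y| 1 with h | h
  · have h1 := Real.cos_bound h
    have h2 : |y| ^ 4 = y ^ 4 := by
      rw [show (4 : ℕ) = 2 * 2 by norm_num, pow_mul, pow_mul, sq_abs]
    rw [h2] at h1
    have h3 := (abs_le.1 h1).2
    have h4 : 0 ≤ y ^ 4 := by positivity
    linarith
  · have h1 : 1 ≤ y ^ 2 := by
      rw [← sq_abs]; nlinarith
    have h2 := Real.cos_le_one y
    nlinarith

/-- the regularised square -/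
def ph (t x : ℝ) : ℝ := 2 / t ^ 2 * (1 - Real.cos (t * x))

lemma ph_nonneg (t x : ℝ) : 0 ≤ ph t x := by
  unfold ph
  have := Real.cos_le_one (t * x)
  exact mul_nonneg (by positivity) (by linarith)

lemma ph_le {t : ℝ} (ht : 0 < t) (x : ℝ) : ph t x ≤ x ^ 2 := by
  unfold ph
  have h := Real.one_sub_sq_div_two_le_cos (x := t * x)
  rw [div_mul_eq_mul_div, div_le_iff₀ (by positivity)]
  nlinarith

lemma le_ph {t : ℝ} (ht : 0 < t) (x : ℝ) : x ^ 2 - t ^ 2 * x ^ 4 ≤ ph t x := by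
  unfold ph
  have h := cos_le_quartic (t * x)
  rw [div_mul_eq_mul_div, le_div_iff₀ (by positivity)]
  nlinarith

variable {ι : Type*} [DecidableEq ι]

lemma prod_ph {t : ℝ} (ht : 0 < t) {M : ℝ} (hM : 0 ≤ M) {x : ι → ℝ} (s : Finset ι)
    (hx : ∀ i ∈ s, |x i| ≤ M) :
    |∏ i ∈ s, x i ^ 2 - ∏ i ∈ s, ph t (x i)| ≤ s.card * t ^ 2 * M ^ (2 * s.card + 2) ∧
      ∏ i ∈ s, x i ^ 2 ≤ M ^ (2 * s.card) := by
  induction s using Finset.induction_on with
  | empty => simp
  | insert j s hj ih =>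
    obtain ⟨h1, h2⟩ := ih fun i hi => hx i (Finset.mem_insert_of_mem hi)
    rw [Finset.prod_insert hj, Finset.prod_insert hj, Finset.card_insert_of_notMem hj]
    obtain ⟨A, hA⟩ : ∃ A, A = ∏ i ∈ s, x i ^ 2 := ⟨_, rfl⟩
    obtain ⟨B, hB⟩ : ∃ B, B = ∏ i ∈ s, ph t (x i) := ⟨_, rfl⟩
    rw [← hA, ← hB] at h1
    rw [← hA] at h2
    rw [← hA, ← hB]
    have hxj : x j ^ 2 ≤ M ^ 2 := by
      rw [← sq_abs]; exact pow_le_pow_left₀ (abs_nonneg _) (hx j (Finset.mem_insert_self j s)) 2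
    have hxj4 : x j ^ 4 ≤ M ^ 4 := by
      calc x j ^ 4 = (x j ^ 2) ^ 2 := by ring
        _ ≤ (M ^ 2) ^ 2 := pow_le_pow_left₀ (sq_nonneg _) hxj 2
        _ = _ := by ring
    have hA0 : 0 ≤ A := by rw [hA]; exact Finset.prod_nonneg fun i _ => sq_nonneg _
    have p1 := ph_nonneg t (x j)
    have p2 := ph_le ht (x j)
    have p3 := le_ph ht (x j)
    have hd : |x j ^ 2 - ph t (x j)| ≤ t ^ 2 * M ^ 4 := by
      rw [abs_le]
      have : t ^ 2 * x j ^ 4 ≤ t ^ 2 * M ^ 4 := mul_le_mul_of_nonneg_left hxj4 (by positivity)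
      have h0 : 0 ≤ t ^ 2 * M ^ 4 := by positivity
      constructor <;> linarith
    constructor
    · have e : x j ^ 2 * A - ph t (x j) * B = (x j ^ 2 - ph t (x j)) * A + ph t (x j) * (A - B) := by
        ring
      rw [e]
      refine (abs_add_le _ _).trans ?_
      rw [abs_mul, abs_mul, abs_of_nonneg hA0, abs_of_nonneg p1]
      have t1 : |x j ^ 2 - ph t (x j)| * A ≤ t ^ 2 * M ^ 4 * M ^ (2 * s.card) :=
        mul_le_mul hd h2 hA0 (by positivity)
      have t2 : ph t (x j) * |A - B| ≤ M ^ 2 * (s.card * t ^ 2 * M ^ (2 * s.card + 2)) :=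
        mul_le_mul (p2.trans hxj) h1 (abs_nonneg _) (by positivity)
      refine (add_le_add t1 t2).trans (le_of_eq ?_)
      push_cast
      have e1 : 2 * (s.card + 1) + 2 = 2 * s.card + 4 := by ring
      rw [e1, pow_add M (2 * s.card) 4, pow_add M (2 * s.card) 2]
      ring
    · have e1 : 2 * (s.card + 1) = 2 + 2 * s.card := by ring
      rw [e1, pow_add]
      exact mul_le_mul hxj h2 hA0 (by positivity)

/-- the error of the regularisation, in terms of moments -/
theorem prod_ph_sum [Fintype ι] {t : ℝ} (ht : 0 < t) (x : ι → ℝ) :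
    |∏ i, x i ^ 2 - ∏ i, ph t (x i)| ≤
      Fintype.card ι * t ^ 2 * ∑ i, x i ^ (2 * Fintype.card ι + 2) := by
  rcases isEmpty_or_nonempty ι with h | h
  · simp
  · obtain ⟨k, -, hk⟩ := Finset.exists_max_image Finset.univ (fun i => |x i|) Finset.univ_nonempty
    have h1 := (prod_ph ht (abs_nonneg (x k)) Finset.univ fun i _ => hk i (Finset.mem_univ i)).1
    rw [Finset.card_univ] at h1
    refine h1.trans ?_
    refine mul_le_mul_of_nonneg_left ?_ (by positivity)
    have h2 : |x k| ^ (2 * Fintype.card ι + 2) = x k ^ (2 * Fintype.card ι + 2) := by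
      have e : 2 * Fintype.card ι + 2 = 2 * (Fintype.card ι + 1) := by ring
      rw [e, pow_mul, pow_mul, sq_abs]
    rw [h2]
    refine Finset.single_le_sum (f := fun i => x i ^ (2 * Fintype.card ι + 2)) (fun i _ => ?_)
      (Finset.mem_univ k)
    have e : 2 * Fintype.card ι + 2 = 2 * (Fintype.card ι + 1) := by ring
    rw [e, pow_mul]
    positivity

end

end Pool.Agent.W2helper67.YM
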