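import Mathlib
import Pool.Agent.TH618.YM.Coul

/-!
# The Green function of the lattice and the lazy walk on the periodic lattice
-/

open MeasureTheory Filter
open scoped Topology
open Pool.Agent.H906R3.YM hiding Pl
open Pool.Agent.W793.YM hiding rs
open Pool.Agent.TH618.YM

namespace Pool.Agent.W2helper67.YM

set_option linter.unusedSectionVars false
set_option linter.unusedVariables false

noncomputable section

variable {d : ℕ}

/-- the kernel of the lazy walk on the infinite lattice -/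
def pz (d : ℕ) : ℕ → (Fin d → ℤ) → ℝ
  | 0, x => if x = 0 then 1 else 0
  | m + 1, x => 1 / 2 * pz d m x +
      (1 / (4 * d) : ℝ) * ∑ i, (pz d m (x + Pi.single i 1) + pz d m (x - Pi.single i 1))

/-- the delta function -/
def dl {l : ℕ} (y : St d l) : St d l → ℝ := fun z => if z = y then 1 else 0

section torus

variable {l : ℕ} [NeZero l]

lemma ip2_dl (y : St d l) (f : St d l → ℝ) : ip2 (dl y) f = f y := by
  unfold ip2 dl
  simp

lemma dl_l1 (y : St d l) : ∑ x, |dl y x| = 1 := by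
  unfold dl
  have h : ∀ x : St d l, |(if x = y then (1 : ℝ) else 0)| = if x = y then 1 else 0 := by
    intro x
    split_ifs <;> simp
  simp only [h]
  simp

lemma zt_eq_iff {x y : Fin d → ℤ} (h : ∀ i, |x i - y i| < l) : zt l x = zt l y ↔ x - y = 0 := by
  constructor
  · intro he
    funext i
    have h1 : (((x i : ℤ) : ZMod l)) = ((y i : ℤ) : ZMod l) := congrFun he i
    rw [eq_comm, ZMod.intCast_eq_intCast_iff_dvd_sub] at h1
    exact Int.eq_zero_of_abs_lt_dvd h1 (h i)
  · intro he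
    rw [sub_eq_zero] at he
    rw [he]

lemma Plk_dl (hd : 0 < d) (m : ℕ) (x y : Fin d → ℤ) (h : ∀ i, |x i - y i| + m < l) :
    Plk m (dl (zt l y)) (zt l x) = pz d m (x - y) := by
  induction m generalizing x with
  | zero =>
    rw [Plk_zero]
    unfold dl pz
    have h1 : zt l x = zt l y ↔ x - y = 0 := zt_eq_iff fun i => by
      have := h i
      push_cast at this
      linarith
    simp only [h1]
  | succ m ih =>
    rw [Plk_succ, Pl_apply hd]
    have hstep : ∀ (e : Fin d → ℤ), (∀ i, |e i| ≤ 1) →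
        ∀ i, |(x + e) i - y i| + m < l := by
      intro e he i
      have h1 := h i
      have h2 := he i
      push_cast at h1
      have h3 : (x + e) i - y i = (x i - y i) + e i := by rw [Pi.add_apply]; ring
      rw [h3]
      have := abs_add_le (x i - y i) (e i)
      linarith
    have h0 : Plk m (dl (zt l y)) (zt l x) = pz d m (x - y) := by
      have := ih x fun i => by
        have h1 := h i
        push_cast at h1
        linarith
      exact this
    have hs : ∀ i : Fin d, ∀ k, |(Pi.single i 1 : Fin d → ℤ) k| ≤ 1 := by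
      intro i k
      by_cases hk : k = i
      · subst hk; simp
      · simp [hk]
    have hp : ∀ i : Fin d, Plk m (dl (zt l y)) (zt l x + eT i) =
        pz d m (x - y + Pi.single i 1) := by
      intro i
      rw [← zt_add, ih _ (hstep _ (hs i)), add_sub_right_comm]
    have hm : ∀ i : Fin d, Plk m (dl (zt l y)) (zt l x - eT i) =
        pz d m (x - y - Pi.single i 1) := by
      intro i
      have e1 : zt l x - eT i = zt l (x - Pi.single i 1) := by
        rw [← zt_sub x i, add_sub_cancel_right]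
      have h2 := ih (x - Pi.single i 1) (by
        have := hstep (-Pi.single i 1) (fun k => by rw [Pi.neg_apply, abs_neg]; exact hs i k)
        simpa [sub_eq_add_neg] using this)
      rw [e1, h2, sub_right_comm]
    rw [h0]
    simp only [hp, hm]
    rfl

end torus

/-! ### Fourier representation -/

/-- the scalar product of the momentum and the position -/
def pu (x : Fin d → ℤ) (u : Fin d → ℝ) : ℝ := 2 * Real.pi * ∑ i, u i * x i

/-- the symbol of the walk -/
def lu (u : Fin d → ℝ) : ℝ := 1 / 2 + (1 / (2 * d) : ℝ) * ∑ i, Real.cos (2 * Real.pi * u i)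

lemma lu_cont : Continuous (lu : (Fin d → ℝ) → ℝ) := by
  unfold lu
  fun_prop

lemma pu_cont (x : Fin d → ℤ) : Continuous (pu x : (Fin d → ℝ) → ℝ) := by
  unfold pu
  fun_prop

lemma lu_nonneg (hd : 0 < d) (u : Fin d → ℝ) : 0 ≤ lu u := by
  have hd0 : (0 : ℝ) < d := by exact_mod_cast hd
  unfold lu
  have h2 : -(d : ℝ) ≤ ∑ i, Real.cos (2 * Real.pi * u i) := by
    calc -(d : ℝ) = ∑ _i : Fin d, (-1 : ℝ) := by simp
      _ ≤ _ := Finset.sum_le_sum fun i _ => Real.neg_one_le_cos _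
  have h3 : 1 / (2 * (d : ℝ)) * (-(d : ℝ)) ≤
      1 / (2 * (d : ℝ)) * ∑ i, Real.cos (2 * Real.pi * u i) :=
    mul_le_mul_of_nonneg_left h2 (by positivity)
  have h4 : 1 / (2 * (d : ℝ)) * (-(d : ℝ)) = -(1 / 2) := by field_simp
  linarith

lemma lu_eq (hd : 0 < d) (u : Fin d → ℝ) :
    lu u = 1 - (1 / (4 * d) : ℝ) * ∑ i, 2 * (1 - Real.cos (2 * Real.pi * u i)) := by
  have hd0 : (d : ℝ) ≠ 0 := by exact_mod_cast hd.ne'
  unfold lu
  rw [← Finset.mul_sum, Finset.sum_sub_distrib, Finset.sum_const, Finset.card_univ,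
    Fintype.card_fin, nsmul_eq_mul]
  field_simp
  ring

lemma lu_le (hd : 0 < d) (u : Fin d → ℝ) : lu u ≤ 1 := by
  rw [lu_eq hd]
  have : 0 ≤ ∑ i, 2 * (1 - Real.cos (2 * Real.pi * u i)) := Finset.sum_nonneg fun i _ => by
    have := Real.cos_le_one (2 * Real.pi * u i)
    linarith
  have h : 0 ≤ (1 / (4 * d) : ℝ) * ∑ i, 2 * (1 - Real.cos (2 * Real.pi * u i)) := by positivity
  linarith

lemma ch_zt_re {l : ℕ} [NeZero l] (ξ : St d l) (x : Fin d → ℤ) :
    ch ξ (zt l x) = Complex.exp (((pu x fun i => ((ξ i).val : ℝ) / l : ℝ) : ℂ) * Complex.I) := by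
  unfold ch pu
  have h1 : ∀ i, chi (ξ i * (zt l x) i) =
      Complex.exp (((2 * Real.pi * (((ξ i).val : ℝ) / l * x i) : ℝ) : ℂ) * Complex.I) := by
    intro i
    unfold chi zt
    have e : ξ i * ((x i : ℤ) : ZMod l) = ((((ξ i).val : ℤ) * x i : ℤ) : ZMod l) := by
      push_cast
      rw [ZMod.natCast_zmod_val]
    rw [e, ZMod.stdAddChar_coe]
    congr 1
    push_cast
    ring
  rw [Finset.prod_congr rfl fun i _ => h1 i, ← Complex.exp_sum]
  congr 1
  rw [Finset.mul_sum, Complex.ofReal_sum, Finset.sum_mul]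

lemma pz_rs (hd : 0 < d) (m : ℕ) (x : Fin d → ℤ) {l : ℕ} [NeZero l]
    (h : ∀ i, |x i| + m < l) :
    pz d m x = Pool.Agent.TH618.YM.rs l fun u => lu u ^ m * Real.cos (pu x u) := by
  have h1 := Plk_dl hd m x 0 (l := l) (fun i => by simpa using h i)
  rw [sub_zero] at h1
  rw [← h1]
  have h2 := Plk_eq hd m (dl (zt l (0 : Fin d → ℤ))) (zt l x)
  have h3 : ∀ ξ : St d l, ∑ y, (dl (zt l (0 : Fin d → ℤ)) y : ℂ) * ch ξ (zt l x - y) =
      ch ξ (zt l x) := by
    intro ξ
    rw [Finset.sum_eq_single (zt l (0 : Fin d → ℤ))]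
    · have e0 : zt l (0 : Fin d → ℤ) = 0 := by funext i; simp [zt]
      rw [e0, sub_zero]
      unfold dl
      simp
    · intro y _ hy
      unfold dl
      simp [hy]
    · intro hn; exact absurd (Finset.mem_univ _) hn
  simp only [h3] at h2
  have h4 := congrArg Complex.re h2
  rw [Complex.ofReal_re] at h4
  rw [h4]
  unfold Pool.Agent.TH618.YM.rs
  have h5 : (1 / (l : ℂ) ^ d) = ((1 / (l : ℝ) ^ d : ℝ) : ℂ) := by push_cast; ring
  rw [h5, Complex.re_ofReal_mul, Complex.re_sum]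
  congr 1
  have h6 := Equiv.sum_comp (Equiv.piCongrRight fun _ : Fin d => zf l)
    (fun ξ : Fin d → Fin l => lu (fun i => ((ξ i : ℕ) : ℝ) / l) ^ m *
      Real.cos (pu x fun i => ((ξ i : ℕ) : ℝ) / l))
  rw [← h6]
  refine Finset.sum_congr rfl fun ξ _ => ?_
  have h7 : ∀ k, (((Equiv.piCongrRight fun _ : Fin d => zf l) ξ k : Fin l) : ℕ) = (ξ k).val :=
    fun k => rfl
  simp only [h7]
  rw [Complex.re_ofReal_mul, ch_zt_re, Complex.exp_ofReal_mul_I_re]
  congr 2
  unfold lm lu
  congr 2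
  refine Finset.sum_congr rfl fun i _ => ?_
  rw [chi_re]
  congr 1
  ring

/-- the unit cube -/
abbrev cube (d : ℕ) : Set (Fin d → ℝ) := Set.pi Set.univ (fun _ : Fin d => Set.Icc (0 : ℝ) 1)

lemma pz_eq (hd : 0 < d) (m : ℕ) (x : Fin d → ℤ) :
    pz d m x = ∫ u in cube d, lu u ^ m * Real.cos (pu x u) := by
  have hc : Continuous fun u : Fin d → ℝ => lu u ^ m * Real.cos (pu x u) :=
    (lu_cont.pow m).mul (Real.continuous_cos.comp (pu_cont x))
  have h1 := rs_tendsto (Φ := fun u : Fin d → ℝ => lu u ^ m * Real.cos (pu x u)) hc.measurable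
    (B := 1) (fun u => by
      rw [abs_mul, abs_of_nonneg (pow_nonneg (lu_nonneg hd u) m)]
      calc _ ≤ 1 * 1 := mul_le_mul (pow_le_one₀ (lu_nonneg hd u) (lu_le hd u))
            (Real.abs_cos_le_one _) (abs_nonneg _) zero_le_one
        _ = 1 := one_mul 1) (Filter.Eventually.of_forall fun u => hc.continuousAt)
  refine tendsto_nhds_unique (f := fun l : ℕ => Pool.Agent.TH618.YM.rs l
    fun u : Fin d → ℝ => lu u ^ m * Real.cos (pu x u)) ?_ h1
  obtain ⟨B, hB⟩ : ∃ B : ℤ, ∀ i, |x i| ≤ B :=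
    ⟨∑ i, |x i|, fun i => Finset.single_le_sum (f := fun i => |x i|) (fun i _ => abs_nonneg _)
      (Finset.mem_univ i)⟩
  refine tendsto_const_nhds.congr' ?_
  filter_upwards [eventually_gt_atTop ((B.toNat + m))] with l hl
  have : NeZero l := ⟨by omega⟩
  refine pz_rs hd m x fun i => ?_
  have := hB i
  omega

lemma pz_le (hd : 0 < d) {m : ℕ} (hm : 1 ≤ m) (x : Fin d → ℤ) :
    |pz d m x| ≤ ((2 + 2 * Real.sqrt (2 * d)) / Real.sqrt m) ^ d := by
  obtain ⟨B, hB⟩ : ∃ B : ℤ, ∀ i, |x i| ≤ B :=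
    ⟨∑ i, |x i|, fun i => Finset.single_le_sum (f := fun i => |x i|) (fun i _ => abs_nonneg _)
      (Finset.mem_univ i)⟩
  obtain ⟨l, hl⟩ : ∃ l : ℕ, l = B.toNat + m + 1 := ⟨_, rfl⟩
  have : NeZero l := ⟨by omega⟩
  have h1 := Plk_dl hd m x 0 (l := l) (fun i => by
    have := hB i
    simp only [Pi.zero_apply, sub_zero]
    omega)
  rw [sub_zero] at h1
  rw [← h1]
  have h2 := Plk_sup hd hm (by omega) (dl (zt l (0 : Fin d → ℤ))) (zt l x)
  rw [dl_l1, mul_one] at h2
  exact h2

/-- the Green function of minus the Laplace operator -/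
def gr (x : Fin d → ℤ) : ℝ :=
  ∫ u in cube d, Real.cos (pu x u) / ∑ i, 2 * (1 - Real.cos (2 * Real.pi * u i))

/-- the constant -/
def cw (d : ℕ) : ℝ := (2 + 2 * Real.sqrt (2 * d)) ^ d

lemma cw_nonneg (d : ℕ) : 0 ≤ cw d := by unfold cw; positivity

lemma cw_ge (hd : 1 ≤ d) : 1 ≤ cw d := by
  unfold cw
  refine one_le_pow₀ ?_
  have := Real.sqrt_nonneg (2 * d)
  linarith

lemma pz_le3 (hd : 3 ≤ d) {m : ℕ} (hm : 1 ≤ m) (x : Fin d → ℤ) :
    |pz d m x| ≤ cw d * (1 / Real.sqrt m ^ 3) := by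
  refine (pz_le (by omega) hm x).trans ?_
  have hsk : 1 ≤ Real.sqrt m := by
    rw [Real.one_le_sqrt]; exact_mod_cast hm
  rw [div_pow, mul_one_div]
  exact div_le_div_of_nonneg_left (cw_nonneg d) (by positivity) (pow_le_pow_right₀ hsk hd)

lemma pz_tail (hd : 3 ≤ d) {a : ℕ} (ha : 1 ≤ a) (K : ℕ) (x : Fin d → ℤ) :
    ∑ m ∈ Finset.Ico a K, |pz d m x| ≤ 6 * cw d / Real.sqrt a := by
  calc ∑ m ∈ Finset.Ico a K, |pz d m x| ≤
      ∑ m ∈ Finset.Ico a K, cw d * (1 / Real.sqrt m ^ 3) :=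
        Finset.sum_le_sum fun m hm => pz_le3 hd (ha.trans (Finset.mem_Ico.1 hm).1) x
    _ = cw d * ∑ m ∈ Finset.Ico a K, 1 / Real.sqrt m ^ 3 := (Finset.mul_sum _ _ _).symm
    _ ≤ cw d * (6 / Real.sqrt a) := mul_le_mul_of_nonneg_left (tail_sum ha K) (cw_nonneg d)
    _ = _ := by ring

lemma pz_summable (hd : 3 ≤ d) (x : Fin d → ℤ) : Summable fun m => pz d m x := by
  refine Summable.of_norm ?_
  rw [← summable_nat_add_iff 1]
  refine summable_of_sum_range_le (c := 6 * cw d) (fun m => norm_nonneg _) fun K => ?_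
  have h1 := pz_tail hd le_rfl (K + 1) x
  rw [Nat.cast_one, Real.sqrt_one, div_one] at h1
  refine le_trans (le_of_eq ?_) h1
  rw [Finset.sum_Ico_eq_sum_range]
  refine Finset.sum_congr (by simp) fun m _ => ?_
  rw [Real.norm_eq_abs, add_comm]

theorem gr_hasSum (hd : 3 ≤ d) (x : Fin d → ℤ) :
    HasSum (fun m => (1 / (4 * d) : ℝ) * pz d m x) (gr x) := by
  have hd1 : 0 < d := by omega
  have hd0 : (0 : ℝ) < d := by exact_mod_cast hd1
  have hfin : (volume : Measure (Fin d → ℝ)) (cube d) < ⊤ := by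
    have : IsCompact (cube d) := isCompact_univ_pi fun _ => isCompact_Icc
    exact this.measure_lt_top
  have : IsFiniteMeasure ((volume : Measure (Fin d → ℝ)).restrict (cube d)) :=
    ⟨by rw [Measure.restrict_apply_univ]; exact hfin⟩
  have hc : ∀ m : ℕ, Continuous fun u : Fin d → ℝ => (1 / (4 * d) : ℝ) *
      (lu u ^ m * Real.cos (pu x u)) := fun m =>
    continuous_const.mul ((lu_cont.pow m).mul (Real.continuous_cos.comp (pu_cont x)))
  have hb : ∀ (m : ℕ) (u : Fin d → ℝ), ‖(1 / (4 * d) : ℝ) * (lu u ^ m * Real.cos (pu x u))‖ ≤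
      (1 / (4 * d) : ℝ) * lu u ^ m := by
    intro m u
    rw [Real.norm_eq_abs, abs_mul, abs_mul, abs_of_nonneg (pow_nonneg (lu_nonneg hd1 u) m),
      abs_of_nonneg (by positivity : (0 : ℝ) ≤ 1 / (4 * d))]
    refine mul_le_mul_of_nonneg_left ?_ (by positivity)
    exact mul_le_of_le_one_right (pow_nonneg (lu_nonneg hd1 u) m) (Real.abs_cos_le_one _)
  have hlm : ∀ m : ℕ, Integrable (fun u : Fin d → ℝ => (1 / (4 * d) : ℝ) * lu u ^ m)
      (volume.restrict (cube d)) := fun m =>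
    Integrable.of_bound (continuous_const.mul (lu_cont.pow m)).aestronglyMeasurable
      (1 / (4 * d) : ℝ) (Filter.Eventually.of_forall fun u => by
      rw [Real.norm_eq_abs, abs_mul, abs_of_nonneg (pow_nonneg (lu_nonneg hd1 u) m),
        abs_of_nonneg (by positivity : (0 : ℝ) ≤ 1 / (4 * d))]
      exact mul_le_of_le_one_right (by positivity) (pow_le_one₀ (lu_nonneg hd1 u) (lu_le hd1 u)))
  have hint : ∀ m : ℕ, Integrable (fun u : Fin d → ℝ => (1 / (4 * d) : ℝ) *
      (lu u ^ m * Real.cos (pu x u))) (volume.restrict (cube d)) := fun m =>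
    (hlm m).mono' (hc m).aestronglyMeasurable (Filter.Eventually.of_forall fun u => hb m u)
  have hsum : Summable fun m : ℕ => ∫ u in cube d, ‖(1 / (4 * d) : ℝ) *
      (lu u ^ m * Real.cos (pu x u))‖ := by
    refine Summable.of_nonneg_of_le (fun m => integral_nonneg fun u => norm_nonneg _)
      (fun m => ?_) ((pz_summable hd (0 : Fin d → ℤ)).mul_left (1 / (4 * d) : ℝ))
    calc _ ≤ ∫ u in cube d, (1 / (4 * d) : ℝ) * lu u ^ m :=
          integral_mono (hint m).norm (hlm m) fun u => hb m u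
      _ = (1 / (4 * d) : ℝ) * pz d m 0 := by
          rw [pz_eq hd1, integral_const_mul]
          congr 1
          refine integral_congr_ae (Filter.Eventually.of_forall fun u => ?_)
          simp [pu]
  have h1 := hasSum_integral_of_summable_integral_norm hint hsum
  have h2 : ∀ m : ℕ, ∫ u in cube d, (1 / (4 * d) : ℝ) * (lu u ^ m * Real.cos (pu x u)) =
      (1 / (4 * d) : ℝ) * pz d m x := fun m => by rw [pz_eq hd1, integral_const_mul]
  simp only [h2] at h1
  have h3 : ∫ u in cube d, (∑' m : ℕ, (1 / (4 * d) : ℝ) * (lu u ^ m * Real.cos (pu x u))) =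
      gr x := by
    unfold gr
    refine integral_congr_ae (Filter.Eventually.of_forall fun u => ?_)
    simp only
    obtain ⟨S, hS⟩ : ∃ S, S = ∑ i, 2 * (1 - Real.cos (2 * Real.pi * u i)) := ⟨_, rfl⟩
    have hl : lu u = 1 - (1 / (4 * d) : ℝ) * S := by rw [hS]; exact lu_eq hd1 u
    rw [← hS]
    have e1 : ∀ m : ℕ, (1 / (4 * d) : ℝ) * (lu u ^ m * Real.cos (pu x u)) =
        (1 / (4 * d) : ℝ) * Real.cos (pu x u) * lu u ^ m := fun m => by ring
    simp only [e1]
    rcases (lu_le hd1 u).lt_or_eq with hlt | heq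
    · rw [tsum_mul_left, tsum_geometric_of_lt_one (lu_nonneg hd1 u) hlt]
      have hS0 : S ≠ 0 := by
        rintro rfl
        rw [mul_zero, sub_zero] at hl
        exact absurd hl hlt.ne
      have e2 : 1 - lu u = (1 / (4 * d) : ℝ) * S := by rw [hl]; ring
      rw [e2, mul_inv]
      field_simp
    · have hS0 : S = 0 := by
        rw [heq] at hl
        have : (1 / (4 * d) : ℝ) * S = 0 := by linarith
        rcases mul_eq_zero.1 this with h | h
        · exfalso
          have : (0 : ℝ) < 1 / (4 * d) := by positivity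
          linarith
        · exact h
      rw [hS0, div_zero, heq]
      simp only [one_pow, mul_one]
      by_cases hcos : Real.cos (pu x u) = 0
      · simp [hcos]
      · refine tsum_eq_zero_of_not_summable fun hs => ?_
        have := hs.tendsto_atTop_zero
        have h5 := tendsto_nhds_unique this tendsto_const_nhds
        have h6 : (1 / (4 * d) : ℝ) ≠ 0 := by positivity
        exact (mul_ne_zero h6 hcos) h5.symm
  rw [h3] at h1
  exact h1

/-- the truncated Green function -/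
lemma gr_trunc (hd : 3 ≤ d) {K : ℕ} (hK : 1 ≤ K) (x : Fin d → ℤ) :
    |(1 / (4 * d) : ℝ) * ∑ m ∈ Finset.range K, pz d m x - gr x| ≤ 6 * cw d / Real.sqrt K := by
  have hd1 : (1 : ℝ) ≤ d := by exact_mod_cast (by omega : 1 ≤ d)
  have h1 := (gr_hasSum hd x).tendsto_sum_nat
  have h2 : ∀ K' : ℕ, K ≤ K' → |(1 / (4 * d) : ℝ) * ∑ m ∈ Finset.range K, pz d m x -
      ∑ m ∈ Finset.range K', (1 / (4 * d) : ℝ) * pz d m x| ≤ 6 * cw d / Real.sqrt K := by
    intro K' hK'
    rw [← Finset.mul_sum, ← mul_sub, abs_mul, abs_of_nonneg (by positivity : (0 : ℝ) ≤ 1 / (4 * d))]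
    have e1 : ∑ m ∈ Finset.range K, pz d m x - ∑ m ∈ Finset.range K', pz d m x =
        -∑ m ∈ Finset.Ico K K', pz d m x := by
      rw [Finset.sum_Ico_eq_sub _ hK']; ring
    rw [e1, abs_neg]
    have e2 := (Finset.abs_sum_le_sum_abs (fun m => pz d m x) (Finset.Ico K K')).trans
      (pz_tail hd hK K' x)
    have e3 : (1 / (4 * d) : ℝ) ≤ 1 := by
      rw [div_le_one (by positivity)]; linarith
    calc _ ≤ 1 * |∑ m ∈ Finset.Ico K K', pz d m x| :=
          mul_le_mul_of_nonneg_right e3 (abs_nonneg _)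
      _ ≤ _ := by rw [one_mul]; exact e2
  have h3 : Tendsto (fun K' : ℕ => |(1 / (4 * d) : ℝ) * ∑ m ∈ Finset.range K, pz d m x -
      ∑ m ∈ Finset.range K', (1 / (4 * d) : ℝ) * pz d m x|) atTop
      (𝓝 |(1 / (4 * d) : ℝ) * ∑ m ∈ Finset.range K, pz d m x - gr x|) :=
    (tendsto_const_nhds.sub h1).abs
  exact le_of_tendsto h3 (by filter_upwards [eventually_ge_atTop K] with K' hK' using h2 K' hK')

lemma gr_le (hd : 3 ≤ d) (x : Fin d → ℤ) : |gr x| ≤ 7 * cw d := by
  have h1 := gr_trunc hd le_rfl x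
  rw [Nat.cast_one, Real.sqrt_one, div_one, Finset.sum_range_one] at h1
  have hd1 : (1 : ℝ) ≤ d := by exact_mod_cast (by omega : 1 ≤ d)
  have h2 : |(1 / (4 * d) : ℝ) * pz d 0 x| ≤ 1 := by
    have e : |pz d 0 x| ≤ 1 := by
      unfold pz
      split_ifs <;> simp
    rw [abs_mul, abs_of_nonneg (by positivity : (0 : ℝ) ≤ 1 / (4 * d))]
    have e3 : (1 / (4 * d) : ℝ) ≤ 1 := by
      rw [div_le_one (by positivity)]; linarith
    calc _ ≤ 1 * 1 := mul_le_mul e3 e (abs_nonneg _) zero_le_one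
      _ = 1 := one_mul 1
  have h3 := cw_ge (d := d) (by omega)
  rw [abs_le] at h1 h2 ⊢
  constructor <;> linarith [h1.1, h1.2, h2.1, h2.2]

end

end Pool.Agent.W2helper67.YM
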