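import Mathlib
import Pool.Agent.W2helper67.YM.Green

/-!
# The variance of the Gaussian limit in terms of the Green function
-/

open MeasureTheory Filter
open scoped Topology
open Pool.Agent.H906R3.YM hiding Pl
open Pool.Agent.W793.YM hiding rs
open Pool.Agent.TH618.YM

namespace Pool.Agent.W2helper67.YM

set_option linter.unusedSectionVars false

noncomputable section

variable {d : ℕ} {κ : Type*} [Fintype κ]

/-- the quadratic form of a weighted family of links with the kernel `g` -/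
def quad (y : κ → Fin d → ℤ) (k : κ → Fin d) (w : κ → ℝ) (g : (Fin d → ℤ) → ℝ) : ℝ :=
  ∑ s, ∑ s', if k s = k s' then w s * w s' * g (y s - y s') else 0

lemma quad_sub (y : κ → Fin d → ℤ) (k : κ → Fin d) (w : κ → ℝ) (g h : (Fin d → ℤ) → ℝ) :
    quad y k w g - quad y k w h = quad y k w fun x => g x - h x := by
  unfold quad
  rw [← Finset.sum_sub_distrib]
  refine Finset.sum_congr rfl fun s _ => ?_
  rw [← Finset.sum_sub_distrib]
  refine Finset.sum_congr rfl fun s' _ => ?_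
  split_ifs <;> ring

lemma quad_sum {ι : Type*} (t : Finset ι) (y : κ → Fin d → ℤ) (k : κ → Fin d) (w : κ → ℝ)
    (g : ι → (Fin d → ℤ) → ℝ) :
    ∑ i ∈ t, quad y k w (g i) = quad y k w fun x => ∑ i ∈ t, g i x := by
  unfold quad
  rw [Finset.sum_comm]
  refine Finset.sum_congr rfl fun s _ => ?_
  rw [Finset.sum_comm]
  refine Finset.sum_congr rfl fun s' _ => ?_
  split_ifs
  · rw [Finset.mul_sum]
  · simp

lemma quad_smul (c : ℝ) (y : κ → Fin d → ℤ) (k : κ → Fin d) (w : κ → ℝ)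
    (g : (Fin d → ℤ) → ℝ) : c * quad y k w g = quad y k w fun x => c * g x := by
  unfold quad
  rw [Finset.mul_sum]
  refine Finset.sum_congr rfl fun s _ => ?_
  rw [Finset.mul_sum]
  refine Finset.sum_congr rfl fun s' _ => ?_
  split_ifs <;> ring

lemma quad_abs (y : κ → Fin d → ℤ) (k : κ → Fin d) (w : κ → ℝ) {g : (Fin d → ℤ) → ℝ} {B : ℝ}
    (hB : ∀ x, |g x| ≤ B) : |quad y k w g| ≤ (∑ s, |w s|) ^ 2 * B := by
  have hB0 : 0 ≤ B := (abs_nonneg _).trans (hB 0)
  unfold quad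
  refine (Finset.abs_sum_le_sum_abs _ _).trans ?_
  rw [pow_two, Finset.sum_mul, Finset.sum_mul]
  refine Finset.sum_le_sum fun s _ => ?_
  refine (Finset.abs_sum_le_sum_abs _ _).trans ?_
  rw [Finset.mul_sum, Finset.sum_mul]
  refine Finset.sum_le_sum fun s' _ => ?_
  split_ifs
  · rw [abs_mul, abs_mul]
    exact mul_le_mul_of_nonneg_left (hB _) (by positivity)
  · rw [abs_zero]; positivity

section torus

variable {l : ℕ} [NeZero l]

/-- the current of a weighted family of links, component `k0` -/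
def Jw (y : κ → Fin d → ℤ) (k : κ → Fin d) (w : κ → ℝ) (l : ℕ) (k0 : Fin d) : St d l → ℝ :=
  ∑ s, (if k s = k0 then w s else 0) • dl (zt l (y s))

lemma ip2_Jw (hd : 0 < d) (y : κ → Fin d → ℤ) (k : κ → Fin d) (w : κ → ℝ) (m : ℕ)
    (h : ∀ s s' i, |y s i - y s' i| + m < l) (k0 : Fin d) :
    ip2 (Jw y k w l k0) (Plk m (Jw y k w l k0)) = ∑ s, ∑ s',
      (if k s = k0 then w s else 0) * (if k s' = k0 then w s' else 0) * pz d m (y s - y s') := by
  unfold Jw
  rw [Plk_sum, ip2_sum_left]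
  refine Finset.sum_congr rfl fun s _ => ?_
  rw [ip2_sum_right]
  refine Finset.sum_congr rfl fun s' _ => ?_
  rw [Plk_smul, ip2_smul_left, ip2_smul_right, ip2_dl, Plk_dl hd m _ _ (h s s')]
  ring

lemma sum_ip2_Jw (hd : 0 < d) (y : κ → Fin d → ℤ) (k : κ → Fin d) (w : κ → ℝ) (m : ℕ)
    (h : ∀ s s' i, |y s i - y s' i| + m < l) :
    ∑ k0, ip2 (Jw y k w l k0) (Plk m (Jw y k w l k0)) = quad y k w (pz d m) := by
  simp only [ip2_Jw hd y k w m h]
  unfold quad
  rw [Finset.sum_comm]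
  refine Finset.sum_congr rfl fun s _ => ?_
  rw [Finset.sum_comm]
  refine Finset.sum_congr rfl fun s' _ => ?_
  rw [Finset.sum_eq_single (k s)]
  · by_cases hk : k s = k s'
    · rw [if_pos rfl, if_pos hk, if_pos hk.symm]
    · have hk' : ¬ k s' = k s := fun h => hk h.symm
      rw [if_neg hk, if_neg hk']; ring
  · intro k0 _ hk0
    rw [if_neg (fun h => hk0 h.symm)]; ring
  · intro hn; exact absurd (Finset.mem_univ _) hn

/-- the energy of a current -/
theorem energy_quad (hd : 3 ≤ d) {K : ℕ} (hK : 1 ≤ K) (y : κ → Fin d → ℤ) (k : κ → Fin d)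
    (w : κ → ℝ) (h : ∀ s s' i, |y s i - y s' i| + 2 * K < l) :
    |∑ k0, (ip2 (Jw y k w l k0) (uK K (Jw y k w l k0)) -
      ip2 (Plk K (Jw y k w l k0)) (uK K (Jw y k w l k0))) - quad y k w gr| ≤
      (∑ s, |w s|) ^ 2 * (12 * cw d / Real.sqrt K) := by
  have hd0 : 0 < d := by omega
  have hd1 : (1 : ℝ) ≤ d := by exact_mod_cast (by omega : 1 ≤ d)
  have e1 : ∀ J : St d l → ℝ, ip2 (Plk K J) (uK K J) =
      ∑ m ∈ Finset.range K, (1 / (4 * d) : ℝ) * ip2 J (Plk (K + m) J) := by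
    intro J
    unfold uK
    rw [ip2_smul_right, ip2_sum_right, Finset.mul_sum]
    refine Finset.sum_congr rfl fun m _ => ?_
    rw [← Plk_symm hd0, Plk_Plk]
  have e2 : ∑ k0, (ip2 (Jw y k w l k0) (uK K (Jw y k w l k0)) -
      ip2 (Plk K (Jw y k w l k0)) (uK K (Jw y k w l k0))) =
      quad y k w fun x => (1 / (4 * d) : ℝ) * ∑ m ∈ Finset.range K, pz d m x -
        (1 / (4 * d) : ℝ) * ∑ m ∈ Finset.range K, pz d (K + m) x := by
    rw [Finset.sum_sub_distrib]
    simp only [e1, ip2_uK hd0]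
    rw [Finset.sum_comm, Finset.sum_comm (s := Finset.univ) (t := Finset.range K)
      (f := fun k0 m => (1 / (4 * d) : ℝ) * ip2 (Jw y k w l k0) (Plk (K + m) (Jw y k w l k0)))]
    have f1 : ∀ m ∈ Finset.range K, ∑ k0, (1 / (4 * d) : ℝ) *
        ip2 (Jw y k w l k0) (Plk m (Jw y k w l k0)) =
        (1 / (4 * d) : ℝ) * quad y k w (pz d m) := by
      intro m hm
      rw [← Finset.mul_sum, sum_ip2_Jw hd0 y k w m fun s s' i => ?_]
      have h1 := h s s' i
      have h2 := Finset.mem_range.1 hm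
      omega
    have f2 : ∀ m ∈ Finset.range K, ∑ k0, (1 / (4 * d) : ℝ) *
        ip2 (Jw y k w l k0) (Plk (K + m) (Jw y k w l k0)) =
        (1 / (4 * d) : ℝ) * quad y k w (pz d (K + m)) := by
      intro m hm
      rw [← Finset.mul_sum, sum_ip2_Jw hd0 y k w (K + m) fun s s' i => ?_]
      have h1 := h s s' i
      have h2 := Finset.mem_range.1 hm
      push_cast
      omega
    rw [Finset.sum_congr rfl f1, Finset.sum_congr rfl f2, ← Finset.mul_sum, ← Finset.mul_sum,
      quad_sum, quad_sum, quad_smul, quad_smul, quad_sub]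
  rw [e2, quad_sub]
  refine quad_abs y k w fun x => ?_
  have g1 := gr_trunc hd hK x
  have g2 : |(1 / (4 * d) : ℝ) * ∑ m ∈ Finset.range K, pz d (K + m) x| ≤
      6 * cw d / Real.sqrt K := by
    have g3 := pz_tail hd hK (K + K) x
    rw [Finset.sum_Ico_eq_sum_range, Nat.add_sub_cancel] at g3
    rw [abs_mul, abs_of_nonneg (by positivity : (0 : ℝ) ≤ 1 / (4 * d))]
    have e3 : (1 / (4 * d) : ℝ) ≤ 1 := by
      rw [div_le_one (by positivity)]; linarith
    calc _ ≤ 1 * |∑ m ∈ Finset.range K, pz d (K + m) x| :=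
          mul_le_mul_of_nonneg_right e3 (abs_nonneg _)
      _ ≤ _ := by rw [one_mul]; exact (Finset.abs_sum_le_sum_abs _ _).trans g3
  have g4 : 12 * cw d / Real.sqrt K = 6 * cw d / Real.sqrt K + 6 * cw d / Real.sqrt K := by ring
  rw [g4]
  rw [abs_le] at g1 g2 ⊢
  constructor <;> linarith [g1.1, g1.2, g2.1, g2.2]

/-- the variance of the Gaussian limit -/
theorem vK_quad (hd : 3 ≤ d) {n K : ℕ} (hK : 1 ≤ K) (y : κ → Fin d → ℤ) (k : κ → Fin d)
    (w : Fin n → κ → ℝ) (h : ∀ s s' i, |y s i - y s' i| + 2 * K < l) {f : Fin n → Fm d l}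
    (hf : ∀ a, Asy (f a)) (hJ : ∀ a k0, ds2 (f a) k0 = Jw y k (w a) l k0) :
    |vK K f - ∑ a, quad y k (w a) gr| ≤
      (∑ a, (∑ s, |w a s|) ^ 2) * (12 * cw d / Real.sqrt K) := by
  have e1 : vK K f = ∑ a, ∑ k0, (ip2 (Jw y k (w a) l k0) (uK K (Jw y k (w a) l k0)) -
      ip2 (Plk K (Jw y k (w a) l k0)) (uK K (Jw y k (w a) l k0))) := by
    unfold vK AK uKs
    refine Finset.sum_congr rfl fun a _ => ?_
    rw [energy K (hf a)]
    simp only [hJ]
  rw [e1, ← Finset.sum_sub_distrib, Finset.sum_mul]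
  refine (Finset.abs_sum_le_sum_abs _ _).trans (Finset.sum_le_sum fun a _ => ?_)
  exact energy_quad hd hK y k (w a) h

end torus

end

end Pool.Agent.W2helper67.YM
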