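import Mathlib
import Pool.Agent.W2helper67.YM.Cov
import Pool.Agent.TH618.YM.Cartan

/-!
# Closed lattice paths bound surfaces
-/

open MeasureTheory Filter
open scoped Topology
open Pool.Agent.H906R3.YM hiding Pl
open Pool.Agent.W793.YM hiding rs
open Pool.Agent.TH618.YM

namespace Pool.Agent.W2helper67.YM

set_option linter.unusedSectionVars false

noncomputable section

variable {d : ℕ}

/-- the vector of a step -/
def sv (s : Fin d × Bool) : Fin d → ℤ := if s.2 then Pi.single s.1 1 else -Pi.single s.1 1

/-- the sign of a step -/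
def sg (s : Fin d × Bool) : ℝ := if s.2 then 1 else -1

/-- the link of a step, with its sign -/
def ed (x : Fin d → ℤ) (s : Fin d × Bool) : (Fin d → ℤ) × Fin d × ℝ :=
  (if s.2 then x else x - Pi.single s.1 1, s.1, sg s)

/-- the links of a path, with signs -/
def edges : (Fin d → ℤ) → List (Fin d × Bool) → List ((Fin d → ℤ) × Fin d × ℝ)
  | _, [] => []
  | x, s :: p => ed x s :: edges (x + sv s) p

lemma edges_length (x : Fin d → ℤ) (p : List (Fin d × Bool)) : (edges x p).length = p.length := by
  induction p generalizing x with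
  | nil => rfl
  | cons s p ih => rw [edges, List.length_cons, List.length_cons, ih]

lemma dest_cons (x : Fin d → ℤ) (s : Fin d × Bool) (p : List (Fin d × Bool)) :
    dest x (s :: p) = dest (x + sv s) p := by
  obtain ⟨i, s⟩ := s
  cases s with
  | true => rfl
  | false =>
    simp only [dest, sv, Bool.false_eq_true, if_false]
    rw [← sub_eq_add_neg]

lemma dest_eq (x : Fin d → ℤ) (p : List (Fin d × Bool)) : dest x p = x + (p.map sv).sum := by
  induction p generalizing x with
  | nil => simp [dest]
  | cons s p ih => rw [dest_cons, ih, List.map_cons, List.sum_cons, add_assoc]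

/-- the integral of a one form along a path -/
def li (A : Fin d → (Fin d → ℤ) → ℝ) (x : Fin d → ℤ) (p : List (Fin d × Bool)) : ℝ :=
  ((edges x p).map fun e => e.2.2 * A e.2.1 e.1).sum

variable {A : Fin d → (Fin d → ℤ) → ℝ}

lemma li_nil (x : Fin d → ℤ) : li A x [] = 0 := rfl

lemma li_cons (x : Fin d → ℤ) (s : Fin d × Bool) (p : List (Fin d × Bool)) :
    li A x (s :: p) = (ed x s).2.2 * A (ed x s).2.1 (ed x s).1 + li A (x + sv s) p := by
  unfold li
  rw [edges, List.map_cons, List.sum_cons]

lemma li_append (x : Fin d → ℤ) (p q : List (Fin d × Bool)) :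
    li A x (p ++ q) = li A x p + li A (x + (p.map sv).sum) q := by
  induction p generalizing x with
  | nil => simp [li_nil]
  | cons s p ih =>
    rw [List.cons_append, li_cons, li_cons, ih, List.map_cons, List.sum_cons, add_assoc,
      add_assoc]

/-- the exterior derivative -/
def dA (A : Fin d → (Fin d → ℤ) → ℝ) (j k : Fin d) (z : Fin d → ℤ) : ℝ :=
  A k (z + Pi.single j 1) - A k z - (A j (z + Pi.single k 1) - A j z)

/-- signed plaquettes -/
abbrev It (d : ℕ) := (Fin d → ℤ) × Fin d × Fin d × ℝ

/-- the flux through a family of plaquettes -/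
def fl (A : Fin d → (Fin d → ℤ) → ℝ) (S : List (It d)) : ℝ :=
  (S.map fun q => q.2.2.2 * dA A q.2.1 q.2.2.1 q.1).sum

lemma fl_append (S T : List (It d)) : fl A (S ++ T) = fl A S + fl A T := by
  unfold fl
  rw [List.map_append, List.sum_append]

lemma fl_cons (q : It d) (T : List (It d)) :
    fl A (q :: T) = q.2.2.2 * dA A q.2.1 q.2.2.1 q.1 + fl A T := by
  unfold fl
  rw [List.map_cons, List.sum_cons]

/-- the plaquette between two steps -/
def sw (x : Fin d → ℤ) (s t : Fin d × Bool) : It d :=
  (x - (if s.2 then 0 else Pi.single s.1 1) - (if t.2 then 0 else Pi.single t.1 1), s.1, t.1,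
    sg s * sg t)

lemma swap (x : Fin d → ℤ) (s t : Fin d × Bool) (p : List (Fin d × Bool)) :
    li A x (s :: t :: p) = li A x (t :: s :: p) + fl A [sw x s t] := by
  obtain ⟨j, s⟩ := s
  obtain ⟨k, t⟩ := t
  rw [li_cons, li_cons, li_cons, li_cons, add_right_comm x (sv (k, t)) (sv (j, s))]
  obtain ⟨Z, hZ⟩ : ∃ Z, Z = li A (x + sv (j, s) + sv (k, t)) p := ⟨_, rfl⟩
  rw [← hZ]
  unfold fl
  rw [List.map_cons, List.map_nil, List.sum_cons, List.sum_nil]
  obtain ⟨e, he⟩ : ∃ e : Fin d → ℤ, e = Pi.single j 1 := ⟨_, rfl⟩
  obtain ⟨f, hf⟩ : ∃ f : Fin d → ℤ, f = Pi.single k 1 := ⟨_, rfl⟩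
  cases s <;> cases t <;> simp only [ed, sw, sv, sg, dA, Bool.false_eq_true, if_false, if_true,
    ← he, ← hf, sub_zero, ← sub_eq_add_neg]
  · have e1 : x - e - f + e = x - f := by abel
    have e2 : x - e - f + f = x - e := by abel
    have e3 : x - f - e = x - e - f := by abel
    rw [e1, e2, e3]; ring
  · have e1 : x - e + e = x := by abel
    have e2 : x + f - e = x - e + f := by abel
    rw [e1, e2]; ring
  · have e1 : x - f + f = x := by abel
    have e2 : x + e - f = x - f + e := by abel
    rw [e1, e2]; ring
  · ring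

/-- the norm of a step -/
lemma sv_le (s : Fin d × Bool) (i : Fin d) : |sv s i| ≤ 1 := by
  unfold sv
  obtain ⟨j, s⟩ := s
  by_cases h : i = j
  · subst h
    cases s <;> simp
  · cases s <;> simp [h]

lemma single_le (j i : Fin d) : |(Pi.single j 1 : Fin d → ℤ) i| ≤ 1 := by
  by_cases h : i = j
  · subst h; simp
  · simp [h]

lemma sw_pos (x : Fin d → ℤ) (s t : Fin d × Bool) (i : Fin d) : |(sw x s t).1 i - x i| ≤ 2 := by
  have h1 : ∀ u : Fin d × Bool, |(if u.2 then (0 : Fin d → ℤ) else Pi.single u.1 1) i| ≤ 1 := by
    intro u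
    split_ifs
    · simp
    · exact single_le _ _
  have h2 := h1 s
  have h3 := h1 t
  unfold sw
  simp only [Pi.sub_apply]
  rw [abs_le] at h2 h3 ⊢
  constructor <;> linarith [h2.1, h2.2, h3.1, h3.2]

lemma sg_abs (s : Fin d × Bool) : |sg s| = 1 := by
  unfold sg
  split_ifs <;> simp

/-- moving a step to the end of a path -/
lemma move (s : Fin d × Bool) (p : List (Fin d × Bool)) (x : Fin d → ℤ) :
    ∃ S : List (It d), S.length = p.length ∧ (∀ q ∈ S, |q.2.2.2| = 1 ∧
      ∀ i, |q.1 i - x i| ≤ p.length + 1) ∧ ∀ A : Fin d → (Fin d → ℤ) → ℝ,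
        li A x (s :: p) = li A x (p ++ [s]) + fl A S := by
  induction p generalizing x with
  | nil =>
    refine ⟨[], rfl, fun q hq => absurd hq List.not_mem_nil, fun A => ?_⟩
    unfold fl
    simp
  | cons t p ih =>
    obtain ⟨S, h1, h2, h3⟩ := ih (x + sv t)
    refine ⟨sw x s t :: S, by simp [h1], fun q hq => ?_, fun A => ?_⟩
    · rcases List.mem_cons.1 hq with rfl | hq
      · refine ⟨?_, fun i => ?_⟩
        · show |sg s * sg t| = 1
          rw [abs_mul, sg_abs, sg_abs, one_mul]
        · have := sw_pos x s t i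
          rw [List.length_cons]; push_cast
          have : (0 : ℤ) ≤ p.length := Int.natCast_nonneg _
          linarith
      · obtain ⟨h4, h5⟩ := h2 q hq
        refine ⟨h4, fun i => ?_⟩
        have h6 := h5 i
        have h7 := sv_le t i
        rw [Pi.add_apply] at h6
        rw [List.length_cons]; push_cast
        rw [abs_le] at h6 h7 ⊢
        constructor <;> linarith [h6.1, h6.2, h7.1, h7.2]
    · have h8 : fl A (sw x s t :: S) = fl A [sw x s t] + fl A S := by
        rw [← List.singleton_append, fl_append]
      rw [h8, swap, li_cons, h3 A, List.cons_append, li_cons]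
      ring

/-- a step and its inverse -/
lemma cancel (x : Fin d → ℤ) (j : Fin d) (s : Bool) (p : List (Fin d × Bool)) :
    li A x ((j, s) :: (j, !s) :: p) = li A x p := by
  rw [li_cons, li_cons]
  have e0 : x + sv (j, s) + sv (j, !s) = x := by
    cases s <;> simp [sv]
  rw [e0]
  obtain ⟨e, he⟩ : ∃ e : Fin d → ℤ, e = Pi.single j 1 := ⟨_, rfl⟩
  cases s <;> simp only [ed, sv, sg, Bool.false_eq_true, Bool.not_false, Bool.not_true, if_false,
    if_true, ← he, ← sub_eq_add_neg]
  · ring
  · have e1 : x + e - e = x := by abel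
    rw [e1]; ring

lemma exists_inv {j : Fin d} {s : Bool} {p : List (Fin d × Bool)}
    (h : (((j, s) :: p).map sv).sum = 0) : (j, !s) ∈ p := by
  by_contra hc
  have h1 : (((j, s) :: p).map sv).sum j = 0 := by rw [h]; rfl
  rw [List.map_cons, List.sum_cons, Pi.add_apply] at h1
  have h2 : ∀ (q : List (Fin d × Bool)), ((q.map sv).sum) j = (q.map fun t => sv t j).sum := by
    intro q
    induction q with
    | nil => rfl
    | cons t q ih => rw [List.map_cons, List.sum_cons, Pi.add_apply, ih, List.map_cons,
        List.sum_cons]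
  rw [h2] at h1
  cases s with
  | true =>
    have h3 : 0 ≤ (p.map fun t => sv t j).sum := by
      refine List.sum_nonneg fun y hy => ?_
      obtain ⟨t, ht, rfl⟩ := List.mem_map.1 hy
      obtain ⟨i, b⟩ := t
      cases b with
      | true =>
        simp only [sv, if_true]
        by_cases hi : j = i
        · subst hi; simp
        · simp [hi]
      | false =>
        by_cases hi : j = i
        · subst hi; exact absurd ht hc
        · simp [sv, hi]
    have h4 : sv (j, true) j = 1 := by simp [sv]
    rw [h4] at h1
    linarith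
  | false =>
    have h3 : 0 ≤ (p.map fun t => -sv t j).sum := by
      refine List.sum_nonneg fun y hy => ?_
      obtain ⟨t, ht, rfl⟩ := List.mem_map.1 hy
      obtain ⟨i, b⟩ := t
      cases b with
      | false =>
        by_cases hi : j = i
        · subst hi; simp [sv]
        · simp [sv, hi]
      | true =>
        by_cases hi : j = i
        · subst hi; exact absurd ht hc
        · simp [sv, hi]
    have h4 : sv (j, false) j = -1 := by simp [sv]
    have h5 : (p.map fun t => -sv t j).sum = -(p.map fun t => sv t j).sum := by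
      rw [List.sum_neg, List.map_map]
      rfl
    rw [h4] at h1
    rw [h5] at h3
    linarith

/-- a closed path bounds a surface -/
theorem surface (n : ℕ) : ∀ (p : List (Fin d × Bool)) (x : Fin d → ℤ), p.length ≤ n →
    (p.map sv).sum = 0 → ∃ S : List (It d), S.length ≤ p.length ^ 2 ∧
      (∀ q ∈ S, |q.2.2.2| = 1 ∧ ∀ i, |q.1 i - x i| ≤ p.length) ∧
      ∀ A : Fin d → (Fin d → ℤ) → ℝ, li A x p = fl A S := by
  induction n with
  | zero =>
    intro p x hp _
    have : p = [] := List.length_eq_zero_iff.1 (by omega)
    subst this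
    exact ⟨[], by simp, fun q hq => absurd hq List.not_mem_nil, fun A => rfl⟩
  | succ n ih =>
    intro p x hp h0
    cases p with
    | nil => exact ⟨[], by simp, fun q hq => absurd hq List.not_mem_nil, fun A => rfl⟩
    | cons s p =>
      obtain ⟨j, s⟩ := s
      obtain ⟨p2, p3, rfl⟩ := List.append_of_mem (exists_inv h0)
      obtain ⟨S1, a1, a2, a3⟩ := move (j, s) p2 x
      have h1 : ((p2 ++ p3).map sv).sum = 0 := by
        have e0 : sv (j, s) + sv (j, !s) = 0 := by
          cases s <;> simp [sv]
        have e1 : (((j, s) :: (p2 ++ (j, !s) :: p3)).map sv).sum =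
            ((p2 ++ p3).map sv).sum + (sv (j, s) + sv (j, !s)) := by
          simp only [List.map_cons, List.map_append, List.sum_cons, List.sum_append]
          abel
        rw [← h0, e1, e0, add_zero]
      have hlen : ((j, s) :: (p2 ++ (j, !s) :: p3)).length = (p2 ++ p3).length + 2 := by
        simp only [List.length_cons, List.length_append]
        omega
      obtain ⟨S2, b1, b2, b3⟩ := ih (p2 ++ p3) x (by omega) h1
      refine ⟨S1 ++ S2, ?_, fun q hq => ?_, fun A => ?_⟩
      · rw [hlen, List.length_append, a1]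
        have : p2.length ≤ (p2 ++ p3).length := by simp
        nlinarith
      · rw [hlen]
        rcases List.mem_append.1 hq with hq | hq
        · obtain ⟨c1, c2⟩ := a2 q hq
          refine ⟨c1, fun i => (c2 i).trans ?_⟩
          have : p2.length ≤ (p2 ++ p3).length := by simp
          omega
        · obtain ⟨c1, c2⟩ := b2 q hq
          refine ⟨c1, fun i => (c2 i).trans ?_⟩
          push_cast; linarith
      · rw [fl_append, ← b3 A]
        have e1 : (j, s) :: (p2 ++ (j, !s) :: p3) = ((j, s) :: p2) ++ ((j, !s) :: p3) := by simp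
        rw [e1, li_append, a3 A, li_append (p := p2) (q := [(j, s)])]
        have e2 : x + (((j, s) :: p2).map sv).sum = x + (p2.map sv).sum + sv (j, s) := by
          rw [List.map_cons, List.sum_cons]; abel
        have e3 : li A (x + (p2.map sv).sum) [(j, s)] +
            li A (x + (p2.map sv).sum + sv (j, s)) ((j, !s) :: p3) =
            li A (x + (p2.map sv).sum) ((j, s) :: (j, !s) :: p3) := by
          rw [li_cons (p := []), li_nil, add_zero, li_cons (p := (j, !s) :: p3)]
        have e4 := cancel (A := A) (x + (p2.map sv).sum) j s p3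
        rw [e2, li_append x p2 p3]
        linarith

end

end Pool.Agent.W2helper67.YM
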