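import Mathlib
import Pool.Agent.W2helper67.YM.Path

/-!
# Closed paths on the periodic lattice: currents, surfaces, holonomies in the comb gauge
-/

open MeasureTheory Filter Matrix
open scoped Topology Matrix.Norms.Frobenius
open Pool.Agent.H906R3.YM hiding Pl
open Pool.Agent.W793.YM hiding rs
open Pool.Agent.TH618.YM

namespace Pool.Agent.W2helper67.YM

set_option linter.unusedSectionVars false

noncomputable section

variable {d l : ℕ} [NeZero l]

/-- a one form of the torus on the infinite lattice -/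
def pa (a : Fin d → St d l → ℝ) : Fin d → (Fin d → ℤ) → ℝ := fun k z => a k (zt l z)

lemma dA_pa (a : Fin d → St d l → ℝ) (j k : Fin d) (z : Fin d → ℤ) :
    dA (pa a) j k z = d1 a j k (zt l z) := by
  unfold dA pa d1 Dp
  simp only [Pi.sub_apply, zt_add]

/-- the two form of a signed plaquette -/
def E2 (l : ℕ) [NeZero l] (q : It d) : Fm d l := fun j' k' =>
  q.2.2.2 • ((if j' = q.2.1 ∧ k' = q.2.2.1 then dl (zt l q.1) else 0) -
    (if j' = q.2.2.1 ∧ k' = q.2.1 then dl (zt l q.1) else 0))

lemma E2_asy (q : It d) : Asy (E2 l q) := by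
  intro j k
  unfold E2
  rw [← smul_neg, neg_sub]
  congr 1
  have h1 : (j = q.2.1 ∧ k = q.2.2.1) = (k = q.2.2.1 ∧ j = q.2.1) := propext and_comm
  have h2 : (j = q.2.2.1 ∧ k = q.2.1) = (k = q.2.1 ∧ j = q.2.2.1) := propext and_comm
  simp only [h1, h2]

lemma ip2_zero_left (g : St d l → ℝ) : ip2 0 g = 0 := by
  unfold ip2; simp

lemma sum_ite_and (j k : Fin d) (F : Fin d → Fin d → ℝ) :
    ∑ j', ∑ k', (if j' = j ∧ k' = k then F j' k' else 0) = F j k := by
  rw [Finset.sum_eq_single j]
  · rw [Finset.sum_eq_single k]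
    · rw [if_pos ⟨rfl, rfl⟩]
    · intro k' _ hk'; rw [if_neg (fun h => hk' h.2)]
    · intro hn; exact absurd (Finset.mem_univ _) hn
  · intro j' _ hj'
    exact Finset.sum_eq_zero fun k' _ => if_neg (fun h => hj' h.1)
  · intro hn; exact absurd (Finset.mem_univ _) hn

lemma ipF_E2 (q : It d) {g : Fm d l} (hg : Asy g) :
    ipF (E2 l q) g = q.2.2.2 * g q.2.1 q.2.2.1 (zt l q.1) := by
  unfold ipF E2
  have h1 : ∀ j' k' : Fin d, ip2 (q.2.2.2 •
      ((if j' = q.2.1 ∧ k' = q.2.2.1 then dl (zt l q.1) else 0) -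
      (if j' = q.2.2.1 ∧ k' = q.2.1 then dl (zt l q.1) else 0))) (g j' k') =
      q.2.2.2 * ((if j' = q.2.1 ∧ k' = q.2.2.1 then g j' k' (zt l q.1) else 0) -
      (if j' = q.2.2.1 ∧ k' = q.2.1 then g j' k' (zt l q.1) else 0)) := by
    intro j' k'
    rw [ip2_smul_left, ip2_sub_left]
    congr 2
    · split_ifs
      · exact ip2_dl _ _
      · exact ip2_zero_left _
    · split_ifs
      · exact ip2_dl _ _
      · exact ip2_zero_left _
  simp only [h1, ← Finset.mul_sum, Finset.sum_sub_distrib]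
  rw [sum_ite_and, sum_ite_and, hg q.2.2.1 q.2.1, Pi.neg_apply]
  ring

/-- the two form of a family of signed plaquettes -/
def Bf (l : ℕ) [NeZero l] (S : List (It d)) : Fm d l := (S.map (E2 l)).sum

lemma asy_zero : Asy (0 : Fm d l) := fun j k => by simp

lemma asy_add {f g : Fm d l} (hf : Asy f) (hg : Asy g) : Asy (f + g) := fun j k => by
  simp only [Pi.add_apply]
  rw [hf j k, hg j k]; abel

lemma asy_smul (c : ℝ) {f : Fm d l} (hf : Asy f) : Asy (c • f) := fun j k => by
  simp only [Pi.smul_apply]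
  rw [hf j k, smul_neg]

lemma asy_sum {ι : Type*} (t : Finset ι) {f : ι → Fm d l} (hf : ∀ i, Asy (f i)) :
    Asy (∑ i ∈ t, f i) := by
  classical
  induction t using Finset.induction_on with
  | empty => rw [Finset.sum_empty]; exact asy_zero
  | insert i t hi ih => rw [Finset.sum_insert hi]; exact asy_add (hf i) ih

lemma Bf_asy (S : List (It d)) : Asy (Bf l S) := by
  unfold Bf
  induction S with
  | nil => exact asy_zero
  | cons q S ih => rw [List.map_cons, List.sum_cons]; exact asy_add (E2_asy q) ih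

lemma ipF_zero_left (g : Fm d l) : ipF 0 g = 0 := by
  unfold ipF
  simp [ip2_zero_left]

lemma ipF_Bf (S : List (It d)) {g : Fm d l} (hg : Asy g) :
    ipF (Bf l S) g = (S.map fun q => q.2.2.2 * g q.2.1 q.2.2.1 (zt l q.1)).sum := by
  unfold Bf
  induction S with
  | nil => rw [List.map_nil, List.sum_nil, ipF_zero_left]; rfl
  | cons q S ih =>
    rw [List.map_cons, List.sum_cons, ipF_add_left, ih, ipF_E2 q hg, List.map_cons, List.sum_cons]

lemma ipF_Bf_d1 (S : List (It d)) (a : Fin d → St d l → ℝ) :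
    ipF (Bf l S) (d1 a) = fl (pa a) S := by
  rw [ipF_Bf S (d1_asy a)]
  unfold fl
  simp only [dA_pa]

/-- the mass of the two form of a plaquette -/
lemma E2_l1 {q : It d} (hq : |q.2.2.2| = 1) : ∑ j, ∑ k, ∑ x, |E2 l q j k x| ≤ 2 := by
  have h1 : ∀ j' k' : Fin d, ∑ x, |E2 l q j' k' x| ≤
      (if j' = q.2.1 ∧ k' = q.2.2.1 then 1 else 0) +
      (if j' = q.2.2.1 ∧ k' = q.2.1 then 1 else 0) := by
    intro j' k'
    have h2 : ∀ x : St d l, |E2 l q j' k' x| ≤
        (if j' = q.2.1 ∧ k' = q.2.2.1 then |dl (zt l q.1) x| else 0) +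
        (if j' = q.2.2.1 ∧ k' = q.2.1 then |dl (zt l q.1) x| else 0) := by
      intro x
      unfold E2
      rw [Pi.smul_apply, smul_eq_mul, abs_mul, hq, one_mul, Pi.sub_apply]
      refine (abs_sub _ _).trans (add_le_add ?_ ?_)
      · split_ifs
        · exact le_rfl
        · simp
      · split_ifs
        · exact le_rfl
        · simp
    refine (Finset.sum_le_sum fun x _ => h2 x).trans (le_of_eq ?_)
    rw [Finset.sum_add_distrib]
    congr 1
    · split_ifs
      · exact dl_l1 _
      · simp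
    · split_ifs
      · exact dl_l1 _
      · simp
  refine (Finset.sum_le_sum fun j _ => Finset.sum_le_sum fun k _ => h1 j k).trans ?_
  simp only [Finset.sum_add_distrib]
  rw [sum_ite_and _ _ (fun _ _ => (1 : ℝ)), sum_ite_and _ _ (fun _ _ => (1 : ℝ))]
  norm_num

lemma Bf_l1 {S : List (It d)} (hS : ∀ q ∈ S, |q.2.2.2| = 1) :
    ∑ j, ∑ k, ∑ x, |Bf l S j k x| ≤ 2 * S.length := by
  unfold Bf
  induction S with
  | nil => simp
  | cons q S ih =>
    have h1 := ih fun q' hq' => hS q' (List.mem_cons_of_mem _ hq')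
    have h2 := E2_l1 (l := l) (hS q List.mem_cons_self)
    rw [List.map_cons, List.sum_cons, List.length_cons]
    have h3 : ∑ j, ∑ k, ∑ x, |(E2 l q + (List.map (E2 l) S).sum) j k x| ≤
        ∑ j, ∑ k, ∑ x, |E2 l q j k x| + ∑ j, ∑ k, ∑ x, |(List.map (E2 l) S).sum j k x| := by
      simp only [← Finset.sum_add_distrib]
      exact Finset.sum_le_sum fun j _ => Finset.sum_le_sum fun k _ => Finset.sum_le_sum
        fun x _ => abs_add_le _ _
    push_cast
    linarith

lemma Bf_supp {S : List (It d)} {j k : Fin d} {x : St d l} (h : Bf l S j k x ≠ 0) :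
    ∃ q ∈ S, x = zt l q.1 := by
  unfold Bf at h
  induction S with
  | nil => exact absurd rfl h
  | cons q S ih =>
    rw [List.map_cons, List.sum_cons] at h
    by_cases h1 : E2 l q j k x = 0
    · have h2 : (List.map (E2 l) S).sum j k x ≠ 0 := by
        intro h3
        apply h
        show E2 l q j k x + (List.map (E2 l) S).sum j k x = 0
        rw [h1, h3, add_zero]
      obtain ⟨q', hq', hx⟩ := ih h2
      exact ⟨q', List.mem_cons_of_mem _ hq', hx⟩
    · refine ⟨q, List.mem_cons_self, ?_⟩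
      by_contra hx
      apply h1
      unfold E2 dl
      rw [Pi.smul_apply, Pi.sub_apply]
      have e1 : ∀ (P : Prop) [Decidable P], (if P then (fun z : St d l =>
          if z = zt l q.1 then (1 : ℝ) else 0) else 0) x = 0 := by
        intro P _
        split_ifs
        · exact if_neg hx
        · rfl
      rw [e1, e1]; simp

/-! ### currents -/

/-- the base points, directions and signs of the links of a path -/
def yy (x : Fin d → ℤ) (p : List (Fin d × Bool)) (s : Fin (edges x p).length) : Fin d → ℤ :=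
  ((edges x p)[s]).1

/-- the direction -/
def kk (x : Fin d → ℤ) (p : List (Fin d × Bool)) (s : Fin (edges x p).length) : Fin d :=
  ((edges x p)[s]).2.1

/-- the sign -/
def ww (x : Fin d → ℤ) (p : List (Fin d × Bool)) (s : Fin (edges x p).length) : ℝ :=
  ((edges x p)[s]).2.2

lemma edges_mem {x : Fin d → ℤ} {p : List (Fin d × Bool)} {e : (Fin d → ℤ) × Fin d × ℝ}
    (h : e ∈ edges x p) : |e.2.2| = 1 ∧ ∀ i, |e.1 i - x i| ≤ p.length := by
  induction p generalizing x with
  | nil => exact absurd h List.not_mem_nil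
  | cons s p ih =>
    rw [edges] at h
    rcases List.mem_cons.1 h with rfl | h
    · refine ⟨sg_abs s, fun i => ?_⟩
      unfold ed
      rw [List.length_cons]; push_cast
      have h1 : (0 : ℤ) ≤ p.length := Int.natCast_nonneg _
      split_ifs
      · rw [sub_self, abs_zero]; linarith
      · rw [Pi.sub_apply]
        have := single_le s.1 i
        have e1 : x i - (Pi.single s.1 1 : Fin d → ℤ) i - x i =
            -(Pi.single s.1 1 : Fin d → ℤ) i := by ring
        rw [e1, abs_neg]; linarith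
    · obtain ⟨h1, h2⟩ := ih h
      refine ⟨h1, fun i => ?_⟩
      have h3 := h2 i
      have h4 := sv_le s i
      rw [Pi.add_apply] at h3
      rw [List.length_cons]; push_cast
      rw [abs_le] at h3 h4 ⊢
      constructor <;> linarith [h3.1, h3.2, h4.1, h4.2]

lemma ww_abs (x : Fin d → ℤ) (p : List (Fin d × Bool)) (s : Fin (edges x p).length) :
    |ww x p s| = 1 := (edges_mem (List.getElem_mem s.2)).1

lemma yy_near (x : Fin d → ℤ) (p : List (Fin d × Bool)) (s : Fin (edges x p).length) (i : Fin d) :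
    |yy x p s i - x i| ≤ p.length := (edges_mem (List.getElem_mem s.2)).2 i

lemma li_sum (A : Fin d → (Fin d → ℤ) → ℝ) (x : Fin d → ℤ) (p : List (Fin d × Bool)) :
    li A x p = ∑ s, ww x p s * A (kk x p s) (yy x p s) := by
  unfold li ww kk yy
  exact (Fin.sum_univ_fun_getElem (edges x p)
    (fun e => e.2.2 * A e.2.1 e.1)).symm

lemma sum_ip2_Jw' {κ : Type*} [Fintype κ] (y : κ → Fin d → ℤ) (k : κ → Fin d) (w : κ → ℝ)
    (a : Fin d → St d l → ℝ) :
    ∑ k0, ip2 (Jw y k w l k0) (a k0) = ∑ s, w s * a (k s) (zt l (y s)) := by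
  unfold Jw
  simp only [ip2_sum_left, ip2_smul_left, ip2_dl]
  rw [Finset.sum_comm]
  refine Finset.sum_congr rfl fun s _ => ?_
  rw [Finset.sum_eq_single (k s)]
  · rw [if_pos rfl]
  · intro k0 _ hk0; rw [if_neg (fun h => hk0 h.symm), zero_mul]
  · intro hn; exact absurd (Finset.mem_univ _) hn

/-- the boundary of the surface is the path -/
theorem ds2_Bf {x : Fin d → ℤ} {p : List (Fin d × Bool)} {S : List (It d)}
    (h : ∀ A : Fin d → (Fin d → ℤ) → ℝ, li A x p = fl A S) (k0 : Fin d) :
    ds2 (Bf l S) k0 = Jw (yy x p) (kk x p) (ww x p) l k0 := by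
  have h1 : ∀ a : Fin d → St d l → ℝ, ∑ k, ip2 (ds2 (Bf l S) k) (a k) =
      ∑ k, ip2 (Jw (yy x p) (kk x p) (ww x p) l k) (a k) := by
    intro a
    rw [← ipF_ds (Bf_asy S), ipF_Bf_d1, ← h, li_sum, sum_ip2_Jw']
    rfl
  funext z
  have h2 := h1 fun k => if k = k0 then dl z else 0
  have h3 : ∀ F : Fin d → St d l → ℝ, ∑ k, ip2 (F k) (if k = k0 then dl z else 0) = F k0 z := by
    intro F
    rw [Finset.sum_eq_single k0]
    · rw [if_pos rfl, ip2_comm, ip2_dl]
    · intro k _ hk
      rw [if_neg hk, ip2_comm, ip2_zero_left]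
    · intro hn; exact absurd (Finset.mem_univ _) hn
  rw [h3, h3] at h2
  exact h2

lemma ds2_add (f g : Fm d l) : ds2 (f + g) = ds2 f + ds2 g := by
  funext k
  unfold ds2
  simp only [Pi.add_apply, Dm_add, Finset.sum_add_distrib]

lemma ds2_smul (c : ℝ) (f : Fm d l) : ds2 (c • f) = c • ds2 f := by
  funext k
  unfold ds2
  simp only [Pi.smul_apply, Dm_smul, ← Finset.smul_sum]

lemma ds2_zero : ds2 (0 : Fm d l) = 0 := by
  have := ds2_smul (0 : ℝ) (0 : Fm d l)
  rwa [zero_smul, zero_smul] at this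

lemma ds2_sum {ι : Type*} (t : Finset ι) (f : ι → Fm d l) :
    ds2 (∑ i ∈ t, f i) = ∑ i ∈ t, ds2 (f i) := by
  classical
  induction t using Finset.induction_on with
  | empty => rw [Finset.sum_empty, Finset.sum_empty, ds2_zero]
  | insert i t hi ih => rw [Finset.sum_insert hi, Finset.sum_insert hi, ds2_add, ih]

/-! ### several paths -/

section several

variable {r n : ℕ} (x : Fin r → Fin d → ℤ) (p : Fin r → List (Fin d × Bool))
  (S : Fin r → List (It d)) (α : Fin r → Fin n) (t : Fin r → ℝ)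

/-- the index of the links of a family of paths -/
abbrev KK := Σ i : Fin r, Fin (edges (x i) (p i)).length

/-- the test form -/
def ff (l : ℕ) [NeZero l] : Fin n → Fm d l := fun a =>
  ∑ i, (if α i = a then t i else 0) • Bf l (S i)

/-- the weights of the links -/
def wt' (a : Fin n) (s : KK x p) : ℝ := (if α s.1 = a then t s.1 else 0) * ww (x s.1) (p s.1) s.2

lemma ff_asy (a : Fin n) : Asy (ff S α t l a) :=
  asy_sum _ fun _ => asy_smul _ (Bf_asy _)

lemma ds2_ff (h : ∀ i, ∀ A : Fin d → (Fin d → ℤ) → ℝ, li A (x i) (p i) = fl A (S i)) (a : Fin n)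
    (k0 : Fin d) : ds2 (ff S α t l a) k0 = Jw (fun s : KK x p => yy (x s.1) (p s.1) s.2)
      (fun s => kk (x s.1) (p s.1) s.2) (wt' x p α t a) l k0 := by
  unfold ff
  rw [ds2_sum, Finset.sum_apply]
  unfold Jw
  rw [Fintype.sum_sigma]
  refine Finset.sum_congr rfl fun i _ => ?_
  rw [ds2_smul, Pi.smul_apply, ds2_Bf (h i) k0]
  unfold Jw wt'
  rw [Finset.smul_sum]
  refine Finset.sum_congr rfl fun s _ => ?_
  rw [smul_smul]
  congr 1
  simp only
  split_ifs <;> ring

lemma ff_N1 (hS : ∀ i, ∀ q ∈ S i, |q.2.2.2| = 1) :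
    N1 (ff S α t l) ≤ ∑ i, |t i| * (2 * (S i).length) := by
  have h1 : ∀ a : Fin n, ∑ j, ∑ k, ∑ x, |ff S α t l a j k x| ≤
      ∑ i, (if α i = a then |t i| * (2 * (S i).length) else 0) := by
    intro a
    have h2 : ∀ j k (x : St d l), |ff S α t l a j k x| ≤
        ∑ i, (if α i = a then |t i| else 0) * |Bf l (S i) j k x| := by
      intro j k x
      unfold ff
      simp only [Finset.sum_apply, Pi.smul_apply, smul_eq_mul]
      refine (Finset.abs_sum_le_sum_abs _ _).trans (Finset.sum_le_sum fun i _ => ?_)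
      rw [abs_mul]
      refine mul_le_mul_of_nonneg_right ?_ (abs_nonneg _)
      split_ifs
      · exact le_rfl
      · simp
    refine (Finset.sum_le_sum fun j _ => Finset.sum_le_sum fun k _ => Finset.sum_le_sum
      fun x _ => h2 j k x).trans ?_
    have h3 : ∑ j, ∑ k, ∑ x, ∑ i, (if α i = a then |t i| else 0) * |Bf l (S i) j k x| =
        ∑ i, (if α i = a then |t i| else 0) * ∑ j, ∑ k, ∑ x, |Bf l (S i) j k x| := by
      simp only [Finset.mul_sum]
      have e1 : ∀ j k : Fin d, ∑ x, ∑ i, (if α i = a then |t i| else 0) * |Bf l (S i) j k x| =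
          ∑ i, ∑ x, (if α i = a then |t i| else 0) * |Bf l (S i) j k x| := fun j k =>
        Finset.sum_comm
      simp only [e1]
      have e2 : ∀ j : Fin d, ∑ k, ∑ i, ∑ x, (if α i = a then |t i| else 0) *
          |Bf l (S i) j k x| = ∑ i, ∑ k, ∑ x, (if α i = a then |t i| else 0) *
          |Bf l (S i) j k x| := fun j => Finset.sum_comm
      simp only [e2]
      exact Finset.sum_comm
    rw [h3]
    refine Finset.sum_le_sum fun i _ => ?_
    split_ifs
    · exact mul_le_mul_of_nonneg_left (Bf_l1 (hS i)) (abs_nonneg _)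
    · rw [zero_mul]
  unfold N1
  refine (Finset.sum_le_sum fun a _ => h1 a).trans (le_of_eq ?_)
  rw [Finset.sum_comm]
  refine Finset.sum_congr rfl fun i _ => ?_
  rw [Finset.sum_ite_eq Finset.univ (α i)]
  simp

lemma ff_supp {a : Fin n} {j k : Fin d} {z : St d l} (h : ff S α t l a j k z ≠ 0) :
    ∃ i, ∃ q ∈ S i, z = zt l q.1 := by
  by_contra hc
  push Not at hc
  apply h
  unfold ff
  simp only [Finset.sum_apply, Pi.smul_apply, smul_eq_mul]
  refine Finset.sum_eq_zero fun i _ => ?_
  have : Bf l (S i) j k z = 0 := by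
    by_contra h0
    obtain ⟨q, hq, hz⟩ := Bf_supp h0
    exact hc i q hq hz
  rw [this, mul_zero]

lemma wt_l1 (a : Fin n) : ∑ s, |wt' x p α t a s| ≤ ∑ i, |t i| * (p i).length := by
  rw [Fintype.sum_sigma]
  refine Finset.sum_le_sum fun i _ => ?_
  have h1 : ∀ s, |wt' x p α t a ⟨i, s⟩| ≤ |t i| := by
    intro s
    unfold wt'
    rw [abs_mul, ww_abs, mul_one]
    simp only
    split_ifs
    · exact le_rfl
    · simp
  refine (Finset.sum_le_sum fun s _ => h1 s).trans (le_of_eq ?_)
  rw [Finset.sum_const, Finset.card_univ, Fintype.card_fin, edges_length, nsmul_eq_mul]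
  ring

end several

end

end Pool.Agent.W2helper67.YM
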