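import Mathlib
import Pool.Agent.W2helper67.YM.Tor

/-!
# The holonomy of a closed path in the comb gauge, to first order
-/

open MeasureTheory Filter Matrix
open scoped Topology Matrix.Norms.Frobenius
open Pool.Agent.H906R3.YM hiding Pl
open Pool.Agent.W793.YM hiding rs
open Pool.Agent.TH618.YM

namespace Pool.Agent.W2helper67.YM

set_option linter.unusedSectionVars false

noncomputable section

variable {G : Type*} [Group G] [TopologicalSpace G] [IsTopologicalGroup G] [CompactSpace G]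
  [SecondCountableTopology G] [MeasurableSpace G] [BorelSpace G]
  {N n : ℕ} {L : LD G N n} {d l : ℕ} [NeZero l] {M : ℕ}

/-- Bessel's inequality -/
lemma bessel (g : G) : ∑ a, fi L a g ^ 2 ≤ dv L g ^ 2 := by
  have h1 : ∀ a, fi L a g ^ 2 = ip (L.X a) (L.rho g - 1) ^ 2 := by
    intro a
    have h3 : fi L a g = -ip (L.X a) (L.rho g - 1) := by
      have e1 : fi L a g = trX L a (L.rho g - 1) := by
        rw [map_sub, trX_one, sub_zero]; rfl
      rw [e1]
      unfold trX
      rw [ip_apply, ip_apply, conjTranspose_conjTranspose]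
      have e2 : (L.X a)ᴴ = -L.X a := skew a
      rw [e2, neg_mul, trace_neg, Complex.neg_re, neg_neg]
    rw [h3]; ring
  simp only [h1]
  have h2 := norm_perp (X := L.X) (fun a b => ip_X a b) (L.rho g - 1)
  have h3 : 0 ≤ ‖L.rho g - 1 - ∑ a, ip (L.X a) (L.rho g - 1) • L.X a‖ ^ 2 := sq_nonneg _
  unfold dv
  linarith

lemma wv_le_of {w : Fin d → ℤ} (hMl : M < l) (h0 : ∀ i, 0 ≤ w i) (h1 : ∀ i, w i + 1 < M)
    (i : Fin d) : wv (zt l w) i + 1 < M := by
  have hMl' : (M : ℤ) < l := by exact_mod_cast hMl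
  have hw := wv_zt (l := l) (z := w) (fun i' => ⟨h0 i', by have := h1 i'; omega⟩) i
  have e2 := h1 i
  omega

lemma tl_dv (U : Ed d l → G) (hMl : M < l) {w : Fin d → ℤ} (h0 : ∀ i, 0 ≤ w i)
    (h1 : ∀ i, w i + 1 < M) (i : Fin d) : dv L (tlT U (zt l w) i) ≤ d * M * sB L M U := by
  refine dv_tlT U (fun i' => ?_) ?_
  · have := wv_le_of (l := l) hMl h0 h1 i'; omega
  · have := wv_le_of (l := l) hMl h0 h1 i; omega

/-- the holonomy of a path to first order -/
lemma hol_fi (a : Fin n) (U : Ed d l → G) (hMl : M < l) (p : List (Fin d × Bool))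
    (z : Fin d → ℤ) (h1 : ∀ i, (p.length : ℤ) ≤ z i) (h2 : ∀ i, z i + p.length + 1 < M) :
    |fi L a (Pc U (zt l z) * hol (lf U) z p * (Pc U (zt l (dest z p)))⁻¹) -
      li (pa (at' L U a)) z p| ≤ (p.length * (d * M * sB L M U)) ^ 2 := by
  obtain ⟨D, hD⟩ : ∃ D, D = d * M * sB L M U := ⟨_, rfl⟩
  have hD0 : 0 ≤ D := by
    have := sB_nonneg (L := L) M U
    rw [hD]; positivity
  rw [← hD]
  induction p generalizing z with
  | nil =>
    simp only [hol, dest, mul_one, mul_inv_cancel, fi_one, li_nil]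
    simp
  | cons s p ih =>
    have hlen : (((s :: p).length : ℕ) : ℤ) = (p.length : ℤ) + 1 := by simp
    have hlen' : (((s :: p).length : ℕ) : ℝ) = (p.length : ℝ) + 1 := by simp
    have hz1 : ∀ i, (p.length : ℤ) ≤ (z + sv s) i := fun i => by
      have e1 := h1 i
      have e2 := sv_le s i
      rw [hlen] at e1
      rw [abs_le] at e2
      rw [Pi.add_apply]; linarith [e2.1]
    have hz2 : ∀ i, (z + sv s) i + p.length + 1 < M := fun i => by
      have e1 := h2 i
      have e2 := sv_le s i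
      rw [hlen] at e1
      rw [abs_le] at e2
      rw [Pi.add_apply]; linarith [e2.2]
    have i1 := ih (z + sv s) hz1 hz2
    have i2 := hol_dv (L := L) U hMl p (z + sv s) hz1 hz2
    rw [← hD] at i2
    obtain ⟨g, hg⟩ : ∃ g, g = Pc U (zt l (z + sv s)) * hol (lf U) (z + sv s) p *
      (Pc U (zt l (dest (z + sv s) p)))⁻¹ := ⟨_, rfl⟩
    rw [← hg] at i1 i2
    obtain ⟨g1, hg1⟩ : ∃ g1, Pc U (zt l z) * hol (lf U) z (s :: p) *
        (Pc U (zt l (dest z (s :: p))))⁻¹ = g1 * g ∧ dv L g1 ≤ D ∧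
        fi L a g1 = (ed z s).2.2 * pa (at' L U a) (ed z s).2.1 (ed z s).1 := by
      obtain ⟨i, s⟩ := s
      have hpl : (0 : ℤ) ≤ p.length := Int.natCast_nonneg _
      cases s with
      | true =>
        refine ⟨tlT U (zt l z) i, ?_, ?_, ?_⟩
        · rw [hg, dest_cons]
          have e1 : z + sv (i, true) = z + Pi.single i 1 := by simp [sv]
          rw [e1, zt_add]
          have h5 : hol (lf U) z ((i, true) :: p) =
              U (zt l z, i) * hol (lf U) (z + Pi.single i 1) p := rfl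
          rw [h5]
          unfold tlT
          group
        · rw [hD]
          exact tl_dv U hMl (fun k => by have := h1 k; rw [hlen] at this; linarith)
            (fun k => by have := h2 k; rw [hlen] at this; linarith) i
        · simp only [ed, sg, if_true, one_mul]
          rfl
      | false =>
        refine ⟨(tlT U (zt l (z - Pi.single i 1)) i)⁻¹, ?_, ?_, ?_⟩
        · rw [hg, dest_cons]
          have e1 : z + sv (i, false) = z - Pi.single i 1 := by simp [sv, sub_eq_add_neg]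
          rw [e1]
          have h5 : hol (lf U) z ((i, false) :: p) =
              (U (zt l (z - Pi.single i 1), i))⁻¹ * hol (lf U) (z - Pi.single i 1) p := rfl
          rw [h5]
          unfold tlT
          rw [zt_sub]
          group
        · rw [dv_inv, hD]
          have hs : ∀ k, |(Pi.single i 1 : Fin d → ℤ) k| ≤ 1 := fun k => single_le i k
          have hsn : ∀ k, 0 ≤ (Pi.single i 1 : Fin d → ℤ) k := fun k => by
            by_cases h : k = i
            · subst h; simp
            · simp [h]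
          exact tl_dv U hMl (fun k => by
            have e1 := h1 k
            have e2 := hs k
            rw [hlen] at e1
            rw [abs_le] at e2
            rw [Pi.sub_apply]; linarith [e2.2]) (fun k => by
            have e1 := h2 k
            have e2 := hsn k
            rw [hlen] at e1
            rw [Pi.sub_apply]; linarith) i
        · simp only [ed, sg, Bool.false_eq_true, if_false, fi_inv]
          rw [neg_one_mul]
          rfl
    obtain ⟨e1, e2, e3⟩ := hg1
    rw [e1, li_cons, ← e3, hlen']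
    have e4 := fi_mul (L := L) a g1 g
    have e5 : dv L g1 * dv L g ≤ D * (p.length * D) := mul_le_mul e2 i2 (dv_nonneg _) hD0
    have hk : (0 : ℝ) ≤ p.length := Nat.cast_nonneg _
    rw [abs_le] at i1 e4 ⊢
    constructor <;> nlinarith [i1.1, i1.2, e4.1, e4.2, sq_nonneg D, mul_nonneg hk (sq_nonneg D)]

/-- the flux through a surface -/
def Ph (L : LD G N n) (S : List (It d)) (a : Fin n) (U : Ed d l → G) : ℝ :=
  ipF (Bf l S) (Fz L U a)

lemma Ph_eq (S : List (It d)) (a : Fin n) (U : Ed d l → G) :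
    Ph L S a U = (S.map fun q => q.2.2.2 * Fz L U a q.2.1 q.2.2.1 (zt l q.1)).sum :=
  ipF_Bf S (Fz_asy U a)

lemma list_abs {ι : Type*} {S : List ι} {f g : ι → ℝ} {B : ℝ}
    (h : ∀ q ∈ S, |f q - g q| ≤ B) : |(S.map f).sum - (S.map g).sum| ≤ S.length * B := by
  induction S with
  | nil => simp
  | cons q S ih =>
    have h1 := ih fun q' hq' => h q' (List.mem_cons_of_mem _ hq')
    have h2 := h q List.mem_cons_self
    rw [List.map_cons, List.map_cons, List.sum_cons, List.sum_cons, List.length_cons]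
    push_cast
    rw [abs_le] at h1 h2 ⊢
    constructor <;> linarith [h1.1, h1.2, h2.1, h2.2]

lemma Ph_li (S : List (It d)) (a : Fin n) (U : Ed d l → G) (hMl : M < l)
    (hS : ∀ q ∈ S, |q.2.2.2| = 1 ∧ (∀ i, 0 ≤ q.1 i) ∧ ∀ i, q.1 i + 1 < M) :
    |Ph L S a U - fl (pa (at' L U a)) S| ≤ S.length * (6 * (d * M * sB L M U) ^ 2) := by
  rw [Ph_eq]
  unfold fl
  simp only [dA_pa]
  refine list_abs fun q hq => ?_
  obtain ⟨h1, h2, h3⟩ := hS q hq
  rw [← mul_sub, abs_mul, h1, one_mul]
  exact Fz_closed (fun i => wv_le_of hMl h2 h3 i) hMl a _ _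

/-- the loop variable and the fluxes -/
theorem loop_est {C0 : ℝ} (hC0 : 0 ≤ C0)
    (hcar : ∀ g : G, dv L g ^ 2 ≤ ∑ a, fi L a g ^ 2 + C0 * dv L g ^ 4) (U : Ed d l → G)
    (hMl : M < l) {p : List (Fin d × Bool)} {z : Fin d → ℤ} (hcl : dest z p = z)
    (h1 : ∀ i, (p.length : ℤ) ≤ z i) (h2 : ∀ i, z i + p.length + 1 < M) {S : List (It d)}
    (hlen : S.length ≤ p.length ^ 2)
    (hS : ∀ q ∈ S, |q.2.2.2| = 1 ∧ ∀ i, |q.1 i - z i| ≤ p.length)
    (hb : ∀ A : Fin d → (Fin d → ℤ) → ℝ, li A z p = fl A S) {E : ℝ}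
    (hE : E = p.length * (d * M * sB L M U)) :
    |2 * we L (hol (lf U) z p) - ∑ a, Ph L S a U ^ 2| ≤
      C0 * E ^ 4 + n * (7 * E ^ 2 * (2 * E + 7 * E ^ 2)) ∧
      dv L (hol (lf U) z p) ≤ E ∧ ∀ a, |Ph L S a U| ≤ E + 7 * E ^ 2 := by
  obtain ⟨D, hD⟩ : ∃ D, D = d * M * sB L M U := ⟨_, rfl⟩
  have hD0 : 0 ≤ D := by
    have := sB_nonneg (L := L) M U
    rw [hD]; positivity
  rw [← hD] at hE
  have hE0 : 0 ≤ E := by rw [hE]; positivity
  obtain ⟨g, hg⟩ : ∃ g, g = Pc U (zt l z) * hol (lf U) z p * (Pc U (zt l z))⁻¹ := ⟨_, rfl⟩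
  have hdv : dv L g = dv L (hol (lf U) z p) := by rw [hg, dv_conj]
  have a1 : dv L g ≤ E := by
    have := hol_dv (L := L) U hMl p z h1 h2
    rw [hcl, ← hg, ← hD, ← hE] at this
    exact this
  have a2 : ∀ a, |fi L a g - li (pa (at' L U a)) z p| ≤ E ^ 2 := by
    intro a
    have := hol_fi (L := L) a U hMl p z h1 h2
    rw [hcl, ← hg, ← hD, ← hE] at this
    exact this
  have a3 : ∀ a, |Ph L S a U - fl (pa (at' L U a)) S| ≤ 6 * E ^ 2 := by
    intro a
    have h3 := Ph_li (L := L) S a U hMl fun q hq => by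
      obtain ⟨e1, e2⟩ := hS q hq
      refine ⟨e1, fun i => ?_, fun i => ?_⟩
      · have := e2 i; rw [abs_le] at this; have := h1 i; linarith [this]
      · have := e2 i; rw [abs_le] at this; have := h2 i; linarith [this]
    refine h3.trans ?_
    rw [← hD]
    have h4 : (S.length : ℝ) ≤ (p.length : ℝ) ^ 2 := by exact_mod_cast hlen
    calc (S.length : ℝ) * (6 * D ^ 2) ≤ (p.length : ℝ) ^ 2 * (6 * D ^ 2) :=
          mul_le_mul_of_nonneg_right h4 (by positivity)
      _ = _ := by rw [hE]; ring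
  have a4 : ∀ a, |fi L a g - Ph L S a U| ≤ 7 * E ^ 2 := by
    intro a
    have h3 := a2 a
    have h4 := a3 a
    rw [hb] at h3
    rw [abs_le] at h3 h4 ⊢
    constructor <;> linarith [h3.1, h3.2, h4.1, h4.2]
  have a5 : ∀ a, |fi L a g| ≤ E := fun a => (fi_le a g).trans a1
  have a6 : ∀ a, |Ph L S a U| ≤ E + 7 * E ^ 2 := by
    intro a
    have h3 := a4 a
    have h4 := a5 a
    rw [abs_le] at h3 h4 ⊢
    constructor <;> linarith [h3.1, h3.2, h4.1, h4.2]
  refine ⟨?_, hdv ▸ a1, a6⟩
  have b1 := hcar g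
  have b2 := bessel (L := L) g
  have b3 : 2 * we L (hol (lf U) z p) = dv L g ^ 2 := by rw [hdv, dv_sq]
  have b4 : dv L g ^ 4 ≤ E ^ 4 := pow_le_pow_left₀ (dv_nonneg _) a1 4
  have b5 : |∑ a, fi L a g ^ 2 - ∑ a, Ph L S a U ^ 2| ≤ n * (7 * E ^ 2 * (2 * E + 7 * E ^ 2)) := by
    rw [← Finset.sum_sub_distrib]
    refine (Finset.abs_sum_le_sum_abs _ _).trans ?_
    calc _ ≤ ∑ _a : Fin n, 7 * E ^ 2 * (2 * E + 7 * E ^ 2) := by
          refine Finset.sum_le_sum fun a _ => ?_
          have e1 : fi L a g ^ 2 - Ph L S a U ^ 2 =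
              (fi L a g - Ph L S a U) * (fi L a g + Ph L S a U) := by ring
          rw [e1, abs_mul]
          refine mul_le_mul (a4 a) ?_ (abs_nonneg _) (by positivity)
          refine (abs_add_le _ _).trans ?_
          linarith [a5 a, a6 a]
      _ = _ := by simp
  have b6 := mul_le_mul_of_nonneg_left b4 hC0
  rw [b3]
  rw [abs_le] at b5 ⊢
  constructor <;> linarith [b5.1, b5.2]

end

end Pool.Agent.W2helper67.YM
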