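import Mathlib
import Pool.Agent.W2helper67.YM.Hol
import Pool.Agent.W793.SCH.Mom2

/-!
# Moments of fluxes
-/

open MeasureTheory Filter Matrix
open scoped Topology Matrix.Norms.Frobenius
open Pool.Agent.H906R3.YM hiding Pl
open Pool.Agent.W793.YM hiding rs
open Pool.Agent.TH618.YM

namespace Pool.Agent.W2helper67.YM

set_option linter.unusedSectionVars false
set_option linter.unusedVariables false

noncomputable section

variable {G : Type*} [Group G] [TopologicalSpace G] [IsTopologicalGroup G] [CompactSpace G]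
  [SecondCountableTopology G] [MeasurableSpace G] [BorelSpace G] (μ : Measure G)
  [IsProbabilityMeasure μ] [μ.IsMulLeftInvariant] [μ.IsMulRightInvariant] [μ.IsInvInvariant]
  {N n : ℕ} {L : LD G N n} {d l : ℕ} [NeZero l]

variable (L) in
/-- the Gibbs measure on the torus -/
def PT (d l : ℕ) [NeZero l] (β : ℝ) : Measure (Ed d l → G) :=
  (ME μ (Ed d l)).tilted fun U => -(β * act L U)

lemma PT_prob (β : ℝ) : IsProbabilityMeasure (PT μ L d l β) := by
  refine isProbabilityMeasure_tilted ?_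
  exact cont_integrable (wt_contT (L := L) β)

lemma PT_int (β : ℝ) (F : (Ed d l → G) → ℝ) : ∫ U, F U ∂(PT μ L d l β) = EX μ L β F := by
  unfold PT EX Zt
  rw [integral_tilted, ← integral_div]
  refine integral_congr_ae (Filter.Eventually.of_forall fun U => ?_)
  simp only [smul_eq_mul, one_mul]
  ring

lemma ipF_sum_left {ι : Type*} (s : Finset ι) (c : ι → ℝ) (f : ι → Fm d l) (g : Fm d l) :
    ipF (∑ i ∈ s, c i • f i) g = ∑ i ∈ s, c i * ipF (f i) g := by
  classical
  induction s using Finset.induction_on with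
  | empty => rw [Finset.sum_empty, Finset.sum_empty, ipF_zero_left]
  | insert i s hi ih => rw [Finset.sum_insert hi, Finset.sum_insert hi, ipF_add_left, ih,
      ipF_smul_left]

lemma Fs_ff {r : ℕ} (S : Fin r → List (It d)) (α : Fin r → Fin n) (t : Fin r → ℝ)
    (U : Ed d l → G) : Fs L (ff S α t l) U = ∑ i, t i * Ph L (S i) (α i) U := by
  unfold Fs ff
  simp only [ipF_sum_left]
  rw [Finset.sum_comm]
  refine Finset.sum_congr rfl fun i _ => ?_
  rw [Finset.sum_eq_single (α i)]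
  · rw [if_pos rfl]; rfl
  · intro a _ ha; rw [if_neg (Ne.symm ha), zero_mul]
  · intro hn; exact absurd (Finset.mem_univ _) hn

lemma Ph_cont (S : List (It d)) (a : Fin n) : Continuous (Ph L S a : (Ed d l → G) → ℝ) := by
  have h1 : (Ph L S a : (Ed d l → G) → ℝ) = Fs L (fun c => if c = a then Bf l S else 0) := by
    funext U
    unfold Ph Fs
    rw [Finset.sum_eq_single a]
    · simp only [if_true]
    · intro c _ hc; simp only [if_neg hc]; exact ipF_zero_left _
    · intro hn; exact absurd (Finset.mem_univ _) hn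
  rw [h1]; exact Fs_cont _

/-- the power of a sum -/
lemma EX_powsum {β : ℝ} {ι : Type*} (I : Finset ι) {f : ι → (Ed d l → G) → ℝ}
    (hc : ∀ q, Continuous (f q)) (h0 : ∀ q U, 0 ≤ f q U) (k : ℕ) {B : ℝ}
    (hB : ∀ q ∈ I, EX μ L β (fun U => f q U ^ (k + 1)) ≤ B) :
    EX μ L β (fun U => (∑ q ∈ I, f q U) ^ (k + 1)) ≤ (I.card : ℝ) ^ (k + 1) * B := by
  have h1 : EX μ L β (fun U => (∑ q ∈ I, f q U) ^ (k + 1)) ≤
      EX μ L β (fun U => (I.card : ℝ) ^ k * ∑ q ∈ I, f q U ^ (k + 1)) :=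
    EX_mono μ ((continuous_finsetSum _ fun q _ => hc q).pow _)
      (continuous_const.mul (continuous_finsetSum _ fun q _ => (hc q).pow _)) fun U =>
      pow_sum_le_card_mul_sum_pow (s := I) (f := fun q => f q U) (fun q _ => h0 q U) k
  refine h1.trans ?_
  rw [EX_smul, EX_sum μ I (F := fun q U => f q U ^ (k + 1)) (fun q _ => (hc q).pow _), pow_succ,
    mul_assoc]
  refine mul_le_mul_of_nonneg_left ?_ (by positivity)
  rw [← nsmul_eq_mul, ← Finset.sum_const]
  exact Finset.sum_le_sum hB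

/-- moments of plaquettes -/
theorem dvp_mom (k e : ℕ) : ∃ C : ℝ, 0 < C ∧ ∀ b : ℝ, 1 ≤ b → ∀ a : ℝ, 1 ≤ a →
    b ≤ (2 * a) ^ e → ∀ (d m : ℕ) [NeZero m], 2 ≤ m →
    ∀ (x : Fin d → ZMod (2 * m)) (i j : Fin d), i ≠ j →
      EX μ L (b ^ 4) (fun U : Ed d (2 * m) → G => (b ^ 2 * dv L (plqT U x i j)) ^ (2 * k)) ≤
        C * a := by
  obtain ⟨C, hC, h⟩ := Pool.Agent.W793.SCH.plaq_moment2 μ (L := L) k e
  refine ⟨2 ^ k * C, by positivity, fun b hb a ha hba d m _ hm x i j hij => ?_⟩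
  have h1 := h b hb a ha hba d m hm x i j hij
  have h2 : (fun U : Ed d (2 * m) → G => (b ^ 2 * dv L (plqT U x i j)) ^ (2 * k)) = fun U =>
      2 ^ k * (b ^ 4 * we L (plqT U x i j)) ^ k := by
    funext U
    have h3 := dv_sq (L := L) (plqT U x i j)
    rw [pow_mul, mul_pow, h3, ← mul_pow]
    congr 1; ring
  rw [h2, EX_smul]
  have hZ := Zt_pos μ (L := L) (d := d) (l := 2 * m) (b ^ 4)
  have h4 : EX μ L (b ^ 4) (fun U : Ed d (2 * m) → G => (b ^ 4 * we L (plqT U x i j)) ^ k) ≤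
      C * a := by
    unfold EX
    rw [div_le_iff₀ hZ]
    exact h1
  calc _ ≤ 2 ^ k * (C * a) := mul_le_mul_of_nonneg_left h4 (by positivity)
    _ = _ := by ring

/-- moments of the total deviation of a box -/
theorem sB_mom (k e : ℕ) : ∃ C : ℝ, 0 < C ∧ ∀ b : ℝ, 1 ≤ b → ∀ a : ℝ, 1 ≤ a →
    b ≤ (2 * a) ^ e → ∀ (d m : ℕ) [NeZero m], 2 ≤ m → ∀ M : ℕ,
      EX μ L (b ^ 4) (fun U : Ed d (2 * m) → G => (b ^ 2 * sB L M U) ^ (2 * k + 2)) ≤
        ((M : ℝ) ^ d * d ^ 2) ^ (2 * k + 2) * (C * a) := by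
  obtain ⟨C, hC, h⟩ := dvp_mom μ (L := L) (k + 1) e
  refine ⟨C, hC, fun b hb a ha hba d m _ hm M => ?_⟩
  obtain ⟨I, hI⟩ : ∃ I : Finset (Pt d × Fin d × Fin d), I = box d M ×ˢ Finset.univ := ⟨_, rfl⟩
  obtain ⟨f, hf⟩ : ∃ f : Pt d × Fin d × Fin d → (Ed d (2 * m) → G) → ℝ,
    f = fun q U => if q.2.1 < q.2.2 then b ^ 2 * dv L (plqT U (ct (2 * m) q.1) q.2.1 q.2.2)
      else 0 := ⟨_, rfl⟩
  have hsum : ∀ U : Ed d (2 * m) → G, b ^ 2 * sB L M U = ∑ q ∈ I, f q U := by
    intro U
    rw [hI, Finset.sum_product, hf]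
    unfold sB
    rw [Finset.mul_sum]
    refine Finset.sum_congr rfl fun v _ => ?_
    rw [Fintype.sum_prod_type, Finset.mul_sum]
    refine Finset.sum_congr rfl fun j _ => ?_
    rw [Finset.mul_sum]
    refine Finset.sum_congr rfl fun k _ => ?_
    simp only [mul_ite, mul_zero]
  have hf0 : ∀ q U, 0 ≤ f q U := fun q U => by
    rw [hf]
    simp only
    split_ifs
    · exact mul_nonneg (by positivity) (dv_nonneg _)
    · exact le_rfl
  have hcard : (I.card : ℝ) = (M : ℝ) ^ d * d ^ 2 := by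
    rw [hI, Finset.card_product, card_box]
    simp only [Finset.card_univ, Fintype.card_prod, Fintype.card_fin]
    push_cast; ring
  have hfc : ∀ q, Continuous (f q) := fun q => by
    rw [hf]
    by_cases hq : q.2.1 < q.2.2
    · simp only [hq, if_true]
      exact continuous_const.mul (dv_cont.comp (plqT_cont _ _ _))
    · simp only [hq, if_false]
      exact continuous_const
  have hCa : 0 ≤ C * a := by positivity
  have hq : ∀ q ∈ I, EX μ L (b ^ 4) (fun U => f q U ^ (2 * k + 1 + 1)) ≤ C * a := by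
    intro q _
    by_cases hlt : q.2.1 < q.2.2
    · have h1 := h b hb a ha hba d m hm (ct (2 * m) q.1) q.2.1 q.2.2 hlt.ne
      rw [hf]
      simp only [hlt, if_true]
      exact h1
    · have h2 : (fun U => f q U ^ (2 * k + 1 + 1)) = fun U : Ed d (2 * m) → G => (0 : ℝ) := by
        funext U
        rw [hf]
        simp only [hlt, if_false]
        rw [zero_pow (by omega)]
      rw [h2, EX_const]
      exact hCa
  simp only [hsum]
  rw [← hcard]
  exact EX_powsum μ I hfc hf0 (2 * k + 1) hq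

/-- moments of the fluxes -/
theorem Ph_mom (k e : ℕ) : ∃ C : ℝ, 0 < C ∧ ∀ b : ℝ, 1 ≤ b → ∀ a : ℝ, 1 ≤ a →
    b ≤ (2 * a) ^ e → ∀ (d m : ℕ) [NeZero m], 2 ≤ m → ∀ S : List (It d),
      (∀ q ∈ S, |q.2.2.2| = 1) → ∀ c : Fin n,
      EX μ L (b ^ 4) (fun U : Ed d (2 * m) → G => (b ^ 2 * Ph L S c U) ^ (2 * k + 2)) ≤
        (S.length : ℝ) ^ (2 * k + 2) * (C * a) := by
  obtain ⟨C, hC, h⟩ := dvp_mom μ (L := L) (k + 1) e
  refine ⟨C, hC, fun b hb a ha hba d m _ hm S hS c => ?_⟩
  have hCa : 0 ≤ C * a := by positivity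
  obtain ⟨ft, hft⟩ : ∃ ft : It d → (Ed d (2 * m) → G) → ℝ,
    ft = fun q U => if q.2.1 = q.2.2.1 then 0 else
      b ^ 2 * dv L (plqT U (zt (2 * m) q.1) q.2.1 q.2.2.1) := ⟨_, rfl⟩
  have hf0 : ∀ q U, 0 ≤ ft q U := fun q U => by
    rw [hft]
    simp only
    split_ifs
    · exact le_rfl
    · exact mul_nonneg (by positivity) (dv_nonneg _)
  have hfc : ∀ q, Continuous (ft q) := fun q => by
    rw [hft]
    simp only
    split_ifs
    · exact continuous_const
    · exact continuous_const.mul (dv_cont.comp (plqT_cont _ _ _))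
  have hle : ∀ U : Ed d (2 * m) → G, |b ^ 2 * Ph L S c U| ≤ ∑ s : Fin S.length, ft (S.get s) U := by
    intro U
    rw [Ph_eq, ← Fin.sum_univ_fun_getElem S (fun q : It d => q.2.2.2 * Fz L U c q.2.1 q.2.2.1
      (zt (2 * m) q.1)), Finset.mul_sum]
    refine (Finset.abs_sum_le_sum_abs _ _).trans (Finset.sum_le_sum fun s _ => ?_)
    have key : ∀ q : It d, |q.2.2.2| = 1 → |b ^ 2 * (q.2.2.2 * Fz L U c q.2.1 q.2.2.1
        (zt (2 * m) q.1))| ≤ ft q U := by
      intro q hq
      rw [hft]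
      simp only
      split_ifs with hjk
      · have h3 := Fz_asy (L := L) U c q.2.1 q.2.2.1
        rw [← hjk] at h3 ⊢
        have h4 : Fz L U c q.2.1 q.2.1 (zt (2 * m) q.1) = 0 := by
          have h5 := congrFun h3 (zt (2 * m) q.1)
          rw [Pi.neg_apply] at h5
          linarith
        rw [h4, mul_zero, mul_zero, abs_zero]
      · rw [abs_mul, abs_mul, hq, one_mul, abs_of_nonneg (by positivity)]
        refine mul_le_mul_of_nonneg_left ?_ (by positivity)
        unfold Fz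
        refine (fi_le _ _).trans (le_of_eq ?_)
        rw [dv_conj]
    exact key _ (hS _ (List.getElem_mem s.2))
  have hq : ∀ s ∈ (Finset.univ : Finset (Fin S.length)),
      EX μ L (b ^ 4) (fun U => ft (S.get s) U ^ (2 * k + 1 + 1)) ≤ C * a := by
    intro s _
    generalize S.get s = q
    by_cases hlt : q.2.1 = q.2.2.1
    · have h2 : (fun U => ft q U ^ (2 * k + 1 + 1)) = fun U : Ed d (2 * m) → G => (0 : ℝ) := by
        funext U
        rw [hft]
        simp only [hlt, if_true]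
        rw [zero_pow (by omega)]
      rw [h2, EX_const]
      exact hCa
    · have h1 := h b hb a ha hba d m hm (zt (2 * m) q.1) q.2.1 q.2.2.1 hlt
      rw [hft]
      simp only [hlt, if_false]
      exact h1
  have h1 : EX μ L (b ^ 4) (fun U : Ed d (2 * m) → G => (b ^ 2 * Ph L S c U) ^ (2 * k + 2)) ≤
      EX μ L (b ^ 4) (fun U => (∑ s : Fin S.length, ft (S.get s) U) ^ (2 * k + 1 + 1)) := by
    refine EX_mono μ ((continuous_const.mul (Ph_cont S c)).pow _)
      ((continuous_finsetSum _ fun q _ => hfc _).pow _) fun U => ?_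
    have e1 : (b ^ 2 * Ph L S c U) ^ (2 * k + 2) = |b ^ 2 * Ph L S c U| ^ (2 * k + 2) :=
      (Even.pow_abs ⟨k + 1, by ring⟩ _).symm
    rw [e1]
    exact pow_le_pow_left₀ (abs_nonneg _) (hle U) _
  have h2 := EX_powsum μ Finset.univ (fun s => hfc (S.get s)) (fun s => hf0 (S.get s))
    (2 * k + 1) hq
  rw [Finset.card_univ, Fintype.card_fin] at h2
  exact h1.trans h2

end

end Pool.Agent.W2helper67.YM
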