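import Mathlib
import Pool.Agent.W2helper67.YM.MomX
import Pool.Agent.W2helper67.YM.GM

/-!
# Comparison with the Gaussian fields in a window
-/

open MeasureTheory Filter Matrix
open scoped Topology Matrix.Norms.Frobenius
open Pool.Agent.H906R3.YM hiding Pl
open Pool.Agent.W793.YM hiding rs
open Pool.Agent.TH618.YM

namespace Pool.Agent.W2helper67.YM

set_option linter.unusedSectionVars false
set_option linter.unusedVariables false

noncomputable section

lemma prod_diff {ι : Type*} (s : Finset ι) {u v : ι → ℝ} {c δ : ℝ} (hc : 1 ≤ c) (hδ : 0 ≤ δ)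
    (hu : ∀ i ∈ s, |u i| ≤ c) (hv : ∀ i ∈ s, |v i| ≤ c) (h : ∀ i ∈ s, |u i - v i| ≤ δ) :
    |∏ i ∈ s, u i - ∏ i ∈ s, v i| ≤ s.card * c ^ s.card * δ := by
  classical
  induction s using Finset.induction_on with
  | empty => simp
  | insert j s hj ih =>
    have ih' := ih (fun i hi => hu i (Finset.mem_insert_of_mem hi))
      (fun i hi => hv i (Finset.mem_insert_of_mem hi))
      (fun i hi => h i (Finset.mem_insert_of_mem hi))
    have h1 := hv j (Finset.mem_insert_self j s)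
    have h2 := h j (Finset.mem_insert_self j s)
    rw [Finset.prod_insert hj, Finset.prod_insert hj, Finset.card_insert_of_notMem hj]
    have hA : |∏ i ∈ s, u i| ≤ c ^ s.card := by
      rw [Finset.abs_prod]
      refine (Finset.prod_le_prod (fun i _ => abs_nonneg _)
        fun i hi => hu i (Finset.mem_insert_of_mem hi)).trans (le_of_eq ?_)
      rw [Finset.prod_const]
    obtain ⟨A, hA'⟩ : ∃ A, A = ∏ i ∈ s, u i := ⟨_, rfl⟩
    obtain ⟨B, hB'⟩ : ∃ B, B = ∏ i ∈ s, v i := ⟨_, rfl⟩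
    rw [← hA'] at hA ih' ⊢
    rw [← hB'] at ih' ⊢
    have e : u j * A - v j * B = (u j - v j) * A + v j * (A - B) := by ring
    rw [e]
    refine (abs_add_le _ _).trans ?_
    rw [abs_mul, abs_mul]
    have hc0 : 0 ≤ c := by linarith
    have t1 : |u j - v j| * |A| ≤ δ * c ^ s.card := mul_le_mul h2 hA (abs_nonneg _) hδ
    have t2 : |v j| * |A - B| ≤ c * (s.card * c ^ s.card * δ) :=
      mul_le_mul h1 ih' (abs_nonneg _) hc0
    have t3 : δ * c ^ s.card ≤ δ * c ^ (s.card + 1) := by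
      rw [pow_succ]
      have : 0 ≤ c ^ s.card := by positivity
      nlinarith [mul_nonneg hδ this]
    push_cast
    calc _ ≤ δ * c ^ s.card + c * (s.card * c ^ s.card * δ) := add_le_add t1 t2
      _ ≤ δ * c ^ (s.card + 1) + c * (s.card * c ^ s.card * δ) := by linarith
      _ = _ := by ring

section cov

variable {d : ℕ}

/-- the covariance of the circulations around two paths -/
def cv (x : Fin d → ℤ) (p : List (Fin d × Bool)) (x' : Fin d → ℤ) (p' : List (Fin d × Bool)) : ℝ :=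
  ∑ s, ∑ s', if kk x p s = kk x' p' s' then
    ww x p s * ww x' p' s' * gr (yy x p s - yy x' p' s') else 0

lemma cv_abs (hd : 3 ≤ d) (x : Fin d → ℤ) (p : List (Fin d × Bool)) (x' : Fin d → ℤ)
    (p' : List (Fin d × Bool)) : |cv x p x' p'| ≤ p.length * p'.length * (7 * cw d) := by
  unfold cv
  refine (Finset.abs_sum_le_sum_abs _ _).trans ?_
  have h0 := cw_nonneg d
  have h1 : ∀ s s', |if kk x p s = kk x' p' s' then
      ww x p s * ww x' p' s' * gr (yy x p s - yy x' p' s') else 0| ≤ 7 * cw d := by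
    intro s s'
    split_ifs
    · rw [abs_mul, abs_mul, ww_abs, ww_abs, one_mul, one_mul]
      exact gr_le hd _
    · rw [abs_zero]; positivity
  refine (Finset.sum_le_sum fun s _ => (Finset.abs_sum_le_sum_abs _ _).trans
    (Finset.sum_le_sum fun s' _ => h1 s s')).trans (le_of_eq ?_)
  simp only [Finset.sum_const, Finset.card_univ, Fintype.card_fin, edges_length, nsmul_eq_mul]
  ring

variable {r n : ℕ} (x : Fin r → Fin d → ℤ) (p : Fin r → List (Fin d × Bool))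
  (α : Fin r → Fin n) (t : Fin r → ℝ)

lemma quad_wt : ∑ a, quad (fun s : KK x p => yy (x s.1) (p s.1) s.2)
      (fun s => kk (x s.1) (p s.1) s.2) (wt' x p α t a) gr =
    ∑ a, ∑ i, ∑ j, (if α i = a then t i else 0) * (if α j = a then t j else 0) *
      cv (x i) (p i) (x j) (p j) := by
  refine Finset.sum_congr rfl fun a _ => ?_
  unfold quad
  rw [Fintype.sum_sigma]
  refine Finset.sum_congr rfl fun i _ => ?_
  simp only [Fintype.sum_sigma]
  rw [Finset.sum_comm]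
  refine Finset.sum_congr rfl fun j _ => ?_
  unfold cv
  rw [Finset.mul_sum]
  refine Finset.sum_congr rfl fun s _ => ?_
  rw [Finset.mul_sum]
  refine Finset.sum_congr rfl fun s' _ => ?_
  rw [mul_ite, mul_zero]
  refine if_congr Iff.rfl ?_ rfl
  unfold wt'
  ring

end cov

/-- a Gaussian family on a probability space, `n` independent copies of a family with the
covariance `K` -/
structure GF {Ω : Type*} [MeasurableSpace Ω] (Q : Measure Ω) {r n : ℕ}
    (X : Fin r → Fin n → Ω → ℝ) (K : Fin r → Fin r → ℝ) (m : ℝ) : Prop where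
  meas : ∀ i a, Measurable (X i a)
  cf : ∀ c : Fin r → Fin n → ℝ, ∫ ω, Real.cos (∑ i, ∑ a, c i a * X i a ω) ∂Q =
    Real.exp (-(∑ a, ∑ i, ∑ j, c i a * c j a * K i j) / 2)
  int : ∀ i a, Integrable (fun ω => X i a ω ^ (2 * r + 2)) Q
  mom : ∀ i a, ∫ ω, X i a ω ^ (2 * r + 2) ∂Q ≤ m * K i i ^ (r + 1)

lemma exp_lip {x y : ℝ} (hx : 0 ≤ x) (hy : 0 ≤ y) :
    |Real.exp (-(x / 2)) - Real.exp (-(y / 2))| ≤ |x - y| / 2 := by
  wlog h : x ≤ y generalizing x y
  · rw [abs_sub_comm, abs_sub_comm x y]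
    exact this hy hx (le_of_not_ge h)
  have h1 : Real.exp (-(y / 2)) ≤ Real.exp (-(x / 2)) := Real.exp_le_exp.2 (by linarith)
  rw [abs_of_nonneg (by linarith), abs_of_nonpos (by linarith)]
  have h2 : Real.exp (-(y / 2)) = Real.exp (-(x / 2)) * Real.exp (-((y - x) / 2)) := by
    rw [← Real.exp_add]; congr 1; ring
  have h3 := Real.add_one_le_exp (-((y - x) / 2))
  have h4 : Real.exp (-(x / 2)) ≤ 1 := Real.exp_le_one_iff.2 (by linarith)
  have h5 := Real.exp_pos (-(x / 2))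
  rw [h2]
  nlinarith

variable {G : Type*} [Group G] [TopologicalSpace G] [IsTopologicalGroup G] [CompactSpace G]
  [SecondCountableTopology G] [MeasurableSpace G] [BorelSpace G] (μ : Measure G)
  [IsProbabilityMeasure μ] [μ.IsMulLeftInvariant] [μ.IsMulRightInvariant] [μ.IsInvInvariant]
  {N n : ℕ} {L : LD G N n} {d : ℕ}

/-- one choice of the components -/
theorem alpha_est (hd : 3 ≤ d) (r e : ℕ) : ∃ C : ℝ, 0 < C ∧ ∀ b : ℝ, 1 ≤ b → ∀ a : ℝ, 1 ≤ a →
    b ≤ (2 * a) ^ e → ∀ (m : ℕ) [NeZero m] (K : ℕ), 1 ≤ K → 3 * K + 5 < 2 * m →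
    ∀ (x : Fin r → Fin d → ℤ) (p : Fin r → List (Fin d × Bool)) (S : Fin r → List (It d))
      (q : ℝ), 0 ≤ q → (∀ i, ((p i).length : ℝ) ≤ q) → (∀ i, (S i).length ≤ (p i).length ^ 2) →
    (∀ i, ∀ s ∈ S i, |s.2.2.2| = 1 ∧ ∀ k, (K : ℤ) + 2 ≤ s.1 k ∧ s.1 k < 2 * K + 2) →
    (∀ i, ∀ A : Fin d → (Fin d → ℤ) → ℝ, li A (x i) (p i) = fl A (S i)) →
    (∀ i j s s' k, |yy (x i) (p i) s k - yy (x j) (p j) s' k| ≤ (K : ℤ)) →
    ∀ (Ω : Type) [MeasurableSpace Ω] (P : Measure Ω) [IsProbabilityMeasure P]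
      (X : Fin r → Fin n → Ω → ℝ) (mr : ℝ), 0 ≤ mr →
      GF P X (fun i j => cv (x i) (p i) (x j) (p j)) mr →
    ∀ (lam : ℝ), 0 < lam → lam ≤ 1 → ∀ α : Fin r → Fin n,
      |EX μ L (b ^ 4) (fun U : Ed d (2 * m) → G => ∏ i, (b ^ 2 * Ph L (S i) (α i) U) ^ 2) -
        ∫ ω, ∏ i, X i (α i) ω ^ 2 ∂P| ≤
      C * (lam ^ 2 * (1 + mr) * (1 + q) ^ (4 * r + 4) * a + (1 / lam ^ 2) ^ r * (1 + q) ^ 4 *
        (1 / Real.sqrt (Real.sqrt K) + (K : ℝ) ^ (2 * d + 3) / b)) := by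
  obtain ⟨C1, hC1, hmom⟩ := Ph_mom μ (L := L) r e
  obtain ⟨C2, hC2, hlat⟩ := lattice μ (L := L) hd
  have hcw := cw_nonneg d
  obtain ⟨D, hD⟩ : ∃ D : ℝ, D = r ^ 2 * C1 + r ^ 2 * (7 * cw d) ^ (r + 1) + 4 ^ r *
      (C2 * (2 * r + (1 + 2 * r) ^ 2) + n * r ^ 2 * (12 * cw d)) := ⟨_, rfl⟩
  refine ⟨D + 1, by rw [hD]; positivity, fun b hb a ha hba m _ K hK hKm x p S q hq0 hpl hSl hSi hst
    hnear Ω _ P _ X mr hmr hX lam hl0 hl1 α => ?_⟩
  have hb0 : 0 < b := by linarith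
  have hm : 2 ≤ m := by omega
  have hK1 : (1 : ℝ) ≤ K := by exact_mod_cast hK
  have hSq : ∀ i, ((S i).length : ℝ) ≤ q ^ 2 := fun i => by
    have h1 : ((S i).length : ℝ) ≤ ((p i).length : ℝ) ^ 2 := by exact_mod_cast hSl i
    exact h1.trans (pow_le_pow_left₀ (Nat.cast_nonneg _) (hpl i) 2)
  have hS1 : ∀ i, ∀ s ∈ S i, |s.2.2.2| = 1 := fun i s hs => (hSi i s hs).1
  have hcP := PT_prob μ (L := L) (d := d) (l := 2 * m) (b ^ 4)
  obtain ⟨Φ, hΦ⟩ : ∃ Φ : Fin r → (Ed d (2 * m) → G) → ℝ,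
    Φ = fun i U => b ^ 2 * Ph L (S i) (α i) U := ⟨_, rfl⟩
  have hΦc : ∀ i, Continuous (Φ i) := fun i => by
    rw [hΦ]; exact continuous_const.mul (Ph_cont _ _)
  have hph : ∀ t : ℝ, Continuous (ph t) := fun t => by
    unfold ph; fun_prop
  -- the regularisation of the fluxes
  have s1 : |EX μ L (b ^ 4) (fun U : Ed d (2 * m) → G => ∏ i, Φ i U ^ 2) -
      EX μ L (b ^ 4) (fun U : Ed d (2 * m) → G => ∏ i, ph lam (Φ i U))| ≤
        r * lam ^ 2 * (r * ((q ^ 2) ^ (2 * r + 2) * (C1 * a))) := by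
    have c1 : Continuous fun U : Ed d (2 * m) → G => ∏ i, Φ i U ^ 2 :=
      continuous_finsetProd _ fun i _ => (hΦc i).pow 2
    have c2 : Continuous fun U : Ed d (2 * m) → G => ∏ i, ph lam (Φ i U) :=
      continuous_finsetProd _ fun i _ => (hph lam).comp (hΦc i)
    refine (EX_close μ c1 c2).trans ?_
    have h1 : EX μ L (b ^ 4) (fun U : Ed d (2 * m) → G =>
        |∏ i, Φ i U ^ 2 - ∏ i, ph lam (Φ i U)|) ≤
        EX μ L (b ^ 4) (fun U => r * lam ^ 2 * ∑ i, Φ i U ^ (2 * r + 2)) := by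
      refine EX_mono μ (c1.sub c2).abs (continuous_const.mul
        (continuous_finsetSum _ fun i _ => (hΦc i).pow _)) fun U => ?_
      have := prod_ph_sum hl0 (fun i => Φ i U)
      rw [Fintype.card_fin] at this
      exact this
    refine h1.trans ?_
    rw [EX_smul, EX_sum μ Finset.univ (F := fun i U => Φ i U ^ (2 * r + 2))
      (fun i _ => (hΦc i).pow _)]
    refine mul_le_mul_of_nonneg_left ?_ (by positivity)
    have h2 : ∀ i ∈ (Finset.univ : Finset (Fin r)),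
        EX μ L (b ^ 4) (fun U : Ed d (2 * m) → G => Φ i U ^ (2 * r + 2)) ≤
        (q ^ 2) ^ (2 * r + 2) * (C1 * a) := by
      intro i _
      have h3 := hmom b hb a ha hba d m hm (S i) (hS1 i) (α i)
      rw [hΦ]
      refine h3.trans ?_
      refine mul_le_mul_of_nonneg_right ?_ (by positivity)
      exact pow_le_pow_left₀ (Nat.cast_nonneg _) (hSq i) _
    refine (Finset.sum_le_sum h2).trans (le_of_eq ?_)
    simp
  -- the regularisation of the Gaussian variables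
  have hKii : ∀ i, |cv (x i) (p i) (x i) (p i)| ≤ q ^ 2 * (7 * cw d) := fun i => by
    refine (cv_abs hd _ _ _ _).trans ?_
    refine mul_le_mul_of_nonneg_right ?_ (by positivity)
    rw [sq]
    exact mul_le_mul (hpl i) (hpl i) (Nat.cast_nonneg _) hq0
  have s2 : |∫ ω, ∏ i, X i (α i) ω ^ 2 ∂P - ∫ ω, ∏ i, ph lam (X i (α i) ω) ∂P| ≤
      r * lam ^ 2 * (r * (mr * (q ^ 2 * (7 * cw d)) ^ (r + 1))) := by
    have m1 : ∀ i, Measurable fun ω => X i (α i) ω := fun i => hX.meas i (α i)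
    have i2 : Integrable (fun ω => ∏ i, ph lam (X i (α i) ω)) P := by
      refine integrable_bdd (C := (4 / lam ^ 2) ^ r) ?_ fun ω => ?_
      · exact Finset.measurable_prod _ fun i _ => (hph lam).measurable.comp (m1 i)
      · rw [Finset.abs_prod]
        have h4 : ∀ i ∈ (Finset.univ : Finset (Fin r)), |ph lam (X i (α i) ω)| ≤
            4 / lam ^ 2 := by
          intro i _
          rw [abs_of_nonneg (ph_nonneg _ _)]
          unfold ph
          have := Real.neg_one_le_cos (lam * X i (α i) ω)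
          rw [div_mul_eq_mul_div]
          exact div_le_div_of_nonneg_right (by linarith) (by positivity)
        refine (Finset.prod_le_prod (fun i _ => abs_nonneg _) h4).trans (le_of_eq ?_)
        rw [Finset.prod_const, Finset.card_univ, Fintype.card_fin]
    have i3 : Integrable (fun ω => r * lam ^ 2 * ∑ i, X i (α i) ω ^ (2 * r + 2)) P :=
      (integrable_finsetSum _ fun i _ => hX.int i (α i)).const_mul _
    have hbd : ∀ ω, |∏ i, X i (α i) ω ^ 2 - ∏ i, ph lam (X i (α i) ω)| ≤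
        r * lam ^ 2 * ∑ i, X i (α i) ω ^ (2 * r + 2) := fun ω => by
      have := prod_ph_sum hl0 (fun i => X i (α i) ω)
      rw [Fintype.card_fin] at this
      exact this
    have i4 : Integrable (fun ω => ∏ i, X i (α i) ω ^ 2 - ∏ i, ph lam (X i (α i) ω)) P := by
      refine i3.mono' ?_ (Eventually.of_forall fun ω => hbd ω)
      exact ((Finset.measurable_prod _ fun i _ => (m1 i).pow_const 2).sub
        (Finset.measurable_prod _ fun i _ => (hph lam).measurable.comp (m1 i))).aestronglyMeasurable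
    have i1 : Integrable (fun ω => ∏ i, X i (α i) ω ^ 2) P := by
      have := i4.add i2
      refine this.congr (Eventually.of_forall fun ω => ?_)
      simp
    rw [← integral_sub i1 i2]
    refine (abs_integral_le_integral_abs).trans ?_
    refine (integral_mono i4.abs i3 hbd).trans ?_
    rw [integral_const_mul, integral_finsetSum _ fun i _ => hX.int i (α i)]
    refine mul_le_mul_of_nonneg_left ?_ (by positivity)
    have h5 : ∀ i ∈ (Finset.univ : Finset (Fin r)), ∫ ω, X i (α i) ω ^ (2 * r + 2) ∂P ≤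
        mr * (q ^ 2 * (7 * cw d)) ^ (r + 1) := by
      intro i _
      refine (hX.mom i (α i)).trans ?_
      refine mul_le_mul_of_nonneg_left ?_ hmr
      refine (le_abs_self _).trans ?_
      rw [abs_pow]
      exact pow_le_pow_left₀ (abs_nonneg _) (hKii i) _
    refine (Finset.sum_le_sum h5).trans (le_of_eq ?_)
    simp
  -- the characteristic functions
  obtain ⟨η, hη⟩ : ∃ η : ℝ, η = (C2 * (2 * r + (1 + 2 * r) ^ 2) + n * r ^ 2 * (12 * cw d)) *
    ((1 + q) ^ 4 * (1 / Real.sqrt (Real.sqrt K) + (K : ℝ) ^ (2 * d + 3) / b)) := ⟨_, rfl⟩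
  have s3 : ∀ c : Fin r → ℤ, (∀ i, |c i| ≤ 1) →
      |∫ U, Real.cos (∑ i, c i * (lam * Φ i U)) ∂(PT μ L d (2 * m) (b ^ 4)) -
        ∫ ω, Real.cos (∑ i, c i * (lam * X i (α i) ω)) ∂P| ≤ η := by
    intro c hc
    obtain ⟨t, ht⟩ : ∃ t : Fin r → ℝ, t = fun i => c i * lam := ⟨_, rfl⟩
    have htl : ∀ i, |t i| ≤ lam := fun i => by
      rw [ht]
      simp only
      rw [abs_mul, abs_of_pos hl0]
      have : |(c i : ℝ)| ≤ 1 := by exact_mod_cast hc i
      nlinarith
    obtain ⟨f, hf⟩ : ∃ f : Fin n → Fm d (2 * m), f = ff S α t (2 * m) := ⟨_, rfl⟩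
    have e1 : ∫ U, Real.cos (∑ i, c i * (lam * Φ i U)) ∂(PT μ L d (2 * m) (b ^ 4)) =
        EX μ L (b ^ 4) (fun U : Ed d (2 * m) → G => Real.cos (b ^ 2 * Fs L f U)) := by
      rw [PT_int]
      congr 1
      funext U
      rw [hf, Fs_ff, Finset.mul_sum, hΦ, ht]
      congr 1
      exact Finset.sum_congr rfl fun i _ => by ring
    have e2 : ∫ ω, Real.cos (∑ i, c i * (lam * X i (α i) ω)) ∂P =
        Real.exp (-((∑ a, quad (fun s : KK x p => yy (x s.1) (p s.1) s.2)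
          (fun s => kk (x s.1) (p s.1) s.2) (wt' x p α t a) gr) / 2)) := by
      have h1 := hX.cf fun i a => if α i = a then t i else 0
      rw [quad_wt, ← neg_div, ← h1]
      congr 1
      funext ω
      congr 1
      refine Finset.sum_congr rfl fun i _ => ?_
      rw [Finset.sum_eq_single (α i)]
      · rw [if_pos rfl, ht]; ring
      · intro a _ ha; rw [if_neg (Ne.symm ha), zero_mul]
      · intro hn; exact absurd (Finset.mem_univ _) hn
    obtain ⟨v, hv⟩ : ∃ v, v = ∑ a, quad (fun s : KK x p => yy (x s.1) (p s.1) s.2)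
          (fun s => kk (x s.1) (p s.1) s.2) (wt' x p α t a) gr := ⟨_, rfl⟩
    rw [e1, e2, ← hv]
    have hv0 : 0 ≤ v := by
      have h1 : ∫ ω, Real.cos (∑ i, c i * (lam * X i (α i) ω)) ∂P ≤ 1 := by
        have h2 : ∫ ω, Real.cos (∑ i, c i * (lam * X i (α i) ω)) ∂P ≤ ∫ _ω, (1 : ℝ) ∂P := by
          refine integral_mono ?_ (integrable_const _) fun ω => Real.cos_le_one _
          refine integrable_bdd (C := 1) ?_ fun ω => Real.abs_cos_le_one _
          exact Real.measurable_cos.comp (Finset.measurable_sum _ fun i _ =>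
            ((hX.meas i (α i)).const_mul _).const_mul _)
        simpa using h2
      rw [e2, ← hv, Real.exp_le_one_iff] at h1
      linarith
    have hfa : ∀ a, Asy (f a) := fun a => by rw [hf]; exact ff_asy _ _ _ a
    have hfs : ∀ a j k, SW (K + 2) (2 * K + 2) (f a j k) := by
      intro a j k z hz i
      rw [hf] at hz
      obtain ⟨i0, s, hs, hzs⟩ := ff_supp S α t hz
      obtain ⟨-, h2⟩ := hSi i0 s hs
      have h3 := wv_zt (l := 2 * m) (z := s.1) (fun k => ⟨by have := (h2 k).1; omega,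
        by have := (h2 k).2; push_cast; omega⟩) i
      rw [hzs]
      have h4 := h2 i
      omega
    have hlat1 := (hlat b hb m K hK (by omega) f hfa hfs).1
    have hN1 : N1 f ≤ 2 * r * (1 + q) ^ 2 := by
      rw [hf]
      refine (ff_N1 S α t hS1).trans ?_
      have h1 : ∀ i ∈ (Finset.univ : Finset (Fin r)), |t i| * (2 * ((S i).length : ℝ)) ≤
          1 * (2 * (1 + q) ^ 2) := by
        intro i _
        refine mul_le_mul ((htl i).trans hl1) ?_ (by positivity) (by norm_num)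
        have := hSq i
        nlinarith
      refine (Finset.sum_le_sum h1).trans (le_of_eq ?_)
      simp only [Finset.sum_const, Finset.card_univ, Fintype.card_fin, nsmul_eq_mul]
      ring
    have hN0 := N1_nonneg f
    have hvq : |vK K f - v| ≤ (∑ a : Fin n, (∑ s, |wt' x p α t a s|) ^ 2) *
        (12 * cw d / Real.sqrt K) := by
      rw [hv]
      refine vK_quad hd hK _ _ _ (fun s s' i => ?_) hfa (fun a k0 => ?_)
      · have := hnear s.1 s'.1 s.2 s'.2 i
        push_cast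
        omega
      · rw [hf]; exact ds2_ff x p S α t hst a k0
    have hw1 : (∑ a : Fin n, (∑ s, |wt' x p α t a s|) ^ 2) ≤ n * (r * q) ^ 2 := by
      have h1 : ∀ a ∈ (Finset.univ : Finset (Fin n)), (∑ s, |wt' x p α t a s|) ^ 2 ≤
          (r * q) ^ 2 := by
        intro a _
        refine pow_le_pow_left₀ (Finset.sum_nonneg fun s _ => abs_nonneg _) ?_ 2
        refine (wt_l1 x p α t a).trans ?_
        have h2 : ∀ i ∈ (Finset.univ : Finset (Fin r)), |t i| * ((p i).length : ℝ) ≤ 1 * q := by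
          intro i _
          exact mul_le_mul ((htl i).trans hl1) (hpl i) (Nat.cast_nonneg _) (by norm_num)
        refine (Finset.sum_le_sum h2).trans (le_of_eq ?_)
        simp
      refine (Finset.sum_le_sum h1).trans (le_of_eq ?_)
      simp
    have hvK0 : 0 ≤ vK K f := by
      unfold vK
      exact Finset.sum_nonneg fun a _ => ipF_self_nonneg _
    have hex := exp_lip hvK0 hv0
    -- sizes
    obtain ⟨T, hT⟩ : ∃ T, T = 1 / Real.sqrt (Real.sqrt K) := ⟨_, rfl⟩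
    obtain ⟨R, hR⟩ : ∃ R, R = (K : ℝ) ^ (2 * d + 3) / b := ⟨_, rfl⟩
    have hsK : 1 ≤ Real.sqrt K := Real.one_le_sqrt.2 hK1
    have hssK : 1 ≤ Real.sqrt (Real.sqrt K) := Real.one_le_sqrt.2 hsK
    have hT0 : 0 ≤ T := by rw [hT]; positivity
    have hR0 : 0 ≤ R := by rw [hR]; positivity
    have hT1 : 1 / Real.sqrt (Real.sqrt K ^ (d - 2)) ≤ T := by
      rw [hT]
      refine one_div_le_one_div_of_le (by positivity) (Real.sqrt_le_sqrt ?_)
      calc Real.sqrt K = Real.sqrt K ^ 1 := (pow_one _).symm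
        _ ≤ Real.sqrt K ^ (d - 2) := pow_le_pow_right₀ hsK (by omega)
    have hT2 : 1 / Real.sqrt K ≤ T := by
      rw [hT]
      refine one_div_le_one_div_of_le (by positivity) ?_
      calc Real.sqrt (Real.sqrt K) ≤ Real.sqrt (Real.sqrt K) * Real.sqrt (Real.sqrt K) := by
            nlinarith
        _ = Real.sqrt K := Real.mul_self_sqrt (by positivity)
    have hq1 : 1 ≤ (1 + q) := by linarith
    have hq2 : (1 + q) ^ 2 ≤ (1 + q) ^ 4 := pow_le_pow_right₀ hq1 (by norm_num)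
    have b1 : N1 f / Real.sqrt (Real.sqrt K ^ (d - 2)) ≤ 2 * r * (1 + q) ^ 4 * T := by
      rw [div_eq_mul_one_div]
      refine mul_le_mul (hN1.trans ?_) hT1 (by positivity) (by positivity)
      exact mul_le_mul_of_nonneg_left hq2 (by positivity)
    have b2 : (K : ℝ) ^ (2 * d + 3) * (1 + N1 f) ^ 2 / b ≤ (1 + 2 * r) ^ 2 * (1 + q) ^ 4 * R := by
      have h1 : (1 + N1 f) ≤ (1 + 2 * r) * (1 + q) ^ 2 := by
        have : 1 ≤ (1 + q) ^ 2 := one_le_pow₀ hq1
        nlinarith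
      have h2 : (1 + N1 f) ^ 2 ≤ ((1 + 2 * r) * (1 + q) ^ 2) ^ 2 :=
        pow_le_pow_left₀ (by positivity) h1 2
      calc (K : ℝ) ^ (2 * d + 3) * (1 + N1 f) ^ 2 / b = (1 + N1 f) ^ 2 * R := by rw [hR]; ring
        _ ≤ ((1 + 2 * r) * (1 + q) ^ 2) ^ 2 * R := mul_le_mul_of_nonneg_right h2 hR0
        _ = _ := by ring
    have b3 : |vK K f - v| / 2 ≤ n * r ^ 2 * (12 * cw d) * ((1 + q) ^ 4 * T) := by
      have h1 : |vK K f - v| ≤ n * (r * q) ^ 2 * (12 * cw d / Real.sqrt K) :=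
        hvq.trans (mul_le_mul_of_nonneg_right hw1 (by positivity))
      have h2 : n * (r * q) ^ 2 * (12 * cw d / Real.sqrt K) =
          n * r ^ 2 * (12 * cw d) * (q ^ 2 * (1 / Real.sqrt K)) := by ring
      have h3 : q ^ 2 * (1 / Real.sqrt K) ≤ (1 + q) ^ 4 * T := by
        refine mul_le_mul ?_ hT2 (by positivity) (by positivity)
        refine le_trans ?_ hq2
        nlinarith
      have h4 : n * r ^ 2 * (12 * cw d) * (q ^ 2 * (1 / Real.sqrt K)) ≤
          n * r ^ 2 * (12 * cw d) * ((1 + q) ^ 4 * T) :=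
        mul_le_mul_of_nonneg_left h3 (by positivity)
      have h5 := abs_nonneg (vK K f - v)
      linarith
    have hcc : |EX μ L (b ^ 4) (fun U : Ed d (2 * m) → G => Real.cos (b ^ 2 * Fs L f U)) -
        Real.exp (-(v / 2))| ≤ C2 * (2 * r * (1 + q) ^ 4 * T + (1 + 2 * r) ^ 2 * (1 + q) ^ 4 * R) +
          n * r ^ 2 * (12 * cw d) * ((1 + q) ^ 4 * T) := by
      have h1 : EX μ L (b ^ 4) (fun U : Ed d (2 * m) → G => Real.cos (b ^ 2 * Fs L f U)) -
          Real.exp (-(v / 2)) = (EX μ L (b ^ 4)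
            (fun U : Ed d (2 * m) → G => Real.cos (b ^ 2 * Fs L f U)) -
              Real.exp (-(vK K f / 2))) + (Real.exp (-(vK K f / 2)) - Real.exp (-(v / 2))) := by
        ring
      rw [h1]
      refine (abs_add_le _ _).trans (add_le_add (hlat1.trans ?_) (hex.trans b3))
      exact mul_le_mul_of_nonneg_left (add_le_add b1 b2) hC2.le
    refine hcc.trans ?_
    rw [hη, ← hT, ← hR]
    have hq4 : 0 ≤ (1 + q) ^ 4 := by positivity
    have hc1 : 0 ≤ C2 * (2 * (r : ℝ)) * ((1 + q) ^ 4 * R) := by positivity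
    have hc2 : 0 ≤ C2 * (1 + 2 * (r : ℝ)) ^ 2 * ((1 + q) ^ 4 * T) := by positivity
    have hc3 : 0 ≤ n * (r : ℝ) ^ 2 * (12 * cw d) * ((1 + q) ^ 4 * R) := by positivity
    nlinarith
  have s4 := cmp (P := PT μ L d (2 * m) (b ^ 4)) (Q := P) (X := fun i U => lam * Φ i U)
    (Y := fun i ω => lam * X i (α i) ω) (fun i => ((hΦc i).measurable.const_mul _))
    (fun i => (hX.meas i (α i)).const_mul _) s3
  rw [Fintype.card_fin] at s4
  have s5 : |EX μ L (b ^ 4) (fun U : Ed d (2 * m) → G => ∏ i, ph lam (Φ i U)) -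
      ∫ ω, ∏ i, ph lam (X i (α i) ω) ∂P| ≤ (2 / lam ^ 2) ^ r * (2 ^ r * η) := by
    have h1 : ∀ y : Fin r → ℝ, ∏ i, ph lam (y i) =
        (2 / lam ^ 2) ^ r * ∏ i, (1 - Real.cos (lam * y i)) := by
      intro y
      unfold ph
      rw [Finset.prod_mul_distrib, Finset.prod_const, Finset.card_univ, Fintype.card_fin]
    simp only [h1]
    rw [← PT_int, integral_const_mul, integral_const_mul, ← mul_sub, abs_mul,
      abs_of_nonneg (by positivity : (0 : ℝ) ≤ (2 / lam ^ 2) ^ r)]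
    exact mul_le_mul_of_nonneg_left s4 (by positivity)
  have hfin : |EX μ L (b ^ 4) (fun U : Ed d (2 * m) → G =>
        ∏ i, (b ^ 2 * Ph L (S i) (α i) U) ^ 2) - ∫ ω, ∏ i, X i (α i) ω ^ 2 ∂P| ≤
      r * lam ^ 2 * (r * ((q ^ 2) ^ (2 * r + 2) * (C1 * a))) +
      (2 / lam ^ 2) ^ r * (2 ^ r * η) +
      r * lam ^ 2 * (r * (mr * (q ^ 2 * (7 * cw d)) ^ (r + 1))) := by
    have e1 : (fun U : Ed d (2 * m) → G => ∏ i, (b ^ 2 * Ph L (S i) (α i) U) ^ 2) =
        fun U => ∏ i, Φ i U ^ 2 := by rw [hΦ]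
    rw [e1]
    rw [abs_le] at s1 s2 s5 ⊢
    constructor <;> linarith [s1.1, s1.2, s2.1, s2.2, s5.1, s5.2]
  refine hfin.trans ?_
  have hq1 : 1 ≤ (1 + q) := by linarith
  have f1 : r * lam ^ 2 * (r * ((q ^ 2) ^ (2 * r + 2) * (C1 * a))) ≤
      (r ^ 2 * C1) * (lam ^ 2 * (1 + mr) * (1 + q) ^ (4 * r + 4) * a) := by
    have h1 : (q ^ 2) ^ (2 * r + 2) ≤ (1 + q) ^ (4 * r + 4) := by
      rw [← pow_mul]
      have : 2 * (2 * r + 2) = 4 * r + 4 := by ring
      rw [this]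
      exact pow_le_pow_left₀ hq0 (by linarith) _
    have h2 : (q ^ 2) ^ (2 * r + 2) ≤ (1 + mr) * (1 + q) ^ (4 * r + 4) := by
      have : 0 ≤ mr * (1 + q) ^ (4 * r + 4) := by positivity
      linarith
    calc _ = (r ^ 2 * C1) * (lam ^ 2 * (q ^ 2) ^ (2 * r + 2) * a) := by ring
      _ ≤ (r ^ 2 * C1) * (lam ^ 2 * ((1 + mr) * (1 + q) ^ (4 * r + 4)) * a) := by gcongr
      _ = _ := by ring
  have f2 : r * lam ^ 2 * (r * (mr * (q ^ 2 * (7 * cw d)) ^ (r + 1))) ≤
      (r ^ 2 * (7 * cw d) ^ (r + 1)) * (lam ^ 2 * (1 + mr) * (1 + q) ^ (4 * r + 4) * a) := by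
    have h1 : (q ^ 2) ^ (r + 1) ≤ (1 + q) ^ (4 * r + 4) := by
      rw [← pow_mul]
      calc q ^ (2 * (r + 1)) ≤ (1 + q) ^ (2 * (r + 1)) := pow_le_pow_left₀ hq0 (by linarith) _
        _ ≤ _ := pow_le_pow_right₀ hq1 (by omega)
    have h2 : mr * (q ^ 2) ^ (r + 1) ≤ (1 + mr) * (1 + q) ^ (4 * r + 4) * a := by
      calc mr * (q ^ 2) ^ (r + 1) ≤ (1 + mr) * (1 + q) ^ (4 * r + 4) :=
            mul_le_mul (by linarith) h1 (by positivity) (by linarith)
        _ ≤ _ := le_mul_of_one_le_right (by positivity) ha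
    calc _ = (r ^ 2 * (7 * cw d) ^ (r + 1)) * (lam ^ 2 * (mr * (q ^ 2) ^ (r + 1))) := by
          rw [mul_pow]; ring
      _ ≤ (r ^ 2 * (7 * cw d) ^ (r + 1)) * (lam ^ 2 *
          ((1 + mr) * (1 + q) ^ (4 * r + 4) * a)) := by gcongr
      _ = _ := by ring
  have f3 : (2 / lam ^ 2) ^ r * (2 ^ r * η) = (4 ^ r *
      (C2 * (2 * r + (1 + 2 * r) ^ 2) + n * r ^ 2 * (12 * cw d))) * ((1 / lam ^ 2) ^ r *
      (1 + q) ^ 4 * (1 / Real.sqrt (Real.sqrt K) + (K : ℝ) ^ (2 * d + 3) / b)) := by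
    rw [hη]
    have : (2 / lam ^ 2) ^ r * 2 ^ r = 4 ^ r * (1 / lam ^ 2) ^ r := by
      rw [← mul_pow, ← mul_pow]; congr 1; ring
    rw [← mul_assoc, this]; ring
  rw [f3]
  obtain ⟨V, hV⟩ : ∃ V, V = lam ^ 2 * (1 + mr) * (1 + q) ^ (4 * r + 4) * a := ⟨_, rfl⟩
  obtain ⟨W, hW⟩ : ∃ W, W = (1 / lam ^ 2) ^ r *
      (1 + q) ^ 4 * (1 / Real.sqrt (Real.sqrt K) + (K : ℝ) ^ (2 * d + 3) / b) := ⟨_, rfl⟩
  have hV0 : 0 ≤ V := by rw [hV]; positivity
  have hW0 : 0 ≤ W := by rw [hW]; positivity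
  rw [← hV] at f1 f2 ⊢
  rw [← hW]
  obtain ⟨D1, hD1⟩ : ∃ D1 : ℝ, D1 = r ^ 2 * C1 + r ^ 2 * (7 * cw d) ^ (r + 1) := ⟨_, rfl⟩
  obtain ⟨D2, hD2⟩ : ∃ D2 : ℝ, D2 = 4 ^ r *
      (C2 * (2 * r + (1 + 2 * r) ^ 2) + n * r ^ 2 * (12 * cw d)) := ⟨_, rfl⟩
  have hD10 : 0 ≤ D1 := by rw [hD1]; positivity
  have hD20 : 0 ≤ D2 := by rw [hD2]; positivity
  have hDD : D = D1 + D2 := by rw [hD, hD1, hD2]
  have f4 : (r : ℝ) ^ 2 * C1 * V + r ^ 2 * (7 * cw d) ^ (r + 1) * V = D1 * V := by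
    rw [hD1]; ring
  rw [← hD2, hDD]
  have g1 : 0 ≤ D1 * W := by positivity
  have g2 : 0 ≤ D2 * V := by positivity
  linarith

end

end Pool.Agent.W2helper67.YM
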