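import Mathlib
import Pool.Agent.W2helper67.YM.Win

/-!
# The loops in a window
-/

open MeasureTheory Filter Matrix
open scoped Topology Matrix.Norms.Frobenius
open Pool.Agent.H906R3.YM hiding Pl
open Pool.Agent.W793.YM hiding rs
open Pool.Agent.TH618.YM

namespace Pool.Agent.W2helper67.YM

set_option linter.unusedSectionVars false
set_option linter.unusedVariables false

noncomputable section

lemma GF.int_prod {Ω : Type*} [MeasurableSpace Ω] {Q : Measure Ω} [IsProbabilityMeasure Q]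
    {r n : ℕ} {X : Fin r → Fin n → Ω → ℝ} {K : Fin r → Fin r → ℝ} {m : ℝ} (hX : GF Q X K m)
    (α : Fin r → Fin n) : Integrable (fun ω => ∏ i, X i (α i) ω ^ 2) Q := by
  have m1 : ∀ i, Measurable fun ω => X i (α i) ω := fun i => hX.meas i (α i)
  have hph : Continuous (ph 1) := by unfold ph; fun_prop
  have i2 : Integrable (fun ω => ∏ i, ph 1 (X i (α i) ω)) Q := by
    refine integrable_bdd (C := 4 ^ r) ?_ fun ω => ?_
    · exact Finset.measurable_prod _ fun i _ => hph.measurable.comp (m1 i)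
    · rw [Finset.abs_prod]
      have h4 : ∀ i ∈ (Finset.univ : Finset (Fin r)), |ph 1 (X i (α i) ω)| ≤ 4 := by
        intro i _
        rw [abs_of_nonneg (ph_nonneg _ _)]
        unfold ph
        have := Real.neg_one_le_cos (1 * X i (α i) ω)
        norm_num at this ⊢
        linarith
      refine (Finset.prod_le_prod (fun i _ => abs_nonneg _) h4).trans (le_of_eq ?_)
      rw [Finset.prod_const, Finset.card_univ, Fintype.card_fin]
  have i3 : Integrable (fun ω => (r : ℝ) * 1 ^ 2 * ∑ i, X i (α i) ω ^ (2 * r + 2)) Q :=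
    (integrable_finsetSum _ fun i _ => hX.int i (α i)).const_mul _
  have hbd : ∀ ω, |∏ i, X i (α i) ω ^ 2 - ∏ i, ph 1 (X i (α i) ω)| ≤
      (r : ℝ) * 1 ^ 2 * ∑ i, X i (α i) ω ^ (2 * r + 2) := fun ω => by
    have := prod_ph_sum one_pos (fun i => X i (α i) ω)
    rw [Fintype.card_fin] at this
    exact this
  have i4 : Integrable (fun ω => ∏ i, X i (α i) ω ^ 2 - ∏ i, ph 1 (X i (α i) ω)) Q := by
    refine i3.mono' ?_ (Eventually.of_forall fun ω => hbd ω)
    exact ((Finset.measurable_prod _ fun i _ => (m1 i).pow_const 2).sub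
      (Finset.measurable_prod _ fun i _ => hph.measurable.comp (m1 i))).aestronglyMeasurable
  have := i4.add i2
  refine this.congr (Eventually.of_forall fun ω => ?_)
  simp

lemma prod_sum_all {r n : ℕ} (f : Fin r → Fin n → ℝ) :
    ∏ i, ∑ a, f i a = ∑ α : Fin r → Fin n, ∏ i, f i (α i) := by
  rw [Finset.prod_univ_sum, Fintype.piFinset_univ]

variable {G : Type*} [Group G] [TopologicalSpace G] [IsTopologicalGroup G] [CompactSpace G]
  [SecondCountableTopology G] [MeasurableSpace G] [BorelSpace G] (μ : Measure G)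
  [IsProbabilityMeasure μ] [μ.IsMulLeftInvariant] [μ.IsMulRightInvariant] [μ.IsInvInvariant]
  {N n : ℕ} {L : LD G N n} {d : ℕ}

/-- the loops in a window -/
theorem window_est {C0 : ℝ} (hC0 : 0 ≤ C0)
    (hcar : ∀ g : G, dv L g ^ 2 ≤ ∑ a, fi L a g ^ 2 + C0 * dv L g ^ 4)
    (hd : 3 ≤ d) (r e : ℕ) : ∃ C : ℝ, 0 < C ∧ ∀ b : ℝ, 1 ≤ b → ∀ a : ℝ, 1 ≤ a →
    b ≤ (2 * a) ^ e → ∀ (m : ℕ) [NeZero m] (K : ℕ), 1 ≤ K → 3 * K + 5 < 2 * m →
    ∀ (x : Fin r → Fin d → ℤ) (p : Fin r → List (Fin d × Bool)) (q : ℝ), 0 ≤ q →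
      (∀ i, ((p i).length : ℝ) ≤ q) → (∀ i, dest (x i) (p i) = x i) →
    (∀ i k, (K : ℤ) + 2 + (p i).length ≤ x i k ∧ x i k + (p i).length < 2 * K + 2) →
    ∀ (Ω : Type) [MeasurableSpace Ω] (P : Measure Ω) [IsProbabilityMeasure P]
      (X : Fin r → Fin n → Ω → ℝ) (mr : ℝ), 0 ≤ mr →
      GF P X (fun i j => cv (x i) (p i) (x j) (p j)) mr →
    ∀ (lam : ℝ), 0 < lam → lam ≤ 1 →
      |EX μ L (b ^ 4) (fun U : Ed d (2 * m) → G =>
          ∏ i, (2 * (b ^ 4 * we L (hol (lf U) (x i) (p i))))) -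
        ∫ ω, ∏ i, ∑ a, X i a ω ^ 2 ∂P| ≤
      C * (((1 + q) * (K : ℝ) ^ (d + 1)) ^ (4 * r + 4) * a / b ^ 2 +
        (lam ^ 2 * (1 + mr) * (1 + q) ^ (4 * r + 4) * a + (1 / lam ^ 2) ^ r * (1 + q) ^ 4 *
        (1 / Real.sqrt (Real.sqrt K) + (K : ℝ) ^ (2 * d + 3) / b))) := by
  obtain ⟨C1, hC1, halpha⟩ := alpha_est μ (L := L) hd r e
  obtain ⟨C2, hC2, hmom⟩ := sB_mom μ (L := L) (2 * r + 1) e
  obtain ⟨c1, hc1⟩ : ∃ c1 : ℝ, c1 = 1 + 49 * n := ⟨_, rfl⟩
  obtain ⟨D, hD⟩ : ∃ D : ℝ, D = C0 + 63 * n := ⟨_, rfl⟩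
  have hc11 : 1 ≤ c1 := by
    rw [hc1]
    have : (0 : ℝ) ≤ n := Nat.cast_nonneg _
    linarith
  have hD0 : 0 ≤ D := by rw [hD]; positivity
  obtain ⟨E1, hE1⟩ : ∃ E1 : ℝ, E1 = r * c1 ^ r * D * 2 ^ (4 * r + 4) *
    (1 + ((d : ℝ) ^ 3 * 8 ^ (d + 1)) ^ (4 * r + 4) * C2) := ⟨_, rfl⟩
  have hE10 : 0 ≤ E1 := by rw [hE1]; positivity
  refine ⟨E1 + (n : ℝ) ^ r * C1 + 1, by positivity, fun b hb a ha hba m _ K hK hKm x p q hq0 hpq
    hcl hwin Ω _ P _ X mr hmr hX lam hl0 hl1 => ?_⟩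
  have hb0 : 0 < b := by linarith
  have hm : 2 ≤ m := by omega
  have hK1 : (1 : ℝ) ≤ K := by exact_mod_cast hK
  obtain ⟨M, hM⟩ : ∃ M, M = 3 * K + 5 := ⟨_, rfl⟩
  have hMl : M < 2 * m := by omega
  have hM8 : (M : ℝ) ≤ 8 * K := by rw [hM]; push_cast; linarith
  -- surfaces
  have hsurf : ∀ i, ∃ S : List (It d), S.length ≤ (p i).length ^ 2 ∧
      (∀ s ∈ S, |s.2.2.2| = 1 ∧ ∀ k, |s.1 k - x i k| ≤ (p i).length) ∧
      ∀ A : Fin d → (Fin d → ℤ) → ℝ, li A (x i) (p i) = fl A S := by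
    intro i
    refine surface _ (p i) (x i) le_rfl ?_
    have := hcl i
    rw [dest_eq] at this
    exact add_eq_left.1 this
  choose S hSl hS1 hSt using hsurf
  have hSwin : ∀ i, ∀ s ∈ S i, |s.2.2.2| = 1 ∧ ∀ k, (K : ℤ) + 2 ≤ s.1 k ∧ s.1 k < 2 * K + 2 := by
    intro i s hs
    obtain ⟨h1, h2⟩ := hS1 i s hs
    refine ⟨h1, fun k => ?_⟩
    have h3 := abs_le.1 (h2 k)
    have h4 := hwin i k
    omega
  have hnear : ∀ i j s s' k, |yy (x i) (p i) s k - yy (x j) (p j) s' k| ≤ (K : ℤ) := by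
    intro i j s s' k
    have h1 := abs_le.1 (yy_near (x i) (p i) s k)
    have h2 := abs_le.1 (yy_near (x j) (p j) s' k)
    have h3 := hwin i k
    have h4 := hwin j k
    rw [abs_le]
    omega
  -- pointwise bounds
  obtain ⟨w, hw⟩ : ∃ w : (Ed d (2 * m) → G) → ℝ, w = fun U => q * d * M * (b ^ 2 * sB L M U) :=
    ⟨_, rfl⟩
  have hw0 : ∀ U, 0 ≤ w U := fun U => by
    rw [hw]
    have := sB_nonneg (L := L) M U
    positivity
  have hwc : Continuous w := by
    rw [hw]; exact continuous_const.mul (continuous_const.mul (sB_cont M))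
  obtain ⟨u, hu⟩ : ∃ u : Fin r → (Ed d (2 * m) → G) → ℝ,
    u = fun i U => 2 * (b ^ 4 * we L (hol (lf U) (x i) (p i))) := ⟨_, rfl⟩
  obtain ⟨v, hv⟩ : ∃ v : Fin r → (Ed d (2 * m) → G) → ℝ,
    v = fun i U => ∑ a, (b ^ 2 * Ph L (S i) a U) ^ 2 := ⟨_, rfl⟩
  have hpt : ∀ i U, |u i U| ≤ c1 * (1 + w U) ^ 4 ∧ |v i U| ≤ c1 * (1 + w U) ^ 4 ∧
      |u i U - v i U| ≤ D * (1 + w U) ^ 4 / b ^ 2 := by
    intro i U
    obtain ⟨E, hE⟩ : ∃ E, E = (p i).length * (d * M * sB L M U) := ⟨_, rfl⟩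
    have hs0 := sB_nonneg (L := L) M U
    have hE0 : 0 ≤ E := by rw [hE]; positivity
    obtain ⟨g1, g2, g3⟩ := loop_est hC0 hcar U hMl (hcl i)
      (fun k => by have := (hwin i k).1; omega) (fun k => by have := (hwin i k).2; omega)
      (hSl i) (hS1 i) (hSt i) hE
    obtain ⟨ε, hε⟩ : ∃ ε, ε = b ^ 2 * E := ⟨_, rfl⟩
    have hε0 : 0 ≤ ε := by rw [hε]; positivity
    have hεw : ε ≤ w U := by
      rw [hε, hE, hw]
      simp only
      have h1 : ((p i).length : ℝ) * (d * M * sB L M U) ≤ q * (d * M * sB L M U) :=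
        mul_le_mul_of_nonneg_right (hpq i) (by positivity)
      calc _ ≤ b ^ 2 * (q * (d * M * sB L M U)) := mul_le_mul_of_nonneg_left h1 (by positivity)
        _ = _ := by ring
    have hAw : (1 + ε) ^ 4 ≤ (1 + w U) ^ 4 := pow_le_pow_left₀ (by positivity) (by linarith) 4
    have hA1 : 1 ≤ (1 + ε) ^ 4 := one_le_pow₀ (by linarith)
    have hb2 : 1 ≤ b ^ 2 := one_le_pow₀ hb
    have hib : 1 / b ^ 4 ≤ 1 / b ^ 2 :=
      one_div_le_one_div_of_le (by positivity) (pow_le_pow_right₀ hb (by norm_num))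
    have hE2 : E = ε / b ^ 2 := by rw [hε]; field_simp
    have e2le : ε ^ 2 ≤ (1 + ε) ^ 4 := by nlinarith [sq_nonneg (ε ^ 2), pow_nonneg hε0 3]
    have e3le : ε ^ 3 ≤ (1 + ε) ^ 4 := by
      nlinarith [sq_nonneg (ε ^ 2), pow_nonneg hε0 3, pow_nonneg hε0 2]
    have e4le : ε ^ 4 ≤ (1 + ε) ^ 4 := pow_le_pow_left₀ hε0 (by linarith) 4
    have k1 : |u i U| ≤ (1 + ε) ^ 4 := by
      rw [hu]
      simp only
      have h1 : 2 * (b ^ 4 * we L (hol (lf U) (x i) (p i))) =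
          (b ^ 2 * dv L (hol (lf U) (x i) (p i))) ^ 2 := by
        have := dv_sq (L := L) (hol (lf U) (x i) (p i))
        rw [mul_pow, this]; ring
      rw [h1, abs_of_nonneg (sq_nonneg _)]
      refine le_trans ?_ e2le
      rw [hε]
      exact pow_le_pow_left₀ (mul_nonneg (by positivity) (dv_nonneg _))
        (mul_le_mul_of_nonneg_left g2 (by positivity)) 2
    have k2 : |v i U| ≤ 49 * n * (1 + ε) ^ 4 := by
      rw [hv]
      simp only
      rw [abs_of_nonneg (Finset.sum_nonneg fun a _ => sq_nonneg _)]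
      have h1 : ∀ a ∈ (Finset.univ : Finset (Fin n)), (b ^ 2 * Ph L (S i) a U) ^ 2 ≤
          49 * (1 + ε) ^ 4 := by
        intro a _
        have h2 : |b ^ 2 * Ph L (S i) a U| ≤ 7 * (1 + ε) ^ 2 := by
          rw [abs_mul, abs_of_nonneg (by positivity : (0 : ℝ) ≤ b ^ 2)]
          have h3 : b ^ 2 * |Ph L (S i) a U| ≤ b ^ 2 * (E + 7 * E ^ 2) :=
            mul_le_mul_of_nonneg_left (g3 a) (by positivity)
          have h4 : b ^ 2 * (E + 7 * E ^ 2) = ε + 7 * (ε ^ 2 * (1 / b ^ 2)) := by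
            rw [hE2]; field_simp
          have h5 : ε ^ 2 * (1 / b ^ 2) ≤ ε ^ 2 * 1 := by
            refine mul_le_mul_of_nonneg_left ?_ (by positivity)
            rw [div_le_one (by positivity)]
            exact hb2
          nlinarith
        calc (b ^ 2 * Ph L (S i) a U) ^ 2 = |b ^ 2 * Ph L (S i) a U| ^ 2 := (sq_abs _).symm
          _ ≤ (7 * (1 + ε) ^ 2) ^ 2 := pow_le_pow_left₀ (abs_nonneg _) h2 2
          _ = _ := by ring
      refine (Finset.sum_le_sum h1).trans (le_of_eq ?_)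
      simp only [Finset.sum_const, Finset.card_univ, Fintype.card_fin, nsmul_eq_mul]
      ring
    have k3 : |u i U - v i U| ≤ D * (1 + ε) ^ 4 / b ^ 2 := by
      have h1 : u i U - v i U = b ^ 4 * (2 * we L (hol (lf U) (x i) (p i)) -
          ∑ a, Ph L (S i) a U ^ 2) := by
        rw [hu, hv]
        simp only [mul_pow]
        rw [← Finset.mul_sum]
        ring
      rw [h1, abs_mul, abs_of_nonneg (by positivity : (0 : ℝ) ≤ b ^ 4)]
      refine (mul_le_mul_of_nonneg_left g1 (by positivity)).trans ?_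
      have h2 : b ^ 4 * (C0 * E ^ 4 + n * (7 * E ^ 2 * (2 * E + 7 * E ^ 2))) =
          C0 * (ε ^ 4 * (1 / b ^ 4)) + n * (14 * (ε ^ 3 * (1 / b ^ 2)) +
            49 * (ε ^ 4 * (1 / b ^ 4))) := by
        rw [hE2]; field_simp; ring
      rw [h2]
      have h3 : ε ^ 4 * (1 / b ^ 4) ≤ (1 + ε) ^ 4 * (1 / b ^ 2) :=
        mul_le_mul e4le hib (by positivity) (by positivity)
      have h4 : ε ^ 3 * (1 / b ^ 2) ≤ (1 + ε) ^ 4 * (1 / b ^ 2) :=
        mul_le_mul_of_nonneg_right e3le (by positivity)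
      have hn0 : (0 : ℝ) ≤ n := Nat.cast_nonneg _
      have h5 := mul_le_mul_of_nonneg_left h3 hC0
      have h6 := mul_le_mul_of_nonneg_left h4 hn0
      have h7 := mul_le_mul_of_nonneg_left h3 hn0
      have h8 : D * (1 + ε) ^ 4 / b ^ 2 = C0 * ((1 + ε) ^ 4 * (1 / b ^ 2)) +
          63 * (n * ((1 + ε) ^ 4 * (1 / b ^ 2))) := by rw [hD]; ring
      rw [h8]
      linarith
    have hn0 : (0 : ℝ) ≤ n := Nat.cast_nonneg _
    have hwp : 0 ≤ (1 + w U) ^ 4 := by
      have := hw0 U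
      positivity
    refine ⟨k1.trans (hAw.trans ?_), k2.trans ?_, k3.trans ?_⟩
    · exact le_mul_of_one_le_left hwp hc11
    · rw [hc1]
      nlinarith
    · exact div_le_div_of_nonneg_right (mul_le_mul_of_nonneg_left hAw hD0) (by positivity)
  have huc : ∀ i, Continuous (u i) := fun i => by
    rw [hu]
    refine continuous_const.mul (continuous_const.mul (we_cont.comp ?_))
    exact (hol_cont (x i) (p i)).comp (continuous_pi fun e => continuous_apply _)
  have hvc : ∀ i, Continuous (v i) := fun i => by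
    rw [hv]
    exact continuous_finsetSum _ fun a _ => (continuous_const.mul (Ph_cont _ _)).pow 2
  have s1 : |EX μ L (b ^ 4) (fun U : Ed d (2 * m) → G => ∏ i, u i U) -
      EX μ L (b ^ 4) (fun U : Ed d (2 * m) → G => ∏ i, v i U)| ≤
        E1 * (((1 + q) * (K : ℝ) ^ (d + 1)) ^ (4 * r + 4) * a / b ^ 2) := by
    have c1' : Continuous fun U : Ed d (2 * m) → G => ∏ i, u i U :=
      continuous_finsetProd _ fun i _ => huc i
    have c2' : Continuous fun U : Ed d (2 * m) → G => ∏ i, v i U :=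
      continuous_finsetProd _ fun i _ => hvc i
    refine (EX_close μ c1' c2').trans ?_
    obtain ⟨B, hB⟩ : ∃ B : ℝ, B = r * c1 ^ r * D * 2 ^ (4 * r + 4) / b ^ 2 := ⟨_, rfl⟩
    have hB0 : 0 ≤ B := by rw [hB]; positivity
    have h1 : EX μ L (b ^ 4) (fun U : Ed d (2 * m) → G => |∏ i, u i U - ∏ i, v i U|) ≤
        EX μ L (b ^ 4) (fun U => B * (1 + w U ^ (4 * r + 4))) := by
      refine EX_mono μ (c1'.sub c2').abs (continuous_const.mul
        (continuous_const.add (hwc.pow _))) fun U => ?_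
      have hwp : 1 ≤ (1 + w U) ^ 4 := one_le_pow₀ (by linarith [hw0 U])
      have h2 := prod_diff Finset.univ (u := fun i => u i U) (v := fun i => v i U)
        (c := c1 * (1 + w U) ^ 4) (δ := D * (1 + w U) ^ 4 / b ^ 2)
        (one_le_mul_of_one_le_of_one_le hc11 hwp) (by positivity)
        (fun i _ => (hpt i U).1) (fun i _ => (hpt i U).2.1) (fun i _ => (hpt i U).2.2)
      rw [Finset.card_univ, Fintype.card_fin] at h2
      refine h2.trans ?_
      have h3 : (1 + w U) ^ (4 * r + 4) ≤ 2 ^ (4 * r + 4) * (1 + w U ^ (4 * r + 4)) := by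
        rcases le_total (w U) 1 with h | h
        · calc (1 + w U) ^ (4 * r + 4) ≤ 2 ^ (4 * r + 4) :=
                pow_le_pow_left₀ (by linarith [hw0 U]) (by linarith) _
            _ ≤ _ := le_mul_of_one_le_right (by positivity) (by
                have := pow_nonneg (hw0 U) (4 * r + 4); linarith)
        · calc (1 + w U) ^ (4 * r + 4) ≤ (2 * w U) ^ (4 * r + 4) :=
                pow_le_pow_left₀ (by linarith [hw0 U]) (by linarith) _
            _ = 2 ^ (4 * r + 4) * w U ^ (4 * r + 4) := mul_pow _ _ _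
            _ ≤ _ := mul_le_mul_of_nonneg_left (by linarith) (by positivity)
      calc r * (c1 * (1 + w U) ^ 4) ^ r * (D * (1 + w U) ^ 4 / b ^ 2) =
          r * c1 ^ r * D / b ^ 2 * (1 + w U) ^ (4 * r + 4) := by
            rw [mul_pow, ← pow_mul, pow_add (1 + w U) (4 * r) 4]; ring
        _ ≤ r * c1 ^ r * D / b ^ 2 * (2 ^ (4 * r + 4) * (1 + w U ^ (4 * r + 4))) :=
            mul_le_mul_of_nonneg_left h3 (by positivity)
        _ = _ := by rw [hB]; ring
    refine h1.trans ?_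
    have cw' : Continuous fun U : Ed d (2 * m) → G => w U ^ (4 * r + 4) := hwc.pow _
    rw [EX_smul, EX_add μ continuous_const cw', EX_const]
    have h4 : EX μ L (b ^ 4) (fun U : Ed d (2 * m) → G => w U ^ (4 * r + 4)) ≤
        (q * d * M) ^ (4 * r + 4) * (((M : ℝ) ^ d * d ^ 2) ^ (4 * r + 4) * (C2 * a)) := by
      have h5 : (fun U : Ed d (2 * m) → G => w U ^ (4 * r + 4)) = fun U =>
          (q * d * M) ^ (4 * r + 4) * (b ^ 2 * sB L M U) ^ (4 * r + 4) := by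
        funext U
        rw [hw]
        simp only
        rw [mul_pow]
      rw [h5, EX_smul]
      refine mul_le_mul_of_nonneg_left ?_ (by positivity)
      have h6 := hmom b hb a ha hba d m hm M
      have h7 : 2 * (2 * r + 1) + 2 = 4 * r + 4 := by ring
      rw [h7] at h6
      exact h6
    obtain ⟨Y, hY⟩ : ∃ Y : ℝ, Y = (1 + q) * (K : ℝ) ^ (d + 1) := ⟨_, rfl⟩
    have hY1 : 1 ≤ Y := by
      rw [hY]
      exact one_le_mul_of_one_le_of_one_le (by linarith) (one_le_pow₀ hK1)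
    have h8 : (q * d * M) ^ (4 * r + 4) * (((M : ℝ) ^ d * d ^ 2) ^ (4 * r + 4) * (C2 * a)) ≤
        ((d : ℝ) ^ 3 * 8 ^ (d + 1)) ^ (4 * r + 4) * C2 * (Y ^ (4 * r + 4) * a) := by
      have h9 : q * d * M * ((M : ℝ) ^ d * d ^ 2) ≤ (d : ℝ) ^ 3 * 8 ^ (d + 1) * Y := by
        have h10 : (M : ℝ) ^ (d + 1) ≤ (8 * K) ^ (d + 1) := pow_le_pow_left₀ (by positivity) hM8 _
        calc q * d * M * ((M : ℝ) ^ d * d ^ 2) = (d : ℝ) ^ 3 * (q * (M : ℝ) ^ (d + 1)) := by ring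
          _ ≤ (d : ℝ) ^ 3 * ((1 + q) * (8 * K) ^ (d + 1)) := by
              refine mul_le_mul_of_nonneg_left ?_ (by positivity)
              exact mul_le_mul (by linarith) h10 (by positivity) (by linarith)
          _ = _ := by rw [hY, mul_pow]; ring
      calc _ = (q * d * M * ((M : ℝ) ^ d * d ^ 2)) ^ (4 * r + 4) * (C2 * a) := by
            rw [mul_pow (q * d * M)]; ring
        _ ≤ ((d : ℝ) ^ 3 * 8 ^ (d + 1) * Y) ^ (4 * r + 4) * (C2 * a) :=
            mul_le_mul_of_nonneg_right (pow_le_pow_left₀ (by positivity) h9 _) (by positivity)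
        _ = _ := by rw [mul_pow _ Y]; ring
    have h11 : 1 ≤ Y ^ (4 * r + 4) * a :=
      one_le_mul_of_one_le_of_one_le (one_le_pow₀ hY1) ha
    rw [← hY]
    calc B * (1 + EX μ L (b ^ 4) (fun U : Ed d (2 * m) → G => w U ^ (4 * r + 4))) ≤
        B * (Y ^ (4 * r + 4) * a + ((d : ℝ) ^ 3 * 8 ^ (d + 1)) ^ (4 * r + 4) * C2 *
          (Y ^ (4 * r + 4) * a)) :=
          mul_le_mul_of_nonneg_left (add_le_add h11 (h4.trans h8)) hB0
      _ = _ := by rw [hB, hE1]; ring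
  -- expansion
  obtain ⟨T, hT⟩ : ∃ T, T = lam ^ 2 * (1 + mr) * (1 + q) ^ (4 * r + 4) * a +
      (1 / lam ^ 2) ^ r * (1 + q) ^ 4 *
        (1 / Real.sqrt (Real.sqrt K) + (K : ℝ) ^ (2 * d + 3) / b) := ⟨_, rfl⟩
  have hT0 : 0 ≤ T := by rw [hT]; positivity
  have s2 : |EX μ L (b ^ 4) (fun U : Ed d (2 * m) → G => ∏ i, v i U) -
      ∫ ω, ∏ i, ∑ a, X i a ω ^ 2 ∂P| ≤ (n : ℝ) ^ r * C1 * T := by
    have e1 : EX μ L (b ^ 4) (fun U : Ed d (2 * m) → G => ∏ i, v i U) =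
        ∑ α : Fin r → Fin n, EX μ L (b ^ 4)
          (fun U : Ed d (2 * m) → G => ∏ i, (b ^ 2 * Ph L (S i) (α i) U) ^ 2) := by
      rw [hv]
      simp only [prod_sum_all]
      rw [EX_sum μ Finset.univ (F := fun (α : Fin r → Fin n) (U : Ed d (2 * m) → G) =>
        ∏ i, (b ^ 2 * Ph L (S i) (α i) U) ^ 2) (fun α _ =>
        continuous_finsetProd _ fun i _ => (continuous_const.mul (Ph_cont _ _)).pow 2)]
    have e2 : ∫ ω, ∏ i, ∑ a, X i a ω ^ 2 ∂P = ∑ α : Fin r → Fin n,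
        ∫ ω, ∏ i, X i (α i) ω ^ 2 ∂P := by
      simp only [prod_sum_all]
      rw [integral_finsetSum]
      exact fun α _ => hX.int_prod α
    rw [e1, e2, ← Finset.sum_sub_distrib]
    have h1 : ∀ α ∈ (Finset.univ : Finset (Fin r → Fin n)), |EX μ L (b ^ 4)
          (fun U : Ed d (2 * m) → G => ∏ i, (b ^ 2 * Ph L (S i) (α i) U) ^ 2) -
        ∫ ω, ∏ i, X i (α i) ω ^ 2 ∂P| ≤ C1 * T := by
      intro α _
      rw [hT]
      exact halpha b hb a ha hba m K hK hKm x p S q hq0 hpq hSl hSwin hSt hnear Ω P X mr hmr hX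
        lam hl0 hl1 α
    refine (Finset.abs_sum_le_sum_abs _ _).trans ((Finset.sum_le_sum h1).trans (le_of_eq ?_))
    simp only [Finset.sum_const, Finset.card_univ, Fintype.card_pi, Fintype.card_fin,
      Finset.prod_const, nsmul_eq_mul]
    push_cast; ring
  rw [← hT]
  obtain ⟨V, hV⟩ : ∃ V, V = ((1 + q) * (K : ℝ) ^ (d + 1)) ^ (4 * r + 4) * a / b ^ 2 := ⟨_, rfl⟩
  have hV0 : 0 ≤ V := by rw [hV]; positivity
  rw [← hV] at s1 ⊢
  have e3 : (fun U : Ed d (2 * m) → G =>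
      ∏ i, (2 * (b ^ 4 * we L (hol (lf U) (x i) (p i))))) = fun U => ∏ i, u i U := by rw [hu]
  rw [e3]
  have hnr : 0 ≤ (n : ℝ) ^ r * C1 := by positivity
  have g1 : 0 ≤ (n : ℝ) ^ r * C1 * V := by positivity
  have g2 : 0 ≤ E1 * T := by positivity
  rw [abs_le] at s1 s2 ⊢
  constructor <;> nlinarith [s1.1, s1.2, s2.1, s2.2]

end

end Pool.Agent.W2helper67.YM
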