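import Mathlib
import Pool.Agent.W2helper67.YM.Win2

/-!
# The loops on the torus: powers of one parameter
-/

open MeasureTheory Filter Matrix
open scoped Topology Matrix.Norms.Frobenius
open Pool.Agent.H906R3.YM hiding Pl
open Pool.Agent.W793.YM hiding rs
open Pool.Agent.TH618.YM

namespace Pool.Agent.W2helper67.YM

set_option linter.unusedSectionVars false
set_option linter.unusedVariables false

noncomputable section

section transl

variable {d : ℕ}

lemma edges_trans (w x : Fin d → ℤ) (p : List (Fin d × Bool)) :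
    edges (x + w) p = (edges x p).map fun e => (e.1 + w, e.2) := by
  induction p generalizing x with
  | nil => rfl
  | cons s p ih =>
    rw [edges, edges, List.map_cons, ← ih, add_right_comm]
    congr 1
    unfold ed
    split_ifs
    · rfl
    · rw [sub_add_eq_add_sub]

lemma cv_eq (x : Fin d → ℤ) (p : List (Fin d × Bool)) (x' : Fin d → ℤ)
    (p' : List (Fin d × Bool)) : cv x p x' p' = ((edges x p).map fun e =>
      ((edges x' p').map fun e' => if e.2.1 = e'.2.1 then e.2.2 * e'.2.2 * gr (e.1 - e'.1)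
        else 0).sum).sum := by
  unfold cv
  rw [← Fin.sum_univ_fun_getElem]
  refine Finset.sum_congr rfl fun s _ => ?_
  rw [← Fin.sum_univ_fun_getElem]
  rfl

lemma cv_trans (w x : Fin d → ℤ) (p : List (Fin d × Bool)) (x' : Fin d → ℤ)
    (p' : List (Fin d × Bool)) : cv (x + w) p (x' + w) p' = cv x p x' p' := by
  rw [cv_eq, cv_eq, edges_trans, edges_trans, List.map_map]
  congr 2
  funext e
  simp only [Function.comp_apply, List.map_map]
  congr 2
  funext e'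
  simp only [Function.comp_apply]
  rw [add_sub_add_right_eq_sub]

end transl

/-- the exponent of the regularisation -/
def eA (r : ℕ) : ℕ := 2 * r + 3

/-- the exponent of the width of the window -/
def eB (r : ℕ) : ℕ := 4 * (2 * eA r * r + 5)

/-- the exponent of the coupling -/
def eQ (d r : ℕ) : ℕ := (2 * eA r * r + 5) + eB r * (2 * d + 3) + (1 + eB r * (d + 1)) * (4 * r + 4) + 2

lemma eQ_pos (d r : ℕ) : 1 ≤ eQ d r := by unfold eQ; omega

lemma div_pow_le {t : ℝ} (ht : 1 ≤ t) {i j : ℕ} (h : i + 1 ≤ j) : t ^ i / t ^ j ≤ 1 / t := by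
  have ht0 : 0 < t := by linarith
  rw [div_le_div_iff₀ (by positivity) ht0, one_mul, ← pow_succ]
  exact pow_le_pow_right₀ ht h

variable {G : Type*} [Group G] [TopologicalSpace G] [IsTopologicalGroup G] [CompactSpace G]
  [SecondCountableTopology G] [MeasurableSpace G] [BorelSpace G] (μ : Measure G)
  [IsProbabilityMeasure μ] [μ.IsMulLeftInvariant] [μ.IsMulRightInvariant] [μ.IsInvInvariant]
  {N n : ℕ} {L : LD G N n} {d : ℕ}

/-- The loops on the torus. -/
theorem torus_est {C0 : ℝ} (hC0 : 0 ≤ C0)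
    (hcar : ∀ g : G, dv L g ^ 2 ≤ ∑ a, fi L a g ^ 2 + C0 * dv L g ^ 4)
    (hd : 3 ≤ d) (r : ℕ) (mr : ℝ) (hmr : 0 ≤ mr) : ∃ C : ℝ, 0 < C ∧ ∀ t : ℝ, 2 ≤ t →
    ∀ (m : ℕ) [NeZero m], 3 * ⌈t ^ eB r⌉₊ + 5 < 2 * m →
    ∀ (T : ℕ), (T : ℝ) ≤ t → ∀ (x0 : Fin d → ℤ)
      (x : Fin r → Fin d → ℤ) (p : Fin r → List (Fin d × Bool)),
      (∀ i, (p i).length ≤ T) → (∀ i, dest (x i) (p i) = x i) → (∀ i k, |x i k - x0 k| ≤ T) →
    ∀ (Ω : Type) [MeasurableSpace Ω] (P : Measure Ω) [IsProbabilityMeasure P]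
      (X : Fin r → Fin n → Ω → ℝ),
      GF P X (fun i j => cv (x i) (p i) (x j) (p j)) mr →
      |EX μ L ((t ^ eQ d r) ^ 4) (fun U : Ed d (2 * m) → G =>
          ∏ i, (2 * ((t ^ eQ d r) ^ 4 * we L (hol (lf U) (x i) (p i))))) -
        ∫ ω, ∏ i, ∑ a, X i a ω ^ 2 ∂P| ≤ C / t := by
  obtain ⟨C1, hC1, hwin⟩ := window_est μ hC0 hcar hd r (eQ d r)
  refine ⟨C1 * (2 ^ ((d + 2) * (4 * r + 4)) + ((1 + mr) * 2 ^ (4 * r + 4) +
    16 * (1 + 2 ^ (2 * d + 3)))), by positivity, fun t ht m _ hKm T hT x0 x p hpT hcl hx0 Ω _ P _ X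
    hX => ?_⟩
  have ht1 : 1 ≤ t := by linarith
  have ht0 : 0 < t := by linarith
  obtain ⟨K, hK⟩ : ∃ K, K = ⌈t ^ eB r⌉₊ := ⟨_, rfl⟩
  rw [← hK] at hKm
  have hKl : t ^ eB r ≤ K := by rw [hK]; exact Nat.le_ceil _
  have hKu : (K : ℝ) ≤ 2 * t ^ eB r := by
    have h1 := (Nat.ceil_lt_add_one (by positivity : 0 ≤ t ^ eB r)).le
    rw [← hK] at h1
    have h2 : 1 ≤ t ^ eB r := one_le_pow₀ ht1
    linarith
  have hK8 : 8 * t ≤ K := by
    refine le_trans ?_ hKl
    have h1 : t ^ 4 ≤ t ^ eB r := pow_le_pow_right₀ ht1 (by unfold eB; omega)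
    have h2 : 8 * t ≤ t ^ 4 := by
      have h3 : (2 : ℝ) ^ 3 ≤ t ^ 3 := pow_le_pow_left₀ (by norm_num) ht 3
      nlinarith
    linarith
  have hKT : 8 * T ≤ K := by
    have h1 : (8 * T : ℝ) ≤ K := by linarith
    exact_mod_cast h1
  have hK16 : 16 ≤ K := by
    have h1 : (16 : ℝ) ≤ K := by linarith
    exact_mod_cast h1
  have hK1 : 1 ≤ K := by omega
  obtain ⟨b, hb⟩ : ∃ b, b = t ^ eQ d r := ⟨_, rfl⟩
  rw [← hb]
  have hb1 : 1 ≤ b := by rw [hb]; exact one_le_pow₀ ht1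
  have hb2 : b ≤ (2 * t) ^ eQ d r := by
    rw [hb]; exact pow_le_pow_left₀ ht0.le (by linarith) _
  -- translation
  obtain ⟨w, hw⟩ : ∃ w : Fin d → ℤ, w = fun k => (K : ℤ) + 2 + (K / 2 : ℕ) - x0 k := ⟨_, rfl⟩
  have htr : EX μ L (b ^ 4) (fun U : Ed d (2 * m) → G =>
        ∏ i, (2 * (b ^ 4 * we L (hol (lf U) (x i) (p i))))) =
      EX μ L (b ^ 4) (fun U : Ed d (2 * m) → G =>
        ∏ i, (2 * (b ^ 4 * we L (hol (lf U) (x i + w) (p i))))) := by
    rw [← EX_tr μ (zt (2 * m) w) (fun U : Ed d (2 * m) → G =>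
        ∏ i, (2 * (b ^ 4 * we L (hol (lf U) (x i) (p i)))))]
    congr 1
    funext U
    refine Finset.prod_congr rfl fun i _ => ?_
    rw [← hol_trans]
    congr 4
    funext e
    unfold lf tr zt
    congr 2
    funext k
    simp
  have hlen : ∀ i, ((p i).length : ℝ) ≤ t := fun i => by
    have : ((p i).length : ℝ) ≤ T := by exact_mod_cast hpT i
    linarith
  have hGF : GF P X (fun i j => cv (x i + w) (p i) (x j + w) (p j)) mr := by
    have : (fun i j => cv (x i + w) (p i) (x j + w) (p j)) =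
        fun i j => cv (x i) (p i) (x j) (p j) := by
      funext i j
      exact cv_trans _ _ _ _ _
    rw [this]; exact hX
  have key := hwin b hb1 t ht1 hb2 m K hK1 hKm (fun i => x i + w) p t ht0.le hlen
    (fun i => by rw [dest_trans, hcl i]) (fun i k => by
      have h1 := hpT i
      have h2 := abs_le.1 (hx0 i k)
      rw [Pi.add_apply, hw]
      simp only
      omega) Ω P X mr hmr hGF (1 / t ^ eA r) (by positivity) (by
      rw [div_le_one (by positivity)]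
      exact one_le_pow₀ ht1)
  rw [htr]
  refine key.trans ?_
  have h1q : 1 + t ≤ 2 * t := by linarith
  -- first term
  have e1 : ((1 + t) * (K : ℝ) ^ (d + 1)) ^ (4 * r + 4) * t / b ^ 2 ≤
      2 ^ ((d + 2) * (4 * r + 4)) * (1 / t) := by
    have h1 : (1 + t) * (K : ℝ) ^ (d + 1) ≤ 2 ^ (d + 2) * t ^ (1 + eB r * (d + 1)) := by
      calc (1 + t) * (K : ℝ) ^ (d + 1) ≤ (2 * t) * (2 * t ^ eB r) ^ (d + 1) := by gcongr
        _ = _ := by rw [mul_pow, ← pow_mul, pow_add t 1]; ring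
    calc ((1 + t) * (K : ℝ) ^ (d + 1)) ^ (4 * r + 4) * t / b ^ 2 ≤
        (2 ^ (d + 2) * t ^ (1 + eB r * (d + 1))) ^ (4 * r + 4) * t / b ^ 2 := by gcongr
      _ = 2 ^ ((d + 2) * (4 * r + 4)) *
          (t ^ ((1 + eB r * (d + 1)) * (4 * r + 4) + 1) / t ^ (eQ d r * 2)) := by
          rw [mul_pow, ← pow_mul, ← pow_mul, hb, ← pow_mul, pow_succ t
            ((1 + eB r * (d + 1)) * (4 * r + 4))]
          ring
      _ ≤ _ := by
          refine mul_le_mul_of_nonneg_left (div_pow_le ht1 ?_) (by positivity)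
          unfold eQ
          omega
  have e2 : (1 / t ^ eA r) ^ 2 * (1 + mr) * (1 + t) ^ (4 * r + 4) * t ≤
      (1 + mr) * 2 ^ (4 * r + 4) * (1 / t) := by
    calc (1 / t ^ eA r) ^ 2 * (1 + mr) * (1 + t) ^ (4 * r + 4) * t ≤
        (1 / t ^ eA r) ^ 2 * (1 + mr) * (2 * t) ^ (4 * r + 4) * t := by gcongr
      _ = (1 + mr) * 2 ^ (4 * r + 4) * (t ^ (4 * r + 4 + 1) / t ^ (eA r * 2)) := by
          rw [mul_pow, div_pow, one_pow, ← pow_mul, pow_succ t (4 * r + 4)]
          ring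
      _ ≤ _ := by
          refine mul_le_mul_of_nonneg_left (div_pow_le ht1 ?_) (by positivity)
          unfold eA
          omega
  have hss : t ^ (2 * eA r * r + 5) ≤ Real.sqrt (Real.sqrt K) := by
    have h1 : (t ^ (2 * eA r * r + 5)) ^ 4 ≤ K := by
      rw [← pow_mul]
      refine le_trans (le_of_eq ?_) hKl
      congr 1
      unfold eB
      ring
    refine Real.le_sqrt_of_sq_le (Real.le_sqrt_of_sq_le ?_)
    rw [← pow_mul]
    exact h1
  have e3 : (1 / (1 / t ^ eA r) ^ 2) ^ r * (1 + t) ^ 4 *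
        (1 / Real.sqrt (Real.sqrt K) + (K : ℝ) ^ (2 * d + 3) / b) ≤
      16 * (1 + 2 ^ (2 * d + 3)) * (1 / t) := by
    have h1 : (1 / (1 / t ^ eA r) ^ 2) ^ r = t ^ (2 * eA r * r) := by
      rw [one_div, one_div, inv_pow, inv_pow, inv_pow, inv_inv, ← pow_mul, ← pow_mul]
      congr 1; ring
    have h2 : (1 + t) ^ 4 ≤ 16 * t ^ 4 := by
      calc (1 + t) ^ 4 ≤ (2 * t) ^ 4 := by gcongr
        _ = _ := by ring
    have h3 : 1 / Real.sqrt (Real.sqrt K) ≤ 1 / t ^ (2 * eA r * r + 5) :=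
      one_div_le_one_div_of_le (by positivity) hss
    have h4 : (K : ℝ) ^ (2 * d + 3) / b ≤
        2 ^ (2 * d + 3) * (t ^ (eB r * (2 * d + 3)) / t ^ eQ d r) := by
      calc (K : ℝ) ^ (2 * d + 3) / b ≤ (2 * t ^ eB r) ^ (2 * d + 3) / b := by gcongr
        _ = _ := by rw [mul_pow, ← pow_mul, hb]; ring
    rw [h1]
    calc t ^ (2 * eA r * r) * (1 + t) ^ 4 *
        (1 / Real.sqrt (Real.sqrt K) + (K : ℝ) ^ (2 * d + 3) / b) ≤
        t ^ (2 * eA r * r) * (16 * t ^ 4) * (1 / t ^ (2 * eA r * r + 5) +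
          2 ^ (2 * d + 3) * (t ^ (eB r * (2 * d + 3)) / t ^ eQ d r)) := by gcongr
      _ = 16 * (t ^ (2 * eA r * r + 4) / t ^ (2 * eA r * r + 5)) + 16 * 2 ^ (2 * d + 3) *
          (t ^ (2 * eA r * r + 4 + eB r * (2 * d + 3)) / t ^ eQ d r) := by
          rw [pow_add t (2 * eA r * r + 4), pow_add t (2 * eA r * r) 4]
          ring
      _ ≤ 16 * (1 / t) + 16 * 2 ^ (2 * d + 3) * (1 / t) := by
          refine add_le_add (mul_le_mul_of_nonneg_left (div_pow_le ht1 (by omega)) (by norm_num))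
            (mul_le_mul_of_nonneg_left (div_pow_le ht1 ?_) (by positivity))
          unfold eQ
          have : 0 ≤ (1 + eB r * (d + 1)) * (4 * r + 4) := Nat.zero_le _
          omega
      _ = _ := by ring
  calc _ ≤ C1 * (2 ^ ((d + 2) * (4 * r + 4)) * (1 / t) + ((1 + mr) * 2 ^ (4 * r + 4) * (1 / t) +
        16 * (1 + 2 ^ (2 * d + 3)) * (1 / t))) :=
        mul_le_mul_of_nonneg_left (add_le_add e1 (add_le_add e2 e3)) hC1.le
    _ = _ := by ring

end

end Pool.Agent.W2helper67.YM
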