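import Mathlib
import Pool.Agent.W2helper67.YM.Tors

/-!
# The Gaussian fields
-/

open MeasureTheory Filter Matrix ProbabilityTheory
open scoped Topology Matrix.Norms.Frobenius

namespace Pool.Agent.W2helper67.YM

set_option linter.unusedSectionVars false
set_option linter.unusedVariables false

noncomputable section

variable {d : ℕ}

lemma pu_neg (x : Fin d → ℤ) (u : Fin d → ℝ) : pu (-x) u = -pu x u := by
  unfold pu
  simp only [Pi.neg_apply, Int.cast_neg, mul_neg, Finset.sum_neg_distrib]

lemma pu_sub (x y : Fin d → ℤ) (u : Fin d → ℝ) : pu (x - y) u = pu x u - pu y u := by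
  unfold pu
  simp only [Pi.sub_apply, Int.cast_sub, mul_sub, Finset.sum_sub_distrib]

lemma gr_neg (x : Fin d → ℤ) : gr (-x) = gr x := by
  unfold gr
  simp only [pu_neg, Real.cos_neg]

section quad

variable {κ : Type*} [Fintype κ]

lemma quad_cos (y : κ → Fin d → ℤ) (k : κ → Fin d) (w : κ → ℝ) (u : Fin d → ℝ) :
    0 ≤ quad y k w fun x => Real.cos (pu x u) := by
  have h1 : (quad y k w fun x => Real.cos (pu x u)) =
      ∑ k0, ((∑ s, if k s = k0 then w s * Real.cos (pu (y s) u) else 0) ^ 2 +
        (∑ s, if k s = k0 then w s * Real.sin (pu (y s) u) else 0) ^ 2) := by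
    have h2 : ∀ f : κ → ℝ, ∑ k0, (∑ s, if k s = k0 then f s else 0) ^ 2 =
        ∑ s, ∑ s', if k s = k s' then f s * f s' else 0 := by
      intro f
      have h3 : ∀ k0, (∑ s, if k s = k0 then f s else 0) ^ 2 =
          ∑ s, ∑ s', if k s = k0 then (if k s' = k0 then f s * f s' else 0) else 0 := by
        intro k0
        rw [sq, Finset.sum_mul_sum]
        refine Finset.sum_congr rfl fun s _ => Finset.sum_congr rfl fun s' _ => ?_
        split_ifs <;> simp
      simp only [h3]
      rw [Finset.sum_comm]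
      refine Finset.sum_congr rfl fun s _ => ?_
      rw [Finset.sum_comm]
      refine Finset.sum_congr rfl fun s' _ => ?_
      rw [Finset.sum_ite_eq Finset.univ (k s)]
      simp only [Finset.mem_univ, if_true]
      refine if_congr ⟨fun h => h.symm, fun h => h.symm⟩ rfl rfl
    rw [Finset.sum_add_distrib, h2, h2, ← Finset.sum_add_distrib]
    unfold quad
    refine Finset.sum_congr rfl fun s _ => ?_
    rw [← Finset.sum_add_distrib]
    refine Finset.sum_congr rfl fun s' _ => ?_
    split_ifs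
    · show w s * w s' * Real.cos (pu (y s - y s') u) = _
      rw [pu_sub, Real.cos_sub]; ring
    · ring
  rw [h1]
  positivity

lemma quad_pz (hd : 0 < d) (y : κ → Fin d → ℤ) (k : κ → Fin d) (w : κ → ℝ) (m : ℕ) :
    0 ≤ quad y k w (pz d m) := by
  have hc : ∀ x : Fin d → ℤ, Continuous fun u : Fin d → ℝ => lu u ^ m * Real.cos (pu x u) :=
    fun x => (lu_cont.pow m).mul (Real.continuous_cos.comp (pu_cont x))
  have hint : ∀ x : Fin d → ℤ, IntegrableOn
      (fun u : Fin d → ℝ => lu u ^ m * Real.cos (pu x u)) (cube d) := fun x =>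
    (hc x).continuousOn.integrableOn_compact (isCompact_univ_pi fun _ => isCompact_Icc)
  have h1 : quad y k w (pz d m) = ∫ u in cube d, quad y k w fun x =>
      lu u ^ m * Real.cos (pu x u) := by
    unfold quad
    rw [integral_finsetSum]
    · refine Finset.sum_congr rfl fun s _ => ?_
      rw [integral_finsetSum]
      · refine Finset.sum_congr rfl fun s' _ => ?_
        split_ifs
        · rw [pz_eq hd, integral_const_mul]
        · simp
      · intro s' _
        split_ifs
        · exact (hint _).const_mul _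
        · exact integrable_zero _ _ _
    · intro s _
      refine integrable_finsetSum _ fun s' _ => ?_
      split_ifs
      · exact (hint _).const_mul _
      · exact integrable_zero _ _ _
  rw [h1]
  refine integral_nonneg fun u => ?_
  show 0 ≤ quad y k w fun x => lu u ^ m * Real.cos (pu x u)
  rw [← quad_smul]
  exact mul_nonneg (pow_nonneg (lu_nonneg hd u) m) (quad_cos y k w u)

/-- the covariance is nonnegative -/
theorem quad_nonneg (hd : 3 ≤ d) (y : κ → Fin d → ℤ) (k : κ → Fin d) (w : κ → ℝ) :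
    0 ≤ quad y k w gr := by
  have hd1 : 0 < d := by omega
  have h1 : HasSum (fun m => quad y k w fun x => (1 / (4 * d) : ℝ) * pz d m x)
      (quad y k w gr) := by
    unfold quad
    refine hasSum_sum fun s _ => hasSum_sum fun s' _ => ?_
    split_ifs
    · exact (gr_hasSum hd _).mul_left _
    · exact hasSum_zero
  refine h1.nonneg fun m => ?_
  rw [← quad_smul]
  exact mul_nonneg (by positivity) (quad_pz hd1 y k w m)

end quad

lemma cv_symm (x : Fin d → ℤ) (p : List (Fin d × Bool)) (x' : Fin d → ℤ)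
    (p' : List (Fin d × Bool)) : cv x p x' p' = cv x' p' x p := by
  unfold cv
  rw [Finset.sum_comm]
  refine Finset.sum_congr rfl fun s _ => Finset.sum_congr rfl fun s' _ => ?_
  refine if_congr ⟨fun h => h.symm, fun h => h.symm⟩ ?_ rfl
  rw [← gr_neg, neg_sub]
  ring

variable {r n : ℕ}

/-- the covariance matrix of `n` independent copies -/
def cvM (n : ℕ) (x : Fin r → Fin d → ℤ) (p : Fin r → List (Fin d × Bool)) :
    Matrix (Fin r × Fin n) (Fin r × Fin n) ℝ :=
  Matrix.of fun i j => if i.2 = j.2 then cv (x i.1) (p i.1) (x j.1) (p j.1) else 0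

lemma cvM_form (x : Fin r → Fin d → ℤ) (p : Fin r → List (Fin d × Bool))
    (z : Fin r × Fin n → ℝ) : z ⬝ᵥ (cvM n x p) *ᵥ z =
      ∑ a, ∑ i, ∑ j, z (i, a) * z (j, a) * cv (x i) (p i) (x j) (p j) := by
  unfold cvM dotProduct mulVec dotProduct
  simp only [Matrix.of_apply, Fintype.sum_prod_type]
  rw [Finset.sum_comm]
  refine Finset.sum_congr rfl fun a _ => Finset.sum_congr rfl fun i _ => ?_
  rw [Finset.mul_sum]
  refine Finset.sum_congr rfl fun j _ => ?_
  rw [Finset.sum_eq_single a]
  · rw [if_pos rfl]; ring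
  · intro b _ hb; rw [if_neg (Ne.symm hb), zero_mul]
  · intro hn; exact absurd (Finset.mem_univ _) hn

lemma quad_gen (x : Fin r → Fin d → ℤ) (p : Fin r → List (Fin d × Bool)) (c : Fin r → ℝ) :
    quad (fun s : KK x p => yy (x s.1) (p s.1) s.2) (fun s => kk (x s.1) (p s.1) s.2)
      (fun s => c s.1 * ww (x s.1) (p s.1) s.2) gr =
      ∑ i, ∑ j, c i * c j * cv (x i) (p i) (x j) (p j) := by
  unfold quad
  rw [Fintype.sum_sigma]
  refine Finset.sum_congr rfl fun i _ => ?_
  simp only [Fintype.sum_sigma]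
  rw [Finset.sum_comm]
  refine Finset.sum_congr rfl fun j _ => ?_
  unfold cv
  rw [Finset.mul_sum]
  refine Finset.sum_congr rfl fun s _ => ?_
  rw [Finset.mul_sum]
  refine Finset.sum_congr rfl fun s' _ => ?_
  rw [mul_ite, mul_zero]
  refine if_congr Iff.rfl ?_ rfl
  ring

theorem cvM_psd (hd : 3 ≤ d) (n : ℕ) (x : Fin r → Fin d → ℤ) (p : Fin r → List (Fin d × Bool)) :
    (cvM n x p).PosSemidef := by
  refine Matrix.PosSemidef.of_dotProduct_mulVec_nonneg ?_ fun z => ?_
  · ext i j
    rw [Matrix.conjTranspose_apply]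
    unfold cvM
    simp only [Matrix.of_apply, star_trivial]
    rw [cv_symm]
    exact if_congr ⟨fun h => h.symm, fun h => h.symm⟩ rfl rfl
  · have h1 : star z = z := by ext; simp
    rw [h1, cvM_form]
    refine Finset.sum_nonneg fun a _ => ?_
    have h2 := quad_gen x p fun i => z (i, a)
    rw [← h2]
    exact quad_nonneg hd _ _ _

/-- the moments of the standard Gaussian law -/
def gm (r : ℕ) : ℝ := ∫ z, z ^ (2 * r + 2) ∂(gaussianReal 0 1)

lemma gm_nonneg (r : ℕ) : 0 ≤ gm r := by
  unfold gm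
  refine integral_nonneg fun z => ?_
  show 0 ≤ z ^ (2 * r + 2)
  exact Even.pow_nonneg ⟨r + 1, by ring⟩ z

lemma gauss_int (v : NNReal) (k : ℕ) : Integrable (fun z : ℝ => z ^ k) (gaussianReal 0 v) := by
  have h1 := memLp_id_gaussianReal (μ := 0) (v := v) k
  rcases Nat.eq_zero_or_pos k with h | h
  · subst h; simp
  · have h2 := h1.integrable_norm_pow h.ne'
    refine h2.mono ?_ (Eventually.of_forall fun z => ?_)
    · exact (measurable_id.pow_const k).aestronglyMeasurable
    · simp

lemma gauss_mom (v : NNReal) (r : ℕ) : ∫ z, z ^ (2 * r + 2) ∂(gaussianReal 0 v) =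
    gm r * (v : ℝ) ^ (r + 1) := by
  have h1 := gaussianReal_map_const_mul (μ := 0) (v := 1) (Real.sqrt v)
  have h2 : (NNReal.mk (Real.sqrt v ^ 2) (sq_nonneg _)) * 1 = v := by
    rw [mul_one]
    ext
    exact Real.sq_sqrt v.2
  rw [h2, mul_zero] at h1
  rw [← h1, integral_map (by fun_prop) (by fun_prop)]
  unfold gm
  rw [mul_comm (∫ z : ℝ, z ^ (2 * r + 2) ∂(gaussianReal 0 1)) _, ← integral_const_mul]
  congr 1
  funext z
  rw [mul_pow]
  congr 1
  have : 2 * r + 2 = 2 * (r + 1) := by ring
  have h3 : Real.sqrt v ^ 2 = v := Real.sq_sqrt v.2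
  rw [this, pow_mul]
  exact congrArg (fun y : ℝ => y ^ (r + 1)) h3

/-- the coordinates of the Gaussian measure -/
theorem GF_multi (hd : 3 ≤ d) (x : Fin r → Fin d → ℤ) (p : Fin r → List (Fin d × Bool)) :
    GF (multivariateGaussian (0 : EuclideanSpace ℝ (Fin r × Fin n)) (cvM n x p))
      (fun i a ω => ω (i, a)) (fun i j => cv (x i) (p i) (x j) (p j)) (gm r) := by
  have hS := cvM_psd hd n x p
  have hmp : ∀ i a, MeasurePreserving (fun ω : EuclideanSpace ℝ (Fin r × Fin n) => ω (i, a))
      (multivariateGaussian 0 (cvM n x p)) (gaussianReal 0 (cvM n x p (i, a) (i, a)).toNNReal) :=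
    fun i a => measurePreserving_eval_multivariateGaussian hS
  have hcv : ∀ i (a : Fin n), (cvM n x p (i, a) (i, a)) = cv (x i) (p i) (x i) (p i) := fun i a => by
    unfold cvM; simp
  refine ⟨fun i a => by fun_prop, fun c => ?_, fun i a => ?_, fun i a => ?_⟩
  · obtain ⟨z, hz⟩ : ∃ z : EuclideanSpace ℝ (Fin r × Fin n), z = WithLp.toLp 2 fun s => c s.1 s.2 :=
      ⟨_, rfl⟩
    have h1 := charFun_multivariateGaussian (μ := 0) hS z
    have h2 : charFun (multivariateGaussian (0 : EuclideanSpace ℝ (Fin r × Fin n)) (cvM n x p)) z =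
        ∫ ω, Complex.exp ((inner ℝ ω z : ℝ) * Complex.I)
          ∂(multivariateGaussian 0 (cvM n x p)) := charFun_apply _
    have h3 : ∀ ω : EuclideanSpace ℝ (Fin r × Fin n), inner ℝ ω z = ∑ i, ∑ a, c i a * ω (i, a) := by
      intro ω
      rw [hz, PiLp.inner_apply, Fintype.sum_prod_type]
      refine Finset.sum_congr rfl fun i _ => Finset.sum_congr rfl fun a _ => ?_
      simp
    have hint : Integrable (fun ω : EuclideanSpace ℝ (Fin r × Fin n) =>
        Complex.exp ((inner ℝ ω z : ℝ) * Complex.I)) (multivariateGaussian 0 (cvM n x p)) := by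
      refine Integrable.of_bound (C := 1) (by fun_prop) (Eventually.of_forall fun ω => ?_)
      rw [Complex.norm_exp_ofReal_mul_I]
    have h4 := congrArg Complex.re (h2.symm.trans h1)
    rw [inner_zero_right] at h4
    have h5 : (∫ ω, Complex.exp ((inner ℝ ω z : ℝ) * Complex.I)
        ∂(multivariateGaussian 0 (cvM n x p))).re = ∫ ω, Real.cos (∑ i, ∑ a, c i a * ω (i, a))
        ∂(multivariateGaussian 0 (cvM n x p)) := by
      have h6 : (∫ ω, Complex.exp ((inner ℝ ω z : ℝ) * Complex.I)
          ∂(multivariateGaussian 0 (cvM n x p))).re =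
          ∫ ω, (Complex.exp ((inner ℝ ω z : ℝ) * Complex.I)).re
          ∂(multivariateGaussian 0 (cvM n x p)) := (integral_re hint).symm
      rw [h6]
      congr 1
      funext ω
      rw [Complex.exp_ofReal_mul_I_re, h3]
    have h7 : (WithLp.ofLp z) ⬝ᵥ (cvM n x p) *ᵥ (WithLp.ofLp z) =
        ∑ a, ∑ i, ∑ j, c i a * c j a * cv (x i) (p i) (x j) (p j) := by
      rw [cvM_form, hz]
    rw [h5, h7] at h4
    rw [h4]
    have h8 : ((0 : ℝ) : ℂ) * Complex.I - ((∑ a, ∑ i, ∑ j, c i a * c j a *
        cv (x i) (p i) (x j) (p j) : ℝ) : ℂ) / 2 =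
        ((-(∑ a, ∑ i, ∑ j, c i a * c j a * cv (x i) (p i) (x j) (p j)) / 2 : ℝ) : ℂ) := by
      push_cast; ring
    rw [h8, Complex.exp_ofReal_re]
  · exact (hmp i a).integrable_comp_of_integrable (gauss_int _ _)
  · have h1 : ∫ ω : EuclideanSpace ℝ (Fin r × Fin n), ω (i, a) ^ (2 * r + 2)
        ∂(multivariateGaussian 0 (cvM n x p)) =
        ∫ z, z ^ (2 * r + 2) ∂(gaussianReal 0 (cvM n x p (i, a) (i, a)).toNNReal) := by
      rw [← (hmp i a).map_eq, integral_map (hmp i a).measurable.aemeasurable (by fun_prop)]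
    rw [h1, gauss_mom, hcv]
    have h2 : 0 ≤ cv (x i) (p i) (x i) (p i) := by
      have h3 := quad_gen x p fun j => if j = i then 1 else 0
      have h4 := quad_nonneg hd (fun s : KK x p => yy (x s.1) (p s.1) s.2)
        (fun s => kk (x s.1) (p s.1) s.2)
        (fun s => (if s.1 = i then (1 : ℝ) else 0) * ww (x s.1) (p s.1) s.2)
      rw [h3] at h4
      simpa using h4
    rw [Real.coe_toNNReal _ h2]

end

end Pool.Agent.W2helper67.YM
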