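import Mathlib
import Pool.Agent.W2helper67.YM.GaussM

/-!
# Second and fourth moments of the Gaussian fields
-/

open MeasureTheory Filter Matrix ProbabilityTheory
open scoped Topology Matrix.Norms.Frobenius

namespace Pool.Agent.W2helper67.YM

set_option linter.unusedSectionVars false
set_option linter.unusedVariables false

noncomputable section

lemma der_poly (P P' : ℝ → ℝ) (hP : ∀ t, HasDerivAt P (P' t) t) :
    deriv (fun t : ℝ => P t * Real.exp (t ^ 2 / 2)) =
      fun t => (P' t + t * P t) * Real.exp (t ^ 2 / 2) := by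
  funext t
  have h1 : HasDerivAt (fun t : ℝ => t ^ 2 / 2) t t := by
    have := (hasDerivAt_pow 2 t).div_const 2
    refine this.congr_deriv ?_
    norm_num
  have h2 := (hP t).mul h1.exp
  refine h2.deriv.trans ?_
  ring

lemma mgf_std : mgf (fun z : ℝ => z) (gaussianReal 0 1) = fun t => Real.exp (t ^ 2 / 2) := by
  rw [mgf_fun_id_gaussianReal]
  funext t
  simp

lemma gm_eq (r : ℕ) : gm r = iteratedDeriv (2 * r + 2) (fun t : ℝ => Real.exp (t ^ 2 / 2)) 0 := by
  rw [← mgf_std, iteratedDeriv_mgf_zero (by rw [integrableExpSet_fun_id_gaussianReal]; simp)]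
  rfl

lemma gm_zero : gm 0 = 1 := by
  rw [gm_eq]
  have e0 : (fun t : ℝ => Real.exp (t ^ 2 / 2)) = fun t => 1 * Real.exp (t ^ 2 / 2) := by
    funext t; rw [one_mul]
  rw [iteratedDeriv_eq_iterate]
  simp only [Nat.mul_zero, zero_add, Function.iterate_succ, Function.iterate_zero,
    Function.comp_apply, id]
  rw [e0, der_poly (fun _ => 1) (fun _ => 0) fun t => hasDerivAt_const t 1]
  rw [der_poly (fun t => 0 + t * 1) (fun _ => 1) fun t => by
    simpa using hasDerivAt_id' t]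
  norm_num

lemma gm_one : gm 1 = 3 := by
  rw [gm_eq]
  have e0 : (fun t : ℝ => Real.exp (t ^ 2 / 2)) = fun t => 1 * Real.exp (t ^ 2 / 2) := by
    funext t; rw [one_mul]
  rw [iteratedDeriv_eq_iterate]
  have e4 : 2 * 1 + 2 = 4 := by norm_num
  rw [e4]
  simp only [Function.iterate_succ, Function.iterate_zero, Function.comp_apply, id]
  rw [e0, der_poly (fun _ => 1) (fun _ => 0) fun t => hasDerivAt_const t 1]
  rw [der_poly (fun t => 0 + t * 1) (fun _ => 1) fun t => by
    simpa using hasDerivAt_id' t]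
  rw [der_poly (fun t => 1 + t * (0 + t * 1)) (fun t => 2 * t) fun t => by
    have h := ((hasDerivAt_id t).mul (hasDerivAt_id t)).const_add 1
    refine (h.congr_deriv ?_).congr_of_eventuallyEq (Eventually.of_forall fun s => ?_)
    · simp; ring
    · simp]
  rw [der_poly (fun t => 2 * t + t * (1 + t * (0 + t * 1))) (fun t => 3 + 3 * t ^ 2) fun t => by
    have h := ((hasDerivAt_id t).const_mul 3).add (hasDerivAt_pow 3 t)
    refine (h.congr_deriv ?_).congr_of_eventuallyEq (Eventually.of_forall fun s => ?_)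
    · simp
    · simp; ring]
  norm_num

variable {ι : Type*} [Fintype ι] [DecidableEq ι] {S : Matrix ι ι ℝ}

/-- the law of a linear form -/
lemma lin_law (hS : S.PosSemidef) (c : ι → ℝ) :
    (multivariateGaussian (0 : EuclideanSpace ℝ ι) S).map (fun ω => ∑ i, c i * ω i) =
      gaussianReal 0 (c ⬝ᵥ S *ᵥ c).toNNReal := by
  have hv : 0 ≤ c ⬝ᵥ S *ᵥ c := by
    have := hS.dotProduct_mulVec_nonneg c
    have h1 : star c = c := by ext; simp
    rwa [h1] at this
  have hm : Measurable fun ω : EuclideanSpace ℝ ι => ∑ i, c i * ω i := by fun_prop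
  have : IsProbabilityMeasure ((multivariateGaussian (0 : EuclideanSpace ℝ ι) S).map
      (fun ω => ∑ i, c i * ω i)) := Measure.isProbabilityMeasure_map hm.aemeasurable
  refine Measure.ext_of_charFun (funext fun t => ?_)
  rw [charFun_gaussianReal, charFun_apply_real, integral_map hm.aemeasurable (by fun_prop)]
  have h1 := charFun_multivariateGaussian (μ := 0) hS (WithLp.toLp 2 fun i => t * c i)
  rw [charFun_apply, inner_zero_right] at h1
  have h2 : ∀ ω : EuclideanSpace ℝ ι, (inner ℝ ω (WithLp.toLp 2 fun i => t * c i) : ℝ) =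
      t * ∑ i, c i * ω i := by
    intro ω
    rw [PiLp.inner_apply, Finset.mul_sum]
    refine Finset.sum_congr rfl fun i _ => ?_
    simp; ring
  simp only [h2] at h1
  have h3 : ∫ ω : EuclideanSpace ℝ ι, Complex.exp ((t : ℂ) * ((∑ i, c i * ω i : ℝ) : ℂ) *
      Complex.I) ∂(multivariateGaussian (0 : EuclideanSpace ℝ ι) S) =
      ∫ ω : EuclideanSpace ℝ ι, Complex.exp (((t * ∑ i, c i * ω i : ℝ) : ℂ) *
      Complex.I) ∂(multivariateGaussian (0 : EuclideanSpace ℝ ι) S) := by
    congr 1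
    funext ω
    rw [Complex.ofReal_mul]
  rw [h3, h1, Real.coe_toNNReal _ hv]
  congr 1
  have h4 : (fun i => t * c i) ⬝ᵥ S *ᵥ (fun i => t * c i) = t ^ 2 * (c ⬝ᵥ S *ᵥ c) := by
    have : (fun i => t * c i) = t • c := rfl
    rw [this, Matrix.mulVec_smul, dotProduct_smul, smul_dotProduct, smul_eq_mul, smul_eq_mul]
    ring
  rw [h4]
  push_cast
  ring

lemma lin_int (hS : S.PosSemidef) (c : ι → ℝ) (k : ℕ) :
    Integrable (fun ω : EuclideanSpace ℝ ι => (∑ i, c i * ω i) ^ k) (multivariateGaussian 0 S) := by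
  have hm : Measurable fun ω : EuclideanSpace ℝ ι => ∑ i, c i * ω i := by fun_prop
  have h1 := gauss_int (c ⬝ᵥ S *ᵥ c).toNNReal k
  rw [← lin_law hS c] at h1
  exact h1.comp_measurable hm

lemma lin_mom (hS : S.PosSemidef) (c : ι → ℝ) (r : ℕ) :
    ∫ ω : EuclideanSpace ℝ ι, (∑ i, c i * ω i) ^ (2 * r + 2) ∂(multivariateGaussian 0 S) =
      gm r * (c ⬝ᵥ S *ᵥ c) ^ (r + 1) := by
  have hv : 0 ≤ c ⬝ᵥ S *ᵥ c := by
    have := hS.dotProduct_mulVec_nonneg c
    have h1 : star c = c := by ext; simp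
    rwa [h1] at this
  have hm : Measurable fun ω : EuclideanSpace ℝ ι => ∑ i, c i * ω i := by fun_prop
  have h1 := gauss_mom (c ⬝ᵥ S *ᵥ c).toNNReal r
  rw [← lin_law hS c, integral_map hm.aemeasurable (by fun_prop), Real.coe_toNNReal _ hv] at h1
  exact h1

lemma sum_two (i j : ι) (x y : ℝ) (ω : ι → ℝ) :
    ∑ k, (x * (if k = i then 1 else 0) + y * (if k = j then 1 else 0)) * ω k =
      x * ω i + y * ω j := by
  simp only [add_mul, mul_assoc, ite_mul, one_mul, zero_mul, Finset.sum_add_distrib,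
    ← Finset.mul_sum, Finset.sum_ite_eq', Finset.mem_univ, if_true]

lemma form_two (hS : S.PosSemidef) (i j : ι) (x y : ℝ) :
    (fun k => x * (if k = i then 1 else 0) + y * (if k = j then 1 else 0)) ⬝ᵥ
      S *ᵥ (fun k => x * (if k = i then 1 else 0) + y * (if k = j then 1 else 0)) =
      x ^ 2 * S i i + 2 * (x * y) * S i j + y ^ 2 * S j j := by
  have hs : S j i = S i j := by
    have := hS.isHermitian.apply i j
    simpa using this
  have h1 : ∀ v : ι → ℝ, (fun k => x * (if k = i then 1 else 0) +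
      y * (if k = j then 1 else 0)) ⬝ᵥ v = x * v i + y * v j := fun v => sum_two i j x y v
  rw [h1]
  have h2 : ∀ k', (S *ᵥ (fun k => x * (if k = i then 1 else 0) +
      y * (if k = j then 1 else 0))) k' = x * S k' i + y * S k' j := fun k' => by
    unfold mulVec
    rw [dotProduct_comm]
    exact sum_two i j x y _
  rw [h2, h2, hs]
  ring

/-- second moments -/
lemma mom_two (hS : S.PosSemidef) (i : ι) :
    Integrable (fun ω : EuclideanSpace ℝ ι => ω i ^ 2) (multivariateGaussian 0 S) ∧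
    ∫ ω : EuclideanSpace ℝ ι, ω i ^ 2 ∂(multivariateGaussian 0 S) = S i i := by
  have h1 := lin_mom hS (fun k => 1 * (if k = i then 1 else 0) + 0 * (if k = i then 1 else 0)) 0
  have h2 := lin_int hS (fun k => 1 * (if k = i then 1 else 0) + 0 * (if k = i then 1 else 0)) 2
  rw [form_two hS, gm_zero] at h1
  simp only [sum_two] at h1 h2
  norm_num at h1 h2
  exact ⟨h2, h1⟩

/-- fourth moments -/
lemma mom_four (hS : S.PosSemidef) (i j : ι) :
    Integrable (fun ω : EuclideanSpace ℝ ι => ω i ^ 2 * ω j ^ 2) (multivariateGaussian 0 S) ∧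
    ∫ ω : EuclideanSpace ℝ ι, ω i ^ 2 * ω j ^ 2 ∂(multivariateGaussian 0 S) =
      S i i * S j j + 2 * S i j ^ 2 := by
  have key : ∀ x y : ℝ, Integrable (fun ω : EuclideanSpace ℝ ι => (x * ω i + y * ω j) ^ 4)
      (multivariateGaussian 0 S) ∧
      ∫ ω : EuclideanSpace ℝ ι, (x * ω i + y * ω j) ^ 4 ∂(multivariateGaussian 0 S) =
      3 * (x ^ 2 * S i i + 2 * (x * y) * S i j + y ^ 2 * S j j) ^ 2 := by
    intro x y
    have h1 := lin_mom hS (fun k => x * (if k = i then 1 else 0) + y * (if k = j then 1 else 0)) 1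
    have h2 := lin_int hS (fun k => x * (if k = i then 1 else 0) + y * (if k = j then 1 else 0)) 4
    rw [form_two hS, gm_one] at h1
    simp only [sum_two] at h1 h2
    exact ⟨h2, by simpa using h1⟩
  obtain ⟨a1, a2⟩ := key 1 1
  obtain ⟨b1, b2⟩ := key 1 (-1)
  obtain ⟨c1, c2⟩ := key 1 0
  obtain ⟨d1, d2⟩ := key 0 1
  have e : (fun ω : EuclideanSpace ℝ ι => ω i ^ 2 * ω j ^ 2) = fun ω =>
      (1 / 12 : ℝ) * ((1 * ω i + 1 * ω j) ^ 4 + (1 * ω i + -1 * ω j) ^ 4) -
        (1 / 6 : ℝ) * ((1 * ω i + 0 * ω j) ^ 4 + (0 * ω i + 1 * ω j) ^ 4) := by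
    funext ω; ring
  have i1 := (a1.add b1).const_mul (1 / 12 : ℝ)
  have i2 := (c1.add d1).const_mul (1 / 6 : ℝ)
  rw [e]
  refine ⟨i1.sub i2, ?_⟩
  have e1 := integral_sub i1 i2
  have e2 := integral_add a1 b1
  have e3 := integral_add c1 d1
  simp only [Pi.add_apply] at e1 e2 e3
  rw [e1, integral_const_mul, integral_const_mul, e2, e3, a2, b2, c2, d2]
  ring

variable {d r n : ℕ}

/-- the mean -/
theorem mean_one (hd : 3 ≤ d) (x : Fin 1 → Fin d → ℤ) (p : Fin 1 → List (Fin d × Bool)) :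
    ∫ ω : EuclideanSpace ℝ (Fin 1 × Fin n), ∏ i, ∑ a, ω (i, a) ^ 2
      ∂(multivariateGaussian 0 (cvM n x p)) = n * cv (x 0) (p 0) (x 0) (p 0) := by
  have hS := cvM_psd hd n x p
  simp only [Finset.univ_unique, Fin.default_eq_zero, Finset.prod_singleton]
  rw [integral_finsetSum _ fun a _ => (mom_two hS (0, a)).1]
  simp only [(mom_two hS (0, _)).2]
  unfold cvM
  simp

/-- the second moment -/
theorem mean_two (hd : 3 ≤ d) (x : Fin 2 → Fin d → ℤ) (p : Fin 2 → List (Fin d × Bool)) :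
    ∫ ω : EuclideanSpace ℝ (Fin 2 × Fin n), ∏ i, ∑ a, ω (i, a) ^ 2
      ∂(multivariateGaussian 0 (cvM n x p)) =
      (n : ℝ) ^ 2 * (cv (x 0) (p 0) (x 0) (p 0) * cv (x 1) (p 1) (x 1) (p 1)) +
        2 * n * cv (x 0) (p 0) (x 1) (p 1) ^ 2 := by
  have hS := cvM_psd hd n x p
  have h1 : ∀ ω : EuclideanSpace ℝ (Fin 2 × Fin n), ∏ i, ∑ a, ω (i, a) ^ 2 =
      ∑ a, ∑ b, ω (0, a) ^ 2 * ω (1, b) ^ 2 := by
    intro ω
    rw [Fin.prod_univ_two, Finset.sum_mul_sum]
  simp only [h1]
  rw [integral_finsetSum _ fun a _ => integrable_finsetSum _ fun b _ =>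
    (mom_four hS (0, a) (1, b)).1]
  have h2 : ∀ a : Fin n, ∫ ω : EuclideanSpace ℝ (Fin 2 × Fin n), ∑ b, ω (0, a) ^ 2 * ω (1, b) ^ 2
      ∂(multivariateGaussian 0 (cvM n x p)) = n * (cv (x 0) (p 0) (x 0) (p 0) *
        cv (x 1) (p 1) (x 1) (p 1)) + 2 * cv (x 0) (p 0) (x 1) (p 1) ^ 2 := by
    intro a
    rw [integral_finsetSum _ fun b _ => (mom_four hS (0, a) (1, b)).1]
    simp only [(mom_four hS (0, a) (1, _)).2]
    unfold cvM
    simp only [Matrix.of_apply, if_true, Finset.sum_add_distrib, Finset.sum_const,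
      Finset.card_univ, Fintype.card_fin, nsmul_eq_mul]
    congr 1
    rw [← Finset.mul_sum, Finset.sum_eq_single a]
    · rw [if_pos rfl]
    · intro b _ hb; rw [if_neg (Ne.symm hb)]; ring
    · intro hn; exact absurd (Finset.mem_univ _) hn
  simp only [h2, Finset.sum_const, Finset.card_univ, Fintype.card_fin, nsmul_eq_mul]
  ring

end

end Pool.Agent.W2helper67.YM
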