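import Mathlib

/-!
# Alpha permanents and the moments of sums of squares of Gaussian variables
-/

open Equiv

namespace Pool.Agent.W2helper67.YM

set_option linter.unusedSectionVars false

noncomputable section

/-- the number of cycles of a permutation -/
def ncyc {T : Type} (σ : Perm T) : ℕ := Nat.card (Quot fun x y : T => σ x = y)

lemma quot_eq {T : Type} (σ : Perm T) (x : T) :
    (Quot.mk (fun x y : T => σ x = y) x) = Quot.mk _ (σ x) := Quot.sound rfl

lemma ncyc_none {T : Type} [Finite T] (τ : Perm T) : ncyc τ.optionCongr = ncyc τ + 1 := by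
  unfold ncyc
  rw [← Finite.card_option]
  refine Nat.card_congr
    { toFun := Quot.lift (fun x : Option T => x.map (Quot.mk _)) ?_
      invFun := fun y => y.elim (Quot.mk _ none) (Quot.lift (fun x => Quot.mk _ (some x)) ?_)
      left_inv := ?_
      right_inv := ?_ }
  · rintro x y rfl
    cases x with
    | none => rfl
    | some x =>
      simp only [optionCongr_apply, Option.map_some]
      rw [quot_eq τ x]
  · rintro x y rfl
    have := quot_eq τ.optionCongr (some x)
    simpa using this
  · rintro ⟨x⟩
    cases x <;> rfl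
  · intro y
    cases y with
    | none => rfl
    | some y =>
      obtain ⟨y⟩ := y
      rfl

lemma swap_none {T : Type} [DecidableEq T] (k : T) (τ : Perm T) :
    (swap none (some k) * τ.optionCongr) none = some k := by
  simp

lemma swap_some {T : Type} [DecidableEq T] (k : T) (τ : Perm T) (x : T) :
    (swap none (some k) * τ.optionCongr) (some x) = if τ x = k then none else some (τ x) := by
  rw [Perm.mul_apply, optionCongr_apply, Option.map_some]
  split_ifs with h
  · rw [h, swap_apply_right]
  · rw [swap_apply_of_ne_of_ne (by simp) (by simpa using h)]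

lemma ncyc_some {T : Type} [DecidableEq T] (k : T) (τ : Perm T) :
    ncyc (swap none (some k) * τ.optionCongr) = ncyc τ := by
  unfold ncyc
  refine Nat.card_congr
    { toFun := Quot.lift (fun x : Option T => x.elim (Quot.mk _ k) (Quot.mk _)) ?_
      invFun := Quot.lift (fun x => Quot.mk _ (some x)) ?_
      left_inv := ?_
      right_inv := ?_ }
  · rintro x y rfl
    cases x with
    | none => rw [swap_none]; rfl
    | some x =>
      rw [swap_some]
      split_ifs with h
      · show Quot.mk _ x = Quot.mk _ k
        rw [quot_eq τ x, h]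
      · show Quot.mk _ x = Quot.mk _ (τ x)
        exact quot_eq τ x
  · rintro x y rfl
    have h1 := quot_eq (swap none (some k) * τ.optionCongr) (some x)
    rw [swap_some] at h1
    rw [h1]
    split_ifs with h
    · have h2 := quot_eq (swap none (some k) * τ.optionCongr) none
      rw [swap_none] at h2
      rw [h2, h]
    · rfl
  · rintro ⟨x⟩
    cases x with
    | none =>
      have h2 := quot_eq (swap none (some k) * τ.optionCongr) none
      rw [swap_none] at h2
      exact h2.symm
    | some x => rfl
  · rintro ⟨x⟩
    rfl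

lemma ncyc_equiv {T T' : Type} (e : T ≃ T') (σ : Perm T) : ncyc (e.permCongr σ) = ncyc σ := by
  unfold ncyc
  refine (Nat.card_congr (Quot.congr e fun x y => ?_)).symm
  rw [Equiv.permCongr_apply, Equiv.symm_apply_apply]
  exact e.injective.eq_iff.symm

variable {T : Type} [Fintype T] [DecidableEq T]

/-- the alpha permanent -/
def aper (α : ℝ) (M : T → T → ℝ) : ℝ := ∑ σ : Perm T, α ^ ncyc σ * ∏ t, M t (σ t)

lemma aper_option (α : ℝ) (M : Option T → Option T → ℝ) : aper α M =
    α * M none none * aper α (fun t t' => M (some t) (some t')) +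
      ∑ k, M none (some k) *
        aper α (fun t t' => if t' = k then M (some t) none else M (some t) (some t')) := by
  unfold aper
  rw [← (Equiv.Perm.decomposeOption (α := T)).symm.sum_comp, Fintype.sum_prod_type,
    Fintype.sum_option, Finset.mul_sum]
  congr 1
  · refine Finset.sum_congr rfl fun τ _ => ?_
    rw [Perm.decomposeOption_symm_apply]
    simp only [swap_self]
    rw [show (Equiv.refl (Option T) : Perm (Option T)) = 1 from rfl, one_mul, ncyc_none,
      Fintype.prod_option]
    simp only [optionCongr_apply, Option.map_none, Option.map_some]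
    ring
  · refine Finset.sum_congr rfl fun k _ => ?_
    rw [Finset.mul_sum]
    refine Finset.sum_congr rfl fun τ _ => ?_
    rw [Perm.decomposeOption_symm_apply]
    simp only
    rw [ncyc_some, Fintype.prod_option, swap_none]
    have h1 : ∀ t, M (some t) ((swap none (some k) * τ.optionCongr) (some t)) =
        if τ t = k then M (some t) none else M (some t) (some (τ t)) := by
      intro t
      rw [swap_some]
      split_ifs <;> rfl
    simp only [h1]
    ring

lemma aper_equiv {T' : Type} [Fintype T'] [DecidableEq T'] (e : T ≃ T') (α : ℝ)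
    (M : T' → T' → ℝ) : aper α M = aper α fun t t' => M (e t) (e t') := by
  unfold aper
  rw [← e.permCongr.sum_comp]
  refine Finset.sum_congr rfl fun σ _ => ?_
  rw [ncyc_equiv, ← e.prod_comp]
  simp only [Equiv.permCongr_apply, Equiv.symm_apply_apply]

/-- an abstract Gaussian integral: `n` independent copies of a Gaussian vector with the
covariance `S` -/
structure Gs (I : Type) (n : ℕ) (S : I → I → ℝ) where
  /-- the algebra of polynomials -/
  𝒜 : Type
  [cr : CommRing 𝒜]
  [al : Algebra ℝ 𝒜]
  /-- the expectation -/
  E : 𝒜 →ₗ[ℝ] ℝ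
  /-- the variables -/
  x : I → Fin n → 𝒜
  /-- the derivatives in the directions of the columns of the covariance -/
  D : I → Fin n → Derivation ℝ 𝒜 𝒜
  one : E 1 = 1
  stein : ∀ i a h, E (x i a * h) = E (D i a h)
  Dx : ∀ i a j b, D i a (x j b) = algebraMap ℝ 𝒜 (if a = b then S i j else 0)

attribute [instance] Gs.cr Gs.al

variable {I : Type} {n : ℕ} {S : I → I → ℝ} (g : Gs I n S) (c : I → ℝ)

/-- the centered sums of squares -/
def qh (i : I) : g.𝒜 := (1 / 2 : ℝ) • ∑ a, g.x i a ^ 2 - algebraMap ℝ g.𝒜 ((n : ℝ) / 2 * c i)

lemma D_qh (i : I) (a : Fin n) (j : I) : g.D i a (qh g c j) = S i j • g.x j a := by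
  unfold qh
  rw [map_sub, Derivation.map_algebraMap, sub_zero, Derivation.map_smul, map_sum]
  have h1 : ∀ b, g.D i a (g.x j b ^ 2) = (if a = b then (2 * S i j) • g.x j b else 0) := by
    intro b
    rw [pow_two, Derivation.leibniz, g.Dx, smul_eq_mul]
    split_ifs
    · rw [mul_comm, ← Algebra.smul_def, ← add_smul, ← two_mul]
    · simp
  simp only [h1, Finset.sum_ite_eq, Finset.mem_univ, if_true]
  rw [smul_smul]
  congr 1
  ring

lemma D_prod (i : I) (a : Fin n) (f : T → I) : g.D i a (∏ t, qh g c (f t)) =
    ∑ k, S i (f k) • (g.x (f k) a * ∏ t ∈ Finset.univ.erase k, qh g c (f t)) := by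
  have key : ∀ s : Finset T, g.D i a (∏ t ∈ s, qh g c (f t)) =
      ∑ k ∈ s, S i (f k) • (g.x (f k) a * ∏ t ∈ s.erase k, qh g c (f t)) := by
    intro s
    induction s using Finset.induction_on with
    | empty => simp
    | insert k s hk ih =>
      rw [Finset.prod_insert hk, Derivation.leibniz, ih, D_qh, Finset.sum_insert hk,
        Finset.erase_insert hk, smul_eq_mul, smul_eq_mul, Finset.mul_sum, add_comm]
      congr 1
      · rw [mul_smul_comm, mul_comm]
      · refine Finset.sum_congr rfl fun l hl => ?_
        have hlk : l ≠ k := fun h => hk (h ▸ hl)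
        rw [Finset.erase_insert_of_ne hlk.symm, Finset.prod_insert (by
          intro h; exact hk (Finset.mem_of_mem_erase h)), mul_smul_comm]
        congr 1
        ring
  exact key _

/-- the open chain -/
def oc (Q : g.𝒜) (i j : I) : ℝ := g.E ((1 / 2 : ℝ) • ∑ a, g.x i a * g.x j a * Q)

lemma oc_step (f : T → I) (i j : I) : oc g (∏ t, qh g c (f t)) i j =
    (n : ℝ) / 2 * S i j * g.E (∏ t, qh g c (f t)) +
      ∑ k, S i (f k) * oc g (∏ t ∈ Finset.univ.erase k, qh g c (f t)) (f k) j := by
  unfold oc
  obtain ⟨Q, hQ⟩ : ∃ Q, Q = ∏ t, qh g c (f t) := ⟨_, rfl⟩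
  rw [← hQ]
  simp only [map_smul, smul_eq_mul, map_sum]
  have h1 : ∀ a, g.E (g.x i a * g.x j a * Q) = S i j * g.E Q +
      ∑ k, S i (f k) * g.E (g.x (f k) a * g.x j a * ∏ t ∈ Finset.univ.erase k, qh g c (f t)) := by
    intro a
    rw [mul_assoc, g.stein, Derivation.leibniz, g.Dx, if_pos rfl, map_add, smul_eq_mul,
      smul_eq_mul, add_comm]
    congr 1
    · rw [mul_comm, ← Algebra.smul_def, map_smul, smul_eq_mul]
    · rw [hQ, D_prod, Finset.mul_sum, map_sum]
      refine Finset.sum_congr rfl fun k _ => ?_
      rw [mul_smul_comm, map_smul, smul_eq_mul]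
      congr 2
      ring
  simp only [h1]
  rw [Finset.sum_add_distrib, Finset.sum_const, Finset.card_univ, Fintype.card_fin,
    nsmul_eq_mul, mul_add]
  congr 1
  · ring
  · rw [Finset.sum_comm, Finset.mul_sum]
    refine Finset.sum_congr rfl fun k _ => ?_
    rw [← Finset.mul_sum]
    ring

/-- the claims -/
def Cl (g : Gs I n S) (c : I → ℝ) (T : Type) [Fintype T] [DecidableEq T] : Prop :=
  ∀ f : T → I, g.E (∏ t, qh g c (f t)) =
      aper ((n : ℝ) / 2) (fun t t' => S (f t) (f t') - if t = t' then c (f t) else 0) ∧
    ∀ (k : T) (j : I), oc g (∏ t ∈ Finset.univ.erase k, qh g c (f t)) (f k) j =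
      aper ((n : ℝ) / 2) (fun t t' => if t' = k then S (f t) j else
        S (f t) (f t') - if t = t' then c (f t) else 0)

lemma Cl_step (h : Cl g c T) (f : Option T → I) :
    (g.E (∏ t, qh g c (f t)) =
      aper ((n : ℝ) / 2) (fun t t' => S (f t) (f t') - if t = t' then c (f t) else 0)) ∧
    ∀ j : I, oc g (∏ t, qh g c (f (some t))) (f none) j =
      aper ((n : ℝ) / 2) (fun t t' => if t' = none then S (f t) j else
        S (f t) (f t') - if t = t' then c (f t) else 0) := by
  obtain ⟨h1, h2⟩ := h fun t => f (some t)
  have h3 : ∀ j, oc g (∏ t, qh g c (f (some t))) (f none) j =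
      (n : ℝ) / 2 * S (f none) j * aper ((n : ℝ) / 2) (fun t t' : T => S (f (some t)) (f (some t')) -
        if t = t' then c (f (some t)) else 0) + ∑ k, S (f none) (f (some k)) *
        aper ((n : ℝ) / 2) (fun t t' => if t' = k then S (f (some t)) j else
        S (f (some t)) (f (some t')) - if t = t' then c (f (some t)) else 0) := by
    intro j
    rw [oc_step, h1]
    simp only [h2]
  constructor
  · rw [Fintype.prod_option]
    have e1 : g.E (qh g c (f none) * ∏ t, qh g c (f (some t))) =
        oc g (∏ t, qh g c (f (some t))) (f none) (f none) -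
          (n : ℝ) / 2 * c (f none) * g.E (∏ t, qh g c (f (some t))) := by
      unfold oc
      rw [qh, sub_mul, map_sub, ← Algebra.smul_def, map_smul, smul_eq_mul, smul_mul_assoc,
        Finset.sum_mul]
      simp only [pow_two]
    rw [e1, h3, h1, aper_option]
    simp only [if_true, reduceCtorEq, if_false, sub_zero, Option.some.injEq]
    ring
  · intro j
    rw [h3, aper_option]
    simp only [if_true, reduceCtorEq, if_false, sub_zero, Option.some.injEq]

lemma Cl_all (m : ℕ) : ∀ (T : Type) [Fintype T] [DecidableEq T], Fintype.card T = m → Cl g c T := by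
  induction m with
  | zero =>
    intro T _ _ hT f
    have : IsEmpty T := Fintype.card_eq_zero_iff.1 hT
    refine ⟨?_, fun k => (this.false k).elim⟩
    unfold aper
    rw [Fintype.prod_empty, g.one, Fintype.sum_unique]
    simp [ncyc]
  | succ m ih =>
    intro T _ _ hT f
    have step : ∀ k : T, (g.E (∏ t, qh g c (f t)) =
      aper ((n : ℝ) / 2) (fun t t' => S (f t) (f t') - if t = t' then c (f t) else 0)) ∧
      ∀ (j : I), oc g (∏ t ∈ Finset.univ.erase k, qh g c (f t)) (f k) j =
      aper ((n : ℝ) / 2) (fun t t' => if t' = k then S (f t) j else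
        S (f t) (f t') - if t = t' then c (f t) else 0) := by
      intro k
      have hcard : Fintype.card {b // b ≠ k} = m := by
        rw [Fintype.card_subtype_compl, hT]
        simp
      have h1 := ih {b // b ≠ k} hcard
      obtain ⟨e, he⟩ : ∃ e : Option {b // b ≠ k} ≃ T, e = optionSubtypeNe k := ⟨_, rfl⟩
      have e0 : e none = k := by rw [he]; simp
      have e1 : ∀ b : {b // b ≠ k}, e (some b) = b := fun b => by rw [he]; simp
      obtain ⟨h2, h3⟩ := Cl_step g c h1 fun t => f (e t)
      constructor
      · rw [← e.prod_comp, h2, aper_equiv e]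
        simp only [e.injective.eq_iff]
      · intro j
        have h4 := h3 j
        simp only [e0, e1] at h4
        have h5 : ∏ t ∈ Finset.univ.erase k, qh g c (f t) =
            ∏ t : {b // b ≠ k}, qh g c (f t) :=
          Finset.prod_subtype (p := fun b => b ≠ k) (Finset.univ.erase k) (by simp) _
        rw [h5, h4, aper_equiv e]
        congr 1
        funext t t'
        have e2 : (e t' = k) ↔ t' = none :=
          ⟨fun h => e.injective (h.trans e0.symm), fun h => by rw [h, e0]⟩
        by_cases ht : t' = none
        · rw [if_pos ht, if_pos (e2.2 ht)]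
        · rw [if_neg ht, if_neg (fun h => ht (e2.1 h))]
          simp only [e.injective.eq_iff]
    have hne : Nonempty T := by
      rw [← Fintype.card_pos_iff, hT]; omega
    exact ⟨(step hne.some).1, fun k => (step k).2⟩

/-- the moments -/
theorem E_prod (f : T → I) : g.E (∏ t, qh g c (f t)) =
    aper ((n : ℝ) / 2) (fun t t' => S (f t) (f t') - if t = t' then c (f t) else 0) :=
  (Cl_all g c _ T rfl f).1

end

end Pool.Agent.W2helper67.YM
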