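import Mathlib
import Pool.Agent.W2helper67.YM.APerm
import Pool.Agent.W2helper67.YM.GaussN

/-!
# The moments of sums of squares of Gaussian vectors
-/

open MeasureTheory Filter Matrix ProbabilityTheory
open scoped Topology MatrixOrder Matrix.Norms.L2Operator

namespace Pool.Agent.W2helper67.YM

set_option linter.unusedSectionVars false
set_option linter.unusedVariables false

noncomputable section

/-- the moments of the standard normal law -/
def sm (k : ℕ) : ℝ := ∫ z, z ^ k ∂(gaussianReal 0 1)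

lemma sm_eq (k : ℕ) : sm k = iteratedDeriv k (fun t : ℝ => Real.exp (t ^ 2 / 2)) 0 := by
  rw [← mgf_std, iteratedDeriv_mgf_zero (by rw [integrableExpSet_fun_id_gaussianReal]; simp)]
  rfl

lemma exp_rec (k : ℕ) : iteratedDeriv (k + 1) (fun t : ℝ => Real.exp (t ^ 2 / 2)) =
    fun t => t * iteratedDeriv k (fun t : ℝ => Real.exp (t ^ 2 / 2)) t +
      k * iteratedDeriv (k - 1) (fun t : ℝ => Real.exp (t ^ 2 / 2)) t := by
  obtain ⟨f, hf⟩ : ∃ f : ℝ → ℝ, f = fun t : ℝ => Real.exp (t ^ 2 / 2) := ⟨_, rfl⟩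
  rw [← hf]
  have hc : ∀ m : ℕ, ContDiff ℝ ((m + 1 : ℕ) : WithTop ℕ∞) f := by
    intro m
    rw [hf]
    exact Real.contDiff_exp.comp ((contDiff_id.pow 2).div_const 2)
  have hd : ∀ (m : ℕ) (t : ℝ), HasDerivAt (iteratedDeriv m f) (iteratedDeriv (m + 1) f t) t := by
    intro m t
    have h1 : DifferentiableAt ℝ (iteratedDeriv m f) t :=
      ((hc m).differentiable_iteratedDeriv m (Nat.cast_lt.2 (Nat.lt_succ_self m))) t
    rw [iteratedDeriv_succ]
    exact h1.hasDerivAt
  induction k with
  | zero =>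
    funext t
    rw [zero_add, iteratedDeriv_one, iteratedDeriv_zero, Nat.cast_zero, zero_mul, add_zero, hf]
    have h1 : HasDerivAt (fun t : ℝ => t ^ 2 / 2) t t := by
      have := (hasDerivAt_pow 2 t).div_const 2
      refine this.congr_deriv ?_
      norm_num
    rw [h1.exp.deriv, mul_comm]
  | succ k ih =>
    funext t
    have h1 : iteratedDeriv (k + 1 + 1) f t =
        deriv (fun t => t * iteratedDeriv k f t + k * iteratedDeriv (k - 1) f t) t := by
      rw [iteratedDeriv_succ, ih]
    have h2 := (((hasDerivAt_id t).mul (hd k t)).add ((hd (k - 1) t).const_mul (k : ℝ))).deriv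
    have h3 : (fun t => t * iteratedDeriv k f t + k * iteratedDeriv (k - 1) f t) =
        ((id * iteratedDeriv k f) + fun y => (k : ℝ) * iteratedDeriv (k - 1) f y) := by
      funext y; rfl
    rw [h1, h3, h2]
    obtain ⟨X, hX⟩ : ∃ X, X = iteratedDeriv (k + 1) f t := ⟨_, rfl⟩
    simp only [id, one_mul, Nat.add_sub_cancel]
    rw [← hX]
    rcases Nat.eq_zero_or_pos k with hk | hk
    · subst hk; simp; ring
    · rw [Nat.sub_add_cancel hk]
      push_cast
      ring

lemma sm_succ (k : ℕ) : sm (k + 1) = k * sm (k - 1) := by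
  rw [sm_eq, sm_eq, exp_rec]
  ring

variable {W : Type} [Fintype W] [DecidableEq W]

/-- the standard Gaussian measure -/
abbrev sg0 (W : Type) [Fintype W] : Measure (W → ℝ) := Measure.pi fun _ => gaussianReal 0 1

lemma mono_int (s : W →₀ ℕ) (a : ℝ) :
    Integrable (fun g : W → ℝ => MvPolynomial.eval g (MvPolynomial.monomial s a)) (sg0 W) ∧
    ∫ g : W → ℝ, MvPolynomial.eval g (MvPolynomial.monomial s a) ∂(sg0 W) =
      a * ∏ w, sm (s w) := by
  have h1 : ∀ g : W → ℝ, MvPolynomial.eval g (MvPolynomial.monomial s a) =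
      a * ∏ w, g w ^ s w := by
    intro g
    rw [MvPolynomial.eval_monomial, Finsupp.prod_fintype _ _ fun w => pow_zero _]
  simp only [h1]
  constructor
  · refine Integrable.const_mul ?_ a
    exact Integrable.fintype_prod (f := fun w (z : ℝ) => z ^ s w) fun w => gauss_int 1 (s w)
  · rw [integral_const_mul, integral_fintype_prod_eq_prod (f := fun w (z : ℝ) => z ^ s w)]
    rfl

lemma pol_int (H : MvPolynomial W ℝ) :
    Integrable (fun g : W → ℝ => MvPolynomial.eval g H) (sg0 W) := by
  induction H using MvPolynomial.induction_on' with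
  | monomial s a => exact (mono_int s a).1
  | add p q hp hq =>
    simp only [map_add]
    exact hp.add hq

/-- the expectation of polynomials -/
def Ev (W : Type) [Fintype W] [DecidableEq W] : MvPolynomial W ℝ →ₗ[ℝ] ℝ where
  toFun H := ∫ g : W → ℝ, MvPolynomial.eval g H ∂(sg0 W)
  map_add' p q := by
    simp only [map_add]
    exact integral_add (pol_int p) (pol_int q)
  map_smul' c p := by
    simp only [MvPolynomial.smul_eval, RingHom.id_apply, smul_eq_mul]
    exact integral_const_mul _ _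

lemma Ev_mono (s : W →₀ ℕ) (a : ℝ) : Ev W (MvPolynomial.monomial s a) = a * ∏ w, sm (s w) :=
  (mono_int s a).2

lemma Ev_stein (w : W) (H : MvPolynomial W ℝ) :
    Ev W (MvPolynomial.X w * H) = Ev W (MvPolynomial.pderiv w H) := by
  induction H using MvPolynomial.induction_on' with
  | monomial s a =>
    rw [MvPolynomial.X, MvPolynomial.monomial_mul, one_mul, MvPolynomial.pderiv_monomial,
      Ev_mono, Ev_mono, ← Finset.mul_prod_erase _ _ (Finset.mem_univ w),
      ← Finset.mul_prod_erase (a := w) _ _ (Finset.mem_univ w)]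
    have e1 : ∏ v ∈ Finset.univ.erase w, sm ((Finsupp.single w 1 + s : W →₀ ℕ) v) =
        ∏ v ∈ Finset.univ.erase w, sm (s v) := by
      refine Finset.prod_congr rfl fun v hv => ?_
      rw [Finsupp.add_apply, Finsupp.single_eq_of_ne (Finset.ne_of_mem_erase hv), zero_add]
    have e2 : ∏ v ∈ Finset.univ.erase w, sm ((s - Finsupp.single w 1 : W →₀ ℕ) v) =
        ∏ v ∈ Finset.univ.erase w, sm (s v) := by
      refine Finset.prod_congr rfl fun v hv => ?_
      rw [Finsupp.tsub_apply, Finsupp.single_eq_of_ne (Finset.ne_of_mem_erase hv), tsub_zero]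
    rw [e1, e2, Finsupp.add_apply, Finsupp.tsub_apply, Finsupp.single_eq_same, add_comm 1,
      sm_succ]
    ring
  | add p q hp hq => rw [mul_add, map_add, map_add, map_add, hp, hq]

/-- the Gaussian integral of a linear image of the standard Gaussian vector -/
def gsA {I : Type} {n : ℕ} {S : I → I → ℝ} (A : I × Fin n → W → ℝ)
    (hA : ∀ i a j b, ∑ w, A (i, a) w * A (j, b) w = if a = b then S i j else 0) : Gs I n S where
  𝒜 := MvPolynomial W ℝ
  E := Ev W
  x := fun i a => ∑ w, MvPolynomial.C (A (i, a) w) * MvPolynomial.X w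
  D := fun i a => MvPolynomial.mkDerivation ℝ fun w => MvPolynomial.C (A (i, a) w)
  one := by
    have h := Ev_mono (0 : W →₀ ℕ) 1
    have h0 : sm 0 = 1 := by unfold sm; simp
    simp only [Finsupp.coe_zero, Pi.zero_apply, h0, Finset.prod_const_one, mul_one] at h
    exact h
  stein := fun i a h => by
    have h1 : (MvPolynomial.mkDerivation ℝ fun w => MvPolynomial.C (A (i, a) w)) =
        ∑ w, A (i, a) w • (MvPolynomial.pderiv w :
          Derivation ℝ (MvPolynomial W ℝ) (MvPolynomial W ℝ)) := by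
      refine MvPolynomial.derivation_ext fun v => ?_
      rw [MvPolynomial.mkDerivation_X]
      have h2 : (∑ w, A (i, a) w • (MvPolynomial.pderiv w :
          Derivation ℝ (MvPolynomial W ℝ) (MvPolynomial W ℝ))) (MvPolynomial.X v) =
          ∑ w, A (i, a) w • MvPolynomial.pderiv w (MvPolynomial.X v : MvPolynomial W ℝ) := by
        have := congrFun (map_sum (Derivation.coeFnAddMonoidHom (R := ℝ)
          (A := MvPolynomial W ℝ) (M := MvPolynomial W ℝ)) (fun w => A (i, a) w •
          (MvPolynomial.pderiv w : Derivation ℝ (MvPolynomial W ℝ) (MvPolynomial W ℝ)))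
          Finset.univ) (MvPolynomial.X v)
        rw [Finset.sum_apply] at this
        exact this
      rw [h2, Finset.sum_eq_single v]
      · rw [MvPolynomial.pderiv_X_self, MvPolynomial.smul_eq_C_mul, mul_one]
      · intro w _ hw
        rw [MvPolynomial.pderiv_X_of_ne hw.symm, smul_zero]
      · intro hn; exact absurd (Finset.mem_univ _) hn
    have h3 : (∑ w, A (i, a) w • (MvPolynomial.pderiv w :
          Derivation ℝ (MvPolynomial W ℝ) (MvPolynomial W ℝ))) h =
          ∑ w, A (i, a) w • MvPolynomial.pderiv w h := by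
      have := congrFun (map_sum (Derivation.coeFnAddMonoidHom (R := ℝ)
        (A := MvPolynomial W ℝ) (M := MvPolynomial W ℝ)) (fun w => A (i, a) w •
        (MvPolynomial.pderiv w : Derivation ℝ (MvPolynomial W ℝ) (MvPolynomial W ℝ)))
        Finset.univ) h
      rw [Finset.sum_apply] at this
      exact this
    rw [h1, h3, Finset.sum_mul, map_sum, map_sum]
    refine Finset.sum_congr rfl fun w _ => ?_
    rw [mul_assoc, ← MvPolynomial.smul_eq_C_mul, map_smul, map_smul, Ev_stein]
  Dx := fun i a j b => by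
    rw [map_sum, ← hA, map_sum]
    refine Finset.sum_congr rfl fun w _ => ?_
    rw [Derivation.leibniz, MvPolynomial.mkDerivation_X, MvPolynomial.derivation_C, smul_zero,
      add_zero, smul_eq_mul, map_mul, mul_comm]
    rfl

variable {I : Type} [Fintype I] [DecidableEq I] {n : ℕ} {S : I → I → ℝ}
  {M : Matrix (I × Fin n) (I × Fin n) ℝ}

lemma sqrt_rel (hM : M.PosSemidef) (hMS : ∀ i a j b, M (i, a) (j, b) = if a = b then S i j else 0)
    (i : I) (a : Fin n) (j : I) (b : Fin n) :
    ∑ w, CFC.sqrt M (i, a) w * CFC.sqrt M (j, b) w = if a = b then S i j else 0 := by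
  have h1 := CFC.sqrt_mul_sqrt_self M hM.nonneg
  have h2 : (CFC.sqrt M)ᴴ = CFC.sqrt M := (CFC.sqrt_nonneg M).isSelfAdjoint
  have h3 : ∀ w, CFC.sqrt M (j, b) w = CFC.sqrt M w (j, b) := by
    intro w
    conv_lhs => rw [← h2]
    rw [Matrix.conjTranspose_apply, star_trivial]
  simp only [h3]
  rw [← hMS, ← Matrix.mul_apply, h1]

lemma gauss_map (F : EuclideanSpace ℝ (I × Fin n) → ℝ) (hF : Measurable F) :
    ∫ ω, F ω ∂(multivariateGaussian 0 M) =
      ∫ g : I × Fin n → ℝ, F (WithLp.toLp 2 fun u => ∑ w, CFC.sqrt M u w * g w)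
        ∂(sg0 (I × Fin n)) := by
  unfold multivariateGaussian
  rw [← map_pi_eq_stdGaussian, integral_map, integral_map]
  · refine integral_congr_ae (Eventually.of_forall fun g => ?_)
    simp only [zero_add]
    rw [Matrix.toEuclideanCLM_toLp]
    rfl
  · fun_prop
  · exact (hF.comp (by fun_prop)).aestronglyMeasurable
  · fun_prop
  · exact hF.aestronglyMeasurable

lemma gauss_intg (F : EuclideanSpace ℝ (I × Fin n) → ℝ) (hF : Measurable F)
    (hi : Integrable (fun g : I × Fin n → ℝ => F (WithLp.toLp 2 fun u =>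
      ∑ w, CFC.sqrt M u w * g w)) (sg0 (I × Fin n))) :
    Integrable F (multivariateGaussian 0 M) := by
  unfold multivariateGaussian
  rw [← map_pi_eq_stdGaussian, integrable_map_measure, integrable_map_measure]
  · refine hi.congr (Eventually.of_forall fun g => ?_)
    simp only [zero_add, Function.comp_apply]
    rw [Matrix.toEuclideanCLM_toLp]
    rfl
  · exact (hF.comp (by fun_prop)).aestronglyMeasurable
  · fun_prop
  · exact hF.aestronglyMeasurable
  · fun_prop

variable {T : Type} [Fintype T] [DecidableEq T]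

/-- the moments of the centered sums of squares -/
theorem gauss_prod (hM : M.PosSemidef)
    (hMS : ∀ i a j b, M (i, a) (j, b) = if a = b then S i j else 0) (c : I → ℝ) (f : T → I) :
    Integrable (fun ω : EuclideanSpace ℝ (I × Fin n) => ∏ t, (1 / 2 * ∑ a, ω (f t, a) ^ 2 -
      (n : ℝ) / 2 * c (f t))) (multivariateGaussian 0 M) ∧
    ∫ ω, ∏ t, (1 / 2 * ∑ a, ω (f t, a) ^ 2 - (n : ℝ) / 2 * c (f t))
      ∂(multivariateGaussian 0 M) =
      aper ((n : ℝ) / 2) (fun t t' => S (f t) (f t') - if t = t' then c (f t) else 0) := by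
  obtain ⟨G, hG⟩ : ∃ G : Gs I n S, G = gsA (W := I × Fin n) (fun u w => CFC.sqrt M u w)
    (sqrt_rel hM hMS) := ⟨_, rfl⟩
  have hF : Measurable fun ω : EuclideanSpace ℝ (I × Fin n) => ∏ t, (1 / 2 * ∑ a, ω (f t, a) ^ 2 -
      (n : ℝ) / 2 * c (f t)) := by fun_prop
  have key := E_prod (gsA (W := I × Fin n) (fun u w => CFC.sqrt M u w) (sqrt_rel hM hMS)) c f
  obtain ⟨H, hH⟩ : ∃ H : MvPolynomial (I × Fin n) ℝ, H = ∏ t, qh (gsA (W := I × Fin n)
    (fun u w => CFC.sqrt M u w) (sqrt_rel hM hMS)) c (f t) := ⟨_, rfl⟩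
  have hev : ∀ g : I × Fin n → ℝ, MvPolynomial.eval g H = ∏ t, (1 / 2 * ∑ a,
      (∑ w, CFC.sqrt M (f t, a) w * g w) ^ 2 - (n : ℝ) / 2 * c (f t)) := by
    intro g
    rw [hH]
    have e1 : MvPolynomial.eval g (∏ t, qh (gsA (W := I × Fin n)
      (fun u w => CFC.sqrt M u w) (sqrt_rel hM hMS)) c (f t)) = ∏ t, MvPolynomial.eval g
      (qh (gsA (W := I × Fin n) (fun u w => CFC.sqrt M u w) (sqrt_rel hM hMS)) c (f t)) :=
      map_prod (MvPolynomial.eval g) _ _
    refine e1.trans (Finset.prod_congr rfl fun t _ => ?_)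
    have e2 : qh (gsA (W := I × Fin n) (fun u w => CFC.sqrt M u w) (sqrt_rel hM hMS)) c (f t) =
        (1 / 2 : ℝ) • ∑ a : Fin n, (∑ w, MvPolynomial.C (CFC.sqrt M (f t, a) w) *
          (MvPolynomial.X w : MvPolynomial (I × Fin n) ℝ)) ^ 2 -
          MvPolynomial.C ((n : ℝ) / 2 * c (f t)) := rfl
    have e3 : MvPolynomial.eval g ((1 / 2 : ℝ) • ∑ a : Fin n, (∑ w,
        MvPolynomial.C (CFC.sqrt M (f t, a) w) *
          (MvPolynomial.X w : MvPolynomial (I × Fin n) ℝ)) ^ 2 -
          MvPolynomial.C ((n : ℝ) / 2 * c (f t))) =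
        1 / 2 * ∑ a, (∑ w, CFC.sqrt M (f t, a) w * g w) ^ 2 - (n : ℝ) / 2 * c (f t) := by
      rw [map_sub, MvPolynomial.smul_eval, map_sum, MvPolynomial.eval_C]
      simp only [map_pow, map_sum, map_mul, MvPolynomial.eval_C, MvPolynomial.eval_X]
    exact (congrArg (MvPolynomial.eval g) e2).trans e3
  have hint := pol_int H
  simp only [hev] at hint
  refine ⟨gauss_intg _ hF hint, ?_⟩
  rw [gauss_map _ hF, ← key]
  have e3 : (gsA (W := I × Fin n) (fun u w => CFC.sqrt M u w) (sqrt_rel hM hMS)).E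
      (∏ t, qh (gsA (W := I × Fin n) (fun u w => CFC.sqrt M u w) (sqrt_rel hM hMS)) c (f t)) =
      ∫ g : I × Fin n → ℝ, MvPolynomial.eval g H ∂(sg0 (I × Fin n)) := by
    rw [hH]; rfl
  rw [e3]
  simp only [hev]

end

end Pool.Agent.W2helper67.YM
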