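import Mathlib

/-!
# The one dimensional heat kernel of the lattice
-/

open MeasureTheory Filter Complex
open scoped Topology

namespace Pool.Agent.W2helper67.YM

noncomputable section

/-- a character -/
def ex (k : ℤ) (θ : ℝ) : ℂ := Complex.exp (2 * Real.pi * k * θ * I)

lemma ex_cont (k : ℤ) : Continuous (ex k) := by unfold ex; fun_prop

lemma ex_norm (k : ℤ) (θ : ℝ) : ‖ex k θ‖ = 1 := by
  unfold ex
  have : (2 * Real.pi * k * θ * I : ℂ) = ((2 * Real.pi * k * θ : ℝ) : ℂ) * I := by push_cast; ring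
  rw [this, Complex.norm_exp_ofReal_mul_I]

lemma ex_add (k l : ℤ) (θ : ℝ) : ex (k + l) θ = ex k θ * ex l θ := by
  unfold ex
  rw [← Complex.exp_add]
  congr 1
  push_cast; ring

lemma ex_zero (θ : ℝ) : ex 0 θ = 1 := by unfold ex; simp

lemma ex_one_add (k : ℤ) (θ : ℝ) : ex k (θ + 1) = ex k θ := by
  unfold ex
  have : (2 * Real.pi * k * ((θ + 1 : ℝ) : ℂ) * I : ℂ) =
      2 * Real.pi * k * θ * I + k * (2 * Real.pi * I) := by push_cast; ring
  rw [this, Complex.exp_add, Complex.exp_int_mul_two_pi_mul_I, mul_one]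

/-- the symbol of minus the Laplace operator -/
def wl (θ : ℝ) : ℝ := 2 * (1 - Real.cos (2 * Real.pi * θ))

lemma wl_nonneg (θ : ℝ) : 0 ≤ wl θ := by
  unfold wl
  have := Real.cos_le_one (2 * Real.pi * θ)
  linarith

lemma wl_cont : Continuous wl := by unfold wl; fun_prop

lemma wl_sin (θ : ℝ) : wl θ = 4 * Real.sin (Real.pi * θ) ^ 2 := by
  unfold wl
  have h1 : 2 * Real.pi * θ = 2 * (Real.pi * θ) := by ring
  rw [h1, Real.cos_two_mul, Real.sin_sq]
  ring

lemma wl_eq (θ : ℝ) : (wl θ : ℂ) = 2 - ex 1 θ - ex (-1) θ := by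
  have h1 : ex 1 θ = Complex.exp ((2 * Real.pi * θ : ℝ) * I) := by
    unfold ex; congr 1; push_cast; ring
  have h2 : ex (-1) θ = Complex.exp (-((2 * Real.pi * θ : ℝ) : ℂ) * I) := by
    unfold ex; congr 1; push_cast; ring
  unfold wl
  rw [h1, h2]
  push_cast
  rw [Complex.cos]
  push_cast
  ring

lemma wl_norm (θ : ℝ) : ‖ex 1 θ - 1‖ ^ 2 = wl θ := by
  have h1 : (‖ex 1 θ - 1‖ ^ 2 : ℝ) = Complex.normSq (ex 1 θ - 1) := Complex.sq_norm _
  rw [h1]
  have h2 : ex 1 θ = Real.cos (2 * Real.pi * θ) + Real.sin (2 * Real.pi * θ) * I := by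
    unfold ex
    have : (2 * Real.pi * (1 : ℤ) * θ * I : ℂ) = ((2 * Real.pi * θ : ℝ) : ℂ) * I := by
      push_cast; ring
    rw [this, Complex.exp_mul_I, ← Complex.ofReal_cos, ← Complex.ofReal_sin]
  rw [h2, Complex.normSq_apply]
  simp only [Complex.sub_re, Complex.add_re, Complex.ofReal_re, Complex.mul_re, Complex.I_re,
    mul_zero, Complex.ofReal_im, Complex.I_im, mul_one, sub_zero, Complex.one_re, Complex.sub_im,
    Complex.add_im, Complex.mul_im, Complex.one_im, add_zero, zero_add, sub_self]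
  unfold wl
  nlinarith [Real.sin_sq_add_cos_sq (2 * Real.pi * θ)]

lemma wl_ge {θ : ℝ} (h : |θ| ≤ 1 / 2) : 16 * θ ^ 2 ≤ wl θ := by
  rw [wl_sin]
  have h1 : 2 * |θ| ≤ Real.sin (Real.pi * |θ|) := by
    have h2 := Real.mul_le_sin (x := Real.pi * |θ|) (by positivity) (by
      have := Real.pi_pos; nlinarith)
    have h3 : 2 / Real.pi * (Real.pi * |θ|) = 2 * |θ| := by
      field_simp
    rw [h3] at h2
    exact h2
  have h4 : Real.sin (Real.pi * θ) ^ 2 = Real.sin (Real.pi * |θ|) ^ 2 := by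
    rcases abs_cases θ with ⟨e, _⟩ | ⟨e, _⟩
    · rw [e]
    · rw [e, mul_neg, Real.sin_neg, neg_sq]
  rw [h4]
  have h5 : (2 * |θ|) ^ 2 ≤ Real.sin (Real.pi * |θ|) ^ 2 := pow_le_pow_left₀ (by positivity) h1 2
  have h6 : (2 * |θ|) ^ 2 = 4 * θ ^ 2 := by rw [mul_pow, sq_abs]; norm_num
  linarith

/-- the `j`-th differences of the heat kernel -/
def EE (j : ℕ) (t : ℝ) (k : ℤ) : ℂ :=
  ∫ θ in (0 : ℝ)..1, (ex 1 θ - 1) ^ j * Real.exp (-(t * wl θ)) * ex k θ

lemma EE_cont (j : ℕ) (t : ℝ) (k : ℤ) :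
    Continuous fun θ : ℝ => (ex 1 θ - 1) ^ j * (Real.exp (-(t * wl θ)) : ℂ) * ex k θ := by
  have h1 := ex_cont 1
  have h2 := ex_cont k
  have h3 := wl_cont
  have h4 : Continuous fun θ : ℝ => (Real.exp (-(t * wl θ)) : ℂ) := by
    refine Complex.continuous_ofReal.comp ?_
    fun_prop
  exact (((h1.sub continuous_const).pow j).mul h4).mul h2

lemma EE_succ (j : ℕ) (t : ℝ) (k : ℤ) : EE j t (k + 1) - EE j t k = EE (j + 1) t k := by
  unfold EE
  rw [← intervalIntegral.integral_sub ((EE_cont j t _).intervalIntegrable _ _)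
    ((EE_cont j t _).intervalIntegrable _ _)]
  congr 1
  funext θ
  rw [ex_add, pow_succ]
  ring

lemma ex_deriv (k : ℤ) (θ : ℝ) : HasDerivAt (ex k) (2 * Real.pi * I * k * ex k θ) θ := by
  have h1 : HasDerivAt (fun θ : ℝ => (2 * Real.pi * k * θ * I : ℂ)) (2 * Real.pi * k * I) θ := by
    have h2 : HasDerivAt (fun θ : ℝ => (θ : ℂ)) 1 θ := Complex.ofRealCLM.hasDerivAt
    have h3 := (h2.const_mul (2 * Real.pi * k : ℂ)).mul_const I
    simpa using h3
  have h4 := h1.cexp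
  unfold ex
  refine h4.congr_deriv ?_
  ring

/-- integration by parts -/
theorem EE_rec (j : ℕ) (t : ℝ) (k : ℤ) : (k : ℂ) * EE j t k =
    -(t * (EE (j + 1) t k + EE (j + 1) t (k - 1))) - j * EE (j - 1) t (k + 1) := by
  obtain ⟨F, hF⟩ : ∃ F : ℝ → ℂ, F = fun θ => (ex 1 θ - 1) ^ j *
    (Real.exp (-(t * wl θ)) : ℂ) * ex k θ := ⟨_, rfl⟩
  obtain ⟨F', hF'⟩ : ∃ F' : ℝ → ℂ, F' = fun θ => 2 * Real.pi * I *
    (j * ((ex 1 θ - 1) ^ (j - 1) * (Real.exp (-(t * wl θ)) : ℂ) * ex (k + 1) θ) +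
     t * ((ex 1 θ - 1) ^ (j + 1) * (Real.exp (-(t * wl θ)) : ℂ) * ex k θ +
      (ex 1 θ - 1) ^ (j + 1) * (Real.exp (-(t * wl θ)) : ℂ) * ex (k - 1) θ) +
     k * ((ex 1 θ - 1) ^ j * (Real.exp (-(t * wl θ)) : ℂ) * ex k θ)) := ⟨_, rfl⟩
  have hd : ∀ θ, HasDerivAt F (F' θ) θ := by
    intro θ
    have h1 : HasDerivAt (fun θ => (ex 1 θ - 1) ^ j)
        (j * (ex 1 θ - 1) ^ (j - 1) * (2 * Real.pi * I * ex 1 θ)) θ := by
      have h2 := ((ex_deriv 1 θ).sub_const 1).pow j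
      refine h2.congr_deriv ?_
      push_cast; ring
    have h2 : HasDerivAt (fun θ => (Real.exp (-(t * wl θ)) : ℂ))
        ((Real.exp (-(t * wl θ)) : ℂ) * (2 * Real.pi * I * t * (ex 1 θ - ex (-1) θ))) θ := by
      have e1 : (fun θ => (Real.exp (-(t * wl θ)) : ℂ)) = fun θ : ℝ =>
          Complex.exp (-(t * (2 - ex 1 θ - ex (-1) θ))) := by
        funext θ
        rw [← wl_eq]
        push_cast
        rfl
      have e2 : (Real.exp (-(t * wl θ)) : ℂ) = Complex.exp (-(t * (2 - ex 1 θ - ex (-1) θ))) :=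
        congrFun e1 θ
      rw [e1, e2]
      have h3 := (((((hasDerivAt_const θ (2 : ℂ)).sub (ex_deriv 1 θ)).sub
        (ex_deriv (-1) θ)).const_mul (t : ℂ)).neg).cexp
      refine h3.congr_deriv ?_
      simp only [Pi.sub_apply, Pi.neg_apply, Pi.mul_apply]
      push_cast
      ring
    have h3 := (h1.mul h2).mul (ex_deriv k θ)
    rw [hF]
    refine h3.congr_deriv ?_
    rw [hF']
    simp only [Pi.mul_apply]
    have e1 : ex (k + 1) θ = ex k θ * ex 1 θ := ex_add k 1 θ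
    have e2 : ex (k - 1) θ = ex k θ * ex (-1) θ := by
      rw [sub_eq_add_neg]; exact ex_add k (-1) θ
    have e3 : ex 1 θ * ex (-1) θ = 1 := by
      rw [← ex_add]; exact ex_zero θ
    rw [e1, e2, pow_succ]
    linear_combination (2 * Real.pi * I * t * (ex 1 θ - 1) ^ j *
      (Real.exp (-(t * wl θ)) : ℂ) * ex k θ) * (-e3)
  have hc : Continuous F' := by
    rw [hF']
    exact continuous_const.mul (((continuous_const.mul (EE_cont _ _ _)).add
      (continuous_const.mul ((EE_cont _ _ _).add (EE_cont _ _ _)))).add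
      (continuous_const.mul (EE_cont _ _ _)))
  have h1 := intervalIntegral.integral_eq_sub_of_hasDerivAt (fun θ _ => hd θ)
    (hc.intervalIntegrable 0 1)
  have h2 : F 1 - F 0 = 0 := by
    have e1 : F 1 = F 0 := by
      have a1 := ex_one_add 1 0
      have a2 := ex_one_add k 0
      have a3 : wl 1 = wl 0 := by
        unfold wl; simp
      rw [zero_add] at a1 a2
      rw [hF]
      simp only [a1, a2, a3]
    rw [e1, sub_self]
  have hI : ∀ A B D H : ℝ → ℂ, Continuous A → Continuous B → Continuous D → Continuous H →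
      ∫ θ in (0 : ℝ)..1, 2 * Real.pi * I * (j * A θ + t * (B θ + D θ) + k * H θ) =
        2 * Real.pi * I * (j * (∫ θ in (0 : ℝ)..1, A θ) + t * ((∫ θ in (0 : ℝ)..1, B θ) +
          ∫ θ in (0 : ℝ)..1, D θ) + k * ∫ θ in (0 : ℝ)..1, H θ) := by
    intro A B D H cA cB cD cH
    have iA := (cA.intervalIntegrable 0 1 : IntervalIntegrable A volume 0 1)
    have iB := (cB.intervalIntegrable 0 1 : IntervalIntegrable B volume 0 1)
    have iD := (cD.intervalIntegrable 0 1 : IntervalIntegrable D volume 0 1)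
    have iH := (cH.intervalIntegrable 0 1 : IntervalIntegrable H volume 0 1)
    have e1 : ∫ θ in (0 : ℝ)..1, (B θ + D θ) = (∫ θ in (0 : ℝ)..1, B θ) +
        ∫ θ in (0 : ℝ)..1, D θ := intervalIntegral.integral_add iB iD
    have e2 : ∫ θ in (0 : ℝ)..1, (j * A θ + t * (B θ + D θ)) = (∫ θ in (0 : ℝ)..1, j * A θ) +
        ∫ θ in (0 : ℝ)..1, t * (B θ + D θ) :=
      intervalIntegral.integral_add (iA.const_mul _) ((iB.add iD).const_mul _)
    have e3 : ∫ θ in (0 : ℝ)..1, (j * A θ + t * (B θ + D θ) + k * H θ) =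
        (∫ θ in (0 : ℝ)..1, (j * A θ + t * (B θ + D θ))) + ∫ θ in (0 : ℝ)..1, k * H θ :=
      intervalIntegral.integral_add ((iA.const_mul _).add ((iB.add iD).const_mul _))
        (iH.const_mul _)
    rw [intervalIntegral.integral_const_mul, e3, e2, intervalIntegral.integral_const_mul,
      intervalIntegral.integral_const_mul, intervalIntegral.integral_const_mul, e1]
  rw [h2, hF', hI _ _ _ _ (EE_cont _ _ _) (EE_cont _ _ _) (EE_cont _ _ _) (EE_cont _ _ _)] at h1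
  have h3 : (2 * Real.pi * I : ℂ) ≠ 0 := by
    simp [Real.pi_ne_zero]
  have h4 := (mul_eq_zero.1 h1).resolve_left h3
  unfold EE
  linear_combination h4

/-- Gaussian bound for the integrand -/
lemma pow_exp_le (j : ℕ) (y : ℝ) (hy : 0 ≤ y) :
    y ^ j * Real.exp (-(y ^ 2)) ≤ (1 + 2 ^ j * (j.factorial : ℝ)) * Real.exp (-(y ^ 2 / 2)) := by
  have h1 : y ^ j ≤ 1 + y ^ (2 * j) := by
    rcases le_total y 1 with h | h
    · have : y ^ j ≤ 1 := pow_le_one₀ hy h
      have h2 : 0 ≤ y ^ (2 * j) := by positivity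
      linarith
    · have : y ^ j ≤ y ^ (2 * j) := pow_le_pow_right₀ h (by omega)
      linarith
  have h2 : y ^ (2 * j) ≤ 2 ^ j * (j.factorial : ℝ) * Real.exp (y ^ 2 / 2) := by
    have h3 := Real.pow_div_factorial_le_exp (y ^ 2 / 2) (by positivity) j
    rw [div_le_iff₀ (by positivity)] at h3
    calc y ^ (2 * j) = 2 ^ j * (y ^ 2 / 2) ^ j := by
          rw [← mul_pow, pow_mul]; congr 1; ring
      _ ≤ 2 ^ j * (Real.exp (y ^ 2 / 2) * (j.factorial : ℝ)) :=
          mul_le_mul_of_nonneg_left h3 (by positivity)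
      _ = _ := by ring
  have h3 : (1 : ℝ) ≤ Real.exp (y ^ 2 / 2) := Real.one_le_exp (by positivity)
  have h4 : y ^ j ≤ (1 + 2 ^ j * (j.factorial : ℝ)) * Real.exp (y ^ 2 / 2) := by
    rw [add_mul, one_mul]; linarith
  calc y ^ j * Real.exp (-(y ^ 2)) ≤ (1 + 2 ^ j * (j.factorial : ℝ)) * Real.exp (y ^ 2 / 2) *
        Real.exp (-(y ^ 2)) := mul_le_mul_of_nonneg_right h4 (Real.exp_pos _).le
    _ = _ := by rw [mul_assoc, ← Real.exp_add]; congr 2; ring

lemma int_gauss {a : ℝ} (ha : 0 < a) : ∫ θ in (0 : ℝ)..1, Real.exp (-(a * wl θ)) ≤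
    1 / Real.sqrt a := by
  have hc : Continuous fun θ : ℝ => Real.exp (-(a * wl θ)) := by
    have := wl_cont
    fun_prop
  have hper : Function.Periodic (fun θ : ℝ => Real.exp (-(a * wl θ))) 1 := by
    intro θ
    simp only
    congr 3
    unfold wl
    have : 2 * Real.pi * (θ + 1) = 2 * Real.pi * θ + 2 * Real.pi := by ring
    rw [this, Real.cos_add_two_pi]
  have h1 := hper.intervalIntegral_add_eq 0 (-(1 / 2))
  rw [zero_add] at h1
  rw [h1]
  have h2 : ∫ θ in (-(1 / 2) : ℝ)..(-(1 / 2) + 1), Real.exp (-(a * wl θ)) ≤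
      ∫ θ in (-(1 / 2) : ℝ)..(-(1 / 2) + 1), Real.exp (-(16 * a) * θ ^ 2) := by
    refine intervalIntegral.integral_mono_on (by norm_num) (hc.intervalIntegrable _ _)
      ((by fun_prop : Continuous fun θ : ℝ =>
        Real.exp (-(16 * a) * θ ^ 2)).intervalIntegrable _ _) fun θ hθ => ?_
    refine Real.exp_le_exp.2 ?_
    have := wl_ge (θ := θ) (by rw [abs_le]; constructor <;> linarith [hθ.1, hθ.2])
    nlinarith
  refine h2.trans ?_
  rw [intervalIntegral.integral_of_le (by norm_num)]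
  have h3 : ∫ θ in Set.Ioc (-(1 / 2) : ℝ) (-(1 / 2) + 1), Real.exp (-(16 * a) * θ ^ 2) ≤
      ∫ θ : ℝ, Real.exp (-(16 * a) * θ ^ 2) :=
    setIntegral_le_integral (integrable_exp_neg_mul_sq (by positivity))
      (Eventually.of_forall fun θ => (Real.exp_pos _).le)
  refine h3.trans ?_
  rw [integral_gaussian]
  have h4 : 1 / Real.sqrt a = Real.sqrt (1 / a) := by rw [Real.sqrt_div' _ ha.le, Real.sqrt_one]
  rw [h4]
  refine Real.sqrt_le_sqrt ?_
  rw [div_le_div_iff₀ (by positivity) ha]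
  have := Real.pi_le_four
  nlinarith

/-- the basic bound -/
lemma EE_bd (j : ℕ) : ∃ C : ℝ, 0 < C ∧ ∀ t : ℝ, 0 ≤ t → ∀ k : ℤ,
    ‖EE j t k‖ * Real.sqrt (1 + t) ^ (j + 1) ≤ C := by
  refine ⟨Real.exp 4 * ((1 + 2 ^ j * (j.factorial : ℝ)) * 2), by positivity, fun t ht k => ?_⟩
  obtain ⟨T, hT⟩ : ∃ T, T = 1 + t := ⟨_, rfl⟩
  have hT1 : 1 ≤ T := by rw [hT]; linarith
  have hT0 : 0 < T := by linarith
  obtain ⟨R, hR⟩ : ∃ R, R = Real.sqrt T := ⟨_, rfl⟩
  have hR1 : 1 ≤ R := by rw [hR]; exact Real.one_le_sqrt.2 hT1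
  have hR2 : R ^ 2 = T := by rw [hR]; exact Real.sq_sqrt hT0.le
  rw [← hT, ← hR]
  have h1 : ‖EE j t k‖ * R ^ j ≤ Real.exp 4 * ((1 + 2 ^ j * (j.factorial : ℝ)) *
      (1 / Real.sqrt (T / 2))) := by
    have h2 : ‖EE j t k‖ ≤ ∫ θ in (0 : ℝ)..1, ‖ex 1 θ - 1‖ ^ j * Real.exp (-(t * wl θ)) := by
      unfold EE
      refine (intervalIntegral.norm_integral_le_integral_norm zero_le_one).trans (le_of_eq ?_)
      congr 1
      funext θ
      rw [norm_mul, norm_mul, norm_pow, ex_norm, mul_one, Complex.norm_real, Real.norm_eq_abs,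
        Real.abs_exp]
    have hcn : Continuous fun θ : ℝ => ‖ex 1 θ - 1‖ := ((ex_cont 1).sub continuous_const).norm
    have hw := wl_cont
    calc ‖EE j t k‖ * R ^ j ≤ (∫ θ in (0 : ℝ)..1, ‖ex 1 θ - 1‖ ^ j * Real.exp (-(t * wl θ))) *
          R ^ j := mul_le_mul_of_nonneg_right h2 (by positivity)
      _ = ∫ θ in (0 : ℝ)..1, ‖ex 1 θ - 1‖ ^ j * Real.exp (-(t * wl θ)) * R ^ j := by
          rw [intervalIntegral.integral_mul_const]
      _ ≤ ∫ θ in (0 : ℝ)..1, Real.exp 4 * ((1 + 2 ^ j * (j.factorial : ℝ)) *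
          Real.exp (-(T / 2 * wl θ))) := by
          refine intervalIntegral.integral_mono_on zero_le_one
            ((((hcn.pow j).mul (by fun_prop)).mul continuous_const).intervalIntegrable _ _)
            ((by fun_prop : Continuous fun θ : ℝ => Real.exp 4 * ((1 + 2 ^ j *
              (j.factorial : ℝ)) * Real.exp (-(T / 2 * wl θ)))).intervalIntegrable _ _)
            fun θ _ => ?_
          obtain ⟨y, hy⟩ : ∃ y, y = R * ‖ex 1 θ - 1‖ := ⟨_, rfl⟩
          have hy0 : 0 ≤ y := by rw [hy]; positivity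
          have hy2 : y ^ 2 = T * wl θ := by rw [hy, mul_pow, hR2, wl_norm]
          have h3 := pow_exp_le j y hy0
          rw [hy2] at h3
          have hw4 : wl θ ≤ 4 := by
            unfold wl
            have := Real.neg_one_le_cos (2 * Real.pi * θ)
            linarith
          have h4 : Real.exp (-(t * wl θ)) ≤ Real.exp 4 * Real.exp (-(T * wl θ)) := by
            rw [← Real.exp_add]
            refine Real.exp_le_exp.2 ?_
            rw [hT]; nlinarith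
          calc ‖ex 1 θ - 1‖ ^ j * Real.exp (-(t * wl θ)) * R ^ j =
              y ^ j * Real.exp (-(t * wl θ)) := by rw [hy, mul_pow]; ring
            _ ≤ y ^ j * (Real.exp 4 * Real.exp (-(T * wl θ))) :=
                mul_le_mul_of_nonneg_left h4 (by positivity)
            _ = Real.exp 4 * (y ^ j * Real.exp (-(T * wl θ))) := by ring
            _ ≤ Real.exp 4 * ((1 + 2 ^ j * (j.factorial : ℝ)) *
                Real.exp (-(T * wl θ / 2))) := mul_le_mul_of_nonneg_left h3 (Real.exp_pos _).le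
            _ = _ := by congr 3; ring
      _ ≤ _ := by
          rw [intervalIntegral.integral_const_mul, intervalIntegral.integral_const_mul]
          refine mul_le_mul_of_nonneg_left (mul_le_mul_of_nonneg_left
            (int_gauss (by positivity)) (by positivity)) (Real.exp_pos _).le
  have h5 : 1 / Real.sqrt (T / 2) * R ≤ 2 := by
    rw [Real.sqrt_div hT0.le, ← hR, one_div_div, div_mul_cancel₀ _ (by positivity)]
    rw [Real.sqrt_le_left (by norm_num)]
    norm_num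
  calc ‖EE j t k‖ * R ^ (j + 1) = ‖EE j t k‖ * R ^ j * R := by ring
    _ ≤ Real.exp 4 * ((1 + 2 ^ j * (j.factorial : ℝ)) * (1 / Real.sqrt (T / 2))) * R :=
        mul_le_mul_of_nonneg_right h1 (by linarith)
    _ = Real.exp 4 * ((1 + 2 ^ j * (j.factorial : ℝ)) * (1 / Real.sqrt (T / 2) * R)) := by ring
    _ ≤ _ := by gcongr

/-- the decay -/
theorem EE_dec (m : ℕ) : ∀ j : ℕ, ∃ C : ℝ, 0 < C ∧ ∀ t : ℝ, 0 ≤ t → ∀ k : ℤ,
    |(k : ℝ)| ^ m * ‖EE j t k‖ * Real.sqrt (1 + t) ^ (j + 1) ≤ C * Real.sqrt (1 + t) ^ m := by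
  induction m with
  | zero =>
    intro j
    obtain ⟨C, hC, h⟩ := EE_bd j
    exact ⟨C, hC, fun t ht k => by simpa using h t ht k⟩
  | succ m ih =>
    intro j
    obtain ⟨C1, hC1, h1⟩ := ih (j + 1)
    obtain ⟨C2, hC2, h2⟩ := EE_bd (j + 1)
    obtain ⟨C3, hC3, h3⟩ := ih (j - 1)
    obtain ⟨C4, hC4, h4⟩ := EE_bd (j - 1)
    refine ⟨C1 + 2 ^ m * (C1 + C2) + j * (2 ^ m * (C3 + C4)), by positivity, fun t ht k => ?_⟩
    obtain ⟨R, hR⟩ : ∃ R, R = Real.sqrt (1 + t) := ⟨_, rfl⟩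
    have hR1 : 1 ≤ R := by rw [hR]; exact Real.one_le_sqrt.2 (by linarith)
    have hR2 : R ^ 2 = 1 + t := by rw [hR]; exact Real.sq_sqrt (by linarith)
    have hRm : 1 ≤ R ^ m := one_le_pow₀ hR1
    rw [← hR]
    have sh : ∀ (i : ℤ) (δ : ℤ), |δ| ≤ 1 → |(i : ℝ)| ^ m ≤ 2 ^ m * (|((i + δ : ℤ) : ℝ)| ^ m + 1) := by
      intro i δ hδ
      have e1 : |(i : ℝ)| ≤ |((i + δ : ℤ) : ℝ)| + 1 := by
        have : (i : ℝ) = ((i + δ : ℤ) : ℝ) - δ := by push_cast; ring
        rw [this]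
        have h5 : |(δ : ℝ)| ≤ 1 := by exact_mod_cast hδ
        calc |((i + δ : ℤ) : ℝ) - δ| ≤ |((i + δ : ℤ) : ℝ)| + |(δ : ℝ)| := abs_sub _ _
          _ ≤ _ := by linarith
      obtain ⟨y, hy⟩ : ∃ y, y = |((i + δ : ℤ) : ℝ)| := ⟨_, rfl⟩
      have hy0 : 0 ≤ y := by rw [hy]; positivity
      rw [← hy] at e1 ⊢
      rcases le_total y 1 with h | h
      · calc |(i : ℝ)| ^ m ≤ (2 * 1) ^ m := pow_le_pow_left₀ (abs_nonneg _) (by linarith) _
          _ = 2 ^ m * 1 := by rw [mul_one, mul_one]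
          _ ≤ _ := mul_le_mul_of_nonneg_left (by have := pow_nonneg hy0 m; linarith)
              (by positivity)
      · calc |(i : ℝ)| ^ m ≤ (2 * y) ^ m := pow_le_pow_left₀ (abs_nonneg _) (by linarith) _
          _ = 2 ^ m * y ^ m := mul_pow _ _ _
          _ ≤ _ := mul_le_mul_of_nonneg_left (by linarith) (by positivity)
    have a1 : |(k : ℝ)| ^ m * ‖EE (j + 1) t k‖ * R ^ (j + 2) ≤ C1 * R ^ m := by
      have := h1 t ht k; rwa [← hR] at this
    have a2 : |(k : ℝ)| ^ m * ‖EE (j + 1) t (k - 1)‖ * R ^ (j + 2) ≤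
        2 ^ m * (C1 + C2) * R ^ m := by
      have e1 := h1 t ht (k - 1)
      have e2 := h2 t ht (k - 1)
      rw [← hR] at e1 e2
      have e3 := sh k (-1) (by norm_num)
      rw [← sub_eq_add_neg] at e3
      have e4 : 0 ≤ ‖EE (j + 1) t (k - 1)‖ * R ^ (j + 2) := by positivity
      calc |(k : ℝ)| ^ m * ‖EE (j + 1) t (k - 1)‖ * R ^ (j + 2) =
          |(k : ℝ)| ^ m * (‖EE (j + 1) t (k - 1)‖ * R ^ (j + 2)) := by ring
        _ ≤ 2 ^ m * (|((k - 1 : ℤ) : ℝ)| ^ m + 1) * (‖EE (j + 1) t (k - 1)‖ * R ^ (j + 2)) :=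
            mul_le_mul_of_nonneg_right e3 e4
        _ = 2 ^ m * (|((k - 1 : ℤ) : ℝ)| ^ m * ‖EE (j + 1) t (k - 1)‖ * R ^ (j + 1 + 1) +
            ‖EE (j + 1) t (k - 1)‖ * R ^ (j + 1 + 1)) := by ring
        _ ≤ 2 ^ m * (C1 * R ^ m + C2 * R ^ m) := by
            refine mul_le_mul_of_nonneg_left (add_le_add e1 (e2.trans ?_)) (by positivity)
            exact le_mul_of_one_le_right hC2.le hRm
        _ = _ := by ring
    have a3 : (j : ℝ) * (|(k : ℝ)| ^ m * ‖EE (j - 1) t (k + 1)‖ * R ^ j) ≤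
        j * (2 ^ m * (C3 + C4) * R ^ m) := by
      rcases Nat.eq_zero_or_pos j with hj | hj
      · subst hj; simp
      refine mul_le_mul_of_nonneg_left ?_ (by positivity)
      have hj1 : j - 1 + 1 = j := by omega
      have e1 := h3 t ht (k + 1)
      have e2 := h4 t ht (k + 1)
      rw [← hR, hj1] at e1 e2
      have e3 := sh k 1 (by norm_num)
      have e4 : 0 ≤ ‖EE (j - 1) t (k + 1)‖ * R ^ j := by positivity
      calc |(k : ℝ)| ^ m * ‖EE (j - 1) t (k + 1)‖ * R ^ j =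
          |(k : ℝ)| ^ m * (‖EE (j - 1) t (k + 1)‖ * R ^ j) := by ring
        _ ≤ 2 ^ m * (|((k + 1 : ℤ) : ℝ)| ^ m + 1) * (‖EE (j - 1) t (k + 1)‖ * R ^ j) :=
            mul_le_mul_of_nonneg_right e3 e4
        _ = 2 ^ m * (|((k + 1 : ℤ) : ℝ)| ^ m * ‖EE (j - 1) t (k + 1)‖ * R ^ j +
            ‖EE (j - 1) t (k + 1)‖ * R ^ j) := by ring
        _ ≤ 2 ^ m * (C3 * R ^ m + C4 * R ^ m) := by
            refine mul_le_mul_of_nonneg_left (add_le_add e1 (e2.trans ?_)) (by positivity)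
            exact le_mul_of_one_le_right hC4.le hRm
        _ = _ := by ring
    have hrec := EE_rec j t k
    have hnorm : |(k : ℝ)| * ‖EE j t k‖ ≤ t * (‖EE (j + 1) t k‖ + ‖EE (j + 1) t (k - 1)‖) +
        j * ‖EE (j - 1) t (k + 1)‖ := by
      have e1 : |(k : ℝ)| * ‖EE j t k‖ = ‖(k : ℂ) * EE j t k‖ := by
        rw [norm_mul, Complex.norm_intCast]
      rw [e1, hrec]
      refine (norm_sub_le _ _).trans ?_
      rw [norm_neg, norm_mul, norm_mul, Complex.norm_real, Real.norm_eq_abs, abs_of_nonneg ht,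
        Complex.norm_natCast]
      gcongr
      exact norm_add_le _ _
    have ht2 : t ≤ R ^ 2 := by rw [hR2]; linarith
    have hk0 : 0 ≤ |(k : ℝ)| ^ m := by positivity
    calc |(k : ℝ)| ^ (m + 1) * ‖EE j t k‖ * R ^ (j + 1) =
        |(k : ℝ)| ^ m * (|(k : ℝ)| * ‖EE j t k‖) * R ^ (j + 1) := by ring
      _ ≤ |(k : ℝ)| ^ m * (t * (‖EE (j + 1) t k‖ + ‖EE (j + 1) t (k - 1)‖) +
          j * ‖EE (j - 1) t (k + 1)‖) * R ^ (j + 1) := by gcongr
      _ ≤ |(k : ℝ)| ^ m * (R ^ 2 * (‖EE (j + 1) t k‖ + ‖EE (j + 1) t (k - 1)‖) +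
          j * ‖EE (j - 1) t (k + 1)‖) * R ^ (j + 1) := by gcongr
      _ = R * ((|(k : ℝ)| ^ m * ‖EE (j + 1) t k‖ * R ^ (j + 2)) +
          (|(k : ℝ)| ^ m * ‖EE (j + 1) t (k - 1)‖ * R ^ (j + 2)) +
          (j : ℝ) * (|(k : ℝ)| ^ m * ‖EE (j - 1) t (k + 1)‖ * R ^ j)) := by ring
      _ ≤ R * (C1 * R ^ m + 2 ^ m * (C1 + C2) * R ^ m + j * (2 ^ m * (C3 + C4) * R ^ m)) := by
          gcongr
      _ = _ := by ring

end

end Pool.Agent.W2helper67.YM
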