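import Mathlib
import Pool.Agent.W2helper67.YM.Heat

/-!
# The scaling limit of the one dimensional heat kernel and of its differences
-/

open MeasureTheory Filter Complex
open scoped Topology

namespace Pool.Agent.W2helper67.YM

noncomputable section

/-- the Gaussian kernel and its first two derivatives -/
def hh : ℕ → ℝ → ℝ → ℝ
  | 0, τ, x => 1 / Real.sqrt (4 * Real.pi * τ) * Real.exp (-(x ^ 2 / (4 * τ)))
  | 1, τ, x => -(x / (2 * τ)) * (1 / Real.sqrt (4 * Real.pi * τ) * Real.exp (-(x ^ 2 / (4 * τ))))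
  | _, τ, x => (x ^ 2 / (4 * τ ^ 2) - 1 / (2 * τ)) *
      (1 / Real.sqrt (4 * Real.pi * τ) * Real.exp (-(x ^ 2 / (4 * τ))))

lemma gauss_ft {τ : ℝ} (hτ : 0 < τ) (x : ℝ) :
    ∫ v : ℝ, (Real.exp (-(τ * (4 * (Real.pi * v) ^ 2))) : ℂ) *
      Complex.exp (2 * Real.pi * x * v * I) = (hh 0 τ x : ℂ) := by
  obtain ⟨b, hb⟩ : ∃ b : ℂ, b = ((-(4 * Real.pi ^ 2 * τ) : ℝ) : ℂ) := ⟨_, rfl⟩
  have hbr : b.re < 0 := by
    rw [hb, Complex.ofReal_re]
    have := Real.pi_pos
    have : 0 < 4 * Real.pi ^ 2 * τ := by positivity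
    linarith
  have h1 := integral_cexp_quadratic hbr (2 * Real.pi * x * I) 0
  have h2 : ∀ v : ℝ, (Real.exp (-(τ * (4 * (Real.pi * v) ^ 2))) : ℂ) *
      Complex.exp (2 * Real.pi * x * v * I) =
      Complex.exp (b * (v : ℂ) ^ 2 + 2 * Real.pi * x * I * v + 0) := by
    intro v
    rw [Complex.ofReal_exp, ← Complex.exp_add, hb]
    congr 1
    push_cast; ring
  simp only [h2]
  rw [h1]
  have h3 : (Real.pi / -b : ℂ) = ((1 / (4 * Real.pi * τ) : ℝ) : ℂ) := by
    rw [hb]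
    push_cast
    have : (Real.pi : ℂ) ≠ 0 := by exact_mod_cast Real.pi_ne_zero
    have : (τ : ℂ) ≠ 0 := by exact_mod_cast hτ.ne'
    field_simp
  have h4 : (0 - (2 * Real.pi * x * I) ^ 2 / (4 * b) : ℂ) = ((-(x ^ 2 / (4 * τ)) : ℝ) : ℂ) := by
    rw [hb]
    push_cast
    have : (Real.pi : ℂ) ≠ 0 := by exact_mod_cast Real.pi_ne_zero
    have : (τ : ℂ) ≠ 0 := by exact_mod_cast hτ.ne'
    rw [mul_pow, Complex.I_sq]
    field_simp
    ring
  have h5 : (((1 / (4 * Real.pi * τ) : ℝ) : ℂ) ^ (1 / 2 : ℂ)) =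
      ((1 / Real.sqrt (4 * Real.pi * τ) : ℝ) : ℂ) := by
    have hp : (0 : ℝ) ≤ 1 / (4 * Real.pi * τ) := by positivity
    have e : (1 / 2 : ℂ) = ((1 / 2 : ℝ) : ℂ) := by push_cast; rfl
    rw [e, ← Complex.ofReal_cpow hp, ← Real.sqrt_eq_rpow, Real.sqrt_div' _ (by positivity),
      Real.sqrt_one]
  rw [h3, h4, h5, ← Complex.ofReal_exp, ← Complex.ofReal_mul]
  rfl

lemma EE0_scale {s : ℕ} (hs : 0 < s) (t : ℝ) (k : ℤ) : (s : ℂ) * EE 0 t k =
    ∫ v in (-(s / 2) : ℝ)..(s / 2), (Real.exp (-(t * wl (v / s))) : ℂ) * ex k (v / s) := by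
  have hs0 : (0 : ℝ) < s := by exact_mod_cast hs
  obtain ⟨f, hf⟩ : ∃ f : ℝ → ℂ, f = fun θ => (Real.exp (-(t * wl θ)) : ℂ) * ex k θ := ⟨_, rfl⟩
  have hper : Function.Periodic f 1 := by
    intro θ
    rw [hf]
    simp only
    rw [ex_one_add]
    have : wl (θ + 1) = wl θ := by
      unfold wl
      have : 2 * Real.pi * (θ + 1) = 2 * Real.pi * θ + 2 * Real.pi := by ring
      rw [this, Real.cos_add_two_pi]
    rw [this]
  have h1 := hper.intervalIntegral_add_eq 0 (-(1 / 2))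
  rw [zero_add] at h1
  have h2 : EE 0 t k = ∫ θ in (0 : ℝ)..1, f θ := by
    unfold EE
    congr 1
    funext θ
    rw [hf, pow_zero, one_mul]
  have h3 : ∫ v in (-(s / 2) : ℝ)..(s / 2), f (v / s) =
      (s : ℝ) • ∫ θ in (-(s / 2) / s : ℝ)..(s / 2) / s, f θ :=
    intervalIntegral.integral_comp_div f hs0.ne'
  have h4 : (-(s / 2) / s : ℝ) = -(1 / 2) := by field_simp
  have h5 : ((s / 2) / s : ℝ) = -(1 / 2) + 1 := by field_simp; norm_num
  rw [h4, h5, ← h1, ← h2] at h3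
  rw [hf] at h3
  rw [h3]
  simp

/-- the local limit theorem -/
theorem EE0_lim {τ : ℝ} (hτ : 0 < τ) {x : ℝ} {k : ℕ → ℤ}
    (hk : Tendsto (fun s : ℕ => (k s : ℝ) / s) atTop (𝓝 x)) :
    Tendsto (fun s : ℕ => (s : ℂ) * EE 0 ((s : ℝ) ^ 2 * τ) (k s)) atTop (𝓝 (hh 0 τ x)) := by
  obtain ⟨F, hF⟩ : ∃ F : ℕ → ℝ → ℂ, F = fun s : ℕ =>
    Set.indicator (Set.Ioc (-((s : ℝ) / 2)) ((s : ℝ) / 2))
    (fun v => (Real.exp (-((s : ℝ) ^ 2 * τ * wl (v / s))) : ℂ) * ex (k s) (v / s)) := ⟨_, rfl⟩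
  have h1 : Tendsto (fun s : ℕ => ∫ v, F s v) atTop (𝓝 (∫ v : ℝ,
      (Real.exp (-(τ * (4 * (Real.pi * v) ^ 2))) : ℂ) *
        Complex.exp (2 * Real.pi * x * v * I))) := by
    refine tendsto_integral_of_dominated_convergence (fun v => Real.exp (-(16 * τ) * v ^ 2))
      (fun s => ?_) (integrable_exp_neg_mul_sq (by positivity)) (fun s => ?_) ?_
    · rw [hF]
      have hw := wl_cont
      have he := ex_cont (k s)
      refine (Continuous.aestronglyMeasurable ?_).indicator measurableSet_Ioc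
      have h2 : Continuous fun v : ℝ => (Real.exp (-((s : ℝ) ^ 2 * τ * wl (v / s))) : ℂ) := by
        refine Complex.continuous_ofReal.comp ?_
        fun_prop
      exact h2.mul (he.comp (continuous_id.div_const _))
    · refine Eventually.of_forall fun v => ?_
      rw [hF]
      simp only
      by_cases hv : v ∈ Set.Ioc (-(s / 2) : ℝ) (s / 2)
      · rw [Set.indicator_of_mem hv, norm_mul, ex_norm, mul_one, Complex.norm_real,
          Real.norm_eq_abs, Real.abs_exp]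
        refine Real.exp_le_exp.2 ?_
        have hs0 : (0 : ℝ) < s := by
          obtain ⟨a, b⟩ := hv
          linarith
        have h2 : |v / s| ≤ 1 / 2 := by
          rw [abs_div, abs_of_pos hs0, div_le_iff₀ hs0, abs_le]
          constructor <;> linarith [hv.1, hv.2]
        have h3 := wl_ge h2
        have h4 : 16 * v ^ 2 ≤ (s : ℝ) ^ 2 * wl (v / s) := by
          calc 16 * v ^ 2 = (s : ℝ) ^ 2 * (16 * (v / s) ^ 2) := by field_simp
            _ ≤ _ := mul_le_mul_of_nonneg_left h3 (by positivity)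
        nlinarith
      · rw [Set.indicator_of_notMem hv, norm_zero]
        exact (Real.exp_pos _).le
    · refine Eventually.of_forall fun v => ?_
      have h2 : Tendsto (fun s : ℕ => (Real.exp (-((s : ℝ) ^ 2 * τ * wl (v / s))) : ℂ) *
          ex (k s) (v / s)) atTop (𝓝 ((Real.exp (-(τ * (4 * (Real.pi * v) ^ 2))) : ℂ) *
        Complex.exp (2 * Real.pi * x * v * I))) := by
        refine Tendsto.mul ?_ ?_
        · refine (Complex.continuous_ofReal.tendsto _).comp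
            ((Real.continuous_exp.tendsto _).comp (Tendsto.neg ?_))
          have h3 : Tendsto (fun s : ℕ => τ * (4 * (Real.pi * v * Real.sinc (Real.pi * v / s)) ^ 2))
              atTop (𝓝 (τ * (4 * (Real.pi * v * 1) ^ 2))) := by
            refine Tendsto.const_mul _ (Tendsto.const_mul _ (Tendsto.pow (Tendsto.const_mul _ ?_) 2))
            have h4 : Tendsto (fun s : ℕ => Real.pi * v / (s : ℝ)) atTop (𝓝 0) :=
              tendsto_const_div_atTop_nhds_zero_nat _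
            have h5 := (Real.continuous_sinc.tendsto 0).comp h4
            rw [Real.sinc_zero] at h5
            exact h5
          rw [mul_one] at h3
          refine h3.congr' ?_
          filter_upwards [eventually_gt_atTop 0] with s hs
          have hs0 : (0 : ℝ) < s := by exact_mod_cast hs
          rw [wl_sin]
          have h6 : Real.pi * v * Real.sinc (Real.pi * v / s) = s * Real.sin (Real.pi * (v / s)) := by
            by_cases hv : v = 0
            · subst hv; simp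
            · have hpv : Real.pi * v / s ≠ 0 :=
                div_ne_zero (mul_ne_zero Real.pi_ne_zero hv) hs0.ne'
              rw [Real.sinc_of_ne_zero hpv, mul_div_assoc Real.pi v (s : ℝ)]
              have : Real.pi * (v / s) ≠ 0 := by rw [← mul_div_assoc]; exact hpv
              field_simp
          rw [h6]
          ring
        · have h3 : Tendsto (fun s : ℕ => (2 * Real.pi * ((((k s : ℝ) / s : ℝ)) : ℂ) * v * I : ℂ))
              atTop (𝓝 (2 * Real.pi * x * v * I)) := by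
            have h4 := (Complex.continuous_ofReal.tendsto x).comp hk
            exact ((h4.const_mul (2 * Real.pi : ℂ)).mul_const (v : ℂ)).mul_const I
          refine ((Complex.continuous_exp.tendsto _).comp h3).congr fun s => ?_
          unfold ex
          simp only [Function.comp_apply]
          congr 1
          push_cast; ring
      refine h2.congr' ?_
      filter_upwards [eventually_gt_atTop (⌈2 * |v|⌉₊ + 1)] with s hs
      rw [hF]
      simp only
      rw [Set.indicator_of_mem]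
      have h4 : 2 * |v| < s := by
        have := Nat.le_ceil (2 * |v|)
        have h5 : ((⌈2 * |v|⌉₊ + 1 : ℕ) : ℝ) < s := by exact_mod_cast hs
        push_cast at h5
        linarith
      have h5 := neg_abs_le v
      have h6 := le_abs_self v
      constructor <;> linarith
  rw [gauss_ft hτ] at h1
  refine h1.congr' ?_
  filter_upwards [eventually_gt_atTop 0] with s hs
  rw [EE0_scale hs, intervalIntegral.integral_of_le (by
    have : (0 : ℝ) ≤ s := Nat.cast_nonneg _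
    linarith), hF, integral_indicator measurableSet_Ioc]

/-- the differences of the heat kernel are small -/
lemma EE_small {τ : ℝ} (hτ : 0 < τ) (j : ℕ) (k : ℕ → ℤ) :
    Tendsto (fun s : ℕ => (s : ℂ) ^ j * EE j ((s : ℝ) ^ 2 * τ) (k s)) atTop (𝓝 0) := by
  obtain ⟨C, hC, h⟩ := EE_bd j
  rw [tendsto_zero_iff_norm_tendsto_zero]
  have h0 : Tendsto (fun s : ℕ => C / Real.sqrt τ ^ (j + 1) / (s : ℝ)) atTop (𝓝 0) :=
    tendsto_const_div_atTop_nhds_zero_nat _
  refine squeeze_zero' (Eventually.of_forall fun s => norm_nonneg _) ?_ h0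
  filter_upwards [eventually_gt_atTop 0] with s hs
  have hs0 : (0 : ℝ) < s := by exact_mod_cast hs
  rw [norm_mul, norm_pow, Complex.norm_natCast]
  have h1 := h ((s : ℝ) ^ 2 * τ) (by positivity) (k s)
  have hsq : (s : ℝ) * Real.sqrt τ ≤ Real.sqrt (1 + (s : ℝ) ^ 2 * τ) := by
    have e : (s : ℝ) * Real.sqrt τ = Real.sqrt ((s : ℝ) ^ 2 * τ) := by
      rw [Real.sqrt_mul (by positivity), Real.sqrt_sq hs0.le]
    rw [e]; exact Real.sqrt_le_sqrt (by linarith)
  have hst : 0 < Real.sqrt τ := Real.sqrt_pos.2 hτ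
  have h2 : ‖EE j ((s : ℝ) ^ 2 * τ) (k s)‖ * ((s : ℝ) * Real.sqrt τ) ^ (j + 1) ≤ C :=
    (mul_le_mul_of_nonneg_left (pow_le_pow_left₀ (by positivity) hsq _) (norm_nonneg _)).trans h1
  rw [div_div, le_div_iff₀ (by positivity)]
  calc _ = ‖EE j ((s : ℝ) ^ 2 * τ) (k s)‖ * ((s : ℝ) * Real.sqrt τ) ^ (j + 1) := by
        rw [mul_pow, pow_succ (s : ℝ)]; ring
    _ ≤ C := h2

lemma shift_lim {x : ℝ} {k : ℕ → ℤ} (hk : Tendsto (fun s : ℕ => (k s : ℝ) / s) atTop (𝓝 x))
    (a : ℤ) : Tendsto (fun s : ℕ => ((k s + a : ℤ) : ℝ) / s) atTop (𝓝 x) := by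
  have h1 : Tendsto (fun s : ℕ => (a : ℝ) / (s : ℝ)) atTop (𝓝 0) :=
    tendsto_const_div_atTop_nhds_zero_nat _
  have h2 := hk.add h1
  rw [add_zero] at h2
  refine h2.congr fun s => ?_
  push_cast; ring

lemma EE1_lim {τ : ℝ} (hτ : 0 < τ) {x : ℝ} {k : ℕ → ℤ}
    (hk : Tendsto (fun s : ℕ => (k s : ℝ) / s) atTop (𝓝 x)) :
    Tendsto (fun s : ℕ => (s : ℂ) ^ 2 * EE 1 ((s : ℝ) ^ 2 * τ) (k s)) atTop (𝓝 (hh 1 τ x)) := by
  have hτc : (τ : ℂ) ≠ 0 := by exact_mod_cast hτ.ne'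
  have h0 := EE0_lim hτ hk
  have hkc := (Complex.continuous_ofReal.tendsto x).comp hk
  have h2 := EE_small hτ 2 fun s => k s - 1
  have h3 := ((((hkc.mul h0).const_mul (-(1 / (2 * τ)) : ℂ))).add (h2.const_mul (1 / 2 : ℂ)))
  have e : (-(1 / (2 * τ)) : ℂ) * ((x : ℂ) * (hh 0 τ x : ℂ)) + 1 / 2 * 0 = (hh 1 τ x : ℂ) := by
    unfold hh
    push_cast
    ring
  rw [e] at h3
  refine h3.congr' ?_
  filter_upwards [eventually_gt_atTop 0] with s hs
  have hs0 : (s : ℂ) ≠ 0 := by exact_mod_cast hs.ne'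
  have hrec := EE_rec 0 ((s : ℝ) ^ 2 * τ) (k s)
  have hdif := EE_succ 1 ((s : ℝ) ^ 2 * τ) (k s - 1)
  rw [sub_add_cancel] at hdif
  simp only [Function.comp_apply, Nat.cast_zero, zero_mul, sub_zero, zero_add] at hrec ⊢
  push_cast at hrec ⊢
  have h4 : EE 1 ((s : ℝ) ^ 2 * τ) (k s - 1) = EE 1 ((s : ℝ) ^ 2 * τ) (k s) -
      EE (1 + 1) ((s : ℝ) ^ 2 * τ) (k s - 1) := by rw [← hdif]; ring
  rw [h4] at hrec
  field_simp
  linear_combination (-1) * hrec

lemma EE2_lim {τ : ℝ} (hτ : 0 < τ) {x : ℝ} {k : ℕ → ℤ}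
    (hk : Tendsto (fun s : ℕ => (k s : ℝ) / s) atTop (𝓝 x)) :
    Tendsto (fun s : ℕ => (s : ℂ) ^ 3 * EE 2 ((s : ℝ) ^ 2 * τ) (k s)) atTop (𝓝 (hh 2 τ x)) := by
  have hτc : (τ : ℂ) ≠ 0 := by exact_mod_cast hτ.ne'
  have h0 := EE0_lim hτ (shift_lim hk 1)
  have h1 := EE1_lim hτ hk
  have hkc := (Complex.continuous_ofReal.tendsto x).comp hk
  have h2 := EE_small hτ 3 fun s => k s - 1
  have h3 := (((((hkc.mul h1).add h0)).const_mul (-(1 / (2 * τ)) : ℂ)).add
    (h2.const_mul (1 / 2 : ℂ)))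
  have e : (-(1 / (2 * τ)) : ℂ) * ((x : ℂ) * (hh 1 τ x : ℂ) + (hh 0 τ x : ℂ)) + 1 / 2 * 0 =
      (hh 2 τ x : ℂ) := by
    unfold hh
    push_cast
    field_simp
    ring
  rw [e] at h3
  refine h3.congr' ?_
  filter_upwards [eventually_gt_atTop 0] with s hs
  have hs0 : (s : ℂ) ≠ 0 := by exact_mod_cast hs.ne'
  have hrec := EE_rec 1 ((s : ℝ) ^ 2 * τ) (k s)
  have hdif := EE_succ 2 ((s : ℝ) ^ 2 * τ) (k s - 1)
  rw [sub_add_cancel] at hdif
  simp only [Function.comp_apply, Nat.cast_one, one_mul, Nat.sub_self] at hrec ⊢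
  have h4 : EE 2 ((s : ℝ) ^ 2 * τ) (k s - 1) = EE 2 ((s : ℝ) ^ 2 * τ) (k s) -
      EE 3 ((s : ℝ) ^ 2 * τ) (k s - 1) := by rw [← hdif]; ring
  rw [show (1 + 1 : ℕ) = 2 from rfl, h4] at hrec
  push_cast at hrec ⊢
  field_simp
  linear_combination (-1) * hrec

/-- all three limits -/
theorem EE_lim {τ : ℝ} (hτ : 0 < τ) {x : ℝ} {k : ℕ → ℤ}
    (hk : Tendsto (fun s : ℕ => (k s : ℝ) / s) atTop (𝓝 x)) {j : ℕ} (hj : j ≤ 2) :
    Tendsto (fun s : ℕ => (s : ℂ) ^ (1 + j) * EE j ((s : ℝ) ^ 2 * τ) (k s)) atTop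
      (𝓝 (hh j τ x)) := by
  interval_cases j
  · simpa using EE0_lim hτ hk
  · exact EE1_lim hτ hk
  · exact EE2_lim hτ hk

end

end Pool.Agent.W2helper67.YM
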