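import Mathlib
import Pool.Agent.W2helper67.YM.HeatL
import Pool.Agent.W2helper67.YM.Green

/-!
# The Green function of the lattice and its second differences in terms of the heat kernel
-/

open MeasureTheory Filter
open scoped Topology

namespace Pool.Agent.W2helper67.YM

set_option linter.unusedSectionVars false

noncomputable section

variable {d : ℕ}

/-- products of the differences of the one dimensional kernels -/
def EJ (J : Fin d → ℕ) (t : ℝ) (y : Fin d → ℤ) : ℂ := ∏ i, EE (J i) t (y i)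

lemma EJ_succ (J : Fin d → ℕ) (t : ℝ) (y : Fin d → ℤ) (a : Fin d) :
    EJ J t (y + Pi.single a 1) - EJ J t y = EJ (J + Pi.single a 1) t y := by
  unfold EJ
  have g1 := Finset.mul_prod_erase Finset.univ (fun i => EE (J i) t ((y + Pi.single a 1 : Fin d → ℤ) i))
    (Finset.mem_univ a)
  have g2 := Finset.mul_prod_erase Finset.univ (fun i => EE (J i) t (y i)) (Finset.mem_univ a)
  have g3 := Finset.mul_prod_erase Finset.univ
    (fun i => EE ((J + Pi.single a 1 : Fin d → ℕ) i) t (y i))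
    (Finset.mem_univ a)
  rw [← g1, ← g2, ← g3]
  have h1 : ∏ i ∈ Finset.univ.erase a, EE (J i) t ((y + Pi.single a 1 : Fin d → ℤ) i) =
      ∏ i ∈ Finset.univ.erase a, EE (J i) t (y i) := by
    refine Finset.prod_congr rfl fun i hi => ?_
    have : (y + Pi.single a 1 : Fin d → ℤ) i = y i := by
      rw [Pi.add_apply, Pi.single_eq_of_ne (Finset.ne_of_mem_erase hi), add_zero]
    rw [this]
  have h2 : ∏ i ∈ Finset.univ.erase a, EE ((J + Pi.single a 1 : Fin d → ℕ) i) t (y i) =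
      ∏ i ∈ Finset.univ.erase a, EE (J i) t (y i) := by
    refine Finset.prod_congr rfl fun i hi => ?_
    have : (J + Pi.single a 1 : Fin d → ℕ) i = J i := by
      rw [Pi.add_apply, Pi.single_eq_of_ne (Finset.ne_of_mem_erase hi), add_zero]
    rw [this]
  rw [h1, h2, ← sub_mul]
  congr 1
  simp only [Pi.add_apply, Pi.single_eq_same]
  exact EE_succ _ _ _

lemma EE_cont_t (j : ℕ) (k : ℤ) : Continuous fun t => EE j t k := by
  unfold EE
  refine intervalIntegral.continuous_parametric_intervalIntegral_of_continuous' ?_ 0 1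
  have h1 := ex_cont 1
  have h2 := ex_cont k
  have h3 := wl_cont
  have h4 : Continuous fun p : ℝ × ℝ => (Real.exp (-(p.1 * wl p.2)) : ℂ) := by
    refine Complex.continuous_ofReal.comp ?_
    fun_prop
  exact ((((h1.comp continuous_snd).sub continuous_const).pow j).mul h4).mul
    (h2.comp continuous_snd)

lemma EJ_cont (J : Fin d → ℕ) (y : Fin d → ℤ) : Continuous fun t => EJ J t y :=
  continuous_finsetProd _ fun _ _ => EE_cont_t _ _

/-- the decay of the products -/
theorem EJ_dec (J : Fin d → ℕ) (i0 : Fin d) (m : ℕ) : ∃ C : ℝ, 0 < C ∧ ∀ t : ℝ, 0 ≤ t →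
    ∀ y : Fin d → ℤ, |(y i0 : ℝ)| ^ m * ‖EJ J t y‖ * Real.sqrt (1 + t) ^ (∑ i, J i + d) ≤
      C * Real.sqrt (1 + t) ^ m := by
  obtain ⟨C1, hC1, h1⟩ := EE_dec m (J i0)
  have h2 : ∀ i, ∃ C : ℝ, 0 < C ∧ ∀ t : ℝ, 0 ≤ t → ∀ k : ℤ,
    ‖EE (J i) t k‖ * Real.sqrt (1 + t) ^ (J i + 1) ≤ C := fun i => EE_bd (J i)
  choose C hC h2 using h2
  refine ⟨C1 * ∏ i ∈ Finset.univ.erase i0, C i, mul_pos hC1 (Finset.prod_pos fun i _ => hC i),
    fun t ht y => ?_⟩
  obtain ⟨R, hR⟩ : ∃ R, R = Real.sqrt (1 + t) := ⟨_, rfl⟩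
  have hR0 : 0 ≤ R := by rw [hR]; positivity
  have e1 : ‖EJ J t y‖ * R ^ (∑ i, J i + d) = ∏ i, (‖EE (J i) t (y i)‖ * R ^ (J i + 1)) := by
    unfold EJ
    rw [norm_prod, Finset.prod_mul_distrib, Finset.prod_pow_eq_pow_sum, Finset.sum_add_distrib]
    simp
  rw [← hR, mul_assoc, e1, ← Finset.mul_prod_erase Finset.univ _ (Finset.mem_univ i0), ← mul_assoc]
  have h3 := h1 t ht (y i0)
  rw [← hR] at h3
  calc |(y i0 : ℝ)| ^ m * (‖EE (J i0) t (y i0)‖ * R ^ (J i0 + 1)) *
      ∏ i ∈ Finset.univ.erase i0, ‖EE (J i) t (y i)‖ * R ^ (J i + 1) ≤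
      (C1 * R ^ m) * ∏ i ∈ Finset.univ.erase i0, C i := by
        refine mul_le_mul (by rw [← mul_assoc]; exact h3)
          (Finset.prod_le_prod (fun i _ => by positivity) fun i _ => ?_)
          (Finset.prod_nonneg fun i _ => by positivity) (by positivity)
        have := h2 i t ht (y i)
        rwa [← hR] at this
    _ = _ := by ring

lemma sqrt_pow_rpow {T : ℝ} (hT : 0 ≤ T) (n : ℕ) : Real.sqrt T ^ n = T ^ ((n : ℝ) / 2) := by
  rw [Real.sqrt_eq_rpow, ← Real.rpow_natCast, ← Real.rpow_mul hT]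
  congr 1; ring

lemma EJ_le (hd : 3 ≤ d) (J : Fin d → ℕ) : ∃ C : ℝ, 0 < C ∧ ∀ t : ℝ, 0 ≤ t →
    ∀ y : Fin d → ℤ, ‖EJ J t y‖ ≤ C * (t + 1) ^ (-(3 / 2) : ℝ) := by
  obtain ⟨C, hC, h⟩ := EJ_dec J ⟨0, by omega⟩ 0
  refine ⟨C, hC, fun t ht y => ?_⟩
  have h1 := h t ht y
  rw [pow_zero, pow_zero, one_mul, mul_one] at h1
  have hR1 : 1 ≤ Real.sqrt (1 + t) := Real.one_le_sqrt.2 (by linarith)
  have h2 : Real.sqrt (1 + t) ^ 3 ≤ Real.sqrt (1 + t) ^ (∑ i, J i + d) :=
    pow_le_pow_right₀ hR1 (by omega)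
  have h3 : ‖EJ J t y‖ * Real.sqrt (1 + t) ^ 3 ≤ C :=
    (mul_le_mul_of_nonneg_left h2 (norm_nonneg _)).trans h1
  rw [sqrt_pow_rpow (by linarith), add_comm 1 t] at h3
  rw [Real.rpow_neg (by linarith), ← div_eq_mul_inv, le_div_iff₀ (by positivity)]
  exact_mod_cast h3

lemma EJ_int (hd : 3 ≤ d) (J : Fin d → ℕ) (y : Fin d → ℤ) :
    IntegrableOn (fun t => EJ J t y) (Set.Ioi 0) := by
  obtain ⟨C, hC, h⟩ := EJ_le hd J
  have h1 : IntegrableOn (fun t : ℝ => (t + 1) ^ (-(3 / 2) : ℝ)) (Set.Ioi 0) :=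
    integrableOn_add_rpow_Ioi_of_lt (by norm_num) (by norm_num)
  refine Integrable.mono' (h1.const_mul C) (EJ_cont J y).aestronglyMeasurable ?_
  refine (ae_restrict_iff' measurableSet_Ioi).2 (Eventually.of_forall fun t ht => ?_)
  exact h t (le_of_lt ht) y

lemma int_exp_cos {a c : ℝ} (ha : 0 ≤ a) :
    ∫ t in Set.Ioi (0 : ℝ), Real.exp (-(t * a)) * c = c / a := by
  rcases ha.lt_or_eq with h | h
  · have h1 := integral_exp_mul_Ioi (a := -a) (by linarith) 0
    rw [integral_mul_const]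
    have h2 : ∀ t : ℝ, Real.exp (-(t * a)) = Real.exp (-a * t) := fun t => by congr 1; ring
    simp only [h2]
    rw [h1]
    simp
    ring
  · rw [← h, div_zero]
    simp only [mul_zero, neg_zero, Real.exp_zero, one_mul]
    rw [setIntegral_const]
    simp [Measure.real]

/-- the heat kernel in the Fourier representation -/
lemma EJ_cube (t : ℝ) (y : Fin d → ℤ) : (EJ 0 t y).re =
    ∫ u in cube d, Real.exp (-(t * ∑ i, 2 * (1 - Real.cos (2 * Real.pi * u i)))) *
      Real.cos (pu y u) := by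
  obtain ⟨f, hf⟩ : ∃ f : Fin d → ℝ → ℂ, f = fun i θ => (Real.exp (-(t * wl θ)) : ℂ) * ex (y i) θ :=
    ⟨_, rfl⟩
  have h1 : ∀ i, EE 0 t (y i) = ∫ θ in Set.Icc (0 : ℝ) 1, f i θ := by
    intro i
    unfold EE
    rw [intervalIntegral.integral_of_le zero_le_one, integral_Icc_eq_integral_Ioc]
    congr 1
    funext θ
    rw [hf, pow_zero, one_mul]
  have h2 := integral_fintype_prod_eq_prod (𝕜 := ℂ)
    (μ := fun _ : Fin d => (volume : Measure ℝ).restrict (Set.Icc (0 : ℝ) 1)) f
  rw [← Measure.restrict_pi_pi] at h2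
  have h3 : EJ 0 t y = ∫ u in cube d, ∏ i, f i (u i) := by
    unfold EJ
    simp only [Pi.zero_apply, h1]
    exact h2.symm
  have h4 : ∀ u : Fin d → ℝ, ∏ i, f i (u i) =
      (Real.exp (-(t * ∑ i, 2 * (1 - Real.cos (2 * Real.pi * u i)))) : ℂ) *
        Complex.exp ((pu y u : ℝ) * Complex.I) := by
    intro u
    rw [hf]
    simp only
    rw [Finset.prod_mul_distrib]
    congr 1
    · rw [← Complex.ofReal_prod, ← Real.exp_sum]
      congr 2
      rw [Finset.sum_neg_distrib, Finset.mul_sum]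
      rfl
    · unfold ex
      rw [← Complex.exp_sum]
      congr 1
      unfold pu
      push_cast
      rw [Finset.mul_sum, Finset.sum_mul]
      refine Finset.sum_congr rfl fun i _ => by ring
  simp only [h4] at h3
  have hc : Continuous fun u : Fin d → ℝ =>
      (Real.exp (-(t * ∑ i, 2 * (1 - Real.cos (2 * Real.pi * u i)))) : ℂ) *
        Complex.exp ((pu y u : ℝ) * Complex.I) := by
    have h5 := pu_cont y
    have h6 : Continuous fun u : Fin d → ℝ =>
        (Real.exp (-(t * ∑ i, 2 * (1 - Real.cos (2 * Real.pi * u i)))) : ℂ) :=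
      Complex.continuous_ofReal.comp (by fun_prop)
    have h7 : Continuous fun u : Fin d → ℝ => ((pu y u : ℝ) : ℂ) :=
      Complex.continuous_ofReal.comp h5
    exact h6.mul (Complex.continuous_exp.comp (h7.mul continuous_const))
  have hint : Integrable (fun u : Fin d → ℝ =>
      (Real.exp (-(t * ∑ i, 2 * (1 - Real.cos (2 * Real.pi * u i)))) : ℂ) *
        Complex.exp ((pu y u : ℝ) * Complex.I)) (volume.restrict (cube d)) :=
    hc.continuousOn.integrableOn_compact (isCompact_univ_pi fun _ => isCompact_Icc)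
  have h8 : (∫ u in cube d, (Real.exp (-(t * ∑ i, 2 * (1 - Real.cos (2 * Real.pi * u i)))) : ℂ) *
        Complex.exp ((pu y u : ℝ) * Complex.I)).re =
      ∫ u in cube d, ((Real.exp (-(t * ∑ i, 2 * (1 - Real.cos (2 * Real.pi * u i)))) : ℂ) *
        Complex.exp ((pu y u : ℝ) * Complex.I)).re := (integral_re hint).symm
  rw [h3, h8]
  refine integral_congr_ae (Eventually.of_forall fun u => ?_)
  simp only
  rw [Complex.re_ofReal_mul, Complex.exp_ofReal_mul_I_re]

/-- the Green function as an integral of the heat kernel -/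
theorem gr_int (hd : 3 ≤ d) (y : Fin d → ℤ) : gr y = ∫ t in Set.Ioi (0 : ℝ), (EJ 0 t y).re := by
  obtain ⟨Λ, hΛ⟩ : ∃ Λ : (Fin d → ℝ) → ℝ, Λ = fun u =>
    ∑ i, 2 * (1 - Real.cos (2 * Real.pi * u i)) := ⟨_, rfl⟩
  have hΛ0 : ∀ u, 0 ≤ Λ u := fun u => by
    rw [hΛ]
    refine Finset.sum_nonneg fun i _ => ?_
    have := Real.cos_le_one (2 * Real.pi * u i)
    linarith
  have hΛc : Continuous Λ := by rw [hΛ]; fun_prop
  have hpc := pu_cont y
  obtain ⟨F, hF⟩ : ∃ F : ℝ → (Fin d → ℝ) → ℝ, F = fun t u =>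
    Real.exp (-(t * Λ u)) * Real.cos (pu y u) := ⟨_, rfl⟩
  have hFc : Continuous (Function.uncurry F) := by
    rw [hF]
    have h1 : Continuous fun p : ℝ × (Fin d → ℝ) => Real.exp (-(p.1 * Λ p.2)) := by fun_prop
    exact h1.mul (Real.continuous_cos.comp (hpc.comp continuous_snd))
  have e1 : ∀ t, (EJ 0 t y).re = ∫ u in cube d, F t u := fun t => by
    rw [EJ_cube, hF, hΛ]
  have e0 : ∀ t, (EJ 0 t (0 : Fin d → ℤ)).re = ∫ u in cube d, Real.exp (-(t * Λ u)) := fun t => by
    rw [EJ_cube, hΛ]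
    refine integral_congr_ae (Eventually.of_forall fun u => ?_)
    simp [pu]
  have hcomp : IsCompact (cube d) := isCompact_univ_pi fun _ => isCompact_Icc
  have hint : Integrable (Function.uncurry F)
      ((volume.restrict (Set.Ioi (0 : ℝ))).prod (volume.restrict (cube d))) := by
    rw [integrable_prod_iff hFc.aestronglyMeasurable]
    refine ⟨Eventually.of_forall fun t => ?_, ?_⟩
    · have : Continuous fun u => Function.uncurry F (t, u) :=
        hFc.comp (continuous_const.prodMk continuous_id)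
      exact this.continuousOn.integrableOn_compact hcomp
    · refine Integrable.mono' ((EJ_int hd 0 (0 : Fin d → ℤ)).re)
        hFc.aestronglyMeasurable.norm.integral_prod_right' ?_
      refine (ae_restrict_iff' measurableSet_Ioi).2 (Eventually.of_forall fun t _ => ?_)
      rw [Real.norm_eq_abs, abs_of_nonneg (integral_nonneg fun u => norm_nonneg _)]
      show _ ≤ (EJ 0 t (0 : Fin d → ℤ)).re
      rw [e0]
      have c1 : Continuous fun u => ‖Function.uncurry F (t, u)‖ :=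
        (hFc.comp (continuous_const.prodMk continuous_id)).norm
      have c2 : Continuous fun u => Real.exp (-(t * Λ u)) := by fun_prop
      refine integral_mono (c1.continuousOn.integrableOn_compact hcomp)
        (c2.continuousOn.integrableOn_compact hcomp) fun u => ?_
      simp only [Function.uncurry_apply_pair]
      rw [hF]
      simp only
      rw [norm_mul, Real.norm_eq_abs, Real.abs_exp, Real.norm_eq_abs]
      exact mul_le_of_le_one_right (Real.exp_pos _).le (Real.abs_cos_le_one _)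
  simp only [e1]
  rw [integral_integral_swap hint]
  unfold gr
  refine integral_congr_ae (Eventually.of_forall fun u => ?_)
  simp only
  rw [hF]
  simp only
  rw [int_exp_cos (hΛ0 u), hΛ]

/-- second differences -/
def DD (φ : (Fin d → ℤ) → ℝ) (a b : Fin d) (y : Fin d → ℤ) : ℝ :=
  φ (y + Pi.single a 1 + Pi.single b 1) - φ (y + Pi.single a 1) - φ (y + Pi.single b 1) + φ y

/-- second differences of the Green function -/
theorem DD_gr (hd : 3 ≤ d) (a b : Fin d) (y : Fin d → ℤ) : DD gr a b y =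
    ∫ t in Set.Ioi (0 : ℝ), (EJ (Pi.single a 1 + Pi.single b 1) t y).re := by
  have hi : ∀ z : Fin d → ℤ, IntegrableOn (fun t => (EJ 0 t z).re) (Set.Ioi 0) := fun z =>
    (EJ_int hd 0 z).re
  unfold DD
  simp only [gr_int hd]
  have key : ∀ A B D E : ℝ → ℝ, IntegrableOn A (Set.Ioi 0) → IntegrableOn B (Set.Ioi 0) →
      IntegrableOn D (Set.Ioi 0) → IntegrableOn E (Set.Ioi 0) →
      (∫ t in Set.Ioi (0 : ℝ), A t) - (∫ t in Set.Ioi (0 : ℝ), B t) -
        (∫ t in Set.Ioi (0 : ℝ), D t) + (∫ t in Set.Ioi (0 : ℝ), E t) =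
      ∫ t in Set.Ioi (0 : ℝ), (A t - B t - D t + E t) := by
    intro A B D E iA iB iD iE
    have e1 : ∫ t in Set.Ioi (0 : ℝ), (A t - B t - D t + E t) =
        (∫ t in Set.Ioi (0 : ℝ), (A t - B t - D t)) + ∫ t in Set.Ioi (0 : ℝ), E t :=
      integral_add ((iA.sub iB).sub iD) iE
    have e2 : ∫ t in Set.Ioi (0 : ℝ), (A t - B t - D t) =
        (∫ t in Set.Ioi (0 : ℝ), (A t - B t)) - ∫ t in Set.Ioi (0 : ℝ), D t :=
      integral_sub (iA.sub iB) iD
    have e3 : ∫ t in Set.Ioi (0 : ℝ), (A t - B t) =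
        (∫ t in Set.Ioi (0 : ℝ), A t) - ∫ t in Set.Ioi (0 : ℝ), B t := integral_sub iA iB
    rw [e1, e2, e3]
  rw [key _ _ _ _ (hi _) (hi _) (hi _) (hi _)]
  refine integral_congr_ae (Eventually.of_forall fun t => ?_)
  simp only
  have h1 := EJ_succ 0 t y a
  have h2 := EJ_succ 0 t (y + Pi.single b 1) a
  have h3 := EJ_succ (0 + Pi.single a 1) t y b
  rw [zero_add] at h1 h2 h3
  rw [← h1, ← h2, add_right_comm y (Pi.single b 1) (Pi.single a 1)] at h3
  rw [← h3]
  simp only [Complex.sub_re]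
  ring

end

end Pool.Agent.W2helper67.YM
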