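import Mathlib
import Pool.Agent.W2helper67.YM.GrInt

/-!
# The scaling limit of the second differences of the Green function
-/

open MeasureTheory Filter
open scoped Topology

namespace Pool.Agent.W2helper67.YM

set_option linter.unusedSectionVars false

noncomputable section

variable {d : ℕ}

/-- minus the second derivatives of the Newton potential -/
def nk (a b : Fin d) (x : Fin d → ℝ) : ℝ :=
  Real.Gamma (d / 2) / (2 * Real.pi ^ ((d : ℝ) / 2)) *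
    (((if a = b then ∑ i, x i ^ 2 else 0) - d * (x a * x b)) / (∑ i, x i ^ 2) ^ ((d : ℝ) / 2 + 1))

/-- the prefactor -/
def cc : ℕ → ℝ → ℝ → ℝ
  | 0, _, _ => 1
  | 1, τ, x => -(x / (2 * τ))
  | _, τ, x => x ^ 2 / (4 * τ ^ 2) - 1 / (2 * τ)

lemma hh_cc (j : ℕ) (τ x : ℝ) : hh j τ x = cc j τ x * hh 0 τ x := by
  match j with
  | 0 => simp [cc]
  | 1 => rfl
  | _ + 2 => rfl

lemma prod_cc (a b : Fin d) (τ : ℝ) (x : Fin d → ℝ) :
    ∏ i, cc ((Pi.single a 1 + Pi.single b 1 : Fin d → ℕ) i) τ (x i) =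
      x a * x b / (4 * τ ^ 2) - (if a = b then 1 / (2 * τ) else 0) := by
  by_cases hab : a = b
  · subst hab
    rw [Finset.prod_eq_single a]
    · simp only [Pi.add_apply, Pi.single_eq_same, if_true]
      show x a ^ 2 / (4 * τ ^ 2) - 1 / (2 * τ) = _
      ring
    · intro i _ hi
      simp [Pi.single_eq_of_ne hi, cc]
    · intro h; exact absurd (Finset.mem_univ _) h
  · rw [if_neg hab, Finset.prod_eq_mul a b hab]
    · simp only [Pi.add_apply, Pi.single_eq_same, Pi.single_eq_of_ne hab,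
        Pi.single_eq_of_ne (Ne.symm hab), add_zero, zero_add]
      show -(x a / (2 * τ)) * -(x b / (2 * τ)) = _
      ring
    · intro i _ hi
      simp [Pi.single_eq_of_ne hi.1, Pi.single_eq_of_ne hi.2, cc]
    · intro h; exact absurd (Finset.mem_univ _) h
    · intro h; exact absurd (Finset.mem_univ _) h

lemma hh_zero (τ x : ℝ) : hh 0 τ x =
    1 / Real.sqrt (4 * Real.pi * τ) * Real.exp (-(x ^ 2 / (4 * τ))) := rfl

lemma prod_hh {τ : ℝ} (hτ : 0 < τ) (x : Fin d → ℝ) : ∏ i, hh 0 τ (x i) =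
    (4 * Real.pi * τ) ^ (-((d : ℝ) / 2)) * Real.exp (-((∑ i, x i ^ 2) / (4 * τ))) := by
  simp only [hh_zero]
  rw [Finset.prod_mul_distrib, ← Real.exp_sum, Finset.prod_const, Finset.card_univ,
    Fintype.card_fin]
  have h1 : (1 / Real.sqrt (4 * Real.pi * τ)) ^ d = (4 * Real.pi * τ) ^ (-((d : ℝ) / 2)) := by
    have hp : 0 < 4 * Real.pi * τ := by positivity
    rw [one_div, inv_pow, sqrt_pow_rpow hp.le, ← Real.rpow_neg hp.le]
  rw [h1]
  congr 2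
  rw [Finset.sum_neg_distrib, Finset.sum_div]

/-- the Gamma integrals -/
lemma gam_int (hd : 1 ≤ d) {ρ : ℝ} (hρ : 0 < ρ) {p : ℝ} (hp : 1 ≤ p) :
    IntegrableOn (fun τ : ℝ => τ ^ (-p) * ((4 * Real.pi * τ) ^ (-((d : ℝ) / 2)) *
      Real.exp (-(ρ / (4 * τ))))) (Set.Ioi 0) ∧
    ∫ τ in Set.Ioi (0 : ℝ), τ ^ (-p) * ((4 * Real.pi * τ) ^ (-((d : ℝ) / 2)) *
      Real.exp (-(ρ / (4 * τ)))) =
      (4 * Real.pi) ^ (-((d : ℝ) / 2)) * ((1 / (ρ / 4)) ^ ((d : ℝ) / 2 + p - 1) *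
        Real.Gamma ((d : ℝ) / 2 + p - 1)) := by
  have hd0 : (1 : ℝ) ≤ d := by exact_mod_cast hd
  obtain ⟨g, hg⟩ : ∃ g : ℝ → ℝ, g = fun τ => τ ^ (-p) * ((4 * Real.pi * τ) ^ (-((d : ℝ) / 2)) *
      Real.exp (-(ρ / (4 * τ)))) := ⟨_, rfl⟩
  have h1 := integral_comp_rpow_Ioi g (p := -1) (by norm_num)
  have h1' := integrableOn_Ioi_comp_rpow_iff g (p := -1) (by norm_num)
  have h2 : ∀ x ∈ Set.Ioi (0 : ℝ), (|(-1 : ℝ)| * x ^ ((-1 : ℝ) - 1)) • g (x ^ (-1 : ℝ)) =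
      (4 * Real.pi) ^ (-((d : ℝ) / 2)) * (x ^ (((d : ℝ) / 2 + p - 1) - 1) *
        Real.exp (-(ρ / 4 * x))) := by
    intro x hx
    have hx0 : 0 < x := hx
    rw [hg]
    simp only [smul_eq_mul, abs_neg, abs_one, one_mul]
    rw [Real.rpow_neg_one]
    have e1 : (x⁻¹ : ℝ) ^ (-p) = x ^ p := by
      rw [Real.inv_rpow hx0.le, Real.rpow_neg hx0.le, inv_inv]
    have e2 : (4 * Real.pi * x⁻¹) ^ (-((d : ℝ) / 2)) =
        (4 * Real.pi) ^ (-((d : ℝ) / 2)) * x ^ ((d : ℝ) / 2) := by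
      rw [Real.mul_rpow (by positivity) (by positivity), Real.inv_rpow hx0.le,
        Real.rpow_neg hx0.le, inv_inv]
    have e3 : ρ / (4 * x⁻¹) = ρ / 4 * x := by field_simp
    rw [e1, e2, e3]
    have e4 : x ^ (((d : ℝ) / 2 + p - 1) - 1) = x ^ ((-1 : ℝ) - 1) * x ^ p * x ^ ((d : ℝ) / 2) := by
      rw [← Real.rpow_add hx0, ← Real.rpow_add hx0]
      congr 1; ring
    rw [e4]; ring
  have h3 := Real.integral_rpow_mul_exp_neg_mul_Ioi (a := (d : ℝ) / 2 + p - 1) (r := ρ / 4)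
    (by linarith) (by positivity)
  constructor
  · rw [← hg, ← h1']
    refine IntegrableOn.congr_fun ?_ (fun x hx => (h2 x hx).symm) measurableSet_Ioi
    refine Integrable.const_mul ?_ _
    have h4 := integrableOn_rpow_mul_exp_neg_mul_rpow (p := 1) (s := ((d : ℝ) / 2 + p - 1) - 1)
      (b := ρ / 4) (by linarith) one_pos (by positivity)
    refine IntegrableOn.congr_fun h4 (fun x _ => ?_) measurableSet_Ioi
    simp only [Real.rpow_one]
    congr 2; ring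
  · rw [← hg, ← h1, setIntegral_congr_fun measurableSet_Ioi h2, integral_const_mul, h3]

/-- the time integral of the second derivatives of the Gaussian kernel -/
theorem hh_int (hd : 1 ≤ d) (a b : Fin d) {x : Fin d → ℝ} (hx : 0 < ∑ i, x i ^ 2) :
    ∫ τ in Set.Ioi (0 : ℝ), ∏ i, hh ((Pi.single a 1 + Pi.single b 1 : Fin d → ℕ) i) τ (x i) =
      -nk a b x := by
  obtain ⟨ρ, hρ⟩ : ∃ ρ, ρ = ∑ i, x i ^ 2 := ⟨_, rfl⟩
  rw [← hρ] at hx
  obtain ⟨i1, j1⟩ := gam_int hd hx (p := 1) le_rfl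
  obtain ⟨i2, j2⟩ := gam_int hd hx (p := 2) (by norm_num)
  have hd0 : (1 : ℝ) ≤ d := by exact_mod_cast hd
  have h1 : ∀ τ ∈ Set.Ioi (0 : ℝ),
      ∏ i, hh ((Pi.single a 1 + Pi.single b 1 : Fin d → ℕ) i) τ (x i) =
      (x a * x b / 4) * (τ ^ (-(2 : ℝ)) * ((4 * Real.pi * τ) ^ (-((d : ℝ) / 2)) *
        Real.exp (-(ρ / (4 * τ))))) - (if a = b then 1 / 2 else 0) *
        (τ ^ (-(1 : ℝ)) * ((4 * Real.pi * τ) ^ (-((d : ℝ) / 2)) *
        Real.exp (-(ρ / (4 * τ))))) := by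
    intro τ hτ
    have hτ0 : 0 < τ := hτ
    have e1 : ∏ i, hh ((Pi.single a 1 + Pi.single b 1 : Fin d → ℕ) i) τ (x i) =
        (∏ i, cc ((Pi.single a 1 + Pi.single b 1 : Fin d → ℕ) i) τ (x i)) *
          ∏ i, hh 0 τ (x i) := by
      rw [← Finset.prod_mul_distrib]
      exact Finset.prod_congr rfl fun i _ => hh_cc _ _ _
    rw [e1, prod_cc, prod_hh hτ0, ← hρ]
    have e2 : τ ^ (-(2 : ℝ)) = 1 / τ ^ 2 := by
      rw [Real.rpow_neg hτ0.le]
      norm_num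
    have e3 : τ ^ (-(1 : ℝ)) = 1 / τ := by
      rw [Real.rpow_neg hτ0.le]
      norm_num
    rw [e2, e3]
    split_ifs <;> ring
  rw [setIntegral_congr_fun measurableSet_Ioi h1]
  have h2 : ∫ τ in Set.Ioi (0 : ℝ), ((x a * x b / 4) * (τ ^ (-(2 : ℝ)) *
      ((4 * Real.pi * τ) ^ (-((d : ℝ) / 2)) * Real.exp (-(ρ / (4 * τ))))) -
      (if a = b then 1 / 2 else 0) * (τ ^ (-(1 : ℝ)) * ((4 * Real.pi * τ) ^ (-((d : ℝ) / 2)) *
        Real.exp (-(ρ / (4 * τ)))))) = (∫ τ in Set.Ioi (0 : ℝ), (x a * x b / 4) *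
        (τ ^ (-(2 : ℝ)) * ((4 * Real.pi * τ) ^ (-((d : ℝ) / 2)) *
          Real.exp (-(ρ / (4 * τ)))))) - ∫ τ in Set.Ioi (0 : ℝ), (if a = b then 1 / 2 else 0) *
        (τ ^ (-(1 : ℝ)) * ((4 * Real.pi * τ) ^ (-((d : ℝ) / 2)) *
        Real.exp (-(ρ / (4 * τ))))) := integral_sub (i2.const_mul _) (i1.const_mul _)
  rw [h2, integral_const_mul, integral_const_mul, j1, j2]
  unfold nk
  rw [← hρ]
  have g1 : (d : ℝ) / 2 + 1 - 1 = (d : ℝ) / 2 := by ring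
  have g2 : (d : ℝ) / 2 + 2 - 1 = (d : ℝ) / 2 + 1 := by ring
  have g3 : Real.Gamma ((d : ℝ) / 2 + 1) = (d : ℝ) / 2 * Real.Gamma ((d : ℝ) / 2) :=
    Real.Gamma_add_one (by positivity)
  have g4 : (1 / (ρ / 4)) ^ ((d : ℝ) / 2 + 1) = (1 / (ρ / 4)) ^ ((d : ℝ) / 2) * (1 / (ρ / 4)) := by
    rw [Real.rpow_add (by positivity), Real.rpow_one]
  have g5 : ρ ^ ((d : ℝ) / 2 + 1) = ρ ^ ((d : ℝ) / 2) * ρ := by
    rw [Real.rpow_add hx, Real.rpow_one]
  have g6 : (4 * Real.pi) ^ (-((d : ℝ) / 2)) * (1 / (ρ / 4)) ^ ((d : ℝ) / 2) =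
      1 / (Real.pi ^ ((d : ℝ) / 2) * ρ ^ ((d : ℝ) / 2)) := by
    rw [Real.rpow_neg (by positivity), ← Real.inv_rpow (by positivity),
      ← Real.mul_rpow (by positivity) (by positivity), ← Real.mul_rpow (by positivity)
      (by positivity), one_div (_ ^ _), ← Real.inv_rpow (by positivity)]
    congr 1
    have := Real.pi_ne_zero
    field_simp
  rw [g1, g2, g3, g4, g5]
  obtain ⟨Y, hY⟩ : ∃ Y, Y = Real.pi ^ ((d : ℝ) / 2) := ⟨_, rfl⟩
  obtain ⟨Z, hZ⟩ : ∃ Z, Z = ρ ^ ((d : ℝ) / 2) := ⟨_, rfl⟩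
  obtain ⟨W, hW⟩ : ∃ W, W = (4 * Real.pi) ^ (-((d : ℝ) / 2)) := ⟨_, rfl⟩
  obtain ⟨V, hV⟩ : ∃ V, V = (1 / (ρ / 4)) ^ ((d : ℝ) / 2) := ⟨_, rfl⟩
  have hY0 : 0 < Y := by rw [hY]; positivity
  have hZ0 : 0 < Z := by rw [hZ]; positivity
  rw [← hY, ← hZ, ← hW, ← hV] at g6
  rw [← hY, ← hZ, ← hW, ← hV]
  have t1 : W * (V * (1 / (ρ / 4)) * ((d : ℝ) / 2 * Real.Gamma ((d : ℝ) / 2))) =
      (W * V) * ((1 / (ρ / 4)) * ((d : ℝ) / 2 * Real.Gamma ((d : ℝ) / 2))) := by ring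
  have t2 : W * (V * Real.Gamma ((d : ℝ) / 2)) = (W * V) * Real.Gamma ((d : ℝ) / 2) := by ring
  rw [t1, t2, g6]
  split_ifs
  · field_simp
    ring
  · field_simp
    ring

/-- the scaling limit of the second differences of the Green function -/
theorem DD_lim (hd : 3 ≤ d) (a b : Fin d) {x : Fin d → ℝ} (hx : x ≠ 0) {y : ℕ → Fin d → ℤ}
    (hy : ∀ i, Tendsto (fun s : ℕ => (y s i : ℝ) / s) atTop (𝓝 (x i))) :
    Tendsto (fun s : ℕ => (s : ℝ) ^ d * DD gr a b (y s)) atTop (𝓝 (-nk a b x)) := by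
  obtain ⟨i0, hi0⟩ : ∃ i, x i ≠ 0 := Function.ne_iff.1 hx
  have hρ : 0 < ∑ i, x i ^ 2 := by
    refine Finset.sum_pos' (fun i _ => sq_nonneg _) ⟨i0, Finset.mem_univ _, ?_⟩
    positivity
  obtain ⟨J, hJ⟩ : ∃ J : Fin d → ℕ, J = Pi.single a 1 + Pi.single b 1 := ⟨_, rfl⟩
  have hJs : ∑ i, J i = 2 := by
    rw [hJ]
    simp only [Pi.add_apply, Finset.sum_add_distrib]
    rw [Finset.sum_pi_single', Finset.sum_pi_single']
    simp
  have hJ2 : ∀ i, J i ≤ 2 := fun i => by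
    have : J i ≤ ∑ i, J i := Finset.single_le_sum (fun _ _ => Nat.zero_le _) (Finset.mem_univ i)
    omega
  rw [← hh_int (by omega) a b hρ, ← hJ]
  obtain ⟨F, hF⟩ : ∃ F : ℕ → ℝ → ℝ, F = fun (s : ℕ) (τ : ℝ) =>
    (s : ℝ) ^ (d + 2) * (EJ J ((s : ℝ) ^ 2 * τ) (y s)).re := ⟨_, rfl⟩
  obtain ⟨C0, hC0, h0⟩ := EJ_dec J i0 0
  obtain ⟨C1, hC1, h1⟩ := EJ_dec J i0 (d + 3)
  obtain ⟨c, hc⟩ : ∃ c, c = |x i0| / 2 := ⟨_, rfl⟩
  have hc0 : 0 < c := by rw [hc]; positivity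
  obtain ⟨D, hD⟩ : ∃ D : ℝ, D = (C0 + C1 * 2 / c ^ (d + 3)) * 2 ^ (3 / 2 : ℝ) := ⟨_, rfl⟩
  have hD0 : 0 ≤ D := by rw [hD]; positivity
  have hev : ∀ᶠ s : ℕ in atTop, 1 ≤ s ∧ c * s ≤ |(y s i0 : ℝ)| := by
    have h2 := (hy i0).abs
    have h3 : c < |x i0| := by rw [hc]; linarith [abs_pos.2 hi0]
    have h4 := h2.eventually (lt_mem_nhds h3)
    filter_upwards [h4, eventually_ge_atTop 1] with s hs hs1
    have hs0 : (0 : ℝ) < s := by exact_mod_cast hs1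
    refine ⟨hs1, ?_⟩
    rw [abs_div, abs_of_pos hs0, lt_div_iff₀ hs0] at hs
    exact hs.le
  have hbd : ∀ᶠ s : ℕ in atTop, ∀ᵐ τ ∂(volume.restrict (Set.Ioi (0 : ℝ))),
      ‖F s τ‖ ≤ D * (τ + 1) ^ (-(3 / 2) : ℝ) := by
    filter_upwards [hev] with s ⟨hs1, hs2⟩
    refine (ae_restrict_iff' measurableSet_Ioi).2 (Eventually.of_forall fun τ hτ => ?_)
    have hτ0 : (0 : ℝ) < τ := hτ
    have hs0 : (0 : ℝ) < s := by exact_mod_cast hs1
    have hs1' : (1 : ℝ) ≤ s := by exact_mod_cast hs1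
    obtain ⟨R, hR⟩ : ∃ R, R = Real.sqrt (1 + (s : ℝ) ^ 2 * τ) := ⟨_, rfl⟩
    have hR2 : R ^ 2 = 1 + (s : ℝ) ^ 2 * τ := by rw [hR]; exact Real.sq_sqrt (by positivity)
    have hR1 : 1 ≤ R := by
      rw [hR]; exact Real.one_le_sqrt.2 (by have := mul_pos (pow_pos hs0 2) hτ0; linarith)
    obtain ⟨E, hE⟩ : ∃ E, E = ‖EJ J ((s : ℝ) ^ 2 * τ) (y s)‖ := ⟨_, rfl⟩
    have hE0 : 0 ≤ E := by rw [hE]; positivity
    have a0 := h0 ((s : ℝ) ^ 2 * τ) (by positivity) (y s)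
    have a1 := h1 ((s : ℝ) ^ 2 * τ) (by positivity) (y s)
    rw [← hR, ← hE, hJs] at a0 a1
    rw [pow_zero, pow_zero, one_mul, mul_one] at a0
    have hFE : ‖F s τ‖ ≤ (s : ℝ) ^ (d + 2) * E := by
      rw [hF]
      simp only
      rw [norm_mul, Real.norm_eq_abs, abs_of_nonneg (by positivity), hE]
      exact mul_le_mul_of_nonneg_left (Complex.abs_re_le_norm _) (by positivity)
    have hsR : (s : ℝ) * Real.sqrt τ ≤ R := by
      rw [hR]
      have e : (s : ℝ) * Real.sqrt τ = Real.sqrt ((s : ℝ) ^ 2 * τ) := by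
        rw [Real.sqrt_mul (by positivity), Real.sqrt_sq hs0.le]
      rw [e]; exact Real.sqrt_le_sqrt (by linarith)
    have h32 : 0 < (τ + 1) ^ (3 / 2 : ℝ) := by positivity
    refine hFE.trans ?_
    rw [Real.rpow_neg (by positivity), ← div_eq_mul_inv, le_div_iff₀ h32]
    rcases le_total 1 τ with h | h
    · have hst : 1 ≤ Real.sqrt τ := Real.one_le_sqrt.2 h
      have b1 : (s : ℝ) ^ (d + 2) * E * Real.sqrt τ ^ 3 ≤ C0 := by
        have b2 : (s : ℝ) ^ (d + 2) * Real.sqrt τ ^ 3 ≤ R ^ (2 + d) := by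
          calc (s : ℝ) ^ (d + 2) * Real.sqrt τ ^ 3 ≤ (s : ℝ) ^ (d + 2) * Real.sqrt τ ^ (d + 2) :=
                mul_le_mul_of_nonneg_left (pow_le_pow_right₀ hst (by omega)) (by positivity)
            _ = ((s : ℝ) * Real.sqrt τ) ^ (d + 2) := (mul_pow _ _ _).symm
            _ ≤ R ^ (d + 2) := pow_le_pow_left₀ (by positivity) hsR _
            _ = _ := by rw [add_comm]
        calc (s : ℝ) ^ (d + 2) * E * Real.sqrt τ ^ 3 = E * ((s : ℝ) ^ (d + 2) *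
              Real.sqrt τ ^ 3) := by ring
          _ ≤ E * R ^ (2 + d) := mul_le_mul_of_nonneg_left b2 hE0
          _ ≤ C0 := a0
      have b3 : (τ + 1) ^ (3 / 2 : ℝ) ≤ 2 ^ (3 / 2 : ℝ) * Real.sqrt τ ^ 3 := by
        rw [sqrt_pow_rpow hτ0.le]
        push_cast
        rw [← Real.mul_rpow (by norm_num) hτ0.le]
        exact Real.rpow_le_rpow (by positivity) (by linarith) (by norm_num)
      calc (s : ℝ) ^ (d + 2) * E * (τ + 1) ^ (3 / 2 : ℝ) ≤
          (s : ℝ) ^ (d + 2) * E * (2 ^ (3 / 2 : ℝ) * Real.sqrt τ ^ 3) :=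
            mul_le_mul_of_nonneg_left b3 (by positivity)
        _ = ((s : ℝ) ^ (d + 2) * E * Real.sqrt τ ^ 3) * 2 ^ (3 / 2 : ℝ) := by ring
        _ ≤ C0 * 2 ^ (3 / 2 : ℝ) := mul_le_mul_of_nonneg_right b1 (by positivity)
        _ ≤ D := by
            rw [hD]
            refine mul_le_mul_of_nonneg_right ?_ (by positivity)
            have : 0 ≤ C1 * 2 / c ^ (d + 3) := by positivity
            linarith
    · have hRs : R ≤ 2 * s := by
        have : R ^ 2 ≤ (2 * (s : ℝ)) ^ 2 := by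
          rw [hR2]
          have e1 : (s : ℝ) ^ 2 * τ ≤ (s : ℝ) ^ 2 * 1 := mul_le_mul_of_nonneg_left h (by positivity)
          nlinarith
        exact le_of_sq_le_sq this (by positivity)
      have b1 : (c * s) ^ (d + 3) * E * R ^ (2 + d) ≤ C1 * R ^ (d + 3) := by
        refine le_trans ?_ a1
        gcongr
      have b2 : (c * s) ^ (d + 3) * E ≤ C1 * R := by
        have hRp : 0 < R ^ (2 + d) := by positivity
        have e1 : C1 * R ^ (d + 3) = C1 * R * R ^ (2 + d) := by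
          rw [show d + 3 = (2 + d) + 1 by ring, pow_succ]; ring
        rw [e1] at b1
        exact le_of_mul_le_mul_right b1 hRp
      have b3 : (s : ℝ) ^ (d + 2) * E ≤ C1 * 2 / c ^ (d + 3) := by
        rw [le_div_iff₀ (by positivity)]
        have e2 : (s : ℝ) ^ (d + 2) * E * c ^ (d + 3) * s ≤ C1 * 2 * s := by
          calc _ = (c * s) ^ (d + 3) * E := by rw [mul_pow]; ring
            _ ≤ C1 * R := b2
            _ ≤ C1 * (2 * s) := mul_le_mul_of_nonneg_left hRs hC1.le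
            _ = _ := by ring
        exact le_of_mul_le_mul_right e2 hs0
      have b4 : (τ + 1) ^ (3 / 2 : ℝ) ≤ 2 ^ (3 / 2 : ℝ) :=
        Real.rpow_le_rpow (by positivity) (by linarith) (by norm_num)
      calc (s : ℝ) ^ (d + 2) * E * (τ + 1) ^ (3 / 2 : ℝ) ≤
          (C1 * 2 / c ^ (d + 3)) * 2 ^ (3 / 2 : ℝ) :=
            mul_le_mul b3 b4 (by positivity) (by positivity)
        _ ≤ D := by
            rw [hD]
            refine mul_le_mul_of_nonneg_right ?_ (by positivity)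
            linarith
  have hlim : ∀ᵐ τ ∂(volume.restrict (Set.Ioi (0 : ℝ))), Tendsto (fun s => F s τ) atTop
      (𝓝 (∏ i, hh (J i) τ (x i))) := by
    refine (ae_restrict_iff' measurableSet_Ioi).2 (Eventually.of_forall fun τ hτ => ?_)
    have hτ0 : (0 : ℝ) < τ := hτ
    have g1 : Tendsto (fun s : ℕ => ∏ i, ((s : ℂ) ^ (1 + J i) *
        EE (J i) ((s : ℝ) ^ 2 * τ) (y s i))) atTop (𝓝 (∏ i, (hh (J i) τ (x i) : ℂ))) :=
      tendsto_finsetProd _ fun i _ => EE_lim hτ0 (hy i) (hJ2 i)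
    have g2 := (Complex.continuous_re.tendsto _).comp g1
    rw [← Complex.ofReal_prod, Complex.ofReal_re] at g2
    refine g2.congr fun s => ?_
    rw [hF]
    simp only [Function.comp_apply]
    rw [Finset.prod_mul_distrib, Finset.prod_pow_eq_pow_sum, Finset.sum_add_distrib, hJs]
    have e1 : ((s : ℂ) ^ (∑ _i : Fin d, 1 + 2)) = (((s : ℝ) ^ (d + 2) : ℝ) : ℂ) := by
      simp
    rw [e1, Complex.re_ofReal_mul]
    rfl
  have hFm : ∀ᶠ s : ℕ in atTop, AEStronglyMeasurable (F s) (volume.restrict (Set.Ioi (0 : ℝ))) := by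
    refine Eventually.of_forall fun s => ?_
    rw [hF]
    have := EJ_cont J (y s)
    exact (Continuous.mul continuous_const (Complex.continuous_re.comp
      (this.comp (continuous_const.mul continuous_id)))).aestronglyMeasurable
  have hbi : Integrable (fun τ : ℝ => D * (τ + 1) ^ (-(3 / 2) : ℝ))
      (volume.restrict (Set.Ioi (0 : ℝ))) := by
    have h1 : IntegrableOn (fun t : ℝ => (t + 1) ^ (-(3 / 2) : ℝ)) (Set.Ioi 0) :=
      integrableOn_add_rpow_Ioi_of_lt (by norm_num) (by norm_num)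
    exact h1.const_mul D
  have hmain := tendsto_integral_filter_of_dominated_convergence _ hFm hbd hbi hlim
  refine hmain.congr' ?_
  filter_upwards [eventually_ge_atTop 1] with s hs
  have hs0 : (0 : ℝ) < s := by exact_mod_cast hs
  rw [DD_gr hd a b (y s), hF, ← hJ]
  have h5 := integral_comp_mul_left_Ioi (fun t => (EJ J t (y s)).re) 0
    (b := (s : ℝ) ^ 2) (by positivity)
  rw [mul_zero, smul_eq_mul] at h5
  rw [integral_const_mul, h5]
  field_simp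
  ring

end

end Pool.Agent.W2helper67.YM
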