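import Mathlib
import Pool.Agent.W2helper67.YM.GrLim
import Pool.Agent.W2helper67.YM.GaussN

/-!
# The scaling limit of the covariances of the circulations around small closed paths
-/

open MeasureTheory Filter
open scoped Topology

namespace Pool.Agent.W2helper67.YM

set_option linter.unusedSectionVars false

noncomputable section

variable {d : ℕ}

/-- the area of a path: the circulation of the form `z_j dz_k` -/
def ar (j k : Fin d) (p : List (Fin d × Bool)) : ℝ :=
  ((edges 0 p).map fun e => if e.2.1 = k then e.2.2 * (e.1 j : ℝ) else 0).sum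

lemma lsum {α : Type*} (S : List α) (f : α → ℝ) : (S.map f).sum = ∑ i : Fin S.length, f S[i] :=
  (Fin.sum_univ_fun_getElem S f).symm

/-- the weight of a plaquette in the plane `(j,k)` -/
def pw (j k : Fin d) (q : It d) : ℝ :=
  q.2.2.2 * ((if q.2.1 = j then 1 else 0) * (if q.2.2.1 = k then 1 else 0) -
    (if q.2.1 = k then 1 else 0) * (if q.2.2.1 = j then 1 else 0))

lemma ar_fl {p : List (Fin d × Bool)} {S : List (It d)}
    (hS : ∀ A : Fin d → (Fin d → ℤ) → ℝ, li A 0 p = fl A S) (j k : Fin d) :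
    ar j k p = (S.map (pw j k)).sum := by
  have h := hS fun m z => if m = k then (z j : ℝ) else 0
  have h1 : ar j k p = li (fun m z => if m = k then (z j : ℝ) else 0) 0 p := by
    unfold ar li
    congr 1
    refine List.map_congr_left fun e _ => ?_
    by_cases he : e.2.1 = k
    · rw [if_pos he]; simp only; rw [if_pos he]
    · rw [if_neg he]; simp only; rw [if_neg he, mul_zero]
  rw [h1, h]
  unfold fl
  congr 1
  refine List.map_congr_left fun q _ => ?_
  unfold pw dA
  have h2 : ∀ (a : Fin d) (z : Fin d → ℤ), (((z + Pi.single a 1 : Fin d → ℤ) j : ℤ) : ℝ) =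
      (z j : ℝ) + if a = j then 1 else 0 := by
    intro a z
    by_cases ha : a = j
    · subst ha; simp
    · rw [if_neg ha, Pi.add_apply, Pi.single_eq_of_ne (Ne.symm ha)]; simp
  simp only [h2]
  split_ifs <;> ring

/-- the energy of two plaquettes -/
def pe (φ : (Fin d → ℤ) → ℝ) (y : Fin d → ℤ) (q q' : It d) : ℝ :=
  q.2.2.2 * (q'.2.2.2 * (
    -(if q.2.2.1 = q'.2.2.1 then DD φ q.2.1 q'.2.1 (y + q.1 - q'.1 - Pi.single q'.2.1 1) else 0) +
    (if q.2.1 = q'.2.2.1 then DD φ q.2.2.1 q'.2.1 (y + q.1 - q'.1 - Pi.single q'.2.1 1) else 0) +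
    (if q.2.2.1 = q'.2.1 then DD φ q.2.1 q'.2.2.1 (y + q.1 - q'.1 - Pi.single q'.2.2.1 1) else 0) -
    (if q.2.1 = q'.2.1 then
      DD φ q.2.2.1 q'.2.2.1 (y + q.1 - q'.1 - Pi.single q'.2.2.1 1) else 0)))

/-- the limit of the energy -/
def pn (x : Fin d → ℝ) (q q' : It d) : ℝ :=
  q.2.2.2 * (q'.2.2.2 * (
    (if q.2.2.1 = q'.2.2.1 then nk q.2.1 q'.2.1 x else 0) -
    (if q.2.1 = q'.2.2.1 then nk q.2.2.1 q'.2.1 x else 0) -
    (if q.2.2.1 = q'.2.1 then nk q.2.1 q'.2.2.1 x else 0) +
    (if q.2.1 = q'.2.1 then nk q.2.2.1 q'.2.2.1 x else 0)))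

/-- the one form of the second step -/
def Bw (φ : (Fin d → ℤ) → ℝ) (y : Fin d → ℤ) (q : It d) (m : Fin d) (z' : Fin d → ℤ) : ℝ :=
  (if q.2.2.1 = m then φ (y + (q.1 + Pi.single q.2.1 1) - z') - φ (y + q.1 - z') else 0) -
    (if q.2.1 = m then φ (y + (q.1 + Pi.single q.2.2.1 1) - z') - φ (y + q.1 - z') else 0)

lemma dA_Bw (φ : (Fin d → ℤ) → ℝ) (y : Fin d → ℤ) (q q' : It d) :
    q.2.2.2 * (q'.2.2.2 * dA (Bw φ y q) q'.2.1 q'.2.2.1 q'.1) = pe φ y q q' := by
  obtain ⟨z, j, k, w⟩ := q
  obtain ⟨z', j', k', w'⟩ := q'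
  unfold pe dA Bw DD
  simp only
  have e1 : ∀ a b : Fin d → ℤ, y + (z + a) - (z' + b) = y + z - z' - b + a := fun a b => by abel
  have e2 : ∀ b : Fin d → ℤ, y + z - (z' + b) = y + z - z' - b := fun b => by abel
  have e3 : ∀ a b : Fin d → ℤ, y + z - z' - b + a + b = y + (z + a) - z' := fun a b => by abel
  have e4 : ∀ b : Fin d → ℤ, y + z - z' - b + b = y + z - z' := fun b => by abel
  simp only [e1, e2, e3, e4]
  congr 2
  split_ifs <;> ring

theorem two_stokes (φ : (Fin d → ℤ) → ℝ) {p p' : List (Fin d × Bool)} {S S' : List (It d)}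
    (hS : ∀ A : Fin d → (Fin d → ℤ) → ℝ, li A 0 p = fl A S)
    (hS' : ∀ A : Fin d → (Fin d → ℤ) → ℝ, li A 0 p' = fl A S') (y : Fin d → ℤ) :
    ((edges 0 p).map fun e => ((edges 0 p').map fun e' =>
      if e.2.1 = e'.2.1 then e.2.2 * e'.2.2 * φ (y + e.1 - e'.1) else 0).sum).sum =
    (S.map fun q => (S'.map fun q' => pe φ y q q').sum).sum := by
  obtain ⟨A, hA⟩ : ∃ A : Fin d → (Fin d → ℤ) → ℝ, A = fun m z =>
    ((edges 0 p').map fun e' => if m = e'.2.1 then e'.2.2 * φ (y + z - e'.1) else 0).sum :=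
    ⟨_, rfl⟩
  have h1 : ((edges 0 p).map fun e => ((edges 0 p').map fun e' =>
      if e.2.1 = e'.2.1 then e.2.2 * e'.2.2 * φ (y + e.1 - e'.1) else 0).sum).sum = li A 0 p := by
    unfold li
    congr 1
    refine List.map_congr_left fun e _ => ?_
    rw [hA]
    simp only
    rw [← List.sum_map_mul_left]
    congr 1
    refine List.map_congr_left fun e' _ => ?_
    split_ifs <;> ring
  rw [h1, hS A]
  unfold fl
  congr 1
  refine List.map_congr_left fun q _ => ?_
  have h2 : dA A q.2.1 q.2.2.1 q.1 = li (Bw φ y q) 0 p' := by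
    unfold dA li
    rw [hA]
    simp only [lsum]
    rw [← Finset.sum_sub_distrib, ← Finset.sum_sub_distrib, ← Finset.sum_sub_distrib]
    refine Finset.sum_congr rfl fun e' _ => ?_
    unfold Bw
    split_ifs <;> ring
  rw [h2, hS' (Bw φ y q)]
  unfold fl
  rw [← List.sum_map_mul_left]
  congr 1
  refine List.map_congr_left fun q' _ => ?_
  exact dA_Bw φ y q q'

lemma pn_sum (x : Fin d → ℝ) (q q' : It d) :
    pn x q q' = ∑ j, ∑ k, ∑ l, pw j k q * pw l k q' * nk j l x := by
  obtain ⟨z, a, b, w⟩ := q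
  obtain ⟨z', a', b', w'⟩ := q'
  unfold pn pw
  simp only
  have h1 : ∀ k : Fin d, ∑ j, ∑ l, w * ((if a = j then 1 else 0) * (if b = k then 1 else 0) -
      (if a = k then 1 else 0) * (if b = j then 1 else 0)) * (w' * ((if a' = l then 1 else 0) *
      (if b' = k then 1 else 0) - (if a' = k then 1 else 0) * (if b' = l then 1 else 0))) *
      nk j l x = w * w' * ((if b = k then 1 else 0) * (if b' = k then 1 else 0) * nk a a' x -
        (if b = k then 1 else 0) * (if a' = k then 1 else 0) * nk a b' x -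
        (if a = k then 1 else 0) * (if b' = k then 1 else 0) * nk b a' x +
        (if a = k then 1 else 0) * (if a' = k then 1 else 0) * nk b b' x) := by
    intro k
    have h2 : ∀ j : Fin d, ∑ l, w * ((if a = j then 1 else 0) * (if b = k then 1 else 0) -
      (if a = k then 1 else 0) * (if b = j then 1 else 0)) * (w' * ((if a' = l then 1 else 0) *
      (if b' = k then 1 else 0) - (if a' = k then 1 else 0) * (if b' = l then 1 else 0))) *
      nk j l x = w * w' * (((if a = j then 1 else 0) * (if b = k then 1 else 0) -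
      (if a = k then 1 else 0) * (if b = j then 1 else 0)) * ((if b' = k then 1 else 0) *
        nk j a' x - (if a' = k then 1 else 0) * nk j b' x)) := by
      intro j
      have h3 : ∀ l : Fin d, w * ((if a = j then 1 else 0) * (if b = k then 1 else 0) -
        (if a = k then 1 else 0) * (if b = j then 1 else 0)) * (w' * ((if a' = l then 1 else 0) *
        (if b' = k then 1 else 0) - (if a' = k then 1 else 0) * (if b' = l then 1 else 0))) *
        nk j l x = (w * w' * ((if a = j then 1 else 0) * (if b = k then 1 else 0) -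
        (if a = k then 1 else 0) * (if b = j then 1 else 0)) * (if b' = k then 1 else 0)) *
          ((if a' = l then 1 else 0) * nk j l x) -
        (w * w' * ((if a = j then 1 else 0) * (if b = k then 1 else 0) -
        (if a = k then 1 else 0) * (if b = j then 1 else 0)) * (if a' = k then 1 else 0)) *
          ((if b' = l then 1 else 0) * nk j l x) := fun l => by ring
      simp only [h3]
      rw [Finset.sum_sub_distrib, ← Finset.mul_sum, ← Finset.mul_sum]
      simp only [ite_mul, one_mul, zero_mul, Finset.sum_ite_eq, Finset.mem_univ, if_true]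
      split_ifs <;> ring
    simp only [h2]
    have h4 : ∀ j : Fin d, w * w' * (((if a = j then 1 else 0) * (if b = k then 1 else 0) -
      (if a = k then 1 else 0) * (if b = j then 1 else 0)) * ((if b' = k then 1 else 0) *
        nk j a' x - (if a' = k then 1 else 0) * nk j b' x)) =
      (w * w' * (if b = k then 1 else 0)) * ((if a = j then 1 else 0) * ((if b' = k then 1 else 0) *
        nk j a' x - (if a' = k then 1 else 0) * nk j b' x)) -
      (w * w' * (if a = k then 1 else 0)) * ((if b = j then 1 else 0) * ((if b' = k then 1 else 0) *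
        nk j a' x - (if a' = k then 1 else 0) * nk j b' x)) := fun j => by ring
    simp only [h4]
    rw [Finset.sum_sub_distrib, ← Finset.mul_sum, ← Finset.mul_sum]
    simp only [ite_mul, one_mul, zero_mul, Finset.sum_ite_eq, Finset.mem_univ, if_true]
    split_ifs <;> ring
  rw [Finset.sum_comm]
  simp only [h1]
  rw [← Finset.mul_sum, Finset.sum_add_distrib, Finset.sum_sub_distrib, Finset.sum_sub_distrib]
  simp only [ite_mul, mul_ite, one_mul, zero_mul, mul_one, mul_zero, Finset.sum_ite_eq,
    Finset.mem_univ, if_true]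
  ring

/-- the scaling limit of the covariance -/
theorem cv_lim (hd : 3 ≤ d) {p p' : List (Fin d × Bool)} (hp : (p.map sv).sum = 0)
    (hp' : (p'.map sv).sum = 0) {x : Fin d → ℝ} (hx : x ≠ 0) {y z : ℕ → Fin d → ℤ}
    (hy : ∀ i, Tendsto (fun s : ℕ => (((y s i - z s i : ℤ) : ℤ) : ℝ) / s) atTop (𝓝 (x i))) :
    Tendsto (fun s : ℕ => (s : ℝ) ^ d * cv (y s) p (z s) p') atTop
      (𝓝 (∑ j, ∑ k, ∑ l, ar j k p * ar l k p' * nk j l x)) := by
  obtain ⟨S, _, _, hS⟩ := surface p.length p 0 le_rfl hp
  obtain ⟨S', _, _, hS'⟩ := surface p'.length p' 0 le_rfl hp'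
  have h1 : ∀ s, cv (y s) p (z s) p' =
      (S.map fun q => (S'.map fun q' => pe gr (y s - z s) q q').sum).sum := by
    intro s
    rw [← two_stokes gr hS hS' (y s - z s), cv_eq]
    have e1 := edges_trans (y s) 0 p
    have e2 := edges_trans (z s) 0 p'
    rw [zero_add] at e1 e2
    rw [e1, e2, List.map_map]
    congr 1
    refine List.map_congr_left fun e _ => ?_
    simp only [Function.comp_apply, List.map_map]
    congr 1
    refine List.map_congr_left fun e' _ => ?_
    simp only [Function.comp_apply]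
    have e3 : e.1 + y s - (e'.1 + z s) = y s - z s + e.1 - e'.1 := by abel
    rw [e3]
  have h2 : ∀ (a b : Fin d) (w : Fin d → ℤ), Tendsto (fun s : ℕ =>
      (s : ℝ) ^ d * DD gr a b (y s - z s + w)) atTop (𝓝 (-nk a b x)) := by
    intro a b w
    refine DD_lim hd a b hx fun i => ?_
    have h3 : Tendsto (fun s : ℕ => (w i : ℝ) / s) atTop (𝓝 0) :=
      tendsto_const_div_atTop_nhds_zero_nat _
    have h4 := (hy i).add h3
    rw [add_zero] at h4
    refine h4.congr fun s => ?_
    rw [← add_div]
    simp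
  have h3 : ∀ q q' : It d, Tendsto (fun s : ℕ => (s : ℝ) ^ d * pe gr (y s - z s) q q') atTop
      (𝓝 (pn x q q')) := by
    intro q q'
    obtain ⟨u, a, b, w⟩ := q
    obtain ⟨u', a', b', w'⟩ := q'
    have h5 : ∀ (i j : Fin d) (a b : Fin d) (v : Fin d → ℤ), Tendsto (fun s : ℕ => (s : ℝ) ^ d *
        (if i = j then DD gr a b (y s - z s + u - u' - v) else 0)) atTop
        (𝓝 (if i = j then -nk a b x else 0)) := by
      intro i j a b v
      split_ifs
      · have e4 : ∀ s, y s - z s + u - u' - v = y s - z s + (u - u' - v) := fun s => by abel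
        simp only [e4]
        exact h2 a b _
      · simp only [mul_zero]
        exact tendsto_const_nhds
    have g1 := h5 b b' a a' (Pi.single a' 1)
    have g2 := h5 a b' b a' (Pi.single a' 1)
    have g3 := h5 b a' a b' (Pi.single b' 1)
    have g4 := h5 a a' b b' (Pi.single b' 1)
    have g5 := ((((g1.neg).add g2).add g3).sub g4).const_mul (w * w')
    have e5 : pn x (u, a, b, w) (u', a', b', w') = w * w' * (-(if b = b' then -nk a a' x else 0) +
        (if a = b' then -nk b a' x else 0) + (if b = a' then -nk a b' x else 0) -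
        if a = a' then -nk b b' x else 0) := by
      unfold pn
      simp only
      split_ifs <;> ring
    rw [e5]
    refine g5.congr fun s => ?_
    unfold pe
    simp only
    ring
  have h4 : ∑ j, ∑ k, ∑ l, ar j k p * ar l k p' * nk j l x =
      (S.map fun q => (S'.map fun q' => pn x q q').sum).sum := by
    simp only [pn_sum, ar_fl hS, ar_fl hS', lsum, Finset.sum_mul, Finset.mul_sum]
    have c1 : ∀ f : Fin d → Fin d → Fin d → Fin S'.length → Fin S.length → ℝ,
        ∑ j, ∑ k, ∑ l, ∑ i', ∑ i, f j k l i' i = ∑ i, ∑ i', ∑ j, ∑ k, ∑ l, f j k l i' i := by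
      intro f
      have c2 : ∀ j k l, ∑ i', ∑ i, f j k l i' i = ∑ i, ∑ i', f j k l i' i := fun j k l =>
        Finset.sum_comm
      simp only [c2]
      have c3 : ∀ j k, ∑ l, ∑ i, ∑ i', f j k l i' i = ∑ i, ∑ i', ∑ l, f j k l i' i := by
        intro j k
        rw [Finset.sum_comm]
        exact Finset.sum_congr rfl fun i _ => Finset.sum_comm
      simp only [c3]
      have c4 : ∀ j, ∑ k, ∑ i, ∑ i', ∑ l, f j k l i' i = ∑ i, ∑ i', ∑ k, ∑ l, f j k l i' i := by
        intro j
        rw [Finset.sum_comm]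
        exact Finset.sum_congr rfl fun i _ => Finset.sum_comm
      simp only [c4]
      rw [Finset.sum_comm]
      exact Finset.sum_congr rfl fun i _ => Finset.sum_comm
    exact c1 _
  rw [h4]
  simp only [h1, ← List.sum_map_mul_left]
  exact tendsto_list_sum _ fun q _ => tendsto_list_sum _ fun q' _ => h3 q q'

end

end Pool.Agent.W2helper67.YM
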