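import Mathlib
import Pool.Agent.W2helper67.YM.GReal
import Pool.Agent.W2helper67.YM.Shape

/-!
# Assembly of the scaling limit
-/

open MeasureTheory Filter Matrix ProbabilityTheory
open scoped Topology

namespace Pool.Agent.W2helper67.YM

set_option linter.unusedSectionVars false
set_option linter.unusedVariables false

noncomputable section

/-- expansion of a product of differences -/
lemma expand_int {Ω : Type*} [MeasurableSpace Ω] {μ : Measure Ω} {r : ℕ} (F : Fin r → Ω → ℝ)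
    (c : Fin r → ℝ) (hF : ∀ s : Finset (Fin r), Integrable (fun ω => ∏ i ∈ s, F i ω) μ) :
    ∫ ω, ∏ i, (F i ω - c i) ∂μ =
      ∑ s ∈ (Finset.univ : Finset (Fin r)).powerset,
        (∏ i ∈ Finset.univ \ s, -c i) * ∫ ω, ∏ i ∈ s, F i ω ∂μ := by
  have h1 : ∀ ω, ∏ i, (F i ω - c i) = ∑ s ∈ (Finset.univ : Finset (Fin r)).powerset,
      (∏ i ∈ Finset.univ \ s, -c i) * ∏ i ∈ s, F i ω := by
    intro ω
    have h2 := Finset.prod_add (fun i => F i ω) (fun i => -c i) Finset.univ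
    simp only [← sub_eq_add_neg] at h2
    rw [h2]
    exact Finset.sum_congr rfl fun s _ => mul_comm _ _
  simp only [h1]
  rw [integral_finsetSum _ fun s _ => (hF s).const_mul _]
  exact Finset.sum_congr rfl fun s _ => integral_const_mul _ _

/-- two bounded sequences whose difference is small relative to `φ` -/
def Nr (φ u v : ℕ → ℝ) : Prop :=
  (∃ B : ℝ, 0 ≤ B ∧ ∀ᶠ s in atTop, |u s| ≤ B ∧ |v s| ≤ B) ∧
    Tendsto (fun s => φ s * (u s - v s)) atTop (𝓝 0)

lemma Nr.mul {φ u v u' v' : ℕ → ℝ} (h : Nr φ u v) (h' : Nr φ u' v') :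
    Nr φ (fun s => u s * u' s) (fun s => v s * v' s) := by
  obtain ⟨⟨B, hB0, hB⟩, h1⟩ := h
  obtain ⟨⟨B', hB0', hB'⟩, h1'⟩ := h'
  refine ⟨⟨B * B', by positivity, ?_⟩, ?_⟩
  · filter_upwards [hB, hB'] with s hs hs'
    rw [abs_mul, abs_mul]
    exact ⟨mul_le_mul hs.1 hs'.1 (abs_nonneg _) hB0, mul_le_mul hs.2 hs'.2 (abs_nonneg _) hB0⟩
  · have h2 : Tendsto (fun s => |φ s * (u s - v s)| * B' + B * |φ s * (u' s - v' s)|) atTop
        (𝓝 (|0| * B' + B * |0|)) := (h1.abs.mul_const _).add (h1'.abs.const_mul _)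
    rw [abs_zero, zero_mul, mul_zero, add_zero] at h2
    refine squeeze_zero_norm' ?_ h2
    filter_upwards [hB, hB'] with s hs hs'
    rw [Real.norm_eq_abs]
    have e : φ s * (u s * u' s - v s * v' s) = (φ s * (u s - v s)) * u' s +
        v s * (φ s * (u' s - v' s)) := by ring
    rw [e]
    refine (abs_add_le _ _).trans ?_
    rw [abs_mul (φ s * (u s - v s)), abs_mul (v s)]
    exact add_le_add (mul_le_mul_of_nonneg_left hs'.1 (abs_nonneg _))
      (mul_le_mul_of_nonneg_right hs.2 (abs_nonneg _))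

lemma Nr.neg {φ u v : ℕ → ℝ} (h : Nr φ u v) : Nr φ (fun s => -u s) (fun s => -v s) := by
  obtain ⟨⟨B, hB0, hB⟩, h1⟩ := h
  refine ⟨⟨B, hB0, ?_⟩, ?_⟩
  · filter_upwards [hB] with s hs
    rw [abs_neg, abs_neg]; exact hs
  · have := h1.neg
    rw [neg_zero] at this
    refine this.congr fun s => ?_
    ring

lemma Nr.one (φ : ℕ → ℝ) : Nr φ (fun _ => 1) (fun _ => 1) := by
  refine ⟨⟨1, zero_le_one, Eventually.of_forall fun s => ⟨by simp, by simp⟩⟩, ?_⟩
  simp only [sub_self, mul_zero]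
  exact tendsto_const_nhds

lemma Nr.prod {φ : ℕ → ℝ} {ι : Type*} [DecidableEq ι] (t : Finset ι) {u v : ι → ℕ → ℝ}
    (h : ∀ i ∈ t, Nr φ (u i) (v i)) :
    Nr φ (fun s => ∏ i ∈ t, u i s) (fun s => ∏ i ∈ t, v i s) := by
  induction t using Finset.induction_on with
  | empty => simp only [Finset.prod_empty]; exact Nr.one φ
  | insert a t ha ih =>
    simp only [Finset.prod_insert ha]
    exact (h a (Finset.mem_insert_self _ _)).mul
      (ih fun i hi => h i (Finset.mem_insert_of_mem hi))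

/-- the difference of the expansions -/
lemma expand_lim {φ : ℕ → ℝ} {r : ℕ} {M G : Finset (Fin r) → ℕ → ℝ} {m c : Fin r → ℕ → ℝ}
    (hM : ∀ T, Nr φ (M T) (G T)) (hm : ∀ i, Nr φ (m i) (c i)) :
    Tendsto (fun s => φ s * (∑ T ∈ (Finset.univ : Finset (Fin r)).powerset,
        (∏ i ∈ Finset.univ \ T, -m i s) * M T s -
      ∑ T ∈ (Finset.univ : Finset (Fin r)).powerset,
        (∏ i ∈ Finset.univ \ T, -c i s) * G T s)) atTop (𝓝 0) := by
  have h1 : ∀ T : Finset (Fin r), Tendsto (fun s => φ s * ((∏ i ∈ Finset.univ \ T, -m i s) * M T s -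
      (∏ i ∈ Finset.univ \ T, -c i s) * G T s)) atTop (𝓝 0) := fun T =>
    ((Nr.prod (Finset.univ \ T) (u := fun i s => -m i s) (v := fun i s => -c i s)
      fun i _ => (hm i).neg).mul (hM T)).2
  have h2 := tendsto_finsetSum (Finset.univ : Finset (Fin r)).powerset fun T _ => h1 T
  rw [Finset.sum_const_zero] at h2
  refine h2.congr fun s => ?_
  rw [← Finset.mul_sum, Finset.sum_sub_distrib]

/-- a subset of the index set as the image of an initial segment -/
lemma subset_param {r : ℕ} (T : Finset (Fin r)) : ∃ f : Fin T.card → Fin r,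
    ∀ F : Fin r → ℝ, ∏ i ∈ T, F i = ∏ j, F (f j) := by
  refine ⟨fun j => (T.equivFin.symm j : Fin r), fun F => ?_⟩
  rw [← Finset.prod_coe_sort, ← T.equivFin.symm.prod_comp]

/-- bound of the alpha permanent -/
lemma aper_abs {T : Type} [Fintype T] [DecidableEq T] {α : ℝ} (hα : 0 ≤ α) (K : ℝ) (hK : 0 ≤ K)
    (M : T → T → ℝ) (hM : ∀ t t', |M t t'| ≤ K) :
    |aper α M| ≤ ∑ σ : Equiv.Perm T, α ^ ncyc σ * K ^ Fintype.card T := by
  unfold aper
  refine (Finset.abs_sum_le_sum_abs _ _).trans (Finset.sum_le_sum fun σ _ => ?_)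
  rw [abs_mul, abs_of_nonneg (by positivity : 0 ≤ α ^ ncyc σ), Finset.abs_prod]
  refine mul_le_mul_of_nonneg_left ?_ (by positivity)
  refine (Finset.prod_le_prod (fun t _ => abs_nonneg _) fun t _ => hM t (σ t)).trans ?_
  rw [Finset.prod_const, Finset.card_univ]

variable {d r n : ℕ}

lemma cvM_apply (x : Fin r → Fin d → ℤ) (p : Fin r → List (Fin d × Bool)) (i : Fin r) (a : Fin n)
    (j : Fin r) (b : Fin n) : cvM n x p (i, a) (j, b) =
      if a = b then cv (x i) (p i) (x j) (p j) else 0 := rfl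

/-- the moments of the sub-families -/
theorem sub_moment (hd : 3 ≤ d) (x : Fin r → Fin d → ℤ) (p : Fin r → List (Fin d × Bool)) {m : ℕ}
    (f : Fin m → Fin r) :
    (∫ ω, ∏ j, (1 / 2 * ∑ a, ω (j, a) ^ 2)
      ∂(multivariateGaussian 0 (cvM n (fun j => x (f j)) fun j => p (f j)))) =
    aper ((n : ℝ) / 2) fun j j' => cv (x (f j)) (p (f j)) (x (f j')) (p (f j')) := by
  have h1 := (gauss_prod (T := Fin m) (S := fun j j' => cv (x (f j)) (p (f j)) (x (f j'))
    (p (f j'))) (cvM_psd hd n (fun j => x (f j)) fun j => p (f j))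
    (fun i a j b => cvM_apply _ _ i a j b) (fun _ => 0) fun j => j).2
  simpa using h1

/-- the moments of the sub-families in the full family -/
theorem sub_moment' (hd : 3 ≤ d) (x : Fin r → Fin d → ℤ) (p : Fin r → List (Fin d × Bool)) {m : ℕ}
    (f : Fin m → Fin r) :
    Integrable (fun ω : EuclideanSpace ℝ (Fin r × Fin n) => ∏ j, (1 / 2 * ∑ a, ω (f j, a) ^ 2))
      (multivariateGaussian 0 (cvM n x p)) ∧
    (∫ ω, ∏ j, (1 / 2 * ∑ a, ω (f j, a) ^ 2) ∂(multivariateGaussian 0 (cvM n x p))) =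
    aper ((n : ℝ) / 2) fun j j' => cv (x (f j)) (p (f j)) (x (f j')) (p (f j')) := by
  have h1 := gauss_prod (T := Fin m) (S := fun j j' => cv (x j) (p j) (x j')
    (p j')) (cvM_psd hd n x p) (fun i a j b => cvM_apply _ _ i a j b) (fun _ => 0) f
  simpa using h1

/-- the centered moments -/
theorem cen_moment (hd : 3 ≤ d) (x : Fin r → Fin d → ℤ) (p : Fin r → List (Fin d × Bool)) :
    ∫ ω, ∏ i, (1 / 2 * ∑ a, ω (i, a) ^ 2 - (n : ℝ) / 2 * cv (x i) (p i) (x i) (p i))
      ∂(multivariateGaussian 0 (cvM n x p)) =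
    aper ((n : ℝ) / 2) fun i j => if i = j then 0 else cv (x i) (p i) (x j) (p j) := by
  rw [(gauss_prod (T := Fin r) (S := fun j j' => cv (x j) (p j) (x j')
    (p j')) (cvM_psd hd n x p) (fun i a j b => cvM_apply _ _ i a j b)
    (fun i => cv (x i) (p i) (x i) (p i)) fun i => i).2]
  congr 1
  funext i j
  by_cases h : i = j
  · subst h; simp
  · rw [if_neg h, if_neg h, sub_zero]

/-- the scaling limit of the alpha permanents -/
theorem aper_lim (hd : 3 ≤ d) {x : Fin r → Fin d → ℝ} (hx : Function.Injective x)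
    {p : Fin r → List (Fin d × Bool)} (hp : ∀ i, ((p i).map sv).sum = 0)
    {y : ℕ → Fin r → Fin d → ℤ}
    (hy : ∀ i k, Tendsto (fun s : ℕ => ((y s i k : ℤ) : ℝ) / s) atTop (𝓝 (x i k))) :
    Tendsto (fun s : ℕ => (s : ℝ) ^ (d * r) * aper ((n : ℝ) / 2) fun i j => if i = j then 0 else
      cv (y s i) (p i) (y s j) (p j)) atTop (𝓝 (∑ σ : Equiv.Perm (Fin r),
        if ∀ i, σ i ≠ i then ((n : ℝ) / 2) ^ ncyc σ * ∏ i, ∑ j, ∑ k, ∑ l,
          ar j k (p i) * ar l k (p (σ i)) * nk j l (x i - x (σ i)) else 0)) := by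
  have h1 : ∀ s : ℕ, (s : ℝ) ^ (d * r) * (aper ((n : ℝ) / 2) fun i j => if i = j then 0 else
      cv (y s i) (p i) (y s j) (p j)) = ∑ σ : Equiv.Perm (Fin r), ((n : ℝ) / 2) ^ ncyc σ *
        ∏ i, if i = σ i then 0 else (s : ℝ) ^ d * cv (y s i) (p i) (y s (σ i)) (p (σ i)) := by
    intro s
    unfold aper
    rw [Finset.mul_sum]
    refine Finset.sum_congr rfl fun σ _ => ?_
    have h2 : (s : ℝ) ^ (d * r) = ∏ _i : Fin r, (s : ℝ) ^ d := by
      rw [Finset.prod_const, Finset.card_univ, Fintype.card_fin, pow_mul]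
    rw [h2, mul_left_comm, ← Finset.prod_mul_distrib]
    congr 1
    refine Finset.prod_congr rfl fun i _ => ?_
    simp only [mul_ite, mul_zero]
  simp only [h1]
  refine tendsto_finsetSum _ fun σ _ => ?_
  by_cases hσ : ∀ i, σ i ≠ i
  · rw [if_pos hσ]
    refine Tendsto.const_mul _ (tendsto_finsetProd _ fun i _ => ?_)
    have hi : ¬ i = σ i := fun h => hσ i h.symm
    simp only [if_neg hi]
    refine cv_lim hd (hp i) (hp (σ i)) (fun h => hi (hx (sub_eq_zero.1 h))) fun k => ?_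
    refine ((hy i k).sub (hy (σ i) k)).congr fun s => ?_
    rw [← sub_div]
    simp
  · rw [if_neg hσ]
    push Not at hσ
    obtain ⟨i, hi⟩ := hσ
    have h3 : ∀ s : ℕ, ((n : ℝ) / 2) ^ ncyc σ * ∏ i, (if i = σ i then 0 else
        (s : ℝ) ^ d * cv (y s i) (p i) (y s (σ i)) (p (σ i))) = 0 := by
      intro s
      rw [Finset.prod_eq_zero (Finset.mem_univ i) (by rw [if_pos hi.symm]), mul_zero]
    simp only [h3]
    exact tendsto_const_nhds

end

end Pool.Agent.W2helper67.YM
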